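import Pool.Agent.Lib.MP_58cb87_lc_T.LocU

set_option autoImplicit false

/-!
# Bounds for the optimal cost of a gate

PROOF of `A_succ_le`. In `gm (k+1)` the map `lc a : Lf k → Lf (k+1)` is a block: `AffOn (nn (k+1)) k (lc a)`
(from `nn_fill_sb` with `ε = id`, `sb id a = lc a`, `blk id = id`), the weight is `1`. `loc_le` with
`c = 1`: `V τ ≤ A (sub τ a) + (1+n_a)/2 V (fill (lc a) 1 τ) + (1-n_a)/2 V (fill (lc a) (-1) τ)`. Apply it
again to the block `b` in the states `fill (lc a) z τ` (the content of block `b` is unchanged). In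
the state with both blocks filled with the same `z` the target is determined (`nn = z`), so `V = 0`. In the
state with blocks filled with `z` and `-z` apply it to the block `c`: after filling `c` all is
known and `V = 0`; so `V ≤ A (sub τ c)`. The total coefficient of `A (sub τ c)` is
`(1+n_a)(1-n_b)/4 + (1-n_a)(1+n_b)/4 = (1 - n_a n_b)/2`.

`A_le`: induction on `k`. `k = 0`: `V ≤ 1` by `V_step` (or `V = 0` if known). Step: among three reals two have
a nonnegative product, so the coefficient is `≤ 1/2`: `2 x + x / 2 = 5/2 x`.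
-/

namespace Pool.Agent.MP58T

namespace Ale

variable {k : ℕ}

theorem sub_fill_same (a : Fin 3) (z : SignType) (τ : State (Lf (k + 1))) :
    sub (fill (lc a) z τ) a = fun _ => z := by
  funext i
  exact fill_mem (lc a) z τ i

theorem sub_fill_ne {a b : Fin 3} (h : b ≠ a) (z : SignType) (τ : State (Lf (k + 1))) :
    sub (fill (lc a) z τ) b = sub τ b := by
  funext i
  have h1 : lc b i ∉ Set.range (lc (k := k) a) := by
    rintro ⟨j, hj⟩
    exact h (lc_inj hj).1.symm
  exact fill_of_notMem (lc a) z τ h1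

theorem aff_M (a : Fin 3) : AffOn (gm (k + 1)).M k (lc a) := by
  intro s
  exact nn_fill_sb (ε := (id : Lf (k + 1) → Lf (k + 1))) Function.injective_id a s

theorem aff_w (a : Fin 3) : AffOn (gm (k + 1)).w k (lc a) := by
  intro s
  change (1 : ℝ) = (1 + nn k (blk (lc a) s)) / 2 * 1 + (1 - nn k (blk (lc a) s)) / 2 * 1
  ring

theorem lc_injective (a : Fin 3) : Function.Injective (lc (k := k) a) :=
  fun _ _ h => (lc_inj h).2

theorem step (a : Fin 3) (τ : State (Lf (k + 1))) :
    (gm (k + 1)).V τ ≤ (gm k).V (sub τ a) +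
      (1 + nn k (sub τ a)) / 2 * (gm (k + 1)).V (fill (lc a) 1 τ) +
      (1 - nn k (sub τ a)) / 2 * (gm (k + 1)).V (fill (lc a) (-1) τ) := by
  have : Finite (Lf (k + 1)) := inferInstance
  have h := loc_le (gm (k + 1)) (ε := lc a) (lc_injective a) (aff_M a) (aff_w a)
    (fun _ => le_rfl) τ 1 le_rfl le_rfl
  unfold loc at h
  have e : blk (lc a) τ = sub τ a := rfl
  rw [e] at h
  linarith

theorem det2 {a b : Fin 3} (hab : a ≠ b) {σ : State (Lf (k + 1))} {z : ℝ}
    (ha : nn k (sub σ a) = z) (hb : nn k (sub σ b) = z) (hz : |z| = 1) :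
    |(gm (k + 1)).M σ| = 1 := by
  change |nn (k + 1) σ| = 1
  have hz2 : z * z = 1 := by
    rcases (abs_eq (zero_le_one' ℝ)).1 hz with h | h <;> rw [h] <;> norm_num
  have e : nn (k + 1) σ = z := by
    rw [nn_succ]
    unfold mj
    fin_cases a <;> fin_cases b <;>
      first
      | exact absurd rfl hab
      | (simp only [Fin.zero_eta, Fin.mk_one, Fin.reduceFinMk] at ha hb
         rw [ha, hb]
         linear_combination (-(1:ℝ) / 2 * nn k (sub σ 0)) * hz2)
      | (simp only [Fin.zero_eta, Fin.mk_one, Fin.reduceFinMk] at ha hb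
         rw [ha, hb]
         linear_combination (-(1:ℝ) / 2 * nn k (sub σ 1)) * hz2)
      | (simp only [Fin.zero_eta, Fin.mk_one, Fin.reduceFinMk] at ha hb
         rw [ha, hb]
         linear_combination (-(1:ℝ) / 2 * nn k (sub σ 2)) * hz2)
  rw [e, hz]

theorem det3 {σ : State (Lf (k + 1))} (h : ∀ d, |nn k (sub σ d)| = 1) :
    |(gm (k + 1)).M σ| = 1 := by
  change |nn (k + 1) σ| = 1
  rw [nn_succ]
  exact mj_full (h 0) (h 1) (h 2)

theorem abs_nn_const (z : SignType) (hz : z ≠ 0) : |nn k (fun _ => z)| = 1 :=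
  nn_full k _ fun _ => hz

theorem third {a b c : Fin 3} (hab : a ≠ b) (hac : a ≠ c) (hbc : b ≠ c) (d : Fin 3) :
    d = a ∨ d = b ∨ d = c := by
  revert a b c d
  decide

/-- two blocks are filled with different values -/
theorem two {a b c : Fin 3} (hab : a ≠ b) (hac : a ≠ c) (hbc : b ≠ c) (τ : State (Lf (k + 1)))
    {z z' : SignType} (hz : z ≠ 0) (hz' : z' ≠ 0) :
    (gm (k + 1)).V (fill (lc b) z' (fill (lc a) z τ)) ≤ (gm k).V (sub τ c) := by
  set σ := fill (lc b) z' (fill (lc a) z τ) with hσ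
  have hc : sub σ c = sub τ c := by
    rw [hσ, sub_fill_ne hbc.symm, sub_fill_ne hac.symm]
  have hb : sub σ b = fun _ => z' := by rw [hσ, sub_fill_same]
  have ha : sub σ a = fun _ => z := by rw [hσ, sub_fill_ne hab, sub_fill_same]
  have h0 : ∀ w : SignType, w ≠ 0 → (gm (k + 1)).V (fill (lc c) w σ) = 0 := by
    intro w hw
    refine (gm (k + 1)).V_det (det3 fun d => ?_)
    rcases third hab hac hbc d with rfl | rfl | rfl
    · rw [sub_fill_ne hac, ha]; exact abs_nn_const z hz
    · rw [sub_fill_ne hbc, hb]; exact abs_nn_const z' hz'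
    · rw [sub_fill_same]; exact abs_nn_const w hw
  have h := step c σ
  rw [h0 1 (by decide), h0 (-1) (by decide), hc] at h
  linarith

theorem one_side {a b c : Fin 3} (hab : a ≠ b) (hac : a ≠ c) (hbc : b ≠ c)
    (τ : State (Lf (k + 1))) :
    (gm (k + 1)).V (fill (lc a) 1 τ) ≤ (gm k).V (sub τ b) +
      (1 - nn k (sub τ b)) / 2 * (gm k).V (sub τ c) ∧
    (gm (k + 1)).V (fill (lc a) (-1) τ) ≤ (gm k).V (sub τ b) +
      (1 + nn k (sub τ b)) / 2 * (gm k).V (sub τ c) := by
  have hn := abs_le.1 (abs_nn_le k (sub τ b))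
  constructor
  · have h := step b (fill (lc a) 1 τ)
    rw [sub_fill_ne hab.symm] at h
    have h1 : (gm (k + 1)).V (fill (lc b) 1 (fill (lc a) 1 τ)) = 0 := by
      refine (gm (k + 1)).V_det (det2 hab (z := 1) ?_ ?_ (by norm_num))
      · rw [sub_fill_ne hab, sub_fill_same, nn_one]
      · rw [sub_fill_same, nn_one]
    have h2 := two hab hac hbc τ (z := 1) (z' := -1) (by decide) (by decide)
    have h3 := mul_le_mul_of_nonneg_left h2
      (by linarith : (0:ℝ) ≤ (1 - nn k (sub τ b)) / 2)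
    rw [h1] at h
    linarith
  · have h := step b (fill (lc a) (-1) τ)
    rw [sub_fill_ne hab.symm] at h
    have h1 : (gm (k + 1)).V (fill (lc b) (-1) (fill (lc a) (-1) τ)) = 0 := by
      refine (gm (k + 1)).V_det (det2 hab (z := -1) ?_ ?_ (by norm_num))
      · rw [sub_fill_ne hab, sub_fill_same, nn_neg_one]
      · rw [sub_fill_same, nn_neg_one]
    have h2 := two hab hac hbc τ (z := -1) (z' := 1) (by decide) (by decide)
    have h3 := mul_le_mul_of_nonneg_left h2
      (by linarith : (0:ℝ) ≤ (1 + nn k (sub τ b)) / 2)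
    rw [h1] at h
    linarith

end Ale

theorem A_succ_le (k : ℕ) (τ : State (Lf (k + 1))) (a b c : Fin 3) (hab : a ≠ b) (hac : a ≠ c)
    (hbc : b ≠ c) : (gm (k + 1)).V τ ≤ (gm k).V (sub τ a) + (gm k).V (sub τ b)
      + (1 - nn k (sub τ a) * nn k (sub τ b)) / 2 * (gm k).V (sub τ c) := by
  have hn := abs_le.1 (abs_nn_le k (sub τ a))
  have h := Ale.step a τ
  obtain ⟨h1, h2⟩ := Ale.one_side hab hac hbc τ
  have h3 := mul_le_mul_of_nonneg_left h1
    (by linarith : (0:ℝ) ≤ (1 + nn k (sub τ a)) / 2)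
  have h4 := mul_le_mul_of_nonneg_left h2
    (by linarith : (0:ℝ) ≤ (1 - nn k (sub τ a)) / 2)
  calc (gm (k + 1)).V τ ≤ (gm k).V (sub τ a) +
        (1 + nn k (sub τ a)) / 2 * ((gm k).V (sub τ b) +
          (1 - nn k (sub τ b)) / 2 * (gm k).V (sub τ c)) +
        (1 - nn k (sub τ a)) / 2 * ((gm k).V (sub τ b) +
          (1 + nn k (sub τ b)) / 2 * (gm k).V (sub τ c)) := by linarith
    _ = _ := by ring

namespace Ale

theorem A_zero (τ : State (Lf 0)) : (gm 0).V τ ≤ 1 := by
  by_cases h : τ l0 = 0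
  · have h1 := (gm 0).V_step τ l0 h
    have h2 : ∀ b : SignType, b ≠ 0 → (gm 0).V (upd τ l0 b) = 0 := by
      intro b hb
      refine (gm 0).V_det ((gm 0).full _ fun i => ?_)
      rw [eq_l0 i, upd_same]
      exact hb
    rw [h2 1 (by decide), h2 (-1) (by decide)] at h1
    have h3 : (gm 0).p l0 * (gm 0).w τ = 1 := by
      change (1:ℝ) * 1 = 1
      norm_num
    rw [h3] at h1
    linarith
  · have h1 : (gm 0).V τ = 0 := by
      refine (gm 0).V_det ((gm 0).full _ fun i => ?_)
      rw [eq_l0 i]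
      exact h
    rw [h1]
    norm_num

theorem pair (x y z : ℝ) : 0 ≤ x * y ∨ 0 ≤ x * z ∨ 0 ≤ y * z := by
  by_contra hcon
  push Not at hcon
  obtain ⟨h1, h2, h3⟩ := hcon
  have h4 : 0 < (x * y) * (x * z) := mul_pos_of_neg_of_neg h1 h2
  have h5 : (x * y) * (x * z) * (y * z) < 0 := mul_neg_of_pos_of_neg h4 h3
  have h6 : (x * y) * (x * z) * (y * z) = (x * y * z) ^ 2 := by ring
  rw [h6] at h5
  exact absurd (sq_nonneg (x * y * z)) (not_le.2 h5)

theorem fin {k : ℕ} {τ : State (Lf (k + 1))} {x : ℝ} (hx : ∀ d, (gm k).V (sub τ d) ≤ x)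
    {a b c : Fin 3} (hab : a ≠ b) (hac : a ≠ c) (hbc : b ≠ c)
    (h : 0 ≤ nn k (sub τ a) * nn k (sub τ b)) : (gm (k + 1)).V τ ≤ 5 / 2 * x := by
  have h1 := A_succ_le k τ a b c hab hac hbc
  have h2 := abs_le.1 (abs_nn_le k (sub τ a))
  have h3 := abs_le.1 (abs_nn_le k (sub τ b))
  have h4 : nn k (sub τ a) * nn k (sub τ b) ≤ 1 := by
    have h5 := mul_nonneg (by linarith [h2.2] : (0:ℝ) ≤ 1 - nn k (sub τ a))
      (by linarith [h3.1] : (0:ℝ) ≤ 1 + nn k (sub τ b))
    have h6 := mul_nonneg (by linarith [h2.1] : (0:ℝ) ≤ 1 + nn k (sub τ a))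
      (by linarith [h3.2] : (0:ℝ) ≤ 1 - nn k (sub τ b))
    linarith
  have h0 := (gm k).V_nonneg (sub τ c)
  have h7 : (1 - nn k (sub τ a) * nn k (sub τ b)) / 2 * (gm k).V (sub τ c) ≤ 1 / 2 * x :=
    mul_le_mul (by linarith) (hx c) h0 (by norm_num)
  have h8 := hx a
  have h9 := hx b
  linarith

end Ale

theorem A_le (k : ℕ) (τ : State (Lf k)) : (gm k).V τ ≤ (5 / 2) ^ k := by
  induction k with
  | zero => simpa using Ale.A_zero τ
  | succ k ih =>
    have hx : ∀ d, (gm k).V (sub τ d) ≤ (5 / 2) ^ k := fun d => ih _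
    have e : ((5:ℝ) / 2) ^ (k + 1) = 5 / 2 * (5 / 2) ^ k := by ring
    rw [e]
    rcases Ale.pair (nn k (sub τ 0)) (nn k (sub τ 1)) (nn k (sub τ 2)) with h | h | h
    · exact Ale.fin hx (a := 0) (b := 1) (c := 2) (by decide) (by decide) (by decide) h
    · exact Ale.fin hx (a := 0) (b := 2) (c := 1) (by decide) (by decide) (by decide) h
    · exact Ale.fin hx (a := 1) (b := 2) (c := 0) (by decide) (by decide) (by decide) h

end Pool.Agent.MP58T
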