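import Mathlib

set_option autoImplicit false

/-!
# From the inequalities to the growth of the sequence

PROOF. (1) `log (C k)` is subadditive (`C k > 0`), bounded below by `0`; `L = exp (lim)` (`Subadditive.lim`):
`L^k ≤ C k` for `k ≥ 1` (`Subadditive.lim_le_div`), `(log (C k))/k → log L`, and `L ≥ 23/10` (`le_of_tendsto`). Let
`c k = C k / L^k ≥ 1` (`k ≥ 1`), `c 0 = 1`.
(2) `i` is good if `C (i+1) ≥ 9/4 * C i`. `0` is good (`C 1 ≥ 23/10`, `C 0 = 1`). If `i` is not good then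
`c (i+1) ≤ c i` because `L ≥ 23/10 > 9/4`. For `j ≥ 1` let `i` be the largest good index `< j`: `c (i+1) ≥ c j`.
(3) For good `i` and `l ≥ 1`: `C (i+1) - 11/5 C i ≥ C (i+1)/45`, so by `hpd` and `hVV`
`C (i+l) ≥ C (i+1) C l / (405 * 3^196 (2 l)^32)`; divide by `L^(i+l)`: `c (i+l) ≥ L c (i+1) c l / (405 * 3^196 (2 l)^32) ≥
c (i+1) c l / (K (2 l)^32)`, `K = 177 * 3^196`.
(4) `m k = max_{1 ≤ i ≤ k} c i` (`k ≥ 1`), attained at `j`; with the good `i < j` of (2) and `l = j`, `i + j ≤ 2 k`: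
`m (2k) ≥ m(k)² / (K (2 k)^32)`. Let `y k = m k / (K 2^64 k^32)`: `y (2k) ≥ y(k)²`. So `y (2^n k) ≥ y(k)^(2^n)`.
If `y k > 1` for some `k ≥ 1`, then `m (2^n k) ≥ y(k)^(2^n)` (as `K 2^64 (2^n k)^32 ≥ 1`), so for some `i ≤ 2^n k`:
`(log (c i)) ≥ 2^n log (y k)`, where `i → ∞` as `n → ∞` (for bounded `i` the values `c i` are bounded) and
`(log (c i))/i ≥ (log (y k))/k > 0`: a contradiction with `(log (c i))/i = (log (C i))/i - log L → 0`. So `y k ≤ 1`:
`c k ≤ m k ≤ K 2^64 k^32 ≤ (10000 k)^32`, because `177 * 3^196 * 2^64 ≤ 10^128`.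
-/

namespace Pool.Agent.MP58T

open Filter Topology

namespace Ana

/-- one doubling step -/
theorem double {c : ℕ → ℝ} {K : ℝ} (hK : 0 < K) (good : ℕ → Prop)
    (h1 : ∀ j, 1 ≤ j → ∃ i, i < j ∧ good i ∧ c j ≤ c (i + 1))
    (h2 : ∀ i l, good i → 1 ≤ l → c (i + 1) * c l ≤ K * (2 * (l : ℝ)) ^ 32 * c (i + l))
    {k : ℕ} {z : ℝ} (hz : 0 ≤ z) (h : ∃ j, 1 ≤ j ∧ j ≤ k ∧ z ≤ c j) :
    ∃ j, 1 ≤ j ∧ j ≤ 2 * k ∧ z ^ 2 / (K * (2 * (k : ℝ)) ^ 32) ≤ c j := by
  obtain ⟨j, hj1, hjk, hzj⟩ := h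
  obtain ⟨i, hij, hg, hc⟩ := h1 j hj1
  refine ⟨i + j, by omega, by omega, ?_⟩
  have h3 := h2 i j hg hj1
  have hjpos : (0 : ℝ) < j := by exact_mod_cast hj1
  have hjk' : (j : ℝ) ≤ k := by exact_mod_cast hjk
  have hkpos : (0 : ℝ) < k := lt_of_lt_of_le hjpos hjk'
  have hden : 0 < K * (2 * (k : ℝ)) ^ 32 := by positivity
  rw [div_le_iff₀ hden]
  have hpow : (2 * (j : ℝ)) ^ 32 ≤ (2 * (k : ℝ)) ^ 32 :=
    pow_le_pow_left₀ (by positivity) (by linarith) 32
  have h4 : z ^ 2 ≤ c (i + 1) * c j := by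
    rw [sq]
    exact mul_le_mul (hzj.trans hc) hzj hz (hz.trans (hzj.trans hc))
  have h5 : 0 ≤ K * (2 * (j : ℝ)) ^ 32 * c (i + j) := (sq_nonneg z).trans (h4.trans h3)
  have h6 : 0 ≤ c (i + j) := by
    by_contra hcon
    push Not at hcon
    have h7 : 0 < K * (2 * (j : ℝ)) ^ 32 := by positivity
    have h8 := mul_neg_of_pos_of_neg h7 hcon
    linarith
  calc z ^ 2 ≤ K * (2 * (j : ℝ)) ^ 32 * c (i + j) := h4.trans h3
    _ ≤ K * (2 * (k : ℝ)) ^ 32 * c (i + j) :=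
        mul_le_mul_of_nonneg_right (mul_le_mul_of_nonneg_left hpow hK.le) h6
    _ = _ := by ring

theorem iter {c : ℕ → ℝ} {K : ℝ} (hK : 0 < K) (good : ℕ → Prop)
    (h1 : ∀ j, 1 ≤ j → ∃ i, i < j ∧ good i ∧ c j ≤ c (i + 1))
    (h2 : ∀ i l, good i → 1 ≤ l → c (i + 1) * c l ≤ K * (2 * (l : ℝ)) ^ 32 * c (i + l))
    {k : ℕ} (hk : 1 ≤ k) {x : ℝ} (hx : 0 ≤ x) (h : K * 2 ^ 64 * (k : ℝ) ^ 32 * x ≤ c k) (n : ℕ) :
    ∃ j, 1 ≤ j ∧ j ≤ 2 ^ n * k ∧
      K * 2 ^ 64 * ((2 : ℝ) ^ n * k) ^ 32 * x ^ (2 ^ n) ≤ c j := by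
  induction n with
  | zero => exact ⟨k, hk, by simp, by simpa using h⟩
  | succ n ih =>
    have hkpos : (0 : ℝ) < k := by exact_mod_cast hk
    obtain ⟨j, hj1, hj2, hj3⟩ := double hK good h1 h2 (by positivity) ih
    refine ⟨j, hj1, hj2.trans (le_of_eq (by ring)), le_trans (le_of_eq ?_) hj3⟩
    push_cast
    have hp : (0 : ℝ) < 2 ^ n * k := by positivity
    rw [eq_div_iff (by positivity)]
    rw [show (2 : ℝ) ^ (n + 1) * k = 2 * (2 ^ n * k) by ring,
      show x ^ 2 ^ (n + 1) = (x ^ 2 ^ n) ^ 2 by rw [← pow_mul, pow_succ]]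
    ring

end Ana

theorem ana (C VV : ℕ → ℝ) (h0 : C 0 = 1) (hlow : ∀ k, (23 / 10) ^ k ≤ C k)
    (hsub : ∀ a b, C (a + b) ≤ C a * C b)
    (hpd : ∀ j k, 8 / 9 * (C (k + 1) - 11 / 5 * C k) * VV j ≤ C (k + j))
    (hVV : ∀ j : ℕ, 1 ≤ j → C j ≤ 8 * 3 ^ 196 * (2 * (j : ℝ)) ^ 32 * VV j) :
    ∃ L : ℝ, 0 < L ∧ ∀ k : ℕ, 1 ≤ k → L ^ k ≤ C k ∧ C k ≤ (10000 * (k : ℝ)) ^ 32 * L ^ k := by
  have hpos : ∀ k, 0 < C k := fun k => lt_of_lt_of_le (by positivity) (hlow k)
  have hS : Subadditive fun n : ℕ => Real.log (C n) := by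
    intro m n
    rw [← Real.log_mul (hpos m).ne' (hpos n).ne']
    exact Real.log_le_log (hpos _) (hsub m n)
  have hone : ∀ k, 1 ≤ C k := fun k => le_trans (one_le_pow₀ (by norm_num)) (hlow k)
  have hbdd : BddBelow (Set.range fun n : ℕ => Real.log (C n) / n) := by
    refine ⟨0, ?_⟩
    rintro _ ⟨n, rfl⟩
    exact div_nonneg (Real.log_nonneg (hone n)) (Nat.cast_nonneg n)
  have hT := hS.tendsto_lim hbdd
  set ℓ := hS.lim with hℓ
  have hlogC : ∀ k : ℕ, 1 ≤ k → (k : ℝ) * ℓ ≤ Real.log (C k) := by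
    intro k hk
    have hk' : (0 : ℝ) < k := by exact_mod_cast hk
    have h := hS.lim_le_div hbdd (n := k) (by omega)
    rw [← hℓ, le_div_iff₀ hk'] at h
    linarith
  have hℓ' : Real.log (23 / 10) ≤ ℓ := by
    refine ge_of_tendsto hT ?_
    filter_upwards [eventually_ge_atTop 1] with k hk
    have hk' : (0 : ℝ) < k := by exact_mod_cast hk
    rw [le_div_iff₀ hk', mul_comm, ← Real.log_pow]
    exact Real.log_le_log (by positivity) (hlow k)
  set L := Real.exp ℓ with hL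
  have hL0 : 0 < L := Real.exp_pos _
  have hL1 : 23 / 10 ≤ L := by
    rw [hL, ← Real.log_le_iff_le_exp (by norm_num)]
    exact hℓ'
  have hLk : ∀ k : ℕ, 1 ≤ k → L ^ k ≤ C k := by
    intro k hk
    rw [hL, ← Real.exp_nat_mul, ← Real.le_log_iff_exp_le (hpos k)]
    exact hlogC k hk
  refine ⟨L, hL0, fun k hk => ⟨hLk k hk, ?_⟩⟩
  -- the normalised sequence
  set c : ℕ → ℝ := fun k => C k / L ^ k with hc
  have hcpos : ∀ k, 0 < c k := fun k => div_pos (hpos k) (pow_pos hL0 k)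
  set good : ℕ → Prop := fun i => 9 / 4 * C i ≤ C (i + 1) with hgood
  have h1 : ∀ j, 1 ≤ j → ∃ i, i < j ∧ good i ∧ c j ≤ c (i + 1) := by
    intro j hj
    induction j, hj using Nat.le_induction with
    | base =>
      refine ⟨0, by norm_num, ?_, le_rfl⟩
      have := hlow 1
      simp only [hgood, h0, zero_add]
      linarith
    | succ j hj ih =>
      by_cases hg : good j
      · exact ⟨j, by omega, hg, le_rfl⟩
      · obtain ⟨i, hij, hgi, hci⟩ := ih
        refine ⟨i, by omega, hgi, le_trans ?_ hci⟩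
        simp only [hgood, not_le] at hg
        simp only [hc]
        rw [div_le_div_iff₀ (pow_pos hL0 _) (pow_pos hL0 _), pow_succ]
        have hLj : 0 < L ^ j := pow_pos hL0 j
        have h3 : C (j + 1) ≤ C j * L := by nlinarith [hpos j]
        calc C (j + 1) * L ^ j ≤ C j * L * L ^ j := mul_le_mul_of_nonneg_right h3 hLj.le
          _ = _ := by ring
  have hK : (0 : ℝ) < 177 * 3 ^ 196 := by positivity
  have h2 : ∀ i l, good i → 1 ≤ l →
      c (i + 1) * c l ≤ 177 * 3 ^ 196 * (2 * (l : ℝ)) ^ 32 * c (i + l) := by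
    intro i l hg hl
    simp only [hgood] at hg
    have hl' : (0 : ℝ) < l := by exact_mod_cast hl
    have hv := hVV l hl
    have hp := hpd l i
    have hA : (0 : ℝ) < 8 * 3 ^ 196 * (2 * (l : ℝ)) ^ 32 := by positivity
    set A : ℝ := 8 * 3 ^ 196 * (2 * (l : ℝ)) ^ 32 with hAdef
    have hV : 0 < VV l := by
      by_contra hcon
      push Not at hcon
      have h3 := mul_nonpos_of_nonneg_of_nonpos hA.le hcon
      linarith [hpos l]
    have h4 : C (i + 1) / 45 ≤ C (i + 1) - 11 / 5 * C i := by linarith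
    have h5 : 8 / 9 * (C (i + 1) / 45) * VV l ≤ C (i + l) := by
      refine le_trans ?_ hp
      have := mul_le_mul_of_nonneg_right h4 hV.le
      linarith
    have h6 : 8 / 405 * (C (i + 1) * C l) ≤ A * C (i + l) := by
      have h7 : 8 / 405 * (C (i + 1) * C l) ≤ 8 / 405 * (C (i + 1) * (A * VV l)) := by
        have := mul_le_mul_of_nonneg_left hv (hpos (i + 1)).le
        linarith
      have h8 := mul_le_mul_of_nonneg_left h5 hA.le
      calc 8 / 405 * (C (i + 1) * C l) ≤ 8 / 405 * (C (i + 1) * (A * VV l)) := h7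
        _ = A * (8 / 9 * (C (i + 1) / 45) * VV l) := by ring
        _ ≤ _ := h8
    have h9 : C (i + 1) * C l ≤ 405 * 3 ^ 196 * (2 * (l : ℝ)) ^ 32 * C (i + l) := by
      have : 405 / 8 * (A * C (i + l)) = 405 * 3 ^ 196 * (2 * (l : ℝ)) ^ 32 * C (i + l) := by
        rw [hAdef]; ring
      linarith
    simp only [hc]
    have hLi := pow_pos hL0 i
    have hLl := pow_pos hL0 l
    have e1 : C (i + 1) / L ^ (i + 1) * (C l / L ^ l) = C (i + 1) * C l / (L * (L ^ i * L ^ l)) := by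
      rw [pow_succ]; field_simp
    have e2 : 177 * 3 ^ 196 * (2 * (l : ℝ)) ^ 32 * (C (i + l) / L ^ (i + l))
        = 177 * 3 ^ 196 * (2 * (l : ℝ)) ^ 32 * C (i + l) / (L ^ i * L ^ l) := by
      rw [pow_add]; ring
    rw [e1, e2, div_le_div_iff₀ (by positivity) (by positivity)]
    have hD : (0 : ℝ) ≤ 3 ^ 196 * (2 * (l : ℝ)) ^ 32 * C (i + l) := by
      have := hpos (i + l); positivity
    have h10 : C (i + 1) * C l ≤ 177 * 3 ^ 196 * (2 * (l : ℝ)) ^ 32 * C (i + l) * L := by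
      have h11 : 405 * (3 ^ 196 * (2 * (l : ℝ)) ^ 32 * C (i + l))
          ≤ 177 * (3 ^ 196 * (2 * (l : ℝ)) ^ 32 * C (i + l)) * L := by
        have := mul_le_mul_of_nonneg_left hL1 (mul_nonneg (by norm_num : (0:ℝ) ≤ 177) hD)
        linarith
      linarith
    have h12 := mul_le_mul_of_nonneg_right h10 (mul_pos hLi hLl).le
    calc C (i + 1) * C l * (L ^ i * L ^ l)
        ≤ 177 * 3 ^ 196 * (2 * (l : ℝ)) ^ 32 * C (i + l) * L * (L ^ i * L ^ l) := h12
      _ = _ := by ring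
  have hk' : (0 : ℝ) < k := by exact_mod_cast hk
  have hk1 : (1 : ℝ) ≤ k := by exact_mod_cast hk
  -- the bound for the normalised sequence
  have hfin : c k ≤ 177 * 3 ^ 196 * 2 ^ 64 * (k : ℝ) ^ 32 := by
    by_contra hcon
    push Not at hcon
    set B : ℝ := 177 * 3 ^ 196 * 2 ^ 64 * (k : ℝ) ^ 32 with hB
    have hB0 : 0 < B := by positivity
    obtain ⟨x, hx1, hx2⟩ : ∃ x : ℝ, 1 < x ∧ B * x ≤ c k :=
      ⟨c k / B, by rwa [lt_div_iff₀ hB0, one_mul], by rw [mul_div_cancel₀ _ hB0.ne']⟩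
    have hx0 : 0 < x := by linarith
    have hlx : 0 < Real.log x := Real.log_pos hx1
    have hit := Ana.iter hK good h1 h2 hk hx0.le hx2
    -- log c j ≤ M + ε j
    set ε : ℝ := Real.log x / (2 * k) with hε
    have hε0 : 0 < ε := by positivity
    have hev : ∀ᶠ n : ℕ in atTop, Real.log (C n) / n < ℓ + ε :=
      hT.eventually_lt_const (by linarith)
    obtain ⟨J, hJ⟩ := eventually_atTop.1 hev
    obtain ⟨M, hM⟩ : ∃ M : ℝ, ∀ n < J + 1, Real.log (c n) ≤ M := by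
      have hfin : (Set.range fun n : Fin (J + 1) => Real.log (c n)).Finite := Set.finite_range _
      obtain ⟨M, hM⟩ := hfin.bddAbove
      exact ⟨M, fun n hn => hM ⟨⟨n, hn⟩, rfl⟩⟩
    have hlogc : ∀ n, Real.log (c n) = Real.log (C n) - n * ℓ := by
      intro n
      simp only [hc]
      rw [Real.log_div (hpos n).ne' (pow_pos hL0 n).ne', Real.log_pow, hL, Real.log_exp]
    have hbound : ∀ n : ℕ, Real.log (c n) ≤ max M 0 + ε * n := by
      intro n
      rcases Nat.lt_or_ge n (J + 1) with hn | hn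
      · have h3 := hM n hn
        have h4 : 0 ≤ ε * n := by positivity
        have h5 := le_max_left M 0
        linarith
      · have h3 := hJ n (by omega)
        have hn' : (0 : ℝ) < n := by exact_mod_cast (by omega : 0 < n)
        rw [div_lt_iff₀ hn'] at h3
        rw [hlogc]
        have h5 := le_max_right M 0
        nlinarith
    have hcontra : ∀ n : ℕ, (2 : ℝ) ^ n * (Real.log x / 2) ≤ max M 0 := by
      intro n
      obtain ⟨j, hj1, hj2, hj3⟩ := hit n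
      have h3 : x ^ 2 ^ n ≤ c j := by
        refine le_trans ?_ hj3
        have h4 : (1 : ℝ) ≤ 177 * 3 ^ 196 * 2 ^ 64 * ((2 : ℝ) ^ n * k) ^ 32 := by
          have h5 : (1 : ℝ) ≤ ((2 : ℝ) ^ n * k) ^ 32 := by
            apply one_le_pow₀
            have h6 : (1 : ℝ) ≤ 2 ^ n := one_le_pow₀ (by norm_num)
            nlinarith
          have h7 : (1 : ℝ) ≤ 177 * 3 ^ 196 * 2 ^ 64 := by norm_num
          nlinarith
        have h8 : 0 ≤ x ^ 2 ^ n := by positivity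
        nlinarith
      have h4 : (2 : ℝ) ^ n * Real.log x ≤ Real.log (c j) := by
        have h5 := Real.log_le_log (by positivity) h3
        rw [Real.log_pow] at h5
        push_cast at h5
        exact h5
      have h5 := hbound j
      have h6 : (j : ℝ) ≤ 2 ^ n * k := by exact_mod_cast hj2
      have h7 : ε * j ≤ 2 ^ n * (Real.log x / 2) := by
        calc ε * j ≤ ε * (2 ^ n * k) := mul_le_mul_of_nonneg_left h6 hε0.le
          _ = _ := by rw [hε]; field_simp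
      linarith
    have htend : Tendsto (fun n : ℕ => (2 : ℝ) ^ n * (Real.log x / 2)) atTop atTop :=
      (tendsto_pow_atTop_atTop_of_one_lt (by norm_num)).atTop_mul_const (by positivity)
    obtain ⟨n, hn⟩ := (htend.eventually_gt_atTop (max M 0)).exists
    exact absurd (hcontra n) (not_le.2 hn)
  have h3 : (177 : ℝ) * 3 ^ 196 * 2 ^ 64 * (k : ℝ) ^ 32 ≤ (10000 * (k : ℝ)) ^ 32 := by
    rw [mul_pow]
    have h4 : (0 : ℝ) ≤ (k : ℝ) ^ 32 := by positivity
    refine mul_le_mul_of_nonneg_right ?_ h4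
    norm_num
  have h4 := hfin.trans h3
  simp only [hc] at h4
  rwa [div_le_iff₀ (pow_pos hL0 k)] at h4

end Pool.Agent.MP58T
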