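import Pool.Agent.Lib.MP_58cb87_lc_T.Syst

set_option autoImplicit false

/-!
# The optimal cost: first properties

PROOFS. `Φ = 0` is a potential (prices and weights are nonnegative).

`bdd`: let `K = ∑ p i` (take `Fintype.ofFinite`). For every potential `Φ` and every state `s`:
`Φ s ≤ K * (number of i with s i = 0) * w s`, by strong induction on that number. If `|M s| = 1`
then `Φ s ≤ 0`. Otherwise there is `i` with `s i = 0` (by `S.full`), and
`Φ s ≤ p i * w s + (Φ s⁺ + Φ s⁻)/2 ≤ K * w s + K (n-1) (w s⁺ + w s⁻)/2 = K n w s` (harmonic).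

`le_V`: `le_csSup`. `V_nonneg`: from `Φ = 0`. `V_det`: every potential is `≤ 0` at `s` and `0` is
one. `V_step`: if `|M s| = 1` the left side is `0` and the right side is `≥ 0`; otherwise
`csSup_le`: for each potential `Φ`, `Φ s ≤ p i * w s + (Φ s⁺ + Φ s⁻)/2 ≤ ...` with `le_V`.

`V_super`: fix `i` and let `Φ t = (V (upd t i 1) + V (upd t i (-1)))/2` if `t i = 0` and
`Φ t = V t` otherwise. It is a potential: (1) if `|M t| = 1`, `t i = 0`, then
`M t = (M t⁺ + M t⁻)/2` with `|M t^±| ≤ 1` gives `|M t^±| = 1`, so `Φ t = 0`. (2) Let `t j = 0`.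
If `j = i`: `Φ t = (V t⁺ + V t⁻)/2 = (Φ t⁺ + Φ t⁻)/2` and `p w ≥ 0`. If `j ≠ i` and `t i = 0`:
apply `V_step` to `upd t i 1` and `upd t i (-1)` with position `j`, use `upd_comm`, and
`w (upd t i 1) + w (upd t i (-1)) = 2 w t`. If `j ≠ i`, `t i ≠ 0`: `V_step`. Then `le_V`.
-/

namespace Pool.Agent.MP58T

variable {ι : Type} [Finite ι]

theorem Sys.pot_zero (S : Sys ι) : S.Pot fun _ => 0 := by
  refine ⟨fun s _ => le_rfl, fun s _ i _ => ?_⟩
  have := mul_nonneg (S.p0 i) (S.w0 s)
  linarith

namespace Base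

open Classical in
/-- number of unknown positions -/
noncomputable def cz {ι : Type} [Fintype ι] (s : State ι) : ℕ :=
  (Finset.univ.filter fun i => s i = 0).card

theorem cz_upd {ι : Type} [Fintype ι] {s : State ι} {i : ι} (hi : s i = 0) {b : SignType}
    (hb : b ≠ 0) : cz (upd s i b) + 1 = cz s := by
  classical
  unfold cz
  have h1 : (Finset.univ.filter fun j => upd s i b j = 0) =
      (Finset.univ.filter fun j => s j = 0).erase i := by
    ext j
    rw [Finset.mem_erase, Finset.mem_filter, Finset.mem_filter]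
    by_cases h : j = i
    · subst h
      rw [upd_same]
      exact ⟨fun h => absurd h.2 hb, fun h => absurd rfl h.1⟩
    · rw [upd_ne _ _ h]
      exact ⟨fun h' => ⟨h, h'⟩, fun h' => h'.2⟩
  have h2 : i ∈ Finset.univ.filter fun j => s j = 0 := by
    rw [Finset.mem_filter]
    exact ⟨Finset.mem_univ i, hi⟩
  have h3 := Finset.card_erase_add_one h2
  convert h3 using 3

theorem pot_le [Fintype ι] (S : Sys ι) {Φ : State ι → ℝ} (h : S.Pot Φ) :
    ∀ (n : ℕ) (s : State ι), cz s = n → Φ s ≤ (∑ i, S.p i) * n * S.w s := by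
  classical
  have hK : 0 ≤ ∑ i, S.p i := Finset.sum_nonneg fun i _ => S.p0 i
  intro n
  induction n with
  | zero =>
    intro s hs
    have h1 : ∀ i, s i ≠ 0 := by
      intro i hi
      have h2 : i ∈ Finset.univ.filter fun j => s j = 0 := by
        rw [Finset.mem_filter]
        exact ⟨Finset.mem_univ i, hi⟩
      unfold cz at hs
      rw [Finset.card_eq_zero] at hs
      have h3 := Finset.eq_empty_iff_forall_notMem.1 hs i
      apply h3
      rw [Finset.mem_filter]
      exact ⟨Finset.mem_univ i, hi⟩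
    have h2 := h.1 s (S.full s h1)
    simpa using h2
  | succ n ih =>
    intro s hs
    by_cases hM : |S.M s| = 1
    · refine (h.1 s hM).trans ?_
      exact mul_nonneg (mul_nonneg hK (Nat.cast_nonneg _)) (S.w0 s)
    · have hne : ∃ i, s i = 0 := by
        by_contra hcon
        push Not at hcon
        exact hM (S.full s hcon)
      obtain ⟨i, hi⟩ := hne
      have h1 := h.2 s hM i hi
      have hp : cz (upd s i 1) = n := by
        have := cz_upd hi (b := 1) (by decide)
        omega
      have hm : cz (upd s i (-1)) = n := by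
        have := cz_upd hi (b := -1) (by decide)
        omega
      have h2 := ih _ hp
      have h3 := ih _ hm
      have h4 := S.harmw s i hi
      have h5 : S.p i ≤ ∑ i, S.p i :=
        Finset.single_le_sum (f := S.p) (fun j _ => S.p0 j) (Finset.mem_univ i)
      have h6 := mul_le_mul_of_nonneg_right h5 (S.w0 s)
      have h7 : (∑ i, S.p i) * n * S.w (upd s i 1) + (∑ i, S.p i) * n * S.w (upd s i (-1)) =
          (∑ i, S.p i) * n * (2 * S.w s) := by
        rw [h4]; ring
      push_cast
      nlinarith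

end Base

theorem Sys.bdd (S : Sys ι) (s : State ι) :
    BddAbove {r : ℝ | ∃ Φ : State ι → ℝ, S.Pot Φ ∧ r = Φ s} := by
  letI := Fintype.ofFinite ι
  refine ⟨(∑ i, S.p i) * (Base.cz s : ℕ) * S.w s, ?_⟩
  rintro r ⟨Φ, hΦ, rfl⟩
  exact Base.pot_le S hΦ _ s rfl

theorem Sys.le_V (S : Sys ι) {Φ : State ι → ℝ} (h : S.Pot Φ) (s : State ι) : Φ s ≤ S.V s :=
  le_csSup (S.bdd s) ⟨Φ, h, rfl⟩

theorem Sys.V_nonneg (S : Sys ι) (s : State ι) : 0 ≤ S.V s :=
  S.le_V S.pot_zero s

theorem Sys.V_det (S : Sys ι) {s : State ι} (h : |S.M s| = 1) : S.V s = 0 := by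
  refine le_antisymm ?_ (S.V_nonneg s)
  refine csSup_le ⟨0, fun _ => 0, S.pot_zero, rfl⟩ ?_
  rintro r ⟨Φ, hΦ, rfl⟩
  exact hΦ.1 s h

theorem Sys.V_step (S : Sys ι) (s : State ι) (i : ι) (hi : s i = 0) :
    S.V s ≤ S.p i * S.w s + (S.V (upd s i 1) + S.V (upd s i (-1))) / 2 := by
  have h0 := mul_nonneg (S.p0 i) (S.w0 s)
  have h1 := S.V_nonneg (upd s i 1)
  have h2 := S.V_nonneg (upd s i (-1))
  by_cases hM : |S.M s| = 1
  · rw [S.V_det hM]
    linarith
  · refine csSup_le ⟨0, fun _ => 0, S.pot_zero, rfl⟩ ?_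
    rintro r ⟨Φ, hΦ, rfl⟩
    have h3 := hΦ.2 s hM i hi
    have h4 := S.le_V hΦ (upd s i 1)
    have h5 := S.le_V hΦ (upd s i (-1))
    linarith

namespace Base

open Classical in
/-- the potential of the proof of `V_super` -/
noncomputable def sp (S : Sys ι) (i : ι) (t : State ι) : ℝ :=
  if t i = 0 then (S.V (upd t i 1) + S.V (upd t i (-1))) / 2 else S.V t

omit [Finite ι] in
theorem sp_zero (S : Sys ι) {i : ι} {t : State ι} (h : t i = 0) :
    sp S i t = (S.V (upd t i 1) + S.V (upd t i (-1))) / 2 := by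
  rw [sp, if_pos h]

omit [Finite ι] in
theorem sp_ne (S : Sys ι) {i : ι} {t : State ι} (h : t i ≠ 0) : sp S i t = S.V t := by
  rw [sp, if_neg h]

theorem sp_pot (S : Sys ι) (i : ι) : S.Pot (sp S i) := by
  refine ⟨fun t ht => ?_, fun t ht j hj => ?_⟩
  · by_cases h : t i = 0
    · have h1 := S.harmM t i h
      have h2 := abs_le.1 (S.absM (upd t i 1))
      have h3 := abs_le.1 (S.absM (upd t i (-1)))
      have h4 : |S.M (upd t i 1)| = 1 ∧ |S.M (upd t i (-1))| = 1 := by
        rcases (abs_eq (zero_le_one' ℝ)).1 ht with h5 | h5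
        · rw [h5] at h1
          have e1 : S.M (upd t i 1) = 1 := by linarith [h2.2, h3.2]
          have e2 : S.M (upd t i (-1)) = 1 := by linarith [h2.2, h3.2]
          rw [e1, e2]; simp
        · rw [h5] at h1
          have e1 : S.M (upd t i 1) = -1 := by linarith [h2.1, h3.1]
          have e2 : S.M (upd t i (-1)) = -1 := by linarith [h2.1, h3.1]
          rw [e1, e2]; simp
      rw [sp_zero S h, S.V_det h4.1, S.V_det h4.2]
      norm_num
    · rw [sp_ne S h, S.V_det ht]
  · by_cases hji : j = i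
    · subst hji
      have e1 : (upd t j 1) j ≠ 0 := by rw [upd_same]; decide
      have e2 : (upd t j (-1)) j ≠ 0 := by rw [upd_same]; decide
      rw [sp_zero S hj, sp_ne S e1, sp_ne S e2]
      have := mul_nonneg (S.p0 j) (S.w0 t)
      linarith
    · by_cases h : t i = 0
      · have hij : i ≠ j := fun h => hji h.symm
        have e1 : (upd t j 1) i = 0 := by rw [upd_ne _ _ hij]; exact h
        have e2 : (upd t j (-1)) i = 0 := by rw [upd_ne _ _ hij]; exact h
        have e3 : (upd t i 1) j = 0 := by rw [upd_ne _ _ hji]; exact hj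
        have e4 : (upd t i (-1)) j = 0 := by rw [upd_ne _ _ hji]; exact hj
        rw [sp_zero S h, sp_zero S e1, sp_zero S e2]
        have h1 := S.V_step (upd t i 1) j e3
        have h2 := S.V_step (upd t i (-1)) j e4
        have h3 := S.harmw t i h
        rw [upd_comm t hij, upd_comm t hij] at h1
        rw [upd_comm t hij, upd_comm t hij] at h2
        have h4 : S.p j * S.w (upd t i 1) + S.p j * S.w (upd t i (-1)) =
            2 * (S.p j * S.w t) := by
          rw [← mul_add, ← h3]; ring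
        linarith
      · have hij : i ≠ j := fun h => hji h.symm
        have e1 : (upd t j 1) i ≠ 0 := by rw [upd_ne _ _ hij]; exact h
        have e2 : (upd t j (-1)) i ≠ 0 := by rw [upd_ne _ _ hij]; exact h
        rw [sp_ne S h, sp_ne S e1, sp_ne S e2]
        exact S.V_step t j hj

end Base

theorem Sys.V_super (S : Sys ι) (s : State ι) (i : ι) (hi : s i = 0) :
    (S.V (upd s i 1) + S.V (upd s i (-1))) / 2 ≤ S.V s := by
  have h := S.le_V (Base.sp_pot S i) s
  rwa [Base.sp_zero S hi] at h

end Pool.Agent.MP58T
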