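import Pool.Agent.Lib.MP_58cb87_lc_T.Base

set_option autoImplicit false

/-!
# The optimal cost: recursion, comparison, reindexing

PROOFS.

`V_recur`: assume that no `i` works. By `V_step`, for all `i` with `s i = 0`:
`V s < p i * w s + (V s⁺ + V s⁻)/2`. There is such an `i` (`S.full`), finitely many; let `a` be the
least of these values (`Finite`), `a > V s`. Let `Φ t = V t` for `t ≠ s`, `Φ s = a` (classical
`if`). `Φ ≥ V`, and `Φ` is a potential: at `s` because `upd s i (±1) ≠ s`; at `t ≠ s` by `V_step`
and `V ≤ Φ`. So `a = Φ s ≤ V s`, a contradiction.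

`V_from`: the state space is finite, choose `K ≥ 0` with `-K ≤ Φ t` for all `t`. Let `Ψ t = Φ t` if
`Ext y t` and `Ψ t = -K` otherwise. `Ψ ≥ -K` everywhere. `Ψ` is a potential: for `Ext y t` use the
hypotheses (`Ext y t`, `t i = 0` implies `Ext y (upd t i b)`), otherwise `-K ≤` the mean of two
values `≥ -K`, plus `p w ≥ 0`. Then `le_V` at `y`.

`V_cmp`: `Φ = S.V / c` is a potential of `T` (`V_det`, `V_step`).

`V_reindex`: `T.V (s ∘ e) = S.V s`: `Φ ↦ Φ ∘ (· ∘ e)` maps potentials of `T` to potentials of `S`,
and conversely with `e.symm`; both inequalities with `le_V` (use as potential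
`Φ s = T.V (fun k => s (e k))` of `S`, and `Φ t = S.V (fun i => t (e.symm i))` of `T`).
-/

namespace Pool.Agent.MP58T

variable {ι : Type} [Finite ι]

theorem Sys.V_recur (S : Sys ι) {s : State ι} (h : |S.M s| ≠ 1) : ∃ i, s i = 0 ∧
    S.V s = S.p i * S.w s + (S.V (upd s i 1) + S.V (upd s i (-1))) / 2 := by
  classical
  by_contra hcon
  push Not at hcon
  have hlt : ∀ i, s i = 0 →
      S.V s < S.p i * S.w s + (S.V (upd s i 1) + S.V (upd s i (-1))) / 2 :=
    fun i hi => lt_of_le_of_ne (S.V_step s i hi) (hcon i hi)
  have hne : ∃ i, s i = 0 := by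
    by_contra hno
    push Not at hno
    exact h (S.full s hno)
  obtain ⟨i₀, hi₀, hmin⟩ := Set.exists_min_image {i | s i = 0}
    (fun i => S.p i * S.w s + (S.V (upd s i 1) + S.V (upd s i (-1))) / 2)
    (Set.toFinite _) hne
  set a := S.p i₀ * S.w s + (S.V (upd s i₀ 1) + S.V (upd s i₀ (-1))) / 2 with ha
  have haV : S.V s < a := hlt i₀ hi₀
  set Φ : State ι → ℝ := fun t => if t = s then a else S.V t with hΦ
  have hΦs : Φ s = a := by rw [hΦ]; simp
  have hΦn : ∀ t, t ≠ s → Φ t = S.V t := fun t ht => by rw [hΦ]; simp [ht]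
  have hVΦ : ∀ t, S.V t ≤ Φ t := by
    intro t
    by_cases ht : t = s
    · rw [ht, hΦs]
      exact haV.le
    · rw [hΦn t ht]
  have hpot : S.Pot Φ := by
    constructor
    · intro t ht
      by_cases hts : t = s
      · rw [hts] at ht
        exact absurd ht h
      · rw [hΦn t hts, S.V_det ht]
    · intro t ht i hi
      by_cases hts : t = s
      · have h1 : upd s i 1 ≠ s := by
          intro h2
          have h3 := congrFun h2 i
          rw [upd_same, ← hts, hi] at h3
          exact absurd h3 (by decide)
        have h2 : upd s i (-1) ≠ s := by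
          intro h2
          have h3 := congrFun h2 i
          rw [upd_same, ← hts, hi] at h3
          exact absurd h3 (by decide)
        rw [hts, hΦs, hΦn _ h1, hΦn _ h2]
        rw [hts] at hi
        exact hmin i hi
      · rw [hΦn t hts]
        have h1 := S.V_step t i hi
        have h2 := hVΦ (upd t i 1)
        have h3 := hVΦ (upd t i (-1))
        linarith
  have h1 := S.le_V hpot s
  rw [hΦs] at h1
  linarith

theorem Sys.V_from (S : Sys ι) (y : State ι) (Φ : State ι → ℝ)
    (hd : ∀ s, Ext y s → |S.M s| = 1 → Φ s ≤ 0)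
    (hs : ∀ s, Ext y s → |S.M s| ≠ 1 → ∀ i, s i = 0 →
      Φ s ≤ S.p i * S.w s + (Φ (upd s i 1) + Φ (upd s i (-1))) / 2) :
    Φ y ≤ S.V y := by
  classical
  obtain ⟨b, hb⟩ := (Set.finite_range Φ).bddBelow
  have hb' : ∀ t, b ≤ Φ t := fun t => hb ⟨t, rfl⟩
  set K : ℝ := max 0 (-b) with hK
  have hK0 : 0 ≤ K := le_max_left _ _
  have hKb : ∀ t, -K ≤ Φ t := fun t => by
    have h1 : -b ≤ K := le_max_right _ _
    have h2 := hb' t
    linarith
  set Ψ : State ι → ℝ := fun t => if Ext y t then Φ t else -K with hΨ
  have hΨ1 : ∀ t, Ext y t → Ψ t = Φ t := fun t ht => by rw [hΨ]; simp [ht]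
  have hΨ2 : ∀ t, ¬ Ext y t → Ψ t = -K := fun t ht => by rw [hΨ]; simp [ht]
  have hΨ0 : ∀ t, -K ≤ Ψ t := by
    intro t
    by_cases ht : Ext y t
    · rw [hΨ1 t ht]
      exact hKb t
    · rw [hΨ2 t ht]
  have hpot : S.Pot Ψ := by
    constructor
    · intro t ht
      by_cases hE : Ext y t
      · rw [hΨ1 t hE]
        exact hd t hE ht
      · rw [hΨ2 t hE]
        linarith
    · intro t ht i hi
      by_cases hE : Ext y t
      · have hE' : ∀ c, Ext y (upd t i c) := by
          intro c j hj
          have hji : j ≠ i := by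
            rintro rfl
            exact hj ((hE j hj).symm.trans hi)
          rw [upd_ne _ _ hji]
          exact hE j hj
        rw [hΨ1 t hE, hΨ1 _ (hE' 1), hΨ1 _ (hE' (-1))]
        exact hs t hE ht i hi
      · rw [hΨ2 t hE]
        have h1 := hΨ0 (upd t i 1)
        have h2 := hΨ0 (upd t i (-1))
        have h3 := mul_nonneg (S.p0 i) (S.w0 t)
        linarith
  have h1 := S.le_V hpot y
  rwa [hΨ1 y fun _ _ => rfl] at h1

theorem Sys.V_cmp (S T : Sys ι) (hM : ∀ s, S.M s = T.M s) {c : ℝ} (hc : 0 < c)
    (h : ∀ i s, S.p i * S.w s ≤ c * (T.p i * T.w s)) (s : State ι) : S.V s ≤ c * T.V s := by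
  have hpot : T.Pot fun s => S.V s / c := by
    constructor
    · intro t ht
      rw [← hM] at ht
      change S.V t / c ≤ 0
      rw [S.V_det ht, zero_div]
    · intro t _ i hi
      have h1 := S.V_step t i hi
      have h2 := h i t
      change S.V t / c ≤ T.p i * T.w t + (S.V (upd t i 1) / c + S.V (upd t i (-1)) / c) / 2
      rw [div_le_iff₀ hc]
      have h3 : (T.p i * T.w t + (S.V (upd t i 1) / c + S.V (upd t i (-1)) / c) / 2) * c =
          c * (T.p i * T.w t) + (S.V (upd t i 1) + S.V (upd t i (-1))) / 2 := by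
        field_simp
      rw [h3]
      linarith
  have h1 := T.le_V hpot s
  rw [div_le_iff₀ hc] at h1
  linarith

theorem Sys.V_reindex {κ : Type} [Finite κ] (e : κ ≃ ι) (S : Sys ι) (T : Sys κ)
    (hM : ∀ s : State ι, T.M (fun k => s (e k)) = S.M s)
    (hw : ∀ s : State ι, T.w (fun k => s (e k)) = S.w s)
    (hp : ∀ k, T.p k = S.p (e k)) (s : State ι) : T.V (fun k => s (e k)) = S.V s := by
  have hM' : ∀ t : State κ, T.M t = S.M (fun i => t (e.symm i)) := by
    intro t
    rw [← hM]
    congr 1
    funext k
    rw [Equiv.symm_apply_apply]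
  have hw' : ∀ t : State κ, T.w t = S.w (fun i => t (e.symm i)) := by
    intro t
    rw [← hw]
    congr 1
    funext k
    rw [Equiv.symm_apply_apply]
  apply le_antisymm
  · have hpot : S.Pot fun s => T.V (fun k => s (e k)) := by
      constructor
      · intro t ht
        rw [← hM] at ht
        exact (T.V_det ht).le
      · intro t _ i hi
        have h1 := T.V_step (fun k => t (e k)) (e.symm i) (by
          rw [Equiv.apply_symm_apply]
          exact hi)
        rw [hw, hp, Equiv.apply_symm_apply] at h1
        have h2 : ∀ c, upd (fun k => t (e k)) (e.symm i) c = fun k => upd t i c (e k) := by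
          intro c
          funext k
          by_cases hk : k = e.symm i
          · rw [hk, upd_same, Equiv.apply_symm_apply, upd_same]
          · rw [upd_ne _ _ hk, upd_ne]
            intro h3
            apply hk
            rw [← h3, Equiv.symm_apply_apply]
        rw [h2, h2] at h1
        exact h1
    exact S.le_V hpot s
  · have hpot : T.Pot fun t => S.V (fun i => t (e.symm i)) := by
      constructor
      · intro t ht
        rw [hM'] at ht
        exact (S.V_det ht).le
      · intro t _ k hk
        have h1 := S.V_step (fun i => t (e.symm i)) (e k) (by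
          rw [Equiv.symm_apply_apply]
          exact hk)
        rw [← hw', ← hp] at h1
        have h2 : ∀ c, upd (fun i => t (e.symm i)) (e k) c = fun i => upd t k c (e.symm i) := by
          intro c
          funext i
          by_cases hi : i = e k
          · rw [hi, upd_same, Equiv.symm_apply_apply, upd_same]
          · rw [upd_ne _ _ hi, upd_ne]
            intro h3
            apply hi
            rw [← h3, Equiv.apply_symm_apply]
        rw [h2, h2] at h1
        exact h1
    have h1 := T.le_V hpot (fun k => s (e k))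
    have h2 : (fun i => s (e (e.symm i))) = s := by
      funext i
      rw [Equiv.apply_symm_apply]
    change S.V (fun i => s (e (e.symm i))) ≤ T.V (fun k => s (e k)) at h1
    rwa [h2] at h1

end Pool.Agent.MP58T
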