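import Pool.Agent.Lib.MP_58cb87_lc_T.Syst

set_option autoImplicit false

/-!
# Determined values of a top

PROOFS. `det_step`: `|G x| = 1`, `|x u| < 1`, `|x v| ≤ 1` for all `v`: by `Top.G_upd_self`,
`G x = (1 + x u)/2 G (upd x u 1) + (1 - x u)/2 G (upd x u (-1))` with positive coefficients of sum `1` and
values in `[-1, 1]` (`bd`), so both values are equal to `G x = ±1`; by `aff`, `G (upd x u a) = G x`.
`det`: by induction on a finite set `A` of coordinates: the vector equal to `c` on `A` and to `x` outside has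
`G = G x`, as long as... order: for `u ∉ A`, if `|x u| = 1` then `c u = x u` and nothing changes (`upd_self`);
otherwise `det_step` for the current vector (whose coordinate `u` is `x u`).
-/

namespace Pool.Agent.MP58T

variable {U : Type}

theorem Tdet.aux {n a b g : ℝ} (h0 : g = (1 + n) / 2 * a + (1 - n) / 2 * b) (hn : |n| < 1)
    (ha : |a| ≤ 1) (hb : |b| ≤ 1) (hg : |g| = 1) : a = g ∧ b = g := by
  obtain ⟨n1, n2⟩ := abs_lt.1 hn
  obtain ⟨a1, a2⟩ := abs_le.1 ha
  obtain ⟨b1, b2⟩ := abs_le.1 hb
  have hn1 : 0 < (1 + n) / 2 := by linarith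
  have hn2 : 0 < (1 - n) / 2 := by linarith
  rcases (abs_eq (by norm_num : (0 : ℝ) ≤ 1)).1 hg with h4 | h4
  · rw [h4] at h0 ⊢
    have e1 : (1 + n) / 2 * (1 - a) + (1 - n) / 2 * (1 - b) = 0 := by linarith
    have f1 : 0 ≤ (1 + n) / 2 * (1 - a) := mul_nonneg hn1.le (by linarith)
    have f2 : 0 ≤ (1 - n) / 2 * (1 - b) := mul_nonneg hn2.le (by linarith)
    have g1 : (1 + n) / 2 * (1 - a) = 0 := by linarith
    have g2 : (1 - n) / 2 * (1 - b) = 0 := by linarith
    rcases mul_eq_zero.1 g1 with h5 | h5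
    · exact absurd h5 hn1.ne'
    rcases mul_eq_zero.1 g2 with h6 | h6
    · exact absurd h6 hn2.ne'
    constructor <;> linarith
  · rw [h4] at h0 ⊢
    have e1 : (1 + n) / 2 * (1 + a) + (1 - n) / 2 * (1 + b) = 0 := by linarith
    have f1 : 0 ≤ (1 + n) / 2 * (1 + a) := mul_nonneg hn1.le (by linarith)
    have f2 : 0 ≤ (1 - n) / 2 * (1 + b) := mul_nonneg hn2.le (by linarith)
    have g1 : (1 + n) / 2 * (1 + a) = 0 := by linarith
    have g2 : (1 - n) / 2 * (1 + b) = 0 := by linarith
    rcases mul_eq_zero.1 g1 with h5 | h5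
    · exact absurd h5 hn1.ne'
    rcases mul_eq_zero.1 g2 with h6 | h6
    · exact absurd h6 hn2.ne'
    constructor <;> linarith

theorem Tdet.upd_le {x : U → ℝ} (hx : ∀ v, |x v| ≤ 1) (u : U) {a : ℝ} (ha : |a| ≤ 1) (v : U) :
    |upd x u a v| ≤ 1 := by
  by_cases h : v = u
  · subst h; rwa [upd_same]
  · rw [upd_ne _ _ h]; exact hx v

theorem Top.det_step (T : Top U) (x : U → ℝ) (hx : ∀ v, |x v| ≤ 1) (h : |T.G x| = 1) (u : U)
    (hu : |x u| < 1) (a : ℝ) : T.G (upd x u a) = T.G x := by
  have h1 := T.bd (upd x u 1) fun v => Tdet.upd_le hx u (by norm_num) v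
  have h2 := T.bd (upd x u (-1)) fun v => Tdet.upd_le hx u (by norm_num) v
  obtain ⟨h3, h4⟩ := Tdet.aux (T.G_upd_self x u) hu h1 h2 h
  rw [T.aff, h3, h4]
  ring

theorem Top.det [Finite U] (T : Top U) (x c : U → ℝ) (hx : ∀ u, |x u| ≤ 1)
    (hc : ∀ u, |c u| ≤ 1) (h : |T.G x| = 1) (hxc : ∀ u, |x u| = 1 → c u = x u) :
    T.G c = T.G x := by
  classical
  have := Fintype.ofFinite U
  have key : ∀ A : Finset U, T.G (fun v => if v ∈ A then c v else x v) = T.G x := by
    intro A
    induction A using Finset.induction_on with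
    | empty => simp
    | insert u A hu ih =>
      have h1 : (fun v => if v ∈ insert u A then c v else x v)
          = upd (fun v => if v ∈ A then c v else x v) u (c u) := by
        funext v
        by_cases hv : v = u
        · subst hv; simp
        · rw [upd_ne _ _ hv]
          simp [hv]
      rw [h1]
      by_cases hxu : |x u| = 1
      · rw [hxc u hxu]
        have h2 : x u = (fun v => if v ∈ A then c v else x v) u := by simp [hu]
        rw [h2, upd_self, ih]
      · have hlt : |x u| < 1 := lt_of_le_of_ne (hx u) hxu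
        rw [Top.det_step T _ _ (by rw [ih]; exact h) u (by simpa [hu] using hlt), ih]
        intro v
        by_cases hv : v ∈ A
        · simpa [hv] using hc v
        · simpa [hv] using hx v
  have h2 := key Finset.univ
  simpa using h2

end Pool.Agent.MP58T
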