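import Pool.Agent.Lib.MP_58cb87_lc_T.Mix
import Pool.Agent.Lib.MP_58cb87_lc_T.Tdet
import Pool.Agent.Lib.MP_58cb87_lc_T.Base2

set_option autoImplicit false

/-!
# Lower bound by a game on the top

PROOF. Let `L = lsys T m hm'`, `𝒱 c = L.V c / L.w c` (`L.w c = ∏ (1 + m u * c u) > 0` as `|m u| < 1`). For a state `s` with
`Ext y s` let `q s u = pr (ω u (row s u)) (m u) (nn k (row s u))`: the three numbers `q s u b` are `≥ 0` (by `h0`,
`h1`, `h2`) and their sum is `1`. `Φ s = mix (q s) 𝒱 / ϖ`. Apply `Sys.V_from` to `game T k` and `y`: it gives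
`Φ y ≤ (game T k).V y`, the claim. (`Ext y s` implies `Ext (row y u) (row s u)` for all `u`.)

Determined: `|T.M k s| = 1`, `x u = nn k (row s u)`. Let `c` with `q s u (c u) ≠ 0` for all `u`. If `|x u| = 1`, say
`x u = 1`: `h2` gives `ω (1 - m u) ≤ 0`, so `ω = 0` and `q s u 0 = 0`, `q s u (-1) = (1 - 1)/2 = 0`: hence `c u = 1`;
same for `-1`. By `Top.det` `|T.G c| = 1`, so `L.V c = 0` (`V_det`). So `mix (q s) 𝒱 ≤ mix (q s) 0 = 0`.

Query of `(u, i)`, `s (u, i) = 0`: `τ = row s u`, `ω₀ = ω u τ`, `ω₁` the mean of `ω u (upd τ i (±1))`, `d = ω₀ - ω₁ ∈ [0, ϖ]`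
(`h3`, `h4`). `q (s^±) = upd (q s) u (pr ...)` (`row_upd_same`, `row_upd_ne`) and `q s = upd (q s) u (q s u)`. `mix_upd` and
linearity, the mean of `nn` is `nn` (`harm_nn`):
`mix (q s) 𝒱 - mean = mix (upd (q s) u (dl 0)) (d * (𝒱 (upd c u 0) - (1 + m u)/2 𝒱 (upd c u 1) - (1 - m u)/2 𝒱 (upd c u (-1))))`
and the bracket is `≤ 1`: `L.V c⁰ ≤ 1 * L.w c⁰ + (L.V c¹ + L.V c⁻¹)/2` (`V_step` at `c⁰ = upd c u 0`; `upd_upd`) and
`L.w c^{±1} = (1 ± m u) L.w c⁰`. So the difference is `≤ d ≤ ϖ` (`mix_mono`, `mix_const`), divide by `ϖ`;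
price and weight of `game T k` are `1`.
-/

namespace Pool.Agent.MP58T

variable {U : Type} [Fintype U]

namespace Bl

theorem pr_zero (ω m n : ℝ) : pr ω m n 0 = ω := by simp [pr]

theorem pr_one (ω m n : ℝ) : pr ω m n 1 = ((1 + n) - ω * (1 + m)) / 2 := by
  unfold pr
  rw [if_neg (by decide)]
  simp

theorem pr_neg (ω m n : ℝ) : pr ω m n (-1) = ((1 - n) - ω * (1 - m)) / 2 := by
  unfold pr
  rw [if_neg (by decide)]
  simp
  ring

theorem pr_sum (ω m n : ℝ) : pr ω m n 0 + pr ω m n 1 + pr ω m n (-1) = 1 := by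
  rw [pr_zero, pr_one, pr_neg]; ring

theorem pr_nonneg {ω m n : ℝ} (h0 : 0 ≤ ω) (h1 : ω * (1 + m) ≤ 1 + n)
    (h2 : ω * (1 - m) ≤ 1 - n) (b : SignType) : 0 ≤ pr ω m n b := by
  cases b
  · exact (pr_zero ω m n).ge.trans' h0
  · exact (pr_neg ω m n).ge.trans' (by linarith)
  · exact (pr_one ω m n).ge.trans' (by linarith)

theorem w_upd (T : Top U) (m : U → ℝ) (hm : ∀ u, |m u| ≤ 1) (c : State U) (u : U)
    (b : SignType) : (lsys T m hm).w (upd c u b) = (1 + m u * (b : ℝ)) *
      (lsys T m hm).w (upd c u 0) := by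
  classical
  have key : ∀ b : SignType, ∏ v, (1 + m v * ((upd c u b v : SignType) : ℝ))
      = (1 + m u * (b : ℝ)) * ∏ v ∈ Finset.univ.erase u, (1 + m v * ((c v : SignType) : ℝ)) := by
    intro b
    rw [← Finset.mul_prod_erase Finset.univ _ (Finset.mem_univ u), upd_same]
    congr 1
    exact Finset.prod_congr rfl fun v hv => by rw [upd_ne _ _ (Finset.ne_of_mem_erase hv)]
  change ∏ v, (1 + m v * ((upd c u b v : SignType) : ℝ)) = (1 + m u * (b : ℝ)) *
    ∏ v, (1 + m v * ((upd c u 0 v : SignType) : ℝ))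
  rw [key, key]
  simp

theorem w_pos (T : Top U) {m : U → ℝ} (hm : ∀ u, |m u| < 1) (hm' : ∀ u, |m u| ≤ 1)
    (c : State U) : 0 < (lsys T m hm').w c := by
  change 0 < ∏ v, (1 + m v * ((c v : SignType) : ℝ))
  refine Finset.prod_pos fun v _ => ?_
  have h1 : |m v * ((c v : SignType) : ℝ)| < 1 := by
    rw [abs_mul]
    exact lt_of_le_of_lt (mul_le_of_le_one_right (abs_nonneg _) (sign_abs_le _)) (hm v)
  linarith [(abs_lt.1 h1).1]

theorem bracket (T : Top U) {m : U → ℝ} (hm : ∀ u, |m u| < 1) (hm' : ∀ u, |m u| ≤ 1)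
    (c : State U) (u : U) :
    (lsys T m hm').V (upd c u 0) / (lsys T m hm').w (upd c u 0)
      - (1 + m u) / 2 * ((lsys T m hm').V (upd c u 1) / (lsys T m hm').w (upd c u 1))
      - (1 - m u) / 2 * ((lsys T m hm').V (upd c u (-1)) / (lsys T m hm').w (upd c u (-1)))
      ≤ 1 := by
  have hP := w_pos T hm hm' (upd c u 0)
  have h1 := (lsys T m hm').V_step (upd c u 0) u (upd_same _ _ _)
  rw [upd_upd, upd_upd] at h1
  have e1 : (lsys T m hm').p u = 1 := rfl
  rw [e1, one_mul] at h1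
  rw [w_upd T m hm' c u 1, w_upd T m hm' c u (-1)]
  set P := (lsys T m hm').w (upd c u 0)
  set V0 := (lsys T m hm').V (upd c u 0)
  set V1 := (lsys T m hm').V (upd c u 1)
  set V2 := (lsys T m hm').V (upd c u (-1))
  obtain ⟨a1, a2⟩ := abs_lt.1 (hm u)
  have p1 : (1 + m u) ≠ 0 := by linarith
  have p2 : (1 - m u) ≠ 0 := by linarith
  have e2 : (1 + m u) / 2 * (V1 / ((1 + m u * ((1 : SignType) : ℝ)) * P)) = V1 / P / 2 := by
    simp only [SignType.coe_one, mul_one]
    field_simp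
  have e3 : (1 - m u) / 2 * (V2 / ((1 + m u * ((-1 : SignType) : ℝ)) * P)) = V2 / P / 2 := by
    simp only [SignType.coe_neg_one, mul_neg, mul_one]
    rw [← sub_eq_add_neg]
    field_simp
  rw [e2, e3]
  have h2 : V0 / P ≤ 1 + (V1 / P + V2 / P) / 2 := by
    rw [div_le_iff₀ hP]
    have : (1 + (V1 / P + V2 / P) / 2) * P = P + (V1 + V2) / 2 := by
      field_simp
    rw [this]
    exact h1
  linarith

omit [Fintype U] in
theorem ext_row {k : ℕ} {y s : State (U × Lf k)} (h : Ext y s) (u : U) :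
    Ext (row y u) (row s u) := fun i hi => h (u, i) hi

end Bl

open Bl in
theorem bl (T : Top U) (k : ℕ) (m : U → ℝ) (hm : ∀ u, |m u| < 1) (hm' : ∀ u, |m u| ≤ 1)
    (ω : U → State (Lf k) → ℝ) (y : State (U × Lf k)) {ϖ : ℝ} (hϖ : 0 < ϖ)
    (h0 : ∀ u τ, Ext (row y u) τ → 0 ≤ ω u τ)
    (h1 : ∀ u τ, Ext (row y u) τ → ω u τ * (1 + m u) ≤ 1 + nn k τ)
    (h2 : ∀ u τ, Ext (row y u) τ → ω u τ * (1 - m u) ≤ 1 - nn k τ)
    (h3 : ∀ u τ i, Ext (row y u) τ → τ i = 0 →
      (ω u (upd τ i 1) + ω u (upd τ i (-1))) / 2 ≤ ω u τ)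
    (h4 : ∀ u τ i, Ext (row y u) τ → τ i = 0 →
      ω u τ ≤ ϖ + (ω u (upd τ i 1) + ω u (upd τ i (-1))) / 2) :
    mix (fun u => pr (ω u (row y u)) (m u) (nn k (row y u)))
      (fun c => (lsys T m hm').V c / (lsys T m hm').w c) ≤ ϖ * (game T k).V y := by
  set Vc : State U → ℝ := fun c => (lsys T m hm').V c / (lsys T m hm').w c with hVc
  set q : State (U × Lf k) → U → SignType → ℝ := fun s u =>
    pr (ω u (row s u)) (m u) (nn k (row s u)) with hq
  have hq0 : ∀ s, Ext y s → ∀ u b, 0 ≤ q s u b := fun s hs u b =>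
    pr_nonneg (h0 u _ (ext_row hs u)) (h1 u _ (ext_row hs u)) (h2 u _ (ext_row hs u)) b
  have hq1 : ∀ s u, q s u 0 + q s u 1 + q s u (-1) = 1 := fun s u => pr_sum _ _ _
  have main := (game T k).V_from y (fun s => mix (q s) Vc / ϖ) ?_ ?_
  · have h5 := mul_le_mul_of_nonneg_left main hϖ.le
    rwa [mul_div_cancel₀ _ hϖ.ne'] at h5
  · intro s hs hM
    have hM' : |T.G fun u => nn k (row s u)| = 1 := hM
    refine div_nonpos_of_nonpos_of_nonneg ?_ hϖ.le
    have h5 : mix (q s) Vc ≤ mix (q s) fun _ => 0 := by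
      refine mix_mono (hq0 s hs) fun c hc => ?_
      have h6 : (lsys T m hm').V c = 0 := by
        refine (lsys T m hm').V_det ?_
        change |T.G fun u => ((c u : SignType) : ℝ)| = 1
        rw [T.det (fun u => nn k (row s u)) _ (fun u => abs_nn_le k _)
          (fun u => sign_abs_le _) hM' ?_]
        · exact hM'
        · intro u hu
          have hc' := hc u
          have e0 := h0 u _ (ext_row hs u)
          have e1 := h1 u _ (ext_row hs u)
          have e2 := h2 u _ (ext_row hs u)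
          obtain ⟨a1, a2⟩ := abs_lt.1 (hm u)
          rcases (abs_eq (by norm_num : (0 : ℝ) ≤ 1)).1 hu with hx | hx
          · have hω : ω u (row s u) = 0 := by nlinarith
            rw [hx]
            cases hcu : c u
            · exact absurd (by rw [hcu]; exact (pr_zero _ _ _).trans hω) hc'
            · refine absurd ?_ hc'
              rw [hcu]
              refine (pr_neg _ _ _).trans ?_
              rw [hω, hx]; norm_num
            · simp
          · have hω : ω u (row s u) = 0 := by nlinarith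
            rw [hx]
            cases hcu : c u
            · exact absurd (by rw [hcu]; exact (pr_zero _ _ _).trans hω) hc'
            · simp
            · refine absurd ?_ hc'
              rw [hcu]
              refine (pr_one _ _ _).trans ?_
              rw [hω, hx]; norm_num
      rw [hVc]
      simp only [h6, zero_div, le_refl]
    rwa [mix_const (hq1 s)] at h5
  · rintro s hs - ⟨u, i⟩ hi
    have hi' : row s u i = 0 := hi
    have e1 : (game T k).p (u, i) = 1 := rfl
    have e2 : (game T k).w s = 1 := rfl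
    rw [e1, e2, one_mul]
    have hqu : ∀ b, q (upd s (u, i) b) = upd (q s) u
        (pr (ω u (upd (row s u) i b)) (m u) (nn k (upd (row s u) i b))) := by
      intro b
      funext v
      by_cases hv : v = u
      · subst hv
        rw [upd_same]
        simp only [hq, row_upd_same]
      · rw [upd_ne _ _ hv]
        simp only [hq, row_upd_ne s hv]
    have hqs : q s = upd (q s) u (pr (ω u (row s u)) (m u) (nn k (row s u))) := by
      conv_lhs => rw [← upd_self (q s) u]
    have hP0 : ∀ v b, 0 ≤ upd (q s) u (dl 0) v b := by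
      intro v b
      by_cases hv : v = u
      · subst hv; rw [upd_same]; unfold dl; split_ifs <;> norm_num
      · rw [upd_ne _ _ hv]; exact hq0 s hs v b
    have hP1 : ∀ v, upd (q s) u (dl 0) v 0 + upd (q s) u (dl 0) v 1
        + upd (q s) u (dl 0) v (-1) = 1 := by
      intro v
      by_cases hv : v = u
      · subst hv; rw [upd_same]; unfold dl
        rw [if_pos rfl, if_neg (by decide), if_neg (by decide)]; norm_num
      · rw [upd_ne _ _ hv]; exact hq1 s v
    rw [hqu, hqu]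
    have hl : mix (q s) Vc = mix (upd (q s) u (pr (ω u (row s u)) (m u) (nn k (row s u)))) Vc := by
      rw [← hqs]
    rw [hl, mix_upd, mix_upd (q s) u (pr (ω u (upd (row s u) i 1)) _ _),
      mix_upd (q s) u (pr (ω u (upd (row s u) i (-1))) _ _)]
    set P := upd (q s) u (dl 0)
    have hn := harm_nn k (row s u) i hi'
    have hd1 := h3 u _ i (ext_row hs u) hi'
    have hd2 := h4 u _ i (ext_row hs u) hi'
    simp only [pr_zero, pr_one, pr_neg]
    set n := nn k (row s u)
    set n1 := nn k (upd (row s u) i 1)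
    set n2 := nn k (upd (row s u) i (-1))
    set w := ω u (row s u)
    set w1 := ω u (upd (row s u) i 1)
    set w2 := ω u (upd (row s u) i (-1))
    obtain ⟨X0, hX0⟩ : ∃ X : State U → ℝ, X = fun c => w * Vc (upd c u 0)
        + ((1 + n) - w * (1 + m u)) / 2 * Vc (upd c u 1)
        + ((1 - n) - w * (1 - m u)) / 2 * Vc (upd c u (-1)) := ⟨_, rfl⟩
    obtain ⟨X1, hX1⟩ : ∃ X : State U → ℝ, X = fun c => w1 * Vc (upd c u 0)
        + ((1 + n1) - w1 * (1 + m u)) / 2 * Vc (upd c u 1)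
        + ((1 - n1) - w1 * (1 - m u)) / 2 * Vc (upd c u (-1)) := ⟨_, rfl⟩
    obtain ⟨X2, hX2⟩ : ∃ X : State U → ℝ, X = fun c => w2 * Vc (upd c u 0)
        + ((1 + n2) - w2 * (1 + m u)) / 2 * Vc (upd c u 1)
        + ((1 - n2) - w2 * (1 - m u)) / 2 * Vc (upd c u (-1)) := ⟨_, rfl⟩
    rw [← hX0, ← hX1, ← hX2]
    have key : mix P X0 ≤ mix P (fun c => ϖ + (1 / 2) * (X1 c + X2 c)) := by
      refine mix_mono hP0 fun c _ => ?_
      have hb : Vc (upd c u 0) - (1 + m u) / 2 * Vc (upd c u 1)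
          - (1 - m u) / 2 * Vc (upd c u (-1)) ≤ 1 := bracket T hm hm' c u
      rw [hX0, hX1, hX2]
      beta_reduce
      set A := Vc (upd c u 0)
      set B := Vc (upd c u 1)
      set D := Vc (upd c u (-1))
      have hn' : n = (n1 + n2) / 2 := by linarith
      have hd : 0 ≤ w - (w1 + w2) / 2 := by linarith
      have h7 := mul_le_mul_of_nonneg_left hb hd
      rw [hn']
      linarith
    have hr : mix P (fun c => ϖ + (1 / 2) * (X1 c + X2 c))
        = ϖ + (1 / 2) * (mix P X1 + mix P X2) := by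
      rw [mix_add P (fun _ => ϖ), mix_const hP1, mix_smul, mix_add]
    rw [hr] at key
    rw [div_le_iff₀ hϖ]
    have h9 : (1 + (mix P X1 / ϖ + mix P X2 / ϖ) / 2) * ϖ
        = ϖ + (1 / 2) * (mix P X1 + mix P X2) := by
      field_simp
    rw [h9]
    exact key

end Pool.Agent.MP58T
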