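import Pool.Agent.Lib.MP_58cb87_lc_T.Nn

set_option autoImplicit false

/-!
# Basic facts on blocks
-/

namespace Pool.Agent.MP58T

variable {ι : Type} {k : ℕ}

theorem fill_mem (ε : Lf k → ι) (z : SignType) (s : State ι) (i : Lf k) :
    fill ε z s (ε i) = z := by
  simp [fill]

theorem fill_of_notMem (ε : Lf k → ι) (z : SignType) (s : State ι) {i : ι}
    (h : i ∉ Set.range ε) : fill ε z s i = s i := by
  simp only [fill, if_neg h]

@[simp] theorem blk_fill (ε : Lf k → ι) (z : SignType) (s : State ι) :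
    blk ε (fill ε z s) = fun _ => z := by
  funext i; exact fill_mem ε z s i

@[simp] theorem fill_fill (ε : Lf k → ι) (z z' : SignType) (s : State ι) :
    fill ε z (fill ε z' s) = fill ε z s := by
  funext i
  by_cases h : i ∈ Set.range ε
  · obtain ⟨j, rfl⟩ := h; rw [fill_mem, fill_mem]
  · rw [fill_of_notMem _ _ _ h, fill_of_notMem _ _ _ h, fill_of_notMem _ _ _ h]

@[simp] theorem fill_upd (ε : Lf k → ι) (z : SignType) (s : State ι) (i : Lf k) (b : SignType) :
    fill ε z (upd s (ε i) b) = fill ε z s := by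
  funext j
  by_cases h : j ∈ Set.range ε
  · obtain ⟨j, rfl⟩ := h; rw [fill_mem, fill_mem]
  · have hne : j ≠ ε i := by rintro rfl; exact h ⟨i, rfl⟩
    rw [fill_of_notMem _ _ _ h, fill_of_notMem _ _ _ h, upd_ne _ _ hne]

theorem fill_upd_ne (ε : Lf k → ι) (z : SignType) (s : State ι) {i : ι} (b : SignType)
    (hi : i ∉ Set.range ε) : fill ε z (upd s i b) = upd (fill ε z s) i b := by
  funext j
  by_cases h : j ∈ Set.range ε
  · have hne : j ≠ i := by rintro rfl; exact hi h
    obtain ⟨j, rfl⟩ := h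
    rw [fill_mem, upd_ne _ _ hne, fill_mem]
  · rw [fill_of_notMem _ _ _ h]
    by_cases hj : j = i
    · subst hj; rw [upd_same, upd_same]
    · rw [upd_ne _ _ hj, upd_ne _ _ hj, fill_of_notMem _ _ _ h]

theorem blk_upd {ε : Lf k → ι} (hε : Function.Injective ε) (s : State ι) (i : Lf k)
    (b : SignType) : blk ε (upd s (ε i) b) = upd (blk ε s) i b := by
  funext j
  by_cases h : j = i
  · subst h; simp [blk]
  · rw [blk, upd_ne _ _ (fun h' => h (hε h')), upd_ne _ _ h, blk]

theorem blk_upd_ne (ε : Lf k → ι) (s : State ι) {i : ι} (b : SignType)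
    (hi : i ∉ Set.range ε) : blk ε (upd s i b) = blk ε s := by
  funext j
  have : ε j ≠ i := by rintro rfl; exact hi ⟨j, rfl⟩
  rw [blk, upd_ne _ _ this, blk]

/-- sub-block -/
def sb (ε : Lf (k + 1) → ι) (d : Fin 3) : Lf k → ι := fun i => ε (lc d i)

theorem sb_inj {ε : Lf (k + 1) → ι} (hε : Function.Injective ε) (d : Fin 3) :
    Function.Injective (sb ε d) := fun _ _ h => (lc_inj (hε h)).2

theorem sub_blk (ε : Lf (k + 1) → ι) (s : State ι) (d : Fin 3) :
    sub (blk ε s) d = blk (sb ε d) s := rfl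

theorem sb_range_subset (ε : Lf (k + 1) → ι) (d : Fin 3) {i : ι} (h : i ∈ Set.range (sb ε d)) :
    i ∈ Set.range ε := by
  obtain ⟨j, rfl⟩ := h
  exact ⟨lc d j, rfl⟩

@[simp] theorem fill_sb (ε : Lf (k + 1) → ι) (d : Fin 3) (z z' : SignType) (s : State ι) :
    fill ε z (fill (sb ε d) z' s) = fill ε z s := by
  funext i
  by_cases h : i ∈ Set.range ε
  · obtain ⟨j, rfl⟩ := h; rw [fill_mem, fill_mem]
  · rw [fill_of_notMem _ _ _ h, fill_of_notMem _ _ _ h,
      fill_of_notMem _ _ _ fun h' => h (sb_range_subset ε d h')]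

/-- the mean of the block is affine in the mean of a sub-block -/
theorem nn_fill_sb {ε : Lf (k + 1) → ι} (hε : Function.Injective ε) (d : Fin 3) (s : State ι) :
    nn (k + 1) (blk ε s) = (1 + nn k (blk (sb ε d) s)) / 2 * nn (k + 1) (blk ε (fill (sb ε d) 1 s))
      + (1 - nn k (blk (sb ε d) s)) / 2 * nn (k + 1) (blk ε (fill (sb ε d) (-1) s)) := by
  have hne : ∀ d' : Fin 3, d' ≠ d → ∀ z, blk (sb ε d') (fill (sb ε d) z s) = blk (sb ε d') s := by
    intro d' hd z
    funext i
    rw [blk, fill_of_notMem]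
    · rfl
    · rintro ⟨j, hj⟩
      exact hd (lc_inj (hε hj)).1.symm
  rw [nn_succ, nn_succ, nn_succ]
  simp only [sub_blk]
  fin_cases d
  · simp only [Fin.zero_eta, Fin.isValue, blk_fill, nn_one, nn_neg_one] at hne ⊢
    rw [hne 1 (by decide), hne 1 (by decide), hne 2 (by decide), hne 2 (by decide)]
    unfold mj; ring
  · simp only [Fin.mk_one, Fin.isValue, blk_fill, nn_one, nn_neg_one] at hne ⊢
    rw [hne 0 (by decide), hne 0 (by decide), hne 2 (by decide), hne 2 (by decide)]
    unfold mj; ring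
  · simp only [Fin.reduceFinMk, Fin.isValue, blk_fill, nn_one, nn_neg_one] at hne ⊢
    rw [hne 0 (by decide), hne 0 (by decide), hne 1 (by decide), hne 1 (by decide)]
    unfold mj; ring

theorem AffOn.sb {g : State ι → ℝ} {ε : Lf (k + 1) → ι} (hε : Function.Injective ε)
    (h : AffOn g (k + 1) ε) (d : Fin 3) : AffOn g k (sb ε d) := by
  intro s
  rw [h s, h (fill (MP58T.sb ε d) 1 s), h (fill (MP58T.sb ε d) (-1) s), fill_sb, fill_sb, fill_sb,
    fill_sb, nn_fill_sb hε d s]
  ring

/-- an affine function with values in `[-1, 1]` -/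
theorem AffOn.det {g : State ι → ℝ} {ε : Lf k → ι} (h : AffOn g k ε) (hg : ∀ s, |g s| ≤ 1)
    {s : State ι} (hs : |g s| = 1) :
    (nn k (blk ε s) ≠ -1 → g (fill ε 1 s) = g s) ∧ (nn k (blk ε s) ≠ 1 →
      g (fill ε (-1) s) = g s) := by
  have h0 := h s
  have h1 := abs_le.1 (hg (fill ε 1 s))
  have h2 := abs_le.1 (hg (fill ε (-1) s))
  have h3 := abs_le.1 (abs_nn_le k (blk ε s))
  set n := nn k (blk ε s)
  set a := g (fill ε 1 s)
  set b := g (fill ε (-1) s)
  rcases (abs_eq (by norm_num : (0 : ℝ) ≤ 1)).1 hs with h4 | h4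
  · rw [h4] at h0 ⊢
    have e1 : (1 + n) / 2 * (1 - a) + (1 - n) / 2 * (1 - b) = 0 := by linarith
    have f1 : 0 ≤ (1 + n) / 2 * (1 - a) := mul_nonneg (by linarith) (by linarith)
    have f2 : 0 ≤ (1 - n) / 2 * (1 - b) := mul_nonneg (by linarith) (by linarith)
    constructor
    · intro hn
      have : (1 + n) / 2 * (1 - a) = 0 := by linarith
      rcases mul_eq_zero.1 this with h5 | h5
      · exact absurd (by linarith) hn
      · linarith
    · intro hn
      have : (1 - n) / 2 * (1 - b) = 0 := by linarith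
      rcases mul_eq_zero.1 this with h5 | h5
      · exact absurd (by linarith) hn
      · linarith
  · rw [h4] at h0 ⊢
    have e1 : (1 + n) / 2 * (1 + a) + (1 - n) / 2 * (1 + b) = 0 := by linarith
    have f1 : 0 ≤ (1 + n) / 2 * (1 + a) := mul_nonneg (by linarith) (by linarith)
    have f2 : 0 ≤ (1 - n) / 2 * (1 + b) := mul_nonneg (by linarith) (by linarith)
    constructor
    · intro hn
      have : (1 + n) / 2 * (1 + a) = 0 := by linarith
      rcases mul_eq_zero.1 this with h5 | h5
      · exact absurd (by linarith) hn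
      · linarith
    · intro hn
      have : (1 - n) / 2 * (1 + b) = 0 := by linarith
      rcases mul_eq_zero.1 this with h5 | h5
      · exact absurd (by linarith) hn
      · linarith

end Pool.Agent.MP58T
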