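import Pool.Agent.Lib.MP_58cb87_lc_T.Base2

set_option autoImplicit false

/-!
# The tree of height `k + j` as a tree of height `j` over trees of height `k`

PROOF of `lf_comp`, by induction on `j`. `j = 0`: `Lf 0 × Lf k ≃ Lf k`, `(x, i) ↦ i`. `j + 1`:
`Lf (j+1) × Lf k = (Fin 3 × Lf j) × Lf k ≃ Fin 3 × (Lf j × Lf k) ≃ Fin 3 × Lf (k + j)
 = Lf (k + (j + 1))`,
`(lc d u, i) ↦ lc d (e (u, i))`; `Mr (k+j+1) x = mj (Mr (k+j) (sub x 0)) ..` and the induction
hypothesis for `sub x d`. `dec`: `V_reindex` with this equivalence (`gm (k+j)`,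
`game (lfTop j) k`); prices and weights are `1`.
-/

namespace Pool.Agent.MP58T

theorem lf_comp (k : ℕ) : ∀ j : ℕ, ∃ e : Lf j × Lf k ≃ Lf (k + j), ∀ x : Lf (k + j) → ℝ,
    Mr (k + j) x = Mr j fun u => Mr k fun i => x (e (u, i))
  | 0 => ⟨{ toFun := fun p => p.2
            invFun := fun i => (l0, i)
            left_inv := fun _ => rfl
            right_inv := fun _ => rfl }, fun _ => rfl⟩
  | j + 1 => by
      obtain ⟨e, he⟩ := lf_comp k j
      refine ⟨{ toFun := fun p => lc p.1.1 (e (p.1.2, p.2))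
                invFun := fun l => (lc l.1 (e.symm l.2).1, (e.symm l.2).2)
                left_inv := ?_
                right_inv := ?_ }, ?_⟩
      · rintro ⟨⟨d, u⟩, i⟩
        change (lc d (e.symm (e (u, i))).1, (e.symm (e (u, i))).2) = (lc d u, i)
        rw [Equiv.symm_apply_apply]
      · rintro ⟨d, l⟩
        change lc d (e ((e.symm l).1, (e.symm l).2)) = lc d l
        rw [Prod.mk.eta, Equiv.apply_symm_apply]
      · intro x
        change mj (Mr (k + j) (sub x 0)) (Mr (k + j) (sub x 1)) (Mr (k + j) (sub x 2)) = _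
        rw [he, he, he]
        rfl

theorem dec (j k : ℕ) : (game (lfTop j) k).V (fun _ => 0) = C (k + j) := by
  obtain ⟨e, he⟩ := lf_comp k j
  refine Sys.V_reindex e (gm (k + j)) (game (lfTop j) k) (fun s => ?_) (fun _ => rfl)
    (fun _ => rfl) fun _ => 0
  exact (he fun i => ((s i : SignType) : ℝ)).symm

end Pool.Agent.MP58T
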