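import Mathlib

set_option autoImplicit false

/-!
# Definitions: states, systems, optimal values, trees

A state is a partial knowledge of the bits: `0` is unknown, `1` and `-1` are known values.
-/

namespace Pool.Agent.MP58T

/-- partial knowledge: `0` unknown, `1` and `-1` known -/
abbrev State (ι : Type) : Type := ι → SignType

/-- change the value at one position -/
noncomputable def upd {ι α : Type} (s : ι → α) (i : ι) (b : α) : ι → α :=
  fun j => open Classical in if j = i then b else s j

/-- a function of the state is harmonic: it is the mean of its values after a query -/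
def Harm {ι : Type} (g : State ι → ℝ) : Prop :=
  ∀ s i, s i = 0 → 2 * g s = g (upd s i 1) + g (upd s i (-1))

/-- A system: `M` is the mean of the target bit (for uniform bits), `w` is the weight of a state
(relative to uniform bits), `p` are the prices of the positions. -/
structure Sys (ι : Type) where
  M : State ι → ℝ
  w : State ι → ℝ
  p : ι → ℝ
  harmM : Harm M
  absM : ∀ s, |M s| ≤ 1
  full : ∀ s, (∀ i, s i ≠ 0) → |M s| = 1
  harmw : Harm w
  w0 : ∀ s, 0 ≤ w s
  p0 : ∀ i, 0 ≤ p i

/-- potentials of a system -/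
def Sys.Pot {ι : Type} (S : Sys ι) (Φ : State ι → ℝ) : Prop :=
  (∀ s, |S.M s| = 1 → Φ s ≤ 0) ∧
  ∀ s, |S.M s| ≠ 1 → ∀ i, s i = 0 →
    Φ s ≤ S.p i * S.w s + (Φ (upd s i 1) + Φ (upd s i (-1))) / 2

/-- the optimal cost (not normalised by the weight) from a state: the largest potential -/
noncomputable def Sys.V {ι : Type} (S : Sys ι) (s : State ι) : ℝ :=
  sSup {r : ℝ | ∃ Φ : State ι → ℝ, S.Pot Φ ∧ r = Φ s}

/-- `t` contains the knowledge `y` -/
def Ext {ι : Type} (y t : State ι) : Prop := ∀ i, y i ≠ 0 → t i = y i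

/-! ### the ternary tree -/

/-- leaves of the ternary tree of height `k` -/
def Lf : ℕ → Type
  | 0 => Unit
  | k + 1 => Fin 3 × Lf k

instance instFintypeLf : (k : ℕ) → Fintype (Lf k)
  | 0 => (inferInstance : Fintype Unit)
  | k + 1 => letI := instFintypeLf k; (inferInstance : Fintype (Fin 3 × Lf k))

/-- the leaf of the tree of height `0` -/
def l0 : Lf 0 := ()

/-- the leaf `i` below the child `d` -/
def lc {k : ℕ} (d : Fin 3) (i : Lf k) : Lf (k + 1) := (d, i)

/-- the part of a vector below the child `d` -/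
def sub {k : ℕ} {α : Type} (s : Lf (k + 1) → α) (d : Fin 3) : Lf k → α := fun i => s (lc d i)

/-- a vector from its three parts -/
def join {k : ℕ} {α : Type} (a : Fin 3 → Lf k → α) : Lf (k + 1) → α := fun i => a i.1 i.2

/-- multilinear majority -/
noncomputable def mj (a b c : ℝ) : ℝ := (a + b + c - a * b * c) / 2

/-- multilinear iterated majority -/
noncomputable def Mr : (k : ℕ) → (Lf k → ℝ) → ℝ
  | 0, x => x l0
  | k + 1, x => mj (Mr k (sub x 0)) (Mr k (sub x 1)) (Mr k (sub x 2))

/-- the mean of the iterated majority given a state -/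
noncomputable def nn (k : ℕ) (s : State (Lf k)) : ℝ := Mr k fun i => ((s i : SignType) : ℝ)

/-- influence of a leaf -/
noncomputable def inf (k : ℕ) (s : State (Lf k)) (l : Lf k) : ℝ :=
  (nn k (upd s l 1) - nn k (upd s l (-1))) / 2

/-- `Jp k s l = ∑_{i ≤ k} (5/2)^{i+1} I_i`, `I_i` the influence of `l` on its ancestor of
height `i` -/
noncomputable def Jp : (k : ℕ) → State (Lf k) → Lf k → ℝ
  | 0, s, l => 5 / 2 * inf 0 s l
  | k + 1, s, l => Jp k (sub s l.1) l.2 + (5 / 2) ^ (k + 2) * inf (k + 1) s l

/-- `Jm k s l = ∑_{i < k} (5/2)^{i+1} I_i` -/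
noncomputable def Jm : (k : ℕ) → State (Lf k) → Lf k → ℝ
  | 0, _, _ => 0
  | k + 1, s, l => Jp k (sub s l.1) l.2

/-! ### blocks inside a system -/

/-- fill the block `ε` with the constant `z` -/
noncomputable def fill {ι : Type} {k : ℕ} (ε : Lf k → ι) (z : SignType) (s : State ι) : State ι :=
  fun i => open Classical in if i ∈ Set.range ε then z else s i

/-- the state in the block -/
def blk {ι : Type} {k : ℕ} (ε : Lf k → ι) (s : State ι) : State (Lf k) := fun i => s (ε i)

/-- `g` depends on the block only through the mean of the block, and affinely -/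
def AffOn {ι : Type} (g : State ι → ℝ) (k : ℕ) (ε : Lf k → ι) : Prop :=
  ∀ s, g s = (1 + nn k (blk ε s)) / 2 * g (fill ε 1 s)
    + (1 - nn k (blk ε s)) / 2 * g (fill ε (-1) s)

/-- the local part of the optimal cost -/
noncomputable def loc {ι : Type} (S : Sys ι) (k : ℕ) (ε : Lf k → ι) (s : State ι) : ℝ :=
  S.V s - ((1 + nn k (blk ε s)) / 2 * S.V (fill ε 1 s)
    + (1 - nn k (blk ε s)) / 2 * S.V (fill ε (-1) s))

/-! ### tops -/

/-- a multilinear function of variables in `[-1, 1]` with values `± 1` at the corners -/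
structure Top (U : Type) where
  G : (U → ℝ) → ℝ
  aff : ∀ (x : U → ℝ) (u : U) (a : ℝ),
    G (upd x u a) = (1 + a) / 2 * G (upd x u 1) + (1 - a) / 2 * G (upd x u (-1))
  bd : ∀ x, (∀ u, |x u| ≤ 1) → |G x| ≤ 1
  full : ∀ x, (∀ u, |x u| = 1) → |G x| = 1

end Pool.Agent.MP58T
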