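import Pool.Agent.Lib.MP_58cb87_lc_T.Nn
import Pool.Agent.Lib.MP_58cb87_lc.Key

set_option autoImplicit false

/-!
# The energy inequality

PROOF. This is the theorem `energy` of `Pool/Agent/Lib/MP_58cb87_lc/Lower.lean` for the tree
type `Lf` (copy that proof; `Pool.Agent.MP_58cb87_lc.key_ineq`, `mM`, `yY`, `eE`, `F` are in the
imported file `Key.lean`; `mj = mM`). Define `Yr : (k : ℕ) → (Lf k → ℝ) → ℝ`, `Yr 0 _ = 0`,
`Yr (k+1) x = yY (Mr ..) (Mr ..) (Mr ..) (Yr ..) (Yr ..) (Yr ..)` on the three parts `sub x 0,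
sub x 1, sub x 2`, and `Er 0 _ = 0`, `Er (k+1) x = ∑ Er (parts) + (23/10)^k * eE (...)`. By
induction: `|Mr k x| ≤ 1` and `(23/10)^k * F (Mr k x) (Yr k x) ≤ ∑ i, x i ^ 2 + Er k x` for `x`
with values in `{-1, 0, 1}` (`∑` over `Lf (k+1)` is `Fintype.sum_prod_type` / sum over `Fin 3`).
`Er`, `Yr`, `Mr` are affine in each variable in the midpoint form, see `midAff_MY` there. Finally
`F M Y ≥ (43/50) M²` for `|M| ≤ 1`: with `u = 1 - M² ∈ [0,1]`,
`F M Y - (43/50) M² = Y² - (69/40) u M Y + (7/50 + (121/200) u) M²` and the discriminant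
`((69/40) u)² - 4 (7/50 + (121/200) u) ≤ 0` on `[0,1]`.
-/

namespace Pool.Agent.MP58T

namespace EnA

open Pool.Agent.MP_58cb87_lc (F yY eE mM key_ineq)

/-- second functional -/
noncomputable def Yr : (k : ℕ) → (Lf k → ℝ) → ℝ
  | 0, _ => 0
  | k + 1, x => yY (Mr k (sub x 0)) (Mr k (sub x 1)) (Mr k (sub x 2))
      (Yr k (sub x 0)) (Yr k (sub x 1)) (Yr k (sub x 2))

/-- correction -/
noncomputable def Er : (k : ℕ) → (Lf k → ℝ) → ℝ
  | 0, _ => 0
  | k + 1, x => Er k (sub x 0) + Er k (sub x 1) + Er k (sub x 2)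
      + (23 / 10) ^ k * eE (Mr k (sub x 0)) (Mr k (sub x 1)) (Mr k (sub x 2))
      (Yr k (sub x 0)) (Yr k (sub x 1)) (Yr k (sub x 2))

theorem sum_lf {k : ℕ} (f : Lf (k + 1) → ℝ) :
    ∑ i, f i = ∑ i, f (lc 0 i) + ∑ i, f (lc 1 i) + ∑ i, f (lc 2 i) := by
  have h : ∑ i, f i = ∑ d : Fin 3, ∑ i : Lf k, f (lc d i) :=
    Fintype.sum_prod_type (fun p : Fin 3 × Lf k => f p)
  rw [h, Fin.sum_univ_three]

theorem sum_l0 (f : Lf 0 → ℝ) : ∑ i, f i = f l0 :=
  Fintype.sum_unique (ι := Unit) f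

theorem energy : ∀ (k : ℕ) (x : Lf k → ℝ), (∀ i, x i = -1 ∨ x i = 0 ∨ x i = 1) →
    |Mr k x| ≤ 1 ∧ (23 / 10) ^ k * F (Mr k x) (Yr k x) ≤ (∑ i, x i ^ 2) + Er k x
  | 0, x, h => by
      rw [sum_l0]
      have h0 := h l0
      rw [Mr, Yr, Er]
      generalize x l0 = t at *
      rcases h0 with rfl | rfl | rfl <;> norm_num [F]
  | k + 1, x, h => by
      obtain ⟨m0, e0⟩ := energy k (sub x 0) fun i => h _
      obtain ⟨m1, e1⟩ := energy k (sub x 1) fun i => h _
      obtain ⟨m2, e2⟩ := energy k (sub x 2) fun i => h _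
      rw [Mr, Yr, Er, sum_lf]
      have s0 : ∑ i, x (lc 0 i) ^ 2 = ∑ i, sub x 0 i ^ 2 := rfl
      have s1 : ∑ i, x (lc 1 i) ^ 2 = ∑ i, sub x 1 i ^ 2 := rfl
      have s2 : ∑ i, x (lc 2 i) ^ 2 = ∑ i, sub x 2 i ^ 2 := rfl
      rw [s0, s1, s2]
      refine ⟨mj_abs_le_one m0 m1 m2, ?_⟩
      have key := key_ineq _ _ _ (Yr k (sub x 0)) (Yr k (sub x 1)) (Yr k (sub x 2)) m0 m1 m2
      have hp : (0 : ℝ) ≤ (23 / 10) ^ k := by positivity
      have := mul_le_mul_of_nonneg_left key hp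
      have hmj : mj (Mr k (sub x 0)) (Mr k (sub x 1)) (Mr k (sub x 2)) =
        mM (Mr k (sub x 0)) (Mr k (sub x 1)) (Mr k (sub x 2)) := rfl
      rw [pow_succ, hmj]
      linarith

/-- midpoint form of affinity in each variable -/
def MA (k : ℕ) (g : (Lf k → ℝ) → ℝ) : Prop :=
  ∀ x i, g (upd x i 1) + g (upd x i (-1)) = 2 * g (upd x i 0)

theorem ma_all : ∀ k : ℕ, MA k (Mr k) ∧ MA k (Yr k) ∧ MA k (Er k)
  | 0 => by
      refine ⟨fun s i => ?_, fun s i => ?_, fun s i => ?_⟩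
      · rw [eq_l0 i]
        simp [Mr]
      · simp [Yr]
      · simp [Er]
  | k + 1 => by
      obtain ⟨hM, hY, hE⟩ := ma_all k
      have ne01 : (0 : Fin 3) ≠ 1 := by decide
      have ne02 : (0 : Fin 3) ≠ 2 := by decide
      have ne12 : (1 : Fin 3) ≠ 2 := by decide
      refine ⟨fun s p => ?_, fun s p => ?_, fun s p => ?_⟩
      all_goals obtain ⟨j, i, rfl⟩ := exists_lc p
      all_goals fin_cases j
      all_goals simp only [Fin.zero_eta, Fin.mk_one, Fin.reduceFinMk, Mr, Yr, Er,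
        sub_upd_same, sub_upd_ne s ne01.symm, sub_upd_ne s ne02.symm,
        sub_upd_ne s ne01, sub_upd_ne s ne12.symm,
        sub_upd_ne s ne02, sub_upd_ne s ne12]
      all_goals
        have hM0 := hM (sub s 0) i
        have hM1 := hM (sub s 1) i
        have hM2 := hM (sub s 2) i
        have hY0 := hY (sub s 0) i
        have hY1 := hY (sub s 1) i
        have hY2 := hY (sub s 2) i
        have hE0 := hE (sub s 0) i
        have hE1 := hE (sub s 1) i
        have hE2 := hE (sub s 2) i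
        generalize Mr k (sub s 0) = a at *
        generalize Mr k (sub s 1) = b at *
        generalize Mr k (sub s 2) = c at *
        generalize Yr k (sub s 0) = x at *
        generalize Yr k (sub s 1) = y at *
        generalize Yr k (sub s 2) = z at *
      · unfold mj; linear_combination ((1 - b * c) / 2) * hM0
      · unfold mj; linear_combination ((1 - a * c) / 2) * hM1
      · unfold mj; linear_combination ((1 - a * b) / 2) * hM2
      · unfold yY; linear_combination (23 / 200 + 1 / 5 * (b * c)) * hM0 + 8 / 25 * hY0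
      · unfold yY; linear_combination (23 / 200 + 1 / 5 * (a * c)) * hM1 + 8 / 25 * hY1
      · unfold yY; linear_combination (23 / 200 + 1 / 5 * (a * b)) * hM2 + 8 / 25 * hY2
      · unfold eE
        linear_combination hE0 + (23 / 10) ^ k *
          ((133 / 200 * (b + c) - 13 / 100 * (y + z)) * hM0
            + (-13 / 100 * (b + c) + 5 / 8 * (y + z)) * hY0)
      · unfold eE
        linear_combination hE1 + (23 / 10) ^ k *
          ((133 / 200 * (a + c) - 13 / 100 * (x + z)) * hM1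
            + (-13 / 100 * (a + c) + 5 / 8 * (x + z)) * hY1)
      · unfold eE
        linear_combination hE2 + (23 / 10) ^ k *
          ((133 / 200 * (a + b) - 13 / 100 * (x + y)) * hM2
            + (-13 / 100 * (a + b) + 5 / 8 * (x + y)) * hY2)

theorem zeros : ∀ k : ℕ, Mr k (fun _ => 0) = 0 ∧ Yr k (fun _ => 0) = 0 ∧ Er k (fun _ => 0) = 0
  | 0 => by simp [Mr, Yr, Er]
  | k + 1 => by
      obtain ⟨h1, h2, h3⟩ := zeros k
      have h : ∀ d, sub (fun _ : Lf (k + 1) => (0 : ℝ)) d = fun _ => 0 := fun d => rfl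
      simp [Mr, Yr, Er, h, h1, h2, h3, mj, yY, eE]

theorem F_ge {M Y : ℝ} (hM : |M| ≤ 1) : 43 / 50 * M ^ 2 ≤ F M Y := by
  unfold F
  have h1 : M ^ 2 ≤ 1 := by rw [← sq_abs]; nlinarith [abs_nonneg M]
  have h2 := sq_nonneg M
  set u := 1 - M ^ 2 with hu
  have hu0 : 0 ≤ u := by rw [hu]; linarith
  have hu1 : u ≤ 1 := by rw [hu]; linarith
  have hd : 0 ≤ 4 * (7 / 50 + 121 / 200 * u) - (69 / 40 * u) ^ 2 := by
    nlinarith
  have h3 : 0 ≤ (4 * (7 / 50 + 121 / 200 * u) - (69 / 40 * u) ^ 2) * M ^ 2 := mul_nonneg hd h2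
  have h4 := sq_nonneg (Y - 69 / 80 * u * M)
  nlinarith

end EnA

theorem exists_E (k : ℕ) : ∃ E : State (Lf k) → ℝ, Harm E ∧ E (fun _ => 0) = 0 ∧
    ∀ s, 43 / 50 * (23 / 10) ^ k * nn k s ^ 2 ≤ (∑ i, ((s i : SignType) : ℝ) ^ 2) + E s := by
  refine ⟨fun s => EnA.Er k fun i => ((s i : SignType) : ℝ), ?_, ?_, ?_⟩
  · intro s i hi
    have h := (EnA.ma_all k).2.2 (fun j => ((s j : SignType) : ℝ)) i
    have h0 : upd (fun j => ((s j : SignType) : ℝ)) i 0 = fun j => ((s j : SignType) : ℝ) := by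
      have := upd_self (fun j => ((s j : SignType) : ℝ)) i
      rw [hi] at this
      simpa using this
    rw [h0] at h
    have h1 := upd_comp (fun b : SignType => (b : ℝ)) s i 1
    have h2 := upd_comp (fun b : SignType => (b : ℝ)) s i (-1)
    simp only [SignType.coe_one, SignType.coe_neg_one] at h1 h2
    simp only
    rw [h1, h2]
    linarith
  · have := (EnA.zeros k).2.2
    simpa using this
  · intro s
    have hx : ∀ i, ((s i : SignType) : ℝ) = -1 ∨ ((s i : SignType) : ℝ) = 0 ∨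
        ((s i : SignType) : ℝ) = 1 := by
      intro i
      cases s i <;> simp
    obtain ⟨h1, h2⟩ := EnA.energy k (fun i => ((s i : SignType) : ℝ)) hx
    have h3 := EnA.F_ge (Y := EnA.Yr k fun i => ((s i : SignType) : ℝ)) h1
    have hp : (0 : ℝ) ≤ (23 / 10) ^ k := by positivity
    have h4 := mul_le_mul_of_nonneg_left h3 hp
    have h5 : nn k s = Mr k fun i => ((s i : SignType) : ℝ) := rfl
    rw [h5]
    linarith

end Pool.Agent.MP58T
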