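import Pool.Agent.Lib.MP_58cb87_lc_T.EnA

set_option autoImplicit false

/-!
# The compensating functions

PROOFS. Let `T_h s = 43/50 * (23/10)^h * nn h s ^ 2 - ∑ (s i)^2 - E_h s` (`exists_E`). `T_h ≤ 0`,
`T_h 0 = 0`, and for `s l = 0` its drift `(T(s⁺) + T(s⁻))/2 - T(s)` is
`43/50 * (23/10)^h * inf h s l ^ 2 - 1` (`nn_upd_eq`; the sum of squares grows by `1`; `E`
harmonic).
Let `b_i = 125/86 * (75/46)^i`, `Q_0 = b_0 T_0`, `Q_(h+1) s = b_(h+1) T_(h+1) s + ∑_d Q_h (sub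
s d)`.
`Q_h ≤ 0`, `Q_h 0 = 0`, the drift of `Q_h` at `l` is `q_h(s,l) - ∑_{i ≤ h} b_i` with
`q_0 = 5/4 * inf 0 s l ^ 2`, `q_(h+1)(s, lc d l') = q_h (sub s d, l') + 5/4 * (15/4)^(h+1) *
inf (h+1) s l ^ 2`
(because `b_i * 43/50 * (23/10)^i = 5/4 * (15/4)^i`; `sub_upd_same`, `sub_upd_ne`).

Claim: for all real `y`: `y * Jp h s l ≤ (2/3)^h * q_h(s,l) + 25/8 * (5/2)^h * y^2`. Induction:
`h = 0`:
`inf 0 = 1` and `5/2 y ≤ 5/4 + 25/8 y²`. Step: apply the hypothesis to `3/2 * y` and multiply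
by `2/3`:
`y Jp_h ≤ (2/3)^(h+1) q_h + 25/8 * 3/2 * (5/2)^h y²`; and `(5/2)^(h+2) y I ≤ 5/4 (5/2)^(h+1) I²
+ 1/2 (5/2)^(h+2) y²`
(`I = inf (h+1)`; `(2/3)^(h+1) (15/4)^(h+1) = (5/2)^(h+1)`); `75/16 + 25/8 = 25/8 * 5/2`.

Let `R_h = (2/3)^h Q_h + 625/172 * (25/23)^h T_h`. With `y = inf h s l` its drift is at least
`inf * Jp - (2/3)^h ∑_{i≤h} b_i - 625/172 (25/23)^h`, and
`(2/3)^h ∑_{i ≤ h} b_i ≤ 125/86 * 75/29 * (25/23)^h` (geometric sum), total `≤ 8 (25/23)^h`.

`exists_R'`: `R s = 2^h |nn h s| - ∑ (s i)^2`. `R ≤ 0` by induction (`mj_abs_le`), the drift is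
`2^h * ((|n+I| + |n-I|)/2 - |n|) - 1` and `(|n+I| + |n-I|)/2 = max |n| I` for `I ≥ 0`.
-/

namespace Pool.Agent.MP58T

open Finset

namespace EnB

/-- the sum of squares -/
noncomputable def sq (h : ℕ) (s : State (Lf h)) : ℝ := ∑ i, ((s i : SignType) : ℝ) ^ 2

theorem sq_zero (h : ℕ) : sq h (fun _ => 0) = 0 := by simp [sq]

theorem sq_upd {h : ℕ} {s : State (Lf h)} {l : Lf h} (hl : s l = 0) {b : SignType}
    (hb : (b : ℝ) ^ 2 = 1) : sq h (upd s l b) = sq h s + 1 := by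
  have h1 : sq h (upd s l b) - sq h s = 1 := by
    unfold sq
    rw [← sum_sub_distrib, sum_eq_single l]
    · rw [upd_same, hl, hb]
      simp
    · intro i _ hi
      rw [upd_ne _ _ hi, sub_self]
    · intro hn
      exact absurd (mem_univ l) hn
  linarith

theorem one_sq' : ((1 : SignType) : ℝ) ^ 2 = 1 := by simp

theorem neg_one_sq' : ((-1 : SignType) : ℝ) ^ 2 = 1 := by simp

theorem sq_succ (h : ℕ) (s : State (Lf (h + 1))) :
    sq (h + 1) s = sq h (sub s 0) + sq h (sub s 1) + sq h (sub s 2) := by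
  have h1 : sq (h + 1) s = ∑ x : Fin 3 × Lf h, ((s (lc x.1 x.2) : SignType) : ℝ) ^ 2 := rfl
  rw [h1, Fintype.sum_prod_type, Fin.sum_univ_three]
  rfl

/-- the harmonic function of the energy inequality -/
noncomputable def E (h : ℕ) : State (Lf h) → ℝ := (exists_E h).choose

theorem E_harm (h : ℕ) : Harm (E h) := (exists_E h).choose_spec.1

theorem E_zero (h : ℕ) : E h (fun _ => 0) = 0 := (exists_E h).choose_spec.2.1

theorem E_le (h : ℕ) (s : State (Lf h)) :
    43 / 50 * (23 / 10) ^ h * nn h s ^ 2 ≤ sq h s + E h s := (exists_E h).choose_spec.2.2 s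

noncomputable def T (h : ℕ) (s : State (Lf h)) : ℝ :=
  43 / 50 * (23 / 10) ^ h * nn h s ^ 2 - sq h s - E h s

theorem T_nonpos (h : ℕ) (s : State (Lf h)) : T h s ≤ 0 := by
  have := E_le h s
  unfold T
  linarith

theorem T_zero (h : ℕ) : T h (fun _ => 0) = 0 := by
  unfold T
  rw [nn_zero, sq_zero, E_zero]
  ring

theorem T_drift {h : ℕ} {s : State (Lf h)} {l : Lf h} (hl : s l = 0) :
    (T h (upd s l 1) + T h (upd s l (-1))) / 2 - T h s =
      43 / 50 * (23 / 10) ^ h * inf h s l ^ 2 - 1 := by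
  obtain ⟨h1, h2⟩ := nn_upd_eq hl
  have h3 := E_harm h s l hl
  unfold T
  rw [h1, h2, sq_upd hl one_sq', sq_upd hl neg_one_sq']
  linear_combination (1 / 2) * h3

noncomputable def b (i : ℕ) : ℝ := 125 / 86 * (75 / 46) ^ i

theorem b_pos (i : ℕ) : 0 < b i := by
  unfold b
  positivity

noncomputable def Q : (h : ℕ) → State (Lf h) → ℝ
  | 0, s => b 0 * T 0 s
  | h + 1, s => b (h + 1) * T (h + 1) s + (Q h (sub s 0) + Q h (sub s 1) + Q h (sub s 2))

noncomputable def Bs : ℕ → ℝ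
  | 0 => b 0
  | h + 1 => Bs h + b (h + 1)

noncomputable def q : (h : ℕ) → State (Lf h) → Lf h → ℝ
  | 0, s, l => 5 / 4 * inf 0 s l ^ 2
  | h + 1, s, l => q h (sub s l.1) l.2 + 5 / 4 * (15 / 4) ^ (h + 1) * inf (h + 1) s l ^ 2

theorem Q_nonpos : ∀ (h : ℕ) (s : State (Lf h)), Q h s ≤ 0
  | 0, s => mul_nonpos_of_nonneg_of_nonpos (b_pos 0).le (T_nonpos 0 s)
  | h + 1, s => by
      have h0 := mul_nonpos_of_nonneg_of_nonpos (b_pos (h + 1)).le (T_nonpos (h + 1) s)
      have h1 := Q_nonpos h (sub s 0)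
      have h2 := Q_nonpos h (sub s 1)
      have h3 := Q_nonpos h (sub s 2)
      unfold Q
      linarith

theorem Q_zero : ∀ h : ℕ, Q h (fun _ => 0) = 0
  | 0 => by
      unfold Q
      rw [T_zero, mul_zero]
  | h + 1 => by
      have h1 : ∀ d, sub (fun _ : Lf (h + 1) => (0 : SignType)) d = fun _ => 0 := fun d => rfl
      unfold Q
      rw [T_zero, h1, h1, h1, Q_zero h]
      ring

theorem coef (h : ℕ) : b h * (43 / 50 * (23 / 10) ^ h) = 5 / 4 * (15 / 4) ^ h := by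
  have h1 : (75 / 46 : ℝ) ^ h * (23 / 10) ^ h = (15 / 4) ^ h := by
    rw [← mul_pow]
    norm_num
  unfold b
  linear_combination (5 / 4) * h1

theorem Q_drift : ∀ (h : ℕ) (s : State (Lf h)) (l : Lf h), s l = 0 →
    (Q h (upd s l 1) + Q h (upd s l (-1))) / 2 - Q h s = q h s l - Bs h
  | 0, s, l, hl => by
      have h1 := T_drift hl
      have h2 := coef 0
      unfold Q q Bs
      linear_combination b 0 * h1 + inf 0 s l ^ 2 * h2
  | h + 1, s, l, hl => by
      obtain ⟨d, i, rfl⟩ := exists_lc l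
      have h1 := T_drift hl
      have h2 := coef (h + 1)
      have ih := Q_drift h (sub s d) i hl
      have hq : q (h + 1) s (lc d i) = q h (sub s d) i +
          5 / 4 * (15 / 4) ^ (h + 1) * inf (h + 1) s (lc d i) ^ 2 := rfl
      rw [hq]
      unfold Q Bs
      fin_cases d
      · simp only [Fin.zero_eta] at h1 h2 ih ⊢
        simp only [sub_upd_same, sub_upd_ne s (show (1 : Fin 3) ≠ 0 by decide),
          sub_upd_ne s (show (2 : Fin 3) ≠ 0 by decide)]
        linear_combination b (h + 1) * h1 + inf (h + 1) s (lc 0 i) ^ 2 * h2 + ih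
      · simp only [Fin.mk_one] at h1 h2 ih ⊢
        simp only [sub_upd_same, sub_upd_ne s (show (0 : Fin 3) ≠ 1 by decide),
          sub_upd_ne s (show (2 : Fin 3) ≠ 1 by decide)]
        linear_combination b (h + 1) * h1 + inf (h + 1) s (lc 1 i) ^ 2 * h2 + ih
      · simp only [Fin.reduceFinMk] at h1 h2 ih ⊢
        simp only [sub_upd_same, sub_upd_ne s (show (0 : Fin 3) ≠ 2 by decide),
          sub_upd_ne s (show (1 : Fin 3) ≠ 2 by decide)]
        linear_combination b (h + 1) * h1 + inf (h + 1) s (lc 2 i) ^ 2 * h2 + ih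

theorem claim : ∀ (h : ℕ) (s : State (Lf h)) (l : Lf h) (y : ℝ),
    y * Jp h s l ≤ (2 / 3) ^ h * q h s l + 25 / 8 * (5 / 2) ^ h * y ^ 2
  | 0, s, l, y => by
      unfold Jp q
      nlinarith [sq_nonneg (inf 0 s l - y), sq_nonneg y]
  | h + 1, s, l, y => by
      have ih := claim h (sub s l.1) l.2 (3 / 2 * y)
      have hJ : Jp (h + 1) s l = Jp h (sub s l.1) l.2 + (5 / 2) ^ (h + 2) * inf (h + 1) s l := rfl
      have hq : q (h + 1) s l = q h (sub s l.1) l.2 +
          5 / 4 * (15 / 4) ^ (h + 1) * inf (h + 1) s l ^ 2 := rfl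
      have h1 : (2 / 3 : ℝ) ^ (h + 1) * (15 / 4) ^ (h + 1) = (5 / 2) ^ (h + 1) := by
        rw [← mul_pow]
        norm_num
      have h2 : 0 ≤ (5 / 2 : ℝ) ^ (h + 1) * (5 / 4 * (inf (h + 1) s l - y) ^ 2) := by positivity
      have h3 : (2 / 3 : ℝ) ^ (h + 1) * (q h (sub s l.1) l.2 +
          5 / 4 * (15 / 4) ^ (h + 1) * inf (h + 1) s l ^ 2) =
          (2 / 3) ^ (h + 1) * q h (sub s l.1) l.2 +
          5 / 4 * (5 / 2) ^ (h + 1) * inf (h + 1) s l ^ 2 := by
        linear_combination (5 / 4 * inf (h + 1) s l ^ 2) * h1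
      rw [hJ, hq, h3]
      have h4 : (2 / 3 : ℝ) ^ (h + 1) = 2 / 3 * (2 / 3) ^ h := by ring
      have h5 : (5 / 2 : ℝ) ^ (h + 1) = 5 / 2 * (5 / 2) ^ h := by ring
      have h6 : (5 / 2 : ℝ) ^ (h + 2) = 25 / 4 * (5 / 2) ^ h := by ring
      rw [h5] at h2
      rw [h4, h5, h6]
      nlinarith [ih, h2]

theorem Bs_le : ∀ h : ℕ, Bs h ≤ 125 / 86 * (75 / 29) * (75 / 46) ^ h
  | 0 => by
      unfold Bs b
      norm_num
  | h + 1 => by
      have ih := Bs_le h
      have h1 : (75 / 46 : ℝ) ^ (h + 1) = 75 / 46 * (75 / 46) ^ h := by ring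
      unfold Bs b
      rw [h1]
      have h2 : (0 : ℝ) < (75 / 46) ^ h := by positivity
      nlinarith

end EnB

theorem exists_R (h : ℕ) : ∃ R : State (Lf h) → ℝ, (∀ s, R s ≤ 0) ∧ R (fun _ => 0) = 0 ∧
    ∀ s l, s l = 0 → inf h s l * Jp h s l - 8 * (25 / 23) ^ h ≤
      (R (upd s l 1) + R (upd s l (-1))) / 2 - R s := by
  refine ⟨fun s => (2 / 3) ^ h * EnB.Q h s + 625 / 172 * (25 / 23) ^ h * EnB.T h s,
    fun s => ?_, ?_, fun s l hl => ?_⟩
  · have h1 := mul_nonpos_of_nonneg_of_nonpos (by positivity : (0 : ℝ) ≤ (2 / 3) ^ h)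
      (EnB.Q_nonpos h s)
    have h2 := mul_nonpos_of_nonneg_of_nonpos
      (by positivity : (0 : ℝ) ≤ 625 / 172 * (25 / 23) ^ h) (EnB.T_nonpos h s)
    exact add_nonpos h1 h2
  · simp only [EnB.Q_zero, EnB.T_zero, mul_zero, add_zero]
  · have h1 := EnB.T_drift hl
    have h2 := EnB.Q_drift h s l hl
    have h3 := EnB.claim h s l (inf h s l)
    have h4 := EnB.Bs_le h
    have h5 : (25 / 23 : ℝ) ^ h * (23 / 10) ^ h = (5 / 2) ^ h := by
      rw [← mul_pow]
      norm_num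
    have h6 : (2 / 3 : ℝ) ^ h * (75 / 46) ^ h = (25 / 23) ^ h := by
      rw [← mul_pow]
      norm_num
    have h7 : (2 / 3 : ℝ) ^ h * EnB.Bs h ≤ 125 / 86 * (75 / 29) * (25 / 23) ^ h := by
      have h8 := mul_le_mul_of_nonneg_left h4 (by positivity : (0 : ℝ) ≤ (2 / 3) ^ h)
      have h9 : (2 / 3 : ℝ) ^ h * (125 / 86 * (75 / 29) * (75 / 46) ^ h) =
          125 / 86 * (75 / 29) * (25 / 23) ^ h := by
        linear_combination (125 / 86 * (75 / 29)) * h6
      linarith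
    have h10 : (0 : ℝ) < (25 / 23) ^ h := by positivity
    have h11 : ((2 / 3) ^ h * EnB.Q h (upd s l 1) +
        625 / 172 * (25 / 23) ^ h * EnB.T h (upd s l 1) +
        ((2 / 3) ^ h * EnB.Q h (upd s l (-1)) +
        625 / 172 * (25 / 23) ^ h * EnB.T h (upd s l (-1)))) / 2 -
        ((2 / 3) ^ h * EnB.Q h s + 625 / 172 * (25 / 23) ^ h * EnB.T h s) =
        (2 / 3) ^ h * EnB.q h s l + 25 / 8 * (5 / 2) ^ h * inf h s l ^ 2 -
        (2 / 3) ^ h * EnB.Bs h - 625 / 172 * (25 / 23) ^ h := by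
      linear_combination (2 / 3) ^ h * h2 + (625 / 172 * (25 / 23) ^ h) * h1 +
        (25 / 8 * inf h s l ^ 2) * h5
    dsimp only
    rw [h11]
    nlinarith

theorem exists_R' (h : ℕ) : ∃ R : State (Lf h) → ℝ, (∀ s, R s ≤ 0) ∧ R (fun _ => 0) = 0 ∧
    ∀ s l, s l = 0 → 2 ^ h * (max |nn h s| (inf h s l) - |nn h s|) - 1 ≤
      (R (upd s l 1) + R (upd s l (-1))) / 2 - R s := by
  refine ⟨fun s => 2 ^ h * |nn h s| - EnB.sq h s, fun s => ?_, ?_, fun s l hl => ?_⟩
  · dsimp only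
    rw [sub_nonpos]
    induction h with
    | zero =>
      have h1 : nn 0 s = ((s l0 : SignType) : ℝ) := rfl
      have h2 : EnB.sq 0 s = ((s l0 : SignType) : ℝ) ^ 2 := by
        have h3 : EnB.sq 0 s = ∑ _x : Unit, ((s l0 : SignType) : ℝ) ^ 2 := rfl
        rw [h3]
        simp
      rw [h1, h2]
      cases s l0 <;> simp
    | succ h ih =>
      have h1 := mj_abs_le (abs_nn_le h (sub s 0)) (abs_nn_le h (sub s 1)) (abs_nn_le h (sub s 2))
      have h2 := ih (sub s 0)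
      have h3 := ih (sub s 1)
      have h4 := ih (sub s 2)
      rw [EnB.sq_succ, nn_succ]
      have h5 : (2 : ℝ) ^ (h + 1) = 2 * 2 ^ h := by ring
      have h6 := mul_le_mul_of_nonneg_left h1 (by positivity : (0 : ℝ) ≤ 2 * 2 ^ h)
      rw [h5]
      linarith
  · simp only [nn_zero, EnB.sq_zero, abs_zero, mul_zero, sub_zero]
  · obtain ⟨h1, h2⟩ := nn_upd_eq hl
    have h3 := inf_nonneg h s l
    dsimp only
    rw [h1, h2, EnB.sq_upd hl EnB.one_sq', EnB.sq_upd hl EnB.neg_one_sq']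
    have h4 : (|nn h s + inf h s l| + |nn h s - inf h s l|) / 2 = max |nn h s| (inf h s l) := by
      rcases le_total 0 (nn h s) with hn | hn
      · rw [abs_of_nonneg hn, abs_of_nonneg (add_nonneg hn h3)]
        rcases le_total (inf h s l) (nn h s) with hm | hm
        · rw [abs_of_nonneg (sub_nonneg.2 hm), max_eq_left hm]
          ring
        · rw [abs_of_nonpos (sub_nonpos.2 hm), max_eq_right hm]
          ring
      · rw [abs_of_nonpos hn, abs_of_nonpos (by linarith : nn h s - inf h s l ≤ 0)]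
        rcases le_total (inf h s l) (-nn h s) with hm | hm
        · rw [abs_of_nonpos (by linarith : nn h s + inf h s l ≤ 0), max_eq_left hm]
          ring
        · rw [abs_of_nonneg (by linarith : 0 ≤ nn h s + inf h s l), max_eq_right hm]
          ring
    rw [← h4]
    apply le_of_eq
    ring

end Pool.Agent.MP58T
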