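import Pool.Agent.Lib.MP_58cb87_lc_T.Mix

set_option autoImplicit false

/-!
# Random erasures

PROOFS. `Ey_zero`: `State (Lf 0)` has three elements. `Ey_succ`: the equivalence
`State (Lf (k+1)) ≃ State (Lf k) × State (Lf k) × State (Lf k)`, `s ↦ (sub s 0, sub s 1, sub s 2)`, inverse
`join ![a, b, c]`; the product over `Lf (k+1)` is the product of the three products (`Fintype.prod_prod_type`,
`Fin.prod_univ_three`). `Ey_neg`: the bijection `y ↦ -y`, `rho` is even. The others: `mix_add`, ...
-/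

namespace Pool.Agent.MP58T

/-- unknown with probability `1/8`, otherwise a fair coin -/
noncomputable def rho (b : SignType) : ℝ := if b = 0 then 1 / 8 else 7 / 16

/-- expectation over independent leaves of law `rho` -/
noncomputable def Ey (k : ℕ) (F : State (Lf k) → ℝ) : ℝ := mix (fun _ => rho) F

/-- the mean optimal cost after random erasures -/
noncomputable def VV (j : ℕ) : ℝ := Ey j (gm j).V

theorem Ey.rho_nonneg (b : SignType) : 0 ≤ rho b := by
  unfold rho; split_ifs <;> norm_num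

theorem Ey.rho_sum : rho 0 + rho 1 + rho (-1) = 1 := by
  unfold rho
  rw [if_pos rfl, if_neg (by decide), if_neg (by decide)]
  norm_num

theorem Ey_zero (F : State (Lf 0) → ℝ) :
    Ey 0 F = 1 / 8 * F (fun _ => 0) + 7 / 16 * F (fun _ => 1) + 7 / 16 * F (fun _ => -1) := by
  have h1 : ∀ {α : Type} (x : Lf 0 → α) (b : α), upd x l0 b = fun _ => b := by
    intro α x b
    funext i
    rw [eq_l0 i, upd_same]
  have h2 := mix_upd (fun _ : Lf 0 => rho) l0 rho F
  rw [h1, h1, mix_pure] at h2
  rw [Ey, h2, h1, h1, h1]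
  unfold rho
  rw [if_pos rfl, if_neg (by decide), if_neg (by decide)]

/-- three parts of a state -/
def Ey.parts (k : ℕ) : State (Lf (k + 1)) ≃ State (Lf k) × State (Lf k) × State (Lf k) where
  toFun s := (sub s 0, sub s 1, sub s 2)
  invFun p := join ![p.1, p.2.1, p.2.2]
  left_inv s := by
    refine eq_of_sub fun d => ?_
    fin_cases d <;> rfl
  right_inv p := rfl

theorem Ey.prod_Lf (k : ℕ) (g : Lf (k + 1) → ℝ) :
    ∏ i, g i = (∏ i, g (lc 0 i)) * (∏ i, g (lc 1 i)) * ∏ i, g (lc 2 i) := by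
  have h : ∏ i : Lf (k + 1), g i = ∏ d : Fin 3, ∏ j : Lf k, g (lc d j) :=
    Fintype.prod_prod_type (f := g)
  rw [h, Fin.prod_univ_three]

theorem Ey_succ (k : ℕ) (F : State (Lf (k + 1)) → ℝ) :
    Ey (k + 1) F = Ey k fun a => Ey k fun b => Ey k fun c => F (join ![a, b, c]) := by
  classical
  unfold Ey mix
  rw [← Equiv.sum_comp (Ey.parts k).symm, Fintype.sum_prod_type]
  refine Finset.sum_congr (by congr!) fun a _ => ?_
  rw [Fintype.sum_prod_type, Finset.mul_sum]
  refine Finset.sum_congr (by congr!) fun b _ => ?_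
  rw [Finset.mul_sum, Finset.mul_sum]
  refine Finset.sum_congr (by congr!) fun c _ => ?_
  rw [Ey.prod_Lf]
  have h0 : ∀ i, (Ey.parts k).symm (a, b, c) (lc 0 i) = a i := fun i => rfl
  have h1 : ∀ i, (Ey.parts k).symm (a, b, c) (lc 1 i) = b i := fun i => rfl
  have h2 : ∀ i, (Ey.parts k).symm (a, b, c) (lc 2 i) = c i := fun i => rfl
  have h3 : (Ey.parts k).symm (a, b, c) = join ![a, b, c] := rfl
  simp only [h0, h1, h2, h3]
  ring

theorem Ey_mono (k : ℕ) {F G : State (Lf k) → ℝ} (h : ∀ y, F y ≤ G y) : Ey k F ≤ Ey k G :=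
  mix_mono (fun _ b => Ey.rho_nonneg b) fun c _ => h c

theorem Ey_const (k : ℕ) (a : ℝ) : Ey k (fun _ => a) = a :=
  mix_const (fun _ => Ey.rho_sum) a

theorem Ey_add (k : ℕ) (F G : State (Lf k) → ℝ) :
    Ey k (fun y => F y + G y) = Ey k F + Ey k G := mix_add _ F G

theorem Ey_smul (k : ℕ) (a : ℝ) (F : State (Lf k) → ℝ) :
    Ey k (fun y => a * F y) = a * Ey k F := mix_smul _ a F

theorem Ey_neg (k : ℕ) (F : State (Lf k) → ℝ) : Ey k (fun y => F fun i => -y i) = Ey k F := by
  classical
  unfold Ey mix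
  have hi : Function.Involutive fun (c : State (Lf k)) => (fun i => -c i : State (Lf k)) := by
    intro c; funext i; simp
  refine Eq.trans ?_ (Equiv.sum_comp hi.toPerm _)
  refine Finset.sum_congr (by congr!) fun c _ => ?_
  have h : ∀ b : SignType, rho (-b) = rho b := by
    intro b
    unfold rho
    cases b <;> simp
  simp only [Function.Involutive.coe_toPerm, h]

end Pool.Agent.MP58T
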