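import Pool.Agent.Lib.MP_58cb87_lc_T.Lnk
import Pool.Agent.Lib.MP_58cb87_lc_T.Base2

set_option autoImplicit false

/-!
# The optimal cost is at most the cost of every algorithm

PROOF. `QTree`, `queried`, `Computes` are in `Pool/Agent/Lib/MP_58cb87_lc/Defs.lean`; `cost`,
`run`, `comp`, `cost_eq`, `sum_ite_indep`, `tree_mart`, `computes_val` in `Tree.lean` there.
Translate a knowledge `σ : ι → Option Bool` into the state `st σ i = 0, 1, -1`;
`rv (st σ) = val σ`, `st (update σ i (some b)) = upd (st σ) i (± 1)`. As in `tree_mart` prove, for
`V = (fm k).V`, by induction on the tree `T` for all `σ`: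
`NN * V (st σ) ≤ ∑ x, V (st (run T (comp σ x) σ)) +
  ∑ x, (number of i ∈ T.queried (comp σ x) with σ i = none)`
(a query of a known position changes nothing; for an unknown position use `V_step` and
`sum_ite_indep`, and the new position is counted once). For `σ = none` everywhere: `comp σ x = x`,
and `T.Computes (iterMaj k)` gives `|Mf k (val (run T x none))| = 1` (`computes_val` with
`g = Mf k`, `Mf_sgn`, `midAff_MY`), so `V (st (run ..)) = 0` (`V_det`).
The last sum is `NN * cost T` (`cost_eq`).
-/

namespace Pool.Agent.MP58T

open Pool.Agent.MP_58cb87_lc (QTree cost iterMaj)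

namespace LnkA

open Pool.Agent.MP_58cb87_lc (run comp val sgn NN NN_pos NN_eq sum_ite_indep comp_update_self
  comp_update_of_none computes_val cost_eq comp_none Mf Mf_sgn midAff_MY)
open Function (update update_of_ne)
open scoped Classical

/-- the state of a knowledge -/
def st {ι : Type} (σ : ι → Option Bool) : State ι
  | i => match σ i with
    | none => 0
    | some true => 1
    | some false => -1

theorem st_none {ι : Type} {σ : ι → Option Bool} {i : ι} (h : σ i = none) : st σ i = 0 := by
  simp [st, h]

theorem rv_st {ι : Type} (σ : ι → Option Bool) : rv (st σ) = val σ := by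
  funext i
  unfold rv st val
  rcases h : σ i with _ | b
  · simp [h]
  · cases b <;> simp [sgn, h]

theorem st_true {ι : Type} [DecidableEq ι] (σ : ι → Option Bool) (i : ι) :
    st (update σ i (some true)) = upd (st σ) i 1 := by
  funext j
  by_cases h : j = i
  · subst h; simp [st]
  · rw [upd_ne _ _ h]
    simp [st, h]

theorem st_false {ι : Type} [DecidableEq ι] (σ : ι → Option Bool) (i : ι) :
    st (update σ i (some false)) = upd (st σ) i (-1) := by
  funext j
  by_cases h : j = i
  · subst h; simp [st]
  · rw [upd_ne _ _ h]
    simp [st, h]

/-- number of new positions -/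
noncomputable def nq {ι : Type} [Fintype ι] (T : QTree ι) (σ : ι → Option Bool) (x : ι → Bool) :
    ℝ := ∑ i, if i ∈ T.queried (comp σ x) ∧ σ i = none then (1 : ℝ) else 0

variable {ι : Type} [Fintype ι] [DecidableEq ι]

omit [DecidableEq ι] in
theorem nq_known {i : ι} {l r : QTree ι} {σ : ι → Option Bool} {b : Bool} (h : σ i = some b)
    (x : ι → Bool) :
    nq (.query i l r) σ x = if b = true then nq r σ x else nq l σ x := by
  have hc : comp σ x i = b := by simp [comp, h]
  have key : ∀ j, (j ∈ (QTree.query i l r).queried (comp σ x) ∧ σ j = none) ↔
      (j ∈ (if b = true then r.queried (comp σ x) else l.queried (comp σ x)) ∧ σ j = none) := by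
    intro j
    rw [QTree.queried, hc, Set.mem_insert_iff]
    constructor
    · rintro ⟨rfl | h1, h2⟩
      · rw [h] at h2
        cases h2
      · exact ⟨h1, h2⟩
    · rintro ⟨h1, h2⟩
      exact ⟨Or.inr h1, h2⟩
  unfold nq
  simp_rw [key]
  cases b <;> simp

theorem nq_new {i : ι} {l r : QTree ι} {σ : ι → Option Bool} (h : σ i = none)
    (x : ι → Bool) :
    nq (.query i l r) σ x = 1 + if x i = true then nq r (update σ i (some true)) x else
      nq l (update σ i (some false)) x := by
  have hc : comp σ x i = x i := by simp [comp, h]
  have gen : ∀ (b : Bool) (T : QTree ι), x i = b →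
      (∑ j, if j ∈ insert i (T.queried (comp σ x)) ∧ σ j = none then (1 : ℝ) else 0) =
        1 + nq T (update σ i (some b)) x := by
    intro b T hb
    have e : comp (update σ i (some b)) x = comp σ x := by
      rw [comp_update_of_none σ x i h, hb]
    unfold nq
    rw [e, ← Finset.add_sum_erase _ _ (Finset.mem_univ i),
      ← Finset.add_sum_erase (f := fun j => if j ∈ T.queried (comp σ x) ∧
        update σ i (some b) j = none then (1 : ℝ) else 0) _ (Finset.mem_univ i),
      if_pos ⟨Set.mem_insert _ _, h⟩, if_neg (by simp)]
    congr 1
    rw [zero_add]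
    refine Finset.sum_congr rfl fun j hj => ?_
    have hji : j ≠ i := Finset.ne_of_mem_erase hj
    rw [update_of_ne hji]
    refine if_congr ?_ rfl rfl
    rw [Set.mem_insert_iff]
    simp only [hji, false_or]
  by_cases hx : x i = true
  · rw [if_pos hx, ← gen true r hx]
    unfold nq
    rw [QTree.queried, hc, if_pos hx]
    exact Finset.sum_congr rfl fun j _ => by congr
  · have hx' : x i = false := by simpa using hx
    rw [if_neg hx, ← gen false l hx']
    unfold nq
    rw [QTree.queried, hc, if_neg hx]
    exact Finset.sum_congr rfl fun j _ => by congr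

theorem main (S : Sys ι) (hw : ∀ s, S.w s = 1) (hp : ∀ i, S.p i = 1) : ∀ (T : QTree ι)
    (σ : ι → Option Bool), NN ι * S.V (st σ) ≤
      ∑ x : ι → Bool, S.V (st (run T (comp σ x) σ)) + ∑ x, nq T σ x
  | .stop, σ => by
      have h1 : ∀ x, nq QTree.stop σ x = 0 := fun x => by simp [nq, QTree.queried]
      simp [run, NN_eq, h1]
  | .query i l r, σ => by
      cases hσ : σ i with
      | some b =>
        have hc : ∀ x, comp σ x i = b := fun x => by simp [comp, hσ]
        have hu : update σ i (some b) = σ := by rw [← hσ]; simp
        simp only [run, hc, hu, nq_known hσ]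
        cases b
        · simpa using main S hw hp l σ
        · simpa using main S hw hp r σ
      | none =>
        have hx : ∀ x, comp σ x i = x i := fun x => by simp [comp, hσ]
        have key : ∀ x : ι → Bool, S.V (st (run (.query i l r) (comp σ x) σ)) =
            if x i = true then
              S.V (st (run r (comp (update σ i (some true)) x) (update σ i (some true))))
            else
              S.V (st (run l (comp (update σ i (some false)) x) (update σ i (some false)))) := by
          intro x
          rw [run, hx]
          split_ifs with h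
          · rw [comp_update_of_none σ x i hσ, h]
          · have h' : x i = false := by simpa using h
            rw [comp_update_of_none σ x i hσ, h']
        simp_rw [key, nq_new hσ]
        rw [Finset.sum_add_distrib, sum_ite_indep i
          (fun x => S.V (st (run l (comp (update σ i (some false)) x)
            (update σ i (some false)))))
          (fun x => S.V (st (run r (comp (update σ i (some true)) x) (update σ i (some true)))))
          (fun x b => by simp only [comp_update_self]) (fun x b => by simp only [comp_update_self]),
          sum_ite_indep i (fun x => nq l (update σ i (some false)) x)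
          (fun x => nq r (update σ i (some true)) x)
          (fun x b => by simp only [nq, comp_update_self])
          (fun x b => by simp only [nq, comp_update_self])]
        have h1 := main S hw hp l (update σ i (some false))
        have h2 := main S hw hp r (update σ i (some true))
        have h3 := S.V_step (st σ) i (st_none hσ)
        rw [hw, hp, ← st_true, ← st_false] at h3
        have h4 := mul_le_mul_of_nonneg_left h3 (NN_pos (ι := ι)).le
        have h5 : (∑ _x : ι → Bool, (1 : ℝ)) = NN ι := by simp [NN_eq]
        rw [h5]
        linarith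

end LnkA

open LnkA in
theorem fm_le_cost (k : ℕ) (T : QTree (Fin (3 ^ k))) (hT : T.Computes (iterMaj k)) :
    (fm k).V (fun _ => 0) ≤ cost T := by
  classical
  have h := main (fm k) (fun _ => rfl) (fun _ => rfl) T (fun _ => none)
  have h0 : st (fun _ : Fin (3 ^ k) => none) = fun _ => 0 := by
    funext i
    rfl
  have h1 : ∀ x, (fm k).V (st (Pool.Agent.MP_58cb87_lc.run T x fun _ => none)) = 0 := by
    intro x
    refine (fm k).V_det ?_
    change |Pool.Agent.MP_58cb87_lc.Mf k (rv _)| = 1
    rw [rv_st, Pool.Agent.MP_58cb87_lc.computes_val _ (Pool.Agent.MP_58cb87_lc.midAff_MY k).1 _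
      (Pool.Agent.MP_58cb87_lc.Mf_sgn k) T hT]
    cases iterMaj k x <;> simp [Pool.Agent.MP_58cb87_lc.sgn]
  have h2 := Pool.Agent.MP_58cb87_lc.NN_pos (ι := Fin (3 ^ k))
  simp only [Pool.Agent.MP_58cb87_lc.comp_none, h0, h1, Finset.sum_const_zero, zero_add, nq,
    and_true] at h
  rw [Pool.Agent.MP_58cb87_lc.cost_eq, le_div_iff₀ h2, mul_comm]
  exact h

end Pool.Agent.MP58T
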