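import Pool.Agent.Lib.MP_58cb87_lc_T.Lnk
import Pool.Agent.Lib.MP_58cb87_lc_T.Base2
import Pool.Agent.Lib.MP_58cb87_lc.Sym

set_option autoImplicit false

/-!
# An optimal algorithm

PROOF. `QTree.posn`, `NR`, `rcost` are in `Pool/Agent/Lib/MP_58cb87_lc/Sym.lean`. By strong
induction on the number of `i` with `s i = 0`, for every state `s` there is a tree `T` with
`T.NR`, all positions of `T` unknown in `s` (`∀ p ∈ T.posn, s p = 0`), `T.rcost ≤ (fm k).V s`,
and: for all `x y : Fin (3^k) → Bool` compatible with `s` (`s i = 1 → x i = true`, `s i = -1 → x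
i = false`, same for `y`) that agree on `T.queried x`: `iterMaj k y = iterMaj k x`. If `|(fm
k).M s| = 1`: `T = stop`, `V_nonneg`; `Mf k (rv s) = v = ±1` implies that every compatible `x`
has `sgn (iterMaj k x) = v`: (`Mf_sgn`) `Mf k (sgn ∘ x) = v`, by changing the unknown
coordinates one after the other, the mean of the two values (both in `[-1, 1]`, `MidAff`) is
`v`, so both are `v` (induction on the number of unknown positions; compare `det_val` in
`Tree.lean`). Otherwise `V_recur` gives `i` with `s i = 0` and `V s = 1 + (V (upd s i 1) + V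
(upd s i (-1)))/2`; take `T = query i T₋ T₊` (`onFalse = T₋` from `upd s i (-1)`, `onTrue = T₊`
from `upd s i 1`). For `s = 0` every input is compatible.
-/

namespace Pool.Agent.MP58T

open Pool.Agent.MP_58cb87_lc (QTree iterMaj)

namespace LnkB

open Pool.Agent.MP_58cb87_lc (Mf Mf_sgn sgn)

/-- inputs compatible with a state -/
def Cmp {ι : Type} (s : State ι) (x : ι → Bool) : Prop :=
  ∀ i, (s i = 1 → x i = true) ∧ (s i = -1 → x i = false)

theorem Cmp.upd_true {ι : Type} {s : State ι} {x : ι → Bool} (h : Cmp s x) {i : ι}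
    (hx : x i = true) : Cmp (upd s i 1) x := by
  intro j
  by_cases hj : j = i
  · subst hj
    rw [upd_same]
    exact ⟨fun _ => hx, fun h1 => absurd h1 (by decide)⟩
  · rw [upd_ne _ _ hj]
    exact h j

theorem Cmp.upd_false {ι : Type} {s : State ι} {x : ι → Bool} (h : Cmp s x) {i : ι}
    (hx : x i = false) : Cmp (upd s i (-1)) x := by
  intro j
  by_cases hj : j = i
  · subst hj
    rw [upd_same]
    exact ⟨fun h1 => absurd h1 (by decide), fun _ => hx⟩
  · rw [upd_ne _ _ hj]
    exact h j

theorem cz_zero {ι : Type} [Fintype ι] {s : State ι} (h : Base.cz s = 0) (i : ι) : s i ≠ 0 := by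
  intro hi
  have h1 := Base.cz_upd hi (b := 1) (by decide)
  omega

theorem det (k : ℕ) : ∀ (n : ℕ) (s : State (Fin (3 ^ k))), Base.cz s = n →
    |(fm k).M s| = 1 → ∀ x : Fin (3 ^ k) → Bool, Cmp s x →
    sgn (iterMaj k x) = (fm k).M s := by
  intro n
  induction n with
  | zero =>
    intro s hs _ x hx
    have h1 : rv s = fun i => sgn (x i) := by
      funext i
      have h2 := cz_zero hs i
      obtain ⟨h3, h4⟩ := hx i
      unfold rv
      cases h5 : s i
      · exact absurd h5 h2
      · rw [h4 h5]
        simp [sgn]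
      · rw [h3 h5]
        simp [sgn]
    change sgn (iterMaj k x) = Mf k (rv s)
    rw [h1, Mf_sgn]
  | succ n ih =>
    intro s hs hM x hx
    obtain ⟨i, hi⟩ : ∃ i, s i = 0 := by
      by_contra hcon
      push Not at hcon
      have h1 : Base.cz s = 0 := by
        unfold Base.cz
        rw [Finset.card_eq_zero, Finset.filter_eq_empty_iff]
        exact fun i _ => hcon i
      omega
    have h1 := (fm k).harmM s i hi
    have h2 := abs_le.1 ((fm k).absM (upd s i 1))
    have h3 := abs_le.1 ((fm k).absM (upd s i (-1)))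
    have h4 : (fm k).M (upd s i 1) = (fm k).M s ∧ (fm k).M (upd s i (-1)) = (fm k).M s := by
      rcases (abs_eq (zero_le_one' ℝ)).1 hM with h5 | h5
      · rw [h5] at h1 ⊢
        constructor <;> linarith [h2.2, h3.2]
      · rw [h5] at h1 ⊢
        constructor <;> linarith [h2.1, h3.1]
    cases hxi : x i
    · have hc := Base.cz_upd hi (b := -1) (by decide)
      rw [← h4.2]
      exact ih _ (by omega) (by rw [h4.2]; exact hM) x (hx.upd_false hxi)
    · have hc := Base.cz_upd hi (b := 1) (by decide)
      rw [← h4.1]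
      exact ih _ (by omega) (by rw [h4.1]; exact hM) x (hx.upd_true hxi)

theorem opt_aux (k : ℕ) : ∀ (n : ℕ) (s : State (Fin (3 ^ k))), Base.cz s = n →
    ∃ T : QTree (Fin (3 ^ k)), T.NR ∧ (∀ p ∈ T.posn, s p = 0) ∧ T.rcost ≤ (fm k).V s ∧
      ∀ x y, Cmp s x → Cmp s y → (∀ i ∈ T.queried x, y i = x i) → iterMaj k y = iterMaj k x := by
  intro n
  induction n with
  | zero =>
    intro s hs
    have hM : |(fm k).M s| = 1 := (fm k).full s fun i => cz_zero hs i
    refine ⟨.stop, trivial, fun p hp => absurd hp (Set.notMem_empty p), (fm k).V_nonneg s, ?_⟩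
    intro x y hx hy _
    have h1 := det k _ s rfl hM x hx
    have h2 := det k _ s rfl hM y hy
    rw [← h1] at h2
    cases h3 : iterMaj k x <;> cases h4 : iterMaj k y <;> simp_all [sgn] <;> linarith
  | succ n ih =>
    intro s hs
    by_cases hM : |(fm k).M s| = 1
    · refine ⟨.stop, trivial, fun p hp => absurd hp (Set.notMem_empty p), (fm k).V_nonneg s, ?_⟩
      intro x y hx hy _
      have h1 := det k _ s rfl hM x hx
      have h2 := det k _ s rfl hM y hy
      rw [← h1] at h2
      cases h3 : iterMaj k x <;> cases h4 : iterMaj k y <;> simp_all [sgn] <;> linarith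
    · obtain ⟨i, hi, hV⟩ := (fm k).V_recur hM
      have hcp := Base.cz_upd hi (b := 1) (by decide)
      have hcm := Base.cz_upd hi (b := -1) (by decide)
      obtain ⟨Tp, hp1, hp2, hp3, hp4⟩ := ih (upd s i 1) (by omega)
      obtain ⟨Tm, hm1, hm2, hm3, hm4⟩ := ih (upd s i (-1)) (by omega)
      have hpi : i ∉ Tp.posn := fun h => by
        have h1 := hp2 i h
        rw [upd_same] at h1
        exact absurd h1 (by decide)
      have hmi : i ∉ Tm.posn := fun h => by
        have h1 := hm2 i h
        rw [upd_same] at h1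
        exact absurd h1 (by decide)
      refine ⟨.query i Tm Tp, ⟨hmi, hpi, hm1, hp1⟩, ?_, ?_, ?_⟩
      · intro p hp
        rw [QTree.posn, Set.mem_insert_iff, Set.mem_union] at hp
        rcases hp with rfl | hp | hp
        · exact hi
        · have h1 := hm2 p hp
          rwa [upd_ne _ _ (by rintro rfl; exact hmi hp)] at h1
        · have h1 := hp2 p hp
          rwa [upd_ne _ _ (by rintro rfl; exact hpi hp)] at h1
      · rw [QTree.rcost, hV]
        have h1 : (fm k).p i * (fm k).w s = 1 := by
          change (1 : ℝ) * 1 = 1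
          norm_num
        rw [h1]
        linarith
      · intro x y hx hy hq
        have h1 : y i = x i := hq i (by rw [QTree.queried]; exact Set.mem_insert _ _)
        cases hxi : x i
        · rw [hxi] at h1
          refine hm4 x y (hx.upd_false hxi) (hy.upd_false h1) fun j hj => hq j ?_
          rw [QTree.queried, hxi]
          exact Set.mem_insert_of_mem _ (by simpa using hj)
        · rw [hxi] at h1
          refine hp4 x y (hx.upd_true hxi) (hy.upd_true h1) fun j hj => hq j ?_
          rw [QTree.queried, hxi]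
          exact Set.mem_insert_of_mem _ (by simpa using hj)

end LnkB

theorem exists_opt (k : ℕ) : ∃ T : QTree (Fin (3 ^ k)), T.NR ∧ T.Computes (iterMaj k) ∧
    T.rcost ≤ (fm k).V fun _ => 0 := by
  obtain ⟨T, h1, -, h3, h4⟩ := LnkB.opt_aux k _ (fun _ => 0) rfl
  have e1 : ¬ ((0 : SignType) = 1) := by decide
  have e2 : ¬ ((0 : SignType) = -1) := by decide
  refine ⟨T, h1, fun x y h => h4 x y ?_ ?_ h, h3⟩
  · exact fun i => ⟨fun h => absurd h e1, fun h => absurd h e2⟩
  · exact fun i => ⟨fun h => absurd h e1, fun h => absurd h e2⟩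

end Pool.Agent.MP58T
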