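import Pool.Agent.Lib.MP_58cb87_lc_T.Tre
import Pool.Agent.Lib.MP_58cb87_lc_T.Ale

set_option autoImplicit false

/-!
# Prediction helps: upper bound for `C (k + 1)`

PROOF. Let `A = (gm k).V`, `V = (gm (k+1)).V`, `jn a b c = join ![a, b, c]`.
`A_neg`: `Φ s = V (-s)` is a potential (`nn_neg`, `upd`), `le_V` twice.
`three`: `V (jn a b c)` is, as a function of each of `a`, `b`, `c`, a function with loss at most `1` per question (`V_step` at
`lc d i`; `upd (jn a b c) (lc 0 i) z = jn (upd a i z) b c` etc.). So `le_tc_te` three times: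
`V (jn 0 0 0) ≤ tc S₀ 0 + tc S₁ 0 + tc S₂ 0 + te S₀ 0 (fun a => te S₁ 0 (fun b => te S₂ 0 (fun c => V (jn a b c))))`.
Take `S_x ∈ {S, S.flip}`: `tc S.flip 0 = tc S 0` (`tc_neg`), `te S.flip 0 F = te S 0 (F ∘ neg)` (`te_neg`). Average over
the eight choices (`te_add`, `te_smul`, `te_mono`):
`V 0 ≤ 3 tc S 0 + te te te (X a b c)`, `X a b c = (1/8) ∑_{signs} V (jn (±a) (±b) (±c))`.

`avg8`: `X a b c ≤ H a b c := (P01)/2 + (P02)/4 + (P12)/4`, where for the states with means `x, y` and third state with cost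
`A₃`: `P = A₁ + A₂ + (1 - |x| |y|)/2 * A₃`. `X` does not change if `a` is replaced by `-a`, nor `H` (`A_neg`, `nn_neg`), so assume
`nn k a, nn k b, nn k c ≥ 0`. For signs `(ξ0, ξ1, ξ2)` use `A_succ_le` with the pair `(0,1)` if `ξ0 = ξ1`, else the pair
`(0,2)` if `ξ0 = ξ2`, else `(1,2)`: the product of the two means is `|x||y|`. Four, two and two of the eight cases.

Finally `te te te H = (2 + (1 - β²)/2) α`, `α = te S 0 A ≤ A 0 = C k` (`te_super`, `V_super`), `β = te S 0 |nn k| ≥ 13/16` and
`β ≤ 1`: `2 + (1 - (13/16)²)/2 ≤ 11/5`, `C k ≥ 0`.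
-/

namespace Pool.Agent.MP58T

namespace Pred

theorem upd_neg' {ι : Type} (s : State ι) (i : ι) (b : SignType) :
    upd (fun j => -s j) i b = fun j => -upd s i (-b) j := by
  have h := Tre.upd_neg s i (-b)
  rwa [neg_neg] at h

theorem neg_le (k : ℕ) (s : State (Lf k)) : (gm k).V (fun i => -s i) ≤ (gm k).V s := by
  have : Finite (Lf k) := inferInstance
  refine (gm k).le_V (Φ := fun s => (gm k).V fun i => -s i) ⟨fun s hs => ?_, fun s hs i hi => ?_⟩ s
  · change (gm k).V (fun i => -s i) ≤ 0
    refine ((gm k).V_det ?_).le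
    change |nn k (fun i => -s i)| = 1
    rw [nn_neg, abs_neg]
    exact hs
  · change (gm k).V (fun i => -s i) ≤ _
    have h1 := (gm k).V_step (fun i => -s i) i (by rw [hi, neg_zero])
    rw [upd_neg', upd_neg', neg_neg] at h1
    have h2 : (gm k).p i * (gm k).w (fun i => -s i) = (gm k).p i * (gm k).w s := rfl
    rw [h2] at h1
    linarith

/-- the optimal cost as a function of the three parts -/
noncomputable def W (k : ℕ) (a b c : State (Lf k)) : ℝ := (gm (k + 1)).V (join ![a, b, c])

theorem W01 (k : ℕ) (a b c : State (Lf k)) : W k a b c ≤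
    (gm k).V a + (gm k).V b + (1 - nn k a * nn k b) / 2 * (gm k).V c :=
  A_succ_le k (join ![a, b, c]) 0 1 2 (by decide) (by decide) (by decide)

theorem W02 (k : ℕ) (a b c : State (Lf k)) : W k a b c ≤
    (gm k).V a + (gm k).V c + (1 - nn k a * nn k c) / 2 * (gm k).V b :=
  A_succ_le k (join ![a, b, c]) 0 2 1 (by decide) (by decide) (by decide)

theorem W12 (k : ℕ) (a b c : State (Lf k)) : W k a b c ≤
    (gm k).V b + (gm k).V c + (1 - nn k b * nn k c) / 2 * (gm k).V a :=
  A_succ_le k (join ![a, b, c]) 1 2 0 (by decide) (by decide) (by decide)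

end Pred

open Pool.Agent.MP58T.Pred

theorem A_neg (k : ℕ) (s : State (Lf k)) : (gm k).V (fun i => -s i) = (gm k).V s := by
  refine le_antisymm (neg_le k s) ?_
  have h := neg_le k fun i => -s i
  simpa only [neg_neg] using h

namespace Pred

/-- real inequality: the case of nonnegative means -/
theorem comb {A B C x y z w1 w2 w3 w4 w5 w6 w7 w8 : ℝ}
    (h1 : w1 ≤ A + B + (1 - x * y) / 2 * C)
    (h2 : w2 ≤ A + B + (1 - x * y) / 2 * C)
    (h3 : w3 ≤ A + C + (1 - x * z) / 2 * B)
    (h4 : w4 ≤ B + C + (1 - y * z) / 2 * A)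
    (h5 : w5 ≤ B + C + (1 - y * z) / 2 * A)
    (h6 : w6 ≤ A + C + (1 - x * z) / 2 * B)
    (h7 : w7 ≤ A + B + (1 - x * y) / 2 * C)
    (h8 : w8 ≤ A + B + (1 - x * y) / 2 * C) :
    (w1 + w2 + w3 + w4 + w5 + w6 + w7 + w8) / 8 ≤
      (A + B + (1 - x * y) / 2 * C) / 2 + (A + C + (1 - x * z) / 2 * B) / 4
        + (B + C + (1 - y * z) / 2 * A) / 4 := by
  linarith

/-- nonnegative means -/
theorem avg_pos (k : ℕ) (a b c : State (Lf k)) {a' b' c' : State (Lf k)}
    (ha : (gm k).V a' = (gm k).V a) (hb : (gm k).V b' = (gm k).V b)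
    (hc : (gm k).V c' = (gm k).V c) (na : nn k a' = -nn k a) (nb : nn k b' = -nn k b)
    (nc : nn k c' = -nn k c) (pa : |nn k a| = nn k a) (pb : |nn k b| = nn k b)
    (pc : |nn k c| = nn k c) :
    (W k a b c + W k a b c' + W k a b' c + W k a b' c' + W k a' b c + W k a' b c' + W k a' b' c
      + W k a' b' c') / 8
    ≤ ((gm k).V a + (gm k).V b + (1 - |nn k a| * |nn k b|) / 2 * (gm k).V c) / 2
      + ((gm k).V a + (gm k).V c + (1 - |nn k a| * |nn k c|) / 2 * (gm k).V b) / 4
      + ((gm k).V b + (gm k).V c + (1 - |nn k b| * |nn k c|) / 2 * (gm k).V a) / 4 := by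
  rw [pa, pb, pc]
  refine comb (W01 k a b c) ?_ (W02 k a b' c |>.trans_eq ?_) ?_ (W12 k a' b c |>.trans_eq ?_) ?_
    ?_ ?_
  · have h := W01 k a b c'
    rwa [hc] at h
  · rw [hb]
  · have h := W12 k a b' c'
    rw [hb, hc, nb, nc] at h
    linarith
  · rw [ha]
  · have h := W02 k a' b c'
    rw [ha, hc, na, nc] at h
    linarith
  · have h := W01 k a' b' c
    rw [ha, hb, na, nb] at h
    linarith
  · have h := W01 k a' b' c'
    rw [ha, hb, hc, na, nb] at h
    linarith

/-- the triple expectation -/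
noncomputable def E3 {ι : Type} (S : Tr ι) (F : State ι → State ι → State ι → ℝ) : ℝ :=
  te S (fun _ => 0) fun a => te S (fun _ => 0) fun b => te S (fun _ => 0) fun c => F a b c

theorem E3_mono {ι : Type} (S : Tr ι) {F G : State ι → State ι → State ι → ℝ}
    (h : ∀ a b c, F a b c ≤ G a b c) : E3 S F ≤ E3 S G :=
  te_mono (fun a => te_mono (fun b => te_mono (fun c => h a b c) _ _) _ _) _ _

theorem E3_add {ι : Type} (S : Tr ι) (F G : State ι → State ι → State ι → ℝ) :
    E3 S (fun a b c => F a b c + G a b c) = E3 S F + E3 S G := by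
  unfold E3
  simp only [te_add]

theorem E3_smul {ι : Type} (S : Tr ι) (r : ℝ) (F : State ι → State ι → State ι → ℝ) :
    E3 S (fun a b c => r * F a b c) = r * E3 S F := by
  unfold E3
  simp only [te_smul]

theorem te_smul' {ι : Type} (r : ℝ) (F : State ι → ℝ) (T : Tr ι) (s : State ι) :
    te T s (fun t => F t * r) = te T s F * r := by
  have h := te_smul r F T s
  rw [mul_comm (te T s F)]
  rw [← h]
  simp only [mul_comm]

theorem E3_prod {ι : Type} (S : Tr ι) (f g h : State ι → ℝ) :
    E3 S (fun a b c => f a * g b * h c) =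
      te S (fun _ => 0) f * te S (fun _ => 0) g * te S (fun _ => 0) h := by
  unfold E3
  have e : ∀ a b : State ι, te S (fun _ => 0) (fun c => f a * g b * h c) =
      f a * (g b * te S (fun _ => 0) h) := by
    intro a b
    rw [te_smul, mul_assoc]
  simp only [e, te_smul, te_smul']
  ring

theorem join_upd0 {k : ℕ} (a b c : State (Lf k)) (i : Lf k) (z : SignType) :
    upd (join ![a, b, c]) (lc 0 i) z = join ![upd a i z, b, c] := by
  refine eq_of_sub fun d => ?_
  fin_cases d
  · exact sub_upd_same _ 0 i z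
  · exact sub_upd_ne _ (by decide) i z
  · exact sub_upd_ne _ (by decide) i z

theorem join_upd1 {k : ℕ} (a b c : State (Lf k)) (i : Lf k) (z : SignType) :
    upd (join ![a, b, c]) (lc 1 i) z = join ![a, upd b i z, c] := by
  refine eq_of_sub fun d => ?_
  fin_cases d
  · exact sub_upd_ne _ (by decide) i z
  · exact sub_upd_same _ 1 i z
  · exact sub_upd_ne _ (by decide) i z

theorem join_upd2 {k : ℕ} (a b c : State (Lf k)) (i : Lf k) (z : SignType) :
    upd (join ![a, b, c]) (lc 2 i) z = join ![a, b, upd c i z] := by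
  refine eq_of_sub fun d => ?_
  fin_cases d
  · exact sub_upd_ne _ (by decide) i z
  · exact sub_upd_ne _ (by decide) i z
  · exact sub_upd_same _ 2 i z

theorem pw (k : ℕ) (i : Lf k) (s : State (Lf k)) : (gm k).p i * (gm k).w s = 1 := by
  change (1 : ℝ) * 1 = 1
  norm_num

theorem loss0 (k : ℕ) (b c : State (Lf k)) (s : State (Lf k)) (i : Lf k) (hi : s i = 0) :
    W k s b c ≤ 1 + (W k (upd s i 1) b c + W k (upd s i (-1)) b c) / 2 := by
  have : Finite (Lf (k + 1)) := inferInstance
  have h := (gm (k + 1)).V_step (join ![s, b, c]) (lc 0 i) hi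
  rwa [pw, join_upd0, join_upd0] at h

theorem loss1 (k : ℕ) (a c : State (Lf k)) (s : State (Lf k)) (i : Lf k) (hi : s i = 0) :
    W k a s c ≤ 1 + (W k a (upd s i 1) c + W k a (upd s i (-1)) c) / 2 := by
  have : Finite (Lf (k + 1)) := inferInstance
  have h := (gm (k + 1)).V_step (join ![a, s, c]) (lc 1 i) hi
  rwa [pw, join_upd1, join_upd1] at h

theorem loss2 (k : ℕ) (a b : State (Lf k)) (s : State (Lf k)) (i : Lf k) (hi : s i = 0) :
    W k a b s ≤ 1 + (W k a b (upd s i 1) + W k a b (upd s i (-1))) / 2 := by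
  have : Finite (Lf (k + 1)) := inferInstance
  have h := (gm (k + 1)).V_step (join ![a, b, s]) (lc 2 i) hi
  rwa [pw, join_upd2, join_upd2] at h

/-- the three strategies one after the other -/
theorem three (k : ℕ) (T0 T1 T2 : Tr (Lf k)) (z : State (Lf k)) :
    W k z z z ≤ tc T0 z + tc T1 z + tc T2 z +
      te T0 z fun a => te T1 z fun b => te T2 z fun c => W k a b c := by
  have h0 := le_tc_te (F := fun a => W k a z z) (loss0 k z z) T0 z
  have h1 : te T0 z (fun a => W k a z z) ≤ te T0 z (fun a =>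
      tc T1 z + te T1 z fun b => W k a b z) := by
    refine te_mono (fun a => ?_) _ _
    have h := le_tc_te (F := fun b => W k a b z) (loss1 k a z) T1 z
    rw [one_mul] at h
    exact h
  have h2 : te T0 z (fun a => te T1 z fun b => W k a b z) ≤ te T0 z (fun a => te T1 z fun b =>
      tc T2 z + te T2 z fun c => W k a b c) := by
    refine te_mono (fun a => te_mono (fun b => ?_) _ _) _ _
    have h := le_tc_te (F := fun c => W k a b c) (loss2 k a b) T2 z
    rw [one_mul] at h
    exact h
  simp only [te_add, te_const, one_mul] at h0 h1 h2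
  linarith

theorem te_flip {k : ℕ} (S : Tr (Lf k)) (F : State (Lf k) → ℝ) :
    te S.flip (fun _ => 0) F = te S (fun _ => 0) fun t => F fun i => -t i := by
  have h := te_neg F S (fun _ => 0)
  simpa only [neg_zero] using h

theorem tc_flip {k : ℕ} (S : Tr (Lf k)) : tc S.flip (fun _ => 0) = tc S (fun _ => 0) := by
  have h := tc_neg S (fun _ => 0)
  simpa only [neg_zero] using h

theorem C_succ (k : ℕ) : C (k + 1) = W k (fun _ => 0) (fun _ => 0) (fun _ => 0) := by
  unfold C W
  congr 1
  refine eq_of_sub fun d => ?_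
  fin_cases d <;> rfl

end Pred

theorem avg8 (k : ℕ) (a b c : State (Lf k)) :
    ((gm (k + 1)).V (join ![a, b, c]) + (gm (k + 1)).V (join ![a, b, fun i => -c i])
      + (gm (k + 1)).V (join ![a, fun i => -b i, c])
      + (gm (k + 1)).V (join ![a, fun i => -b i, fun i => -c i])
      + (gm (k + 1)).V (join ![fun i => -a i, b, c])
      + (gm (k + 1)).V (join ![fun i => -a i, b, fun i => -c i])
      + (gm (k + 1)).V (join ![fun i => -a i, fun i => -b i, c])
      + (gm (k + 1)).V (join ![fun i => -a i, fun i => -b i, fun i => -c i])) / 8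
    ≤ ((gm k).V a + (gm k).V b + (1 - |nn k a| * |nn k b|) / 2 * (gm k).V c) / 2
      + ((gm k).V a + (gm k).V c + (1 - |nn k a| * |nn k c|) / 2 * (gm k).V b) / 4
      + ((gm k).V b + (gm k).V c + (1 - |nn k b| * |nn k c|) / 2 * (gm k).V a) / 4 := by
  set a' : State (Lf k) := fun i => -a i with ha'
  set b' : State (Lf k) := fun i => -b i with hb'
  set c' : State (Lf k) := fun i => -c i with hc'
  have va : (gm k).V a' = (gm k).V a := A_neg k a
  have vb : (gm k).V b' = (gm k).V b := A_neg k b
  have vc : (gm k).V c' = (gm k).V c := A_neg k c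
  have na : nn k a' = -nn k a := nn_neg k a
  have nb : nn k b' = -nn k b := nn_neg k b
  have nc : nn k c' = -nn k c := nn_neg k c
  have na' : nn k a = -nn k a' := by rw [na, neg_neg]
  have nb' : nn k b = -nn k b' := by rw [nb, neg_neg]
  have nc' : nn k c = -nn k c' := by rw [nc, neg_neg]
  have aa : |nn k a'| = |nn k a| := by rw [na, abs_neg]
  have ab : |nn k b'| = |nn k b| := by rw [nb, abs_neg]
  have ac : |nn k c'| = |nn k c| := by rw [nc, abs_neg]
  change (W k a b c + W k a b c' + W k a b' c + W k a b' c' + W k a' b c + W k a' b c'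
    + W k a' b' c + W k a' b' c') / 8 ≤ _
  have pos : ∀ {x : State (Lf k)}, 0 ≤ nn k x → |nn k x| = nn k x := fun h => abs_of_nonneg h
  have neg : ∀ {x x' : State (Lf k)}, nn k x' = -nn k x → nn k x ≤ 0 → |nn k x'| = nn k x' := by
    intro x x' h1 h2
    rw [h1]
    exact abs_of_nonneg (by linarith)
  rcases le_total 0 (nn k a) with pa | pa <;> rcases le_total 0 (nn k b) with pb | pb <;>
    rcases le_total 0 (nn k c) with pc | pc
  · exact avg_pos k a b c va vb vc na nb nc (pos pa) (pos pb) (pos pc)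
  · have h := avg_pos k a b c' va vb vc.symm na nb nc' (pos pa) (pos pb) (neg nc pc)
    rw [vc, ac] at h
    linarith
  · have h := avg_pos k a b' c va vb.symm vc na nb' nc (pos pa) (neg nb pb) (pos pc)
    rw [vb, ab] at h
    linarith
  · have h := avg_pos k a b' c' va vb.symm vc.symm na nb' nc' (pos pa) (neg nb pb) (neg nc pc)
    rw [vb, vc, ab, ac] at h
    linarith
  · have h := avg_pos k a' b c va.symm vb vc na' nb nc (neg na pa) (pos pb) (pos pc)
    rw [va, aa] at h
    linarith
  · have h := avg_pos k a' b c' va.symm vb vc.symm na' nb nc' (neg na pa) (pos pb) (neg nc pc)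
    rw [va, vc, aa, ac] at h
    linarith
  · have h := avg_pos k a' b' c va.symm vb.symm vc na' nb' nc (neg na pa) (neg nb pb) (pos pc)
    rw [va, vb, aa, ab] at h
    linarith
  · have h := avg_pos k a' b' c' va.symm vb.symm vc.symm na' nb' nc' (neg na pa) (neg nb pb)
      (neg nc pc)
    rw [va, vb, vc, aa, ab, ac] at h
    linarith

theorem pred (k : ℕ) (S : Tr (Lf k))
    (h : te S (fun _ => 0) (fun t => 1 - |nn k t|) ≤ 3 / 16) :
    C (k + 1) ≤ 3 * tc S (fun _ => 0) + 11 / 5 * C k := by
  have : Finite (Lf k) := inferInstance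
  set z : State (Lf k) := fun _ => 0 with hz
  set α := te S z (gm k).V with hα
  set β := te S z (fun t => |nn k t|) with hβ
  have hβ1 : 13 / 16 ≤ β := by
    have h1 : te S z (fun t => 1 - |nn k t|) = 1 - β := by
      have h2 : (fun t => 1 - |nn k t|) = fun t => (fun _ => (1 : ℝ)) t + (-1) * |nn k t| := by
        funext t
        ring
      rw [h2, te_add, te_smul, te_const]
      ring
    rw [h1] at h
    linarith
  have hβ2 : β ≤ 1 := by
    have h1 := te_mono (F := fun t => |nn k t|) (G := fun _ => 1) (fun t => abs_nn_le k t) S z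
    rwa [te_const] at h1
  have hα1 : α ≤ C k := te_super (fun s i hi => (gm k).V_super s i hi) S z
  have hC : 0 ≤ C k := (gm k).V_nonneg _
  -- the eight inequalities
  have k1 := three k S S S z
  have k2 := three k S S S.flip z
  have k3 := three k S S.flip S z
  have k4 := three k S S.flip S.flip z
  have k5 := three k S.flip S S z
  have k6 := three k S.flip S S.flip z
  have k7 := three k S.flip S.flip S z
  have k8 := three k S.flip S.flip S.flip z
  rw [hz] at k1 k2 k3 k4 k5 k6 k7 k8
  simp only [te_flip, tc_flip] at k2 k3 k4 k5 k6 k7 k8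
  have hsum : 8 * (C (k + 1) - 3 * tc S z) ≤ E3 S fun a b c =>
      8 * ((W k a b c + W k a b (fun i => -c i) + W k a (fun i => -b i) c
        + W k a (fun i => -b i) (fun i => -c i) + W k (fun i => -a i) b c
        + W k (fun i => -a i) b (fun i => -c i) + W k (fun i => -a i) (fun i => -b i) c
        + W k (fun i => -a i) (fun i => -b i) (fun i => -c i)) / 8) := by
    have e : (fun a b c => 8 * ((W k a b c + W k a b (fun i => -c i) + W k a (fun i => -b i) c
        + W k a (fun i => -b i) (fun i => -c i) + W k (fun i => -a i) b c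
        + W k (fun i => -a i) b (fun i => -c i) + W k (fun i => -a i) (fun i => -b i) c
        + W k (fun i => -a i) (fun i => -b i) (fun i => -c i)) / 8)) =
        fun a b c => (W k a b c + W k a b (fun i => -c i) + W k a (fun i => -b i) c
        + W k a (fun i => -b i) (fun i => -c i) + W k (fun i => -a i) b c
        + W k (fun i => -a i) b (fun i => -c i) + W k (fun i => -a i) (fun i => -b i) c
        + W k (fun i => -a i) (fun i => -b i) (fun i => -c i)) := by
      funext a b c
      ring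
    rw [e, E3_add, E3_add, E3_add, E3_add, E3_add, E3_add, E3_add, C_succ]
    unfold E3
    linarith
  have hle := E3_mono S (fun a b c => mul_le_mul_of_nonneg_left (avg8 k a b c)
    (by norm_num : (0 : ℝ) ≤ 8))
  have hval : E3 S (fun a b c => 8 *
      (((gm k).V a + (gm k).V b + (1 - |nn k a| * |nn k b|) / 2 * (gm k).V c) / 2
      + ((gm k).V a + (gm k).V c + (1 - |nn k a| * |nn k c|) / 2 * (gm k).V b) / 4
      + ((gm k).V b + (gm k).V c + (1 - |nn k b| * |nn k c|) / 2 * (gm k).V a) / 4)) =
      8 * ((2 + (1 - β ^ 2) / 2) * α) := by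
    have e : (fun a b c : State (Lf k) => 8 *
      (((gm k).V a + (gm k).V b + (1 - |nn k a| * |nn k b|) / 2 * (gm k).V c) / 2
      + ((gm k).V a + (gm k).V c + (1 - |nn k a| * |nn k c|) / 2 * (gm k).V b) / 4
      + ((gm k).V b + (gm k).V c + (1 - |nn k b| * |nn k c|) / 2 * (gm k).V a) / 4)) =
      fun a b c => 7 * ((gm k).V a * 1 * 1) + 7 * (1 * (gm k).V b * 1) + 6 * (1 * 1 * (gm k).V c)
        + (-2) * (|nn k a| * |nn k b| * (gm k).V c) + (-1) * (|nn k a| * (gm k).V b * |nn k c|)
        + (-1) * ((gm k).V a * |nn k b| * |nn k c|) := by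
      funext a b c
      ring
    rw [e, E3_add, E3_add, E3_add, E3_add, E3_add,
      E3_smul S 7 fun a _ _ => (gm k).V a * 1 * 1,
      E3_smul S 7 fun _ b _ => 1 * (gm k).V b * 1,
      E3_smul S 6 fun _ _ c => 1 * 1 * (gm k).V c,
      E3_smul S (-2) fun a b c => |nn k a| * |nn k b| * (gm k).V c,
      E3_smul S (-1) fun a b c => |nn k a| * (gm k).V b * |nn k c|,
      E3_smul S (-1) fun a b c => (gm k).V a * |nn k b| * |nn k c|,
      E3_prod S (gm k).V (fun _ => 1) (fun _ => 1),
      E3_prod S (fun _ => 1) (gm k).V (fun _ => 1), E3_prod S (fun _ => 1) (fun _ => 1) (gm k).V,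
      E3_prod S (fun t => |nn k t|) (fun t => |nn k t|) (gm k).V,
      E3_prod S (fun t => |nn k t|) (gm k).V (fun t => |nn k t|),
      E3_prod S (gm k).V (fun t => |nn k t|) (fun t => |nn k t|), te_const]
    change 7 * (α * 1 * 1) + 7 * (1 * α * 1) + 6 * (1 * 1 * α) + -2 * (β * β * α)
      + -1 * (β * α * β) + -1 * (α * β * β) = _
    ring
  rw [hval] at hle
  have hfin : C (k + 1) - 3 * tc S z ≤ (2 + (1 - β ^ 2) / 2) * α := by
    have h1 := hsum.trans hle
    linarith
  have c1 : 0 ≤ 2 + (1 - β ^ 2) / 2 := by nlinarith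
  have c2 : 2 + (1 - β ^ 2) / 2 ≤ 11 / 5 := by nlinarith
  have h1 := mul_le_mul_of_nonneg_left hα1 c1
  have h2 := mul_le_mul_of_nonneg_right c2 hC
  linarith

end Pool.Agent.MP58T
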