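import Pool.Agent.Lib.MP_58cb87_lc_T.Base2

set_option autoImplicit false

/-!
# Reindexing of systems

PROOFS. All by `Sys.V_reindex`.
`rei_game`: `e : (U × Fin 3) × Lf h ≃ U × Lf (h+1)`, `e ((u, d), i) = (u, lc d i)`; `T.maj.M h (s ∘ e) = T.M (h+1) s` by
unfolding (`Top.maj`, `Top.M`, `nn_succ`; `row (s ∘ e) (u,d) = sub (row s u) d` is `rfl`).
`rei_world`: same with `wt h m (s ∘ e) = wt3 h _ s` (`Fintype.prod_prod_type`).
`rei_leaf`: `e : U × Lf 0 ≃ U`. `rei_one`: `e : Unit × Lf k ≃ Lf k`. `rei_lf`: `lsys (lfTop j) 0` has weight `∏ (1 + 0 * _) = 1`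
and `M = nn j`: `V_cmp` with `c = 1` in both directions (or `V_reindex` with `Equiv.refl`).
`one_world`: `V_cmp` with `c = 1/(1 - |m|)`, or: `Φ = (1 - |m|) * (game Top.one k).V` is a potential; if `|m| = 1` the left
side is `0`. Then `rei_one`.
-/

namespace Pool.Agent.MP58T

variable {U : Type} [Fintype U]

namespace Rei

/-- the reindexing of one level -/
def ea (U : Type) (h : ℕ) : (U × Fin 3) × Lf h ≃ U × Lf (h + 1) :=
  Equiv.prodAssoc U (Fin 3) (Lf h)

/-- the blocks of height `0` -/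
def eb (U : Type) : U × Lf 0 ≃ U := Equiv.prodPUnit U

/-- one block -/
def ec (k : ℕ) : Unit × Lf k ≃ Lf k := Equiv.punitProd (Lf k)

theorem maj_M (T : Top U) (h : ℕ) (s : State (U × Lf (h + 1))) :
    T.maj.M h (fun k => s (ea U h k)) = T.M (h + 1) s := rfl

end Rei

theorem rei_game (T : Top U) (h : ℕ) (Y : State (U × Lf (h + 1))) :
    (game T.maj h).V (fun p : (U × Fin 3) × Lf h => Y (p.1.1, lc p.1.2 p.2))
      = (game T (h + 1)).V Y :=
  Sys.V_reindex (Rei.ea U h) (game T (h + 1)) (game T.maj h) (fun _ => rfl) (fun _ => rfl)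
    (fun _ => rfl) Y

theorem rei_world (T : Top U) (h : ℕ) (m : U × Fin 3 → ℝ) (hm : ∀ p, |m p| ≤ 1) :
    (world T.maj h m hm).V (fun _ => 0)
      = (world3 T h (fun u d => m (u, d)) fun u d => hm (u, d)).V fun _ => 0 := by
  refine Sys.V_reindex (Rei.ea U h) (world3 T h (fun u d => m (u, d)) fun u d => hm (u, d))
    (world T.maj h m hm) (fun _ => rfl) (fun s => ?_) (fun _ => rfl) (fun _ => 0)
  show ∏ p : U × Fin 3, (1 + m p * nn h (row (fun k => s (Rei.ea U h k)) p)) =
    ∏ u, ∏ d, (1 + m (u, d) * nn h (sub (row s u) d))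
  rw [Fintype.prod_prod_type]
  rfl

theorem rei_leaf (T : Top U) (m : U → ℝ) (hm : ∀ u, |m u| ≤ 1) :
    (world T 0 m hm).V (fun _ => 0) = (lsys T m hm).V fun _ => 0 :=
  Sys.V_reindex (Rei.eb U) (lsys T m hm) (world T 0 m hm) (fun _ => rfl) (fun _ => rfl)
    (fun _ => rfl) (fun _ => 0)

theorem rei_one (k : ℕ) (y : State (Lf k)) :
    (game Top.one k).V (fun p : Unit × Lf k => y p.2) = (gm k).V y :=
  Sys.V_reindex (Rei.ec k) (gm k) (game Top.one k) (fun _ => rfl) (fun _ => rfl)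
    (fun _ => rfl) y

theorem rei_lf (j : ℕ) (y : State (Lf j)) :
    (lsys (lfTop j) (fun _ => 0) fun _ => by simp).V y = (gm j).V y := by
  refine Sys.V_reindex (Equiv.refl (Lf j)) (gm j) (lsys (lfTop j) (fun _ => 0) fun _ => by simp)
    (fun _ => rfl) (fun s => ?_) (fun _ => rfl) y
  show ∏ u, (1 + (0 : ℝ) * ((s u : SignType) : ℝ)) = 1
  simp

theorem one_world (k : ℕ) (m : Unit → ℝ) (hm : ∀ u, |m u| ≤ 1) :
    (1 - |m ()|) * C k ≤ (world Top.one k m hm).V fun _ => 0 := by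
  rcases (hm ()).lt_or_eq with h | h
  · have hpos : 0 < 1 - |m ()| := by linarith
    have h1 := Sys.V_cmp (game Top.one k) (world Top.one k m hm) (fun _ => rfl)
      (c := 1 / (1 - |m ()|)) (by positivity) (fun i s => ?_) (fun _ => 0)
    · have h2 : (game Top.one k).V (fun _ => 0) = C k := rei_one k fun _ => 0
      rw [h2] at h1
      calc (1 - |m ()|) * C k ≤ (1 - |m ()|) * (1 / (1 - |m ()|) *
            (world Top.one k m hm).V fun _ => 0) := mul_le_mul_of_nonneg_left h1 hpos.le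
        _ = (world Top.one k m hm).V fun _ => 0 := by
            rw [← mul_assoc, mul_one_div, div_self hpos.ne', one_mul]
    · show (1 : ℝ) * 1 ≤ 1 / (1 - |m ()|) * (1 * ∏ u : Unit, (1 + m u * nn k (row s u)))
      rw [Fintype.prod_unique]
      have h3 : |m () * nn k (row s ())| ≤ |m ()| := by
        rw [abs_mul]
        exact mul_le_of_le_one_right (abs_nonneg _) (abs_nn_le k _)
      have h4 : 1 - |m ()| ≤ 1 + m () * nn k (row s ()) := by
        linarith [neg_abs_le (m () * nn k (row s ()))]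
      show (1 : ℝ) * 1 ≤ 1 / (1 - |m ()|) * (1 * (1 + m () * nn k (row s ())))
      rw [one_mul, one_mul, one_div, ← div_eq_inv_mul, le_div_iff₀ hpos, one_mul]
      exact h4
  · rw [h, sub_self, zero_mul]
    exact Sys.V_nonneg _ _

end Pool.Agent.MP58T
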