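import Pool.Agent.Lib.MP_58cb87_lc_T.Tre

set_option autoImplicit false

/-!
# The optimal value of the guessing game

PROOFS. `F t = 1 - |nn k t|` is in `[0, 1]` (`abs_nn_le`) and superharmonic:
`(F (upd s i 1) + F (upd s i (-1)))/2 ≤ F s` because `nn k s` is the mean of the two values
(`harm_nn`). The family
`ϖ * tc T s + te T s F` is `≥ 0` (`te_mono`, `te_const`), so bounded below. `Wf_le`: the tree
`stop`. `Wf_step`: for all
`δ > 0` choose `l`, `r` with values `≤ Wf + δ` at `upd s i (-1)`, `upd s i 1`; the tree `ask i l r`.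
`Wf_super`: `tc_te_super`: for each `T` the mean of the two infima is `≤` the mean of the values of
`T`
`≤ ϖ * tc T s + te T s F`. `Wf_one`: `le_tc_te` for `F` with `a = 1` (`F s ≤ 1`, `F ≥ 0`), `nn k 0
= 0`.
`Wf_small`: `exists_all`, `nn_full`, card of `Lf k` is `3^k` (induction). `thr`: let `r` be the
least natural number with
`Wf k ((1/2)^r) 0 < 3/16` (it exists by `Wf_small`); `r ≠ 0` by `Wf_one`; `ϖ = (1/2)^r`, `2 ϖ =
(1/2)^(r-1)`, and by
minimality `Wf k (2 ϖ) 0 ≥ 3/16`; `exists_lt_of_ciInf_lt` gives the strategy.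
-/

namespace Pool.Agent.MP58T

/-- least expected value of `ϖ * (number of questions) + 1 - |mean at the end|` -/
noncomputable def Wf (k : ℕ) (ϖ : ℝ) (s : State (Lf k)) : ℝ :=
  ⨅ T : Tr (Lf k), (ϖ * tc T s + te T s fun t => 1 - |nn k t|)

namespace Wst

instance instNonemptyTr {ι : Type} : Nonempty (Tr ι) := ⟨Tr.stop⟩

/-- the loss -/
noncomputable def FF (k : ℕ) (t : State (Lf k)) : ℝ := 1 - |nn k t|

theorem FF_nonneg (k : ℕ) (t : State (Lf k)) : 0 ≤ FF k t := by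
  have := abs_nn_le k t
  unfold FF
  linarith

theorem FF_le (k : ℕ) (t : State (Lf k)) : FF k t ≤ 1 := by
  have := abs_nonneg (nn k t)
  unfold FF
  linarith

theorem FF_super (k : ℕ) (s : State (Lf k)) (i : Lf k) (hi : s i = 0) :
    (FF k (upd s i 1) + FF k (upd s i (-1))) / 2 ≤ FF k s := by
  have h := harm_nn k s i hi
  have h1 := abs_add_le (nn k (upd s i 1)) (nn k (upd s i (-1)))
  rw [← h, abs_mul, abs_of_pos (by norm_num : (0 : ℝ) < 2)] at h1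
  unfold FF
  linarith

/-- the value of a strategy -/
noncomputable def val (k : ℕ) (ϖ : ℝ) (s : State (Lf k)) (T : Tr (Lf k)) : ℝ :=
  ϖ * tc T s + te T s (FF k)

theorem Wf_eq (k : ℕ) (ϖ : ℝ) (s : State (Lf k)) : Wf k ϖ s = ⨅ T, val k ϖ s T := rfl

theorem val_nonneg (k : ℕ) {ϖ : ℝ} (h : 0 ≤ ϖ) (s : State (Lf k)) (T : Tr (Lf k)) :
    0 ≤ val k ϖ s T := by
  have h1 := mul_nonneg h (tc_nonneg T s)
  have h2 := te_mono (F := fun _ => (0 : ℝ)) (G := FF k) (FF_nonneg k) T s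
  rw [te_const] at h2
  unfold val
  linarith

theorem bdd (k : ℕ) {ϖ : ℝ} (h : 0 ≤ ϖ) (s : State (Lf k)) :
    BddBelow (Set.range (val k ϖ s)) := by
  refine ⟨0, ?_⟩
  rintro x ⟨T, rfl⟩
  exact val_nonneg k h s T

theorem Wf_le_val (k : ℕ) {ϖ : ℝ} (h : 0 ≤ ϖ) (s : State (Lf k)) (T : Tr (Lf k)) :
    Wf k ϖ s ≤ val k ϖ s T := by
  rw [Wf_eq]
  exact ciInf_le (bdd k h s) T

end Wst

open Wst

theorem Wf_nonneg (k : ℕ) {ϖ : ℝ} (h : 0 ≤ ϖ) (s : State (Lf k)) : 0 ≤ Wf k ϖ s := by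
  rw [Wf_eq]
  exact le_ciInf fun T => val_nonneg k h s T

theorem Wf_le (k : ℕ) {ϖ : ℝ} (h : 0 ≤ ϖ) (s : State (Lf k)) : Wf k ϖ s ≤ 1 - |nn k s| := by
  refine (Wf_le_val k h s Tr.stop).trans (le_of_eq ?_)
  rw [val, tc, te, FF]
  ring

theorem Wf_step (k : ℕ) {ϖ : ℝ} (h : 0 ≤ ϖ) (s : State (Lf k)) (i : Lf k) (hi : s i = 0) :
    Wf k ϖ s ≤ ϖ + (Wf k ϖ (upd s i 1) + Wf k ϖ (upd s i (-1))) / 2 := by
  refine le_of_forall_pos_le_add fun δ hδ => ?_
  obtain ⟨r, hr⟩ := exists_lt_of_ciInf_lt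
    (show (⨅ T, val k ϖ (upd s i 1) T) < Wf k ϖ (upd s i 1) + δ by
      rw [Wf_eq]
      linarith)
  obtain ⟨l, hl⟩ := exists_lt_of_ciInf_lt
    (show (⨅ T, val k ϖ (upd s i (-1)) T) < Wf k ϖ (upd s i (-1)) + δ by
      rw [Wf_eq]
      linarith)
  have h1 := Wf_le_val k h s (Tr.ask i l r)
  rw [val, Tre.tc0 hi, Tre.te0 hi] at h1
  unfold val at hr hl
  linarith

theorem Wf_super (k : ℕ) {ϖ : ℝ} (h : 0 ≤ ϖ) (s : State (Lf k)) (i : Lf k) (hi : s i = 0) :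
    (Wf k ϖ (upd s i 1) + Wf k ϖ (upd s i (-1))) / 2 ≤ Wf k ϖ s := by
  rw [Wf_eq k ϖ s]
  refine le_ciInf fun T => ?_
  have h1 := Wf_le_val k h (upd s i 1) T
  have h2 := Wf_le_val k h (upd s i (-1)) T
  have h3 := tc_te_super (F := FF k) (FF_super k) h T s i hi
  unfold val at h1 h2 ⊢
  linarith

theorem Wf_one (k : ℕ) : 1 ≤ Wf k 1 fun _ => 0 := by
  rw [Wf_eq]
  refine le_ciInf fun T => ?_
  have h1 := le_tc_te (F := FF k) (a := 1) (fun s i _ => by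
    have h1 := FF_le k s
    have h2 := FF_nonneg k (upd s i 1)
    have h3 := FF_nonneg k (upd s i (-1))
    linarith) T fun _ => 0
  have h2 : FF k (fun _ => 0) = 1 := by
    rw [FF, nn_zero, abs_zero, sub_zero]
  rw [h2] at h1
  exact h1

theorem card_Lf (k : ℕ) : Fintype.card (Lf k) = 3 ^ k := by
  induction k with
  | zero => rfl
  | succ k ih =>
    have h1 : Fintype.card (Lf (k + 1)) = Fintype.card (Fin 3 × Lf k) := rfl
    rw [h1, Fintype.card_prod, ih, Fintype.card_fin, pow_succ, mul_comm]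

theorem Wf_small (k : ℕ) {ϖ : ℝ} (h : 0 ≤ ϖ) : Wf k ϖ (fun _ => 0) ≤ ϖ * 3 ^ k := by
  obtain ⟨T, hT⟩ := exists_all (ι := Lf k)
  obtain ⟨h1, h2⟩ := hT fun _ => 0
  refine (Wf_le_val k h _ T).trans ?_
  have h3 : te T (fun _ => 0) (FF k) = 0 := by
    refine h2 (FF k) fun t ht => ?_
    rw [FF, nn_full k t ht, sub_self]
  rw [card_Lf] at h1
  push_cast at h1
  rw [val, h3, add_zero]
  exact mul_le_mul_of_nonneg_left h1 h

theorem thr (k : ℕ) : ∃ ϖ : ℝ, 0 < ϖ ∧ 1 / 8 ≤ Wf k (2 * ϖ) (fun _ => 0) ∧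
    ∃ S : Tr (Lf k), (ϖ * tc S (fun _ => 0) + te S (fun _ => 0) fun t => 1 - |nn k t|)
      ≤ 3 / 16 := by
  classical
  have hex : ∃ r : ℕ, Wf k ((1 / 2) ^ r) (fun _ => 0) < 3 / 16 := by
    obtain ⟨r, hr⟩ := exists_pow_lt_of_lt_one
      (show (0 : ℝ) < 3 / 16 / 3 ^ k by positivity) (show (1 / 2 : ℝ) < 1 by norm_num)
    refine ⟨r, (Wf_small k (by positivity)).trans_lt ?_⟩
    rwa [lt_div_iff₀ (by positivity)] at hr
  have h1 := Nat.find_spec hex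
  have h2 : ∀ m, m < Nat.find hex → ¬ Wf k ((1 / 2) ^ m) (fun _ => 0) < 3 / 16 :=
    fun m hm => Nat.find_min hex hm
  generalize Nat.find hex = r at h1 h2
  cases r with
  | zero =>
    exfalso
    rw [pow_zero] at h1
    have := Wf_one k
    linarith
  | succ m =>
    have h3 := h2 m (Nat.lt_succ_self m)
    have h4 : (2 : ℝ) * (1 / 2) ^ (m + 1) = (1 / 2) ^ m := by
      rw [pow_succ]
      ring
    refine ⟨(1 / 2) ^ (m + 1), by positivity, ?_, ?_⟩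
    · rw [h4]
      linarith [not_lt.1 h3]
    · obtain ⟨S, hS⟩ := exists_lt_of_ciInf_lt h1
      exact ⟨S, hS.le⟩

end Pool.Agent.MP58T
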