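import Pool.Agent.Lib.MP_58cb87_lc_T.Bl
import Pool.Agent.Lib.MP_58cb87_lc_T.Rei
import Pool.Agent.Lib.MP_58cb87_lc_T.Dec
import Pool.Agent.Lib.MP_58cb87_lc_T.Wst
import Pool.Agent.Lib.MP_58cb87_lc_T.Pred
import Pool.Agent.Lib.MP_58cb87_lc_T.Ey

set_option autoImplicit false

/-!
# Prediction and decomposition

PROOF. Take `ϖ`, `S` from `thr k`; `W = Wf k (2 ϖ)`, `θ = (1/8) / W 0 ∈ (0, 1]`. Apply `bl` with `T = lfTop j`, `m = 0`,
`ω u τ = θ * W τ`, `y = 0`, price `2 ϖ`: `h1`, `h2` from `Wf_le` (`θ W ≤ W ≤ 1 - |nn| ≤ 1 ± nn`), `h3` from `Wf_super`,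
`h4` from `Wf_step` (`θ * 2ϖ ≤ 2ϖ`). `θ * W 0 = 1/8`, `nn k 0 = 0`: `pr (1/8) 0 0 = rho`. The weight of `lsys (lfTop j) 0` is
`1` and `rei_lf`; so the left side is `VV j`, and with `dec`: `VV j ≤ 2 ϖ * C (k + j)`. From `pred` (`tc ≥ 0` so
`te S 0 .. ≤ 3/16`) and `ϖ * tc S 0 ≤ 3/16` (`te ≥ 0`): `ϖ * (C (k+1) - 11/5 * C k) ≤ 9/16`. If
`C (k+1) ≤ 11/5 * C k` the left side is `≤ 0 ≤ C (k+j)` (`VV j ≥ 0`); otherwise multiply.
-/

namespace Pool.Agent.MP58T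

theorem VV_nonneg (j : ℕ) : 0 ≤ VV j := by
  have h1 : Ey j (fun _ => 0) ≤ Ey j (gm j).V := Ey_mono j fun y => (gm j).V_nonneg y
  rwa [Ey_const] at h1

namespace Pd

theorem pr_eq_rho : pr (1 / 8) 0 0 = rho := by
  funext b
  unfold pr rho
  split_ifs
  · rfl
  · ring

/-- the lower bound by the game on the top -/
theorem low (j k : ℕ) {ϖ : ℝ} (hϖ : 0 < ϖ) (hW : 1 / 8 ≤ Wf k (2 * ϖ) (fun _ => 0)) :
    VV j ≤ 2 * ϖ * C (k + j) := by
  have h2ϖ : 0 < 2 * ϖ := by positivity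
  have hW0 : 0 < Wf k (2 * ϖ) (fun _ => 0) := lt_of_lt_of_le (by norm_num) hW
  obtain ⟨θ, hθ⟩ : ∃ θ : ℝ, θ = (1 / 8) / Wf k (2 * ϖ) (fun _ => 0) := ⟨_, rfl⟩
  have hθ0 : 0 ≤ θ := by rw [hθ]; positivity
  have hθ1 : θ ≤ 1 := by rw [hθ, div_le_one hW0]; exact hW
  have hθW : θ * Wf k (2 * ϖ) (fun _ => 0) = 1 / 8 := by
    rw [hθ, div_mul_cancel₀ _ hW0.ne']
  have hle : ∀ τ : State (Lf k), θ * Wf k (2 * ϖ) τ ≤ 1 - |nn k τ| := fun τ =>
    (mul_le_of_le_one_left (Wf_nonneg k h2ϖ.le τ) hθ1).trans (Wf_le k h2ϖ.le τ)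
  have key := bl (lfTop j) k (fun _ => 0) (fun _ => by simp) (fun _ => by simp)
    (fun _ τ => θ * Wf k (2 * ϖ) τ) (fun _ => 0) h2ϖ
    (fun u τ _ => mul_nonneg hθ0 (Wf_nonneg k h2ϖ.le τ))
    (fun u τ _ => by
      have h1 := hle τ
      have h2 := neg_abs_le (nn k τ)
      linarith)
    (fun u τ _ => by
      have h1 := hle τ
      have h2 := le_abs_self (nn k τ)
      linarith)
    (fun u τ i _ hi => by
      have h1 := mul_le_mul_of_nonneg_left (Wf_super k h2ϖ.le τ i hi) hθ0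
      linarith)
    (fun u τ i _ hi => by
      have h1 := mul_le_mul_of_nonneg_left (Wf_step k h2ϖ.le τ i hi) hθ0
      have h2 := mul_le_of_le_one_left h2ϖ.le hθ1
      linarith)
  rw [dec] at key
  have e1 : (fun u : Lf j => pr (θ * Wf k (2 * ϖ) (row (fun _ : Lf j × Lf k => (0 : SignType)) u))
      0 (nn k (row (fun _ : Lf j × Lf k => (0 : SignType)) u))) = fun _ => rho := by
    funext u
    have h1 : row (fun _ : Lf j × Lf k => (0 : SignType)) u = fun _ => 0 := rfl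
    rw [h1, nn_zero, hθW, pr_eq_rho]
  have e2 : (fun c => (lsys (lfTop j) (fun _ => 0) fun _ => by simp).V c /
      (lsys (lfTop j) (fun _ => 0) fun _ => by simp).w c) = (gm j).V := by
    funext c
    rw [rei_lf j c]
    have h2 : (lsys (lfTop j) (fun _ => 0) fun _ => by simp).w c = 1 := by
      show ∏ u, (1 + (0 : ℝ) * ((c u : SignType) : ℝ)) = 1
      simp
    rw [h2, div_one]
  rw [e1, e2] at key
  exact key

end Pd

theorem pd (j k : ℕ) : 8 / 9 * (C (k + 1) - 11 / 5 * C k) * VV j ≤ C (k + j) := by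
  obtain ⟨ϖ, hϖ, hW, S, hS⟩ := thr k
  have h1 := Pd.low j k hϖ hW
  have hC : 0 ≤ C (k + j) := (gm (k + j)).V_nonneg _
  have hV := VV_nonneg j
  have htc := tc_nonneg S (fun _ => 0)
  have hte : 0 ≤ te S (fun _ => 0) fun t => 1 - |nn k t| := by
    have h2 := te_mono (F := fun _ : State (Lf k) => (0 : ℝ)) (G := fun t => 1 - |nn k t|)
      (fun t => by have := abs_nn_le k t; linarith) S (fun _ => 0)
    rwa [te_const] at h2
  have hϖtc : 0 ≤ ϖ * tc S (fun _ => 0) := mul_nonneg hϖ.le htc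
  have h3 := pred k S (by linarith)
  have h4 : ϖ * (C (k + 1) - 11 / 5 * C k) ≤ 9 / 16 := by
    have h5 := mul_le_mul_of_nonneg_left h3 hϖ.le
    linarith
  rcases le_or_gt (C (k + 1) - 11 / 5 * C k) 0 with h5 | h5
  · refine le_trans ?_ hC
    exact mul_nonpos_of_nonpos_of_nonneg (by linarith) hV
  · have h6 : 8 / 9 * (C (k + 1) - 11 / 5 * C k) * VV j ≤
        8 / 9 * (C (k + 1) - 11 / 5 * C k) * (2 * ϖ * C (k + j)) :=
      mul_le_mul_of_nonneg_left h1 (by positivity)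
    have h7 := mul_le_mul_of_nonneg_right h4 hC
    linarith

end Pool.Agent.MP58T
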