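import Pool.Agent.Lib.MP_58cb87_lc_T.VjB

set_option autoImplicit false

/-!
# The mean cost after random erasures is at least the cost, up to a polynomial
-/

namespace Pool.Agent.MP58T

theorem C_le_three (k : ℕ) : C k ≤ 3 ^ k :=
  (A_le k _).trans (pow_le_pow_left₀ (by norm_num) (by norm_num) k)

theorem VV_ge (hsub : ∀ a b : ℕ, C (a + b) ≤ C a * C b) {j : ℕ} (hj : 1 ≤ j) :
    C j ≤ 8 * 3 ^ 196 * (2 * (j : ℝ)) ^ 32 * VV j := by
  have hp := par_pow hj
  have hV0 : 0 ≤ VV j := le_trans (by norm_num) (VV_ge_const j)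
  suffices h : C j ≤ 8 * 3 ^ (196 + 20 * Nat.clog 2 j) * VV j by
    refine h.trans ?_
    have := mul_le_mul_of_nonneg_right hp hV0
    linarith
  rcases Nat.lt_or_ge j (196 + 20 * Nat.clog 2 j) with hlt | hge
  · have h1 : (3 : ℝ) ^ j ≤ 3 ^ (196 + 20 * Nat.clog 2 j) :=
      pow_le_pow_right₀ (by norm_num) hlt.le
    have h2 := C_le_three j
    have h3 := VV_ge_const j
    have h4 : (0 : ℝ) ≤ 3 ^ (196 + 20 * Nat.clog 2 j) := by positivity
    nlinarith
  · obtain ⟨N, hN⟩ := Nat.exists_eq_add_of_le hge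
    have h1 := VV_ge_tree N j hN
    have h2 := C_le_three (196 + 20 * Nat.clog 2 j)
    have hC : 0 ≤ C N := (gm N).V_nonneg _
    have h3 : C j ≤ 3 ^ (196 + 20 * Nat.clog 2 j) * C N := by
      calc C j = C (196 + 20 * Nat.clog 2 j + N) := by rw [← hN]
        _ ≤ C (196 + 20 * Nat.clog 2 j) * C N := hsub _ _
        _ ≤ _ := mul_le_mul_of_nonneg_right h2 hC
    have h4 : (0 : ℝ) ≤ 3 ^ (196 + 20 * Nat.clog 2 j) := by positivity
    nlinarith

end Pool.Agent.MP58T
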