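import Pool.Agent.Lib.MP_58cb87_lc_T.LnkE
import Pool.Agent.Lib.MP_58cb87_lc_T.LnkA
import Pool.Agent.Lib.MP_58cb87_lc_T.LnkB
import Pool.Agent.Lib.MP_58cb87_lc_T.Pd
import Pool.Agent.Lib.MP_58cb87_lc_T.Vj
import Pool.Agent.Lib.MP_58cb87_lc_T.Ana
import Pool.Agent.Lib.MP_58cb87_lc.Sym

set_option autoImplicit false

/-!
# The order of magnitude of the revealment
-/

namespace Pool.Agent.MP58T

open Pool.Agent.MP_58cb87_lc (revealment iterMaj le_revealment revealment_le_cost cost_of_NR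
  revealment_submul revealment_ge)

theorem C_eq (k : ℕ) : C k = 3 ^ k * revealment (iterMaj k) := by
  have h3 : (0 : ℝ) < 3 ^ k := by positivity
  have hne : Nonempty (Fin (3 ^ k)) := ⟨⟨0, by positivity⟩⟩
  rw [C_eq_fm]
  apply le_antisymm
  · have h := le_revealment (iterMaj k) ((fm k).V fun _ => 0) (fm_le_cost k)
    rw [Fintype.card_fin] at h
    push_cast at h
    rwa [div_le_iff₀' h3] at h
  · obtain ⟨T, h1, h2, h4⟩ := exists_opt k
    have h := revealment_le_cost k T h2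
    rw [cost_of_NR T h1, le_div_iff₀' h3] at h
    exact h.trans h4

theorem C_sub (a b : ℕ) : C (a + b) ≤ C a * C b := by
  have h := revealment_submul b a
  rw [C_eq, C_eq, C_eq, pow_add]
  have h3 : (0 : ℝ) < 3 ^ a * 3 ^ b := by positivity
  calc (3 : ℝ) ^ a * 3 ^ b * revealment (iterMaj (a + b))
      ≤ 3 ^ a * 3 ^ b * (revealment (iterMaj b) * revealment (iterMaj a)) :=
        mul_le_mul_of_nonneg_left h h3.le
    _ = _ := by ring

theorem C_low (k : ℕ) : (23 / 10) ^ k ≤ C k := by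
  have h := revealment_ge k
  rw [C_eq]
  have h3 : (0 : ℝ) < 3 ^ k := by positivity
  calc ((23 : ℝ) / 10) ^ k = 3 ^ k * (23 / 30) ^ k := by rw [← mul_pow]; norm_num
    _ ≤ _ := mul_le_mul_of_nonneg_left h h3.le

theorem C_zero : C 0 = 1 := by
  apply le_antisymm
  · have h := A_le 0 fun _ => 0
    rw [pow_zero] at h
    exact h
  · simpa using C_low 0

theorem order_of_magnitude : ∃ lam : ℝ, 0 < lam ∧ ∀ k : ℕ, 1 ≤ k →
    lam ^ k ≤ revealment (iterMaj k) ∧
      revealment (iterMaj k) ≤ (10000 * (k : ℝ)) ^ 32 * lam ^ k := by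
  obtain ⟨L, hL, h⟩ := ana C VV C_zero C_low C_sub pd fun j hj => VV_ge C_sub hj
  refine ⟨L / 3, by positivity, fun k hk => ?_⟩
  obtain ⟨h1, h2⟩ := h k hk
  rw [C_eq] at h1 h2
  have h3 : (0 : ℝ) < 3 ^ k := by positivity
  rw [div_pow]
  constructor
  · rwa [div_le_iff₀' h3]
  · rw [← mul_div_assoc, le_div_iff₀' h3]
    exact h2

end Pool.Agent.MP58T
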