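import Pool.Agent.Lib.MP_58cb87_lc_T.Nn

set_option autoImplicit false

/-!
# Algebra for the replacement of a block: `DQ`

`DQ m n x` is (up to the uniform weight) the probability that the majority is `x` and that the
transcript has means `n`, when the three bits have independent priors `m`.

PROOFS. All identities by `unfold DQ mj` (and `Fin.prod_univ_three`, `Fin.sum_univ_three`) and
`ring`. `DQ_aff`: `DQ m (upd n i a) x` is affine in `a` (`fin_cases i`, `upd_same`, `upd_ne`).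
`DQ_nonneg`, `DQ_upper` for `x = 1`: with `P i = (1 + m i)(1 + n i)`, `N i = (1 - m i)(1 - n i)`
one has `8 * DQ m n 1 = P0 P1 P2 + P0 P1 N2 + P0 N1 P2 + N0 P1 P2` and
`4 (1 + mj (n 0) (n 1) (n 2)) = P0' P1' P2' + P0' P1' N2' + P0' N1' P2' + N0' P1' P2'`, where
`P' i = 1 + n i`, `N' i = 1 - n i`; each factor satisfies `0 ≤ P i ≤ (1+t) P' i` and
`0 ≤ N i ≤ (1+t) N' i`; `(1 + t)^3 ≤ 2`. For `x = -1` replace `m, n` by `-m, -n`
(`DQ (-m) (-n) x = DQ m n (-x)`, `mj` is odd).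
-/

namespace Pool.Agent.MP58T

/-- joint weight of the majority value `x` and of the transcript with means `n`, priors `m` -/
noncomputable def DQ (m n : Fin 3 → ℝ) (x : ℝ) : ℝ :=
  ((1 + m 0 * n 0) * (1 + m 1 * n 1) * (1 + m 2 * n 2)
    + x * (((m 0 + n 0) * (1 + m 1 * n 1) * (1 + m 2 * n 2)
      + (1 + m 0 * n 0) * (m 1 + n 1) * (1 + m 2 * n 2)
      + (1 + m 0 * n 0) * (1 + m 1 * n 1) * (m 2 + n 2)
      - (m 0 + n 0) * (m 1 + n 1) * (m 2 + n 2)) / 2)) / 2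

theorem DQ_add (m n : Fin 3 → ℝ) : DQ m n 1 + DQ m n (-1) = ∏ i, (1 + m i * n i) := by
  rw [Fin.prod_univ_three]
  unfold DQ
  ring

theorem DQ_zero (m : Fin 3 → ℝ) (x : ℝ) :
    DQ m (fun _ => 0) x = (1 + x * mj (m 0) (m 1) (m 2)) / 2 := by
  unfold DQ mj
  ring

theorem DQ_aff (m n : Fin 3 → ℝ) (x : ℝ) (i : Fin 3) (a b : ℝ) :
    DQ m (upd n i a) x + DQ m (upd n i b) x = 2 * DQ m (upd n i ((a + b) / 2)) x := by
  fin_cases i <;> simp [DQ, upd] <;> ring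

namespace Gal

theorem three {s p q r p' q' r' : ℝ} (hs : 0 ≤ s) (_hp : 0 ≤ p) (hq : 0 ≤ q) (hr : 0 ≤ r)
    (hp' : 0 ≤ p') (hq' : 0 ≤ q') (h1 : p ≤ s * p') (h2 : q ≤ s * q')
    (h3 : r ≤ s * r') : p * q * r ≤ s ^ 3 * (p' * q' * r') := by
  have h4 : p * q ≤ (s * p') * (s * q') := mul_le_mul h1 h2 hq (mul_nonneg hs hp')
  have h5 : p * q * r ≤ (s * p') * (s * q') * (s * r') :=
    mul_le_mul h4 h3 hr (mul_nonneg (mul_nonneg hs hp') (mul_nonneg hs hq'))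
  calc p * q * r ≤ (s * p') * (s * q') * (s * r') := h5
    _ = s ^ 3 * (p' * q' * r') := by ring

theorem fac {m n t : ℝ} (ht : t ≤ 1 / 200) (hm : |m| ≤ t) (hn : |n| ≤ 1) :
    0 ≤ 1 + n ∧ 0 ≤ 1 - n ∧ 0 ≤ (1 + m) * (1 + n) ∧ 0 ≤ (1 - m) * (1 - n) ∧
      (1 + m) * (1 + n) ≤ (1 + t) * (1 + n) ∧ (1 - m) * (1 - n) ≤ (1 + t) * (1 - n) := by
  rw [abs_le] at hm hn
  have h1 : 0 ≤ 1 + n := by linarith
  have h2 : 0 ≤ 1 - n := by linarith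
  refine ⟨h1, h2, mul_nonneg (by linarith) h1, mul_nonneg (by linarith) h2,
    mul_le_mul_of_nonneg_right (by linarith) h1, mul_le_mul_of_nonneg_right (by linarith) h2⟩

theorem DQ_one (m n : Fin 3 → ℝ) : 8 * DQ m n 1 =
    ((1 + m 0) * (1 + n 0)) * ((1 + m 1) * (1 + n 1)) * ((1 + m 2) * (1 + n 2))
    + ((1 + m 0) * (1 + n 0)) * ((1 + m 1) * (1 + n 1)) * ((1 - m 2) * (1 - n 2))
    + ((1 + m 0) * (1 + n 0)) * ((1 - m 1) * (1 - n 1)) * ((1 + m 2) * (1 + n 2))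
    + ((1 - m 0) * (1 - n 0)) * ((1 + m 1) * (1 + n 1)) * ((1 + m 2) * (1 + n 2)) := by
  unfold DQ
  ring

theorem mj_one (a b c : ℝ) : 4 * (1 + mj a b c) =
    (1 + a) * (1 + b) * (1 + c) + (1 + a) * (1 + b) * (1 - c)
    + (1 + a) * (1 - b) * (1 + c) + (1 - a) * (1 + b) * (1 + c) := by
  unfold mj
  ring

theorem DQ_neg (m n : Fin 3 → ℝ) : DQ m n (-1) = DQ (fun i => -m i) (fun i => -n i) 1 := by
  unfold DQ
  ring

theorem mj_neg (a b c : ℝ) : mj (-a) (-b) (-c) = -mj a b c := by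
  unfold mj
  ring

theorem nonneg_one {m n : Fin 3 → ℝ} {t : ℝ} (ht : t ≤ 1 / 200) (hm : ∀ i, |m i| ≤ t)
    (hn : ∀ i, |n i| ≤ 1) : 0 ≤ DQ m n 1 := by
  obtain ⟨_, _, p0, q0, _, _⟩ := fac ht (hm 0) (hn 0)
  obtain ⟨_, _, p1, q1, _, _⟩ := fac ht (hm 1) (hn 1)
  obtain ⟨_, _, p2, q2, _, _⟩ := fac ht (hm 2) (hn 2)
  have h := DQ_one m n
  have h1 := mul_nonneg (mul_nonneg p0 p1) p2
  have h2 := mul_nonneg (mul_nonneg p0 p1) q2
  have h3 := mul_nonneg (mul_nonneg p0 q1) p2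
  have h4 := mul_nonneg (mul_nonneg q0 p1) p2
  linarith

theorem upper_one {m n : Fin 3 → ℝ} {t : ℝ} (ht : t ≤ 1 / 200) (hm : ∀ i, |m i| ≤ t)
    (hn : ∀ i, |n i| ≤ 1) : DQ m n 1 ≤ 1 + mj (n 0) (n 1) (n 2) := by
  obtain ⟨a0, b0, p0, q0, u0, v0⟩ := fac ht (hm 0) (hn 0)
  obtain ⟨a1, b1, p1, q1, u1, v1⟩ := fac ht (hm 1) (hn 1)
  obtain ⟨a2, b2, p2, q2, u2, v2⟩ := fac ht (hm 2) (hn 2)
  have ht0 : 0 ≤ t := (abs_nonneg _).trans (hm 0)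
  have hs : (0 : ℝ) ≤ 1 + t := by linarith
  have hs3 : (1 + t) ^ 3 ≤ 2 := by
    have h : (1 + t) ^ 3 ≤ (1 + 1 / 200) ^ 3 := pow_le_pow_left₀ hs (by linarith) 3
    refine h.trans (by norm_num)
  have h := DQ_one m n
  have hj := mj_one (n 0) (n 1) (n 2)
  have h1 := three hs p0 p1 p2 a0 a1 u0 u1 u2
  have h2 := three hs p0 p1 q2 a0 a1 u0 u1 v2
  have h3 := three hs p0 q1 p2 a0 b1 u0 v1 u2
  have h4 := three hs q0 p1 p2 b0 a1 v0 u1 u2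
  have hsum : 0 ≤ 4 * (1 + mj (n 0) (n 1) (n 2)) := by
    rw [hj]
    have k1 := mul_nonneg (mul_nonneg a0 a1) a2
    have k2 := mul_nonneg (mul_nonneg a0 a1) b2
    have k3 := mul_nonneg (mul_nonneg a0 b1) a2
    have k4 := mul_nonneg (mul_nonneg b0 a1) a2
    linarith
  have h5 : 8 * DQ m n 1 ≤ (1 + t) ^ 3 * (4 * (1 + mj (n 0) (n 1) (n 2))) := by
    rw [h, hj]
    linarith
  have h6 : (1 + t) ^ 3 * (4 * (1 + mj (n 0) (n 1) (n 2))) ≤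
      2 * (4 * (1 + mj (n 0) (n 1) (n 2))) := mul_le_mul_of_nonneg_right hs3 hsum
  linarith

end Gal

theorem DQ_nonneg {m n : Fin 3 → ℝ} {t : ℝ} (ht : t ≤ 1 / 200) (hm : ∀ i, |m i| ≤ t)
    (hn : ∀ i, |n i| ≤ 1) {x : ℝ} (hx : x = 1 ∨ x = -1) : 0 ≤ DQ m n x := by
  rcases hx with rfl | rfl
  · exact Gal.nonneg_one ht hm hn
  · rw [Gal.DQ_neg]
    exact Gal.nonneg_one ht (fun i => by rw [abs_neg]; exact hm i)
      (fun i => by rw [abs_neg]; exact hn i)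

theorem DQ_upper {m n : Fin 3 → ℝ} {t : ℝ} (ht : t ≤ 1 / 200) (hm : ∀ i, |m i| ≤ t)
    (hn : ∀ i, |n i| ≤ 1) {x : ℝ} (hx : x = 1 ∨ x = -1) :
    DQ m n x ≤ 1 + x * mj (n 0) (n 1) (n 2) := by
  rcases hx with rfl | rfl
  · rw [one_mul]
    exact Gal.upper_one ht hm hn
  · rw [Gal.DQ_neg]
    have h := Gal.upper_one (m := fun i => -m i) (n := fun i => -n i) ht
      (fun i => by rw [abs_neg]; exact hm i) (fun i => by rw [abs_neg]; exact hn i)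
    rw [Gal.mj_neg] at h
    linarith

end Pool.Agent.MP58T
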