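import Pool.Agent.Lib.MP_58cb87_lc_T.Gdef

set_option autoImplicit false

/-!
# The main inequality of the replacement

PROOF. By the symmetry `m, n ↦ -m, -n` (`DQ (-m) (-n) x = DQ m n (-x)`, `mj` odd, `al` odd, `gg` even
under both) it is enough to take `x = 1`. Put `μ = mj (m 0) (m 1) (m 2)`, `P = 2 DQ m n 1 / (1 + μ)`,
`U = 1 + mj (n 0) (n 1) (n 2)`; claim `P ≥ gg * U`. Let `π i = 1 + m i`, `ν i = 1 - m i`,
`a i = 1 + n i`, `b i = 1 - n i`. Then
`4 (1 + μ) P = π0π1π2 a0a1a2 + π0π1ν2 a0a1b2 + π0ν1π2 a0b1a2 + ν0π1π2 b0a1a2`,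
`4 U = a0a1a2 + a0a1b2 + a0b1a2 + b0a1a2`, and `4 (1+μ) = π0π1π2 + π0π1ν2 + π0ν1π2 + ν0π1π2`.
So `P = ∑ q_b (product)`, with four numbers `q_b` of sum `1`, `|4 q_b - 1| ≤ 5 t`
(`(1+t)^3/(1 - 1.51 t) ≤ 1 + 5 t`, `(1-t)^3/(1+1.51 t) ≥ 1 - 5 t` for `0 ≤ t ≤ 1/200`;
`t ≥ 0` follows from `hm`), and `U = ∑ (1/4) (product)`.

(i) `U < 1/2`: `P ≥ (1 - 5 t) U` (all products are `≥ 0`). `|mj n| ≥ 1/2` and
`|mj n| ≤ (|n 0|+|n 1|+|n 2|)/2` (`mj_abs_le`) give `σ = |n 0|+|n 1|+|n 2| ≥ 1`; `∑ n_i² ≥ σ²/3`;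
`gg ≤ 1 + 5 t σ - 30 t σ²/3 ≤ 1 - 5 t` because `10 σ² ≥ 5 σ + 5` for `σ ≥ 1`. So `P ≥ gg U`.

(ii) `U ≥ 1/2`: expand the products: `P = 1 + ∑ n_i E_i + ∑_{i<j} n_i n_j E_ij + n0 n1 n2 E_012`
with `E_i = 1/2 + a_i`, `a_i = (2 m_i + c_i - μ)/(2 (1 + μ))`, `c_0 = m0 (m1+m2) - m1 m2` (cyclic),
`|E_ij| ≤ 5 t`, `|E_012 + 1/2| ≤ 5 t`, and `U = 1 + (n0+n1+n2)/2 - n0 n1 n2/2`. With `al_i` the
coefficient of `gg`: `a_i - al_i = (c_i - μ (2 m_i - μ))/(2 (1 - μ²))`, so `|a_i - al_i| ≤ 5 t²`. Then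
`P - gg U = ∑ (a_i - al_i) n_i + (∑ al_i n_i)(1 - U) + ∑_{i<j} n_i n_j E_ij + n0n1n2 (E_012 + 1/2)
  + (30 t ∑ n_i² + 10 t² ∑ |n_i|) U`. Here `|1 - U| = |mj n| ≤ σ/2`, `|∑ al_i n_i| ≤ 5 t σ`,
`σ² ≤ 3 ∑ n_i²`, `∑_{i<j} |n_i n_j| ≤ ∑ n_i²`, `|n0 n1 n2| ≤ (1/3) ∑ n_i²`; so
`P - gg U ≥ -5 t² σ - 7.5 t ∑ n_i² - 5 t (4/3) ∑ n_i² + 15 t ∑ n_i² + 5 t² σ ≥ 0`.
-/

namespace Pool.Agent.MP58T

namespace Gcoe

theorem two {a b t : ℝ} (ha : |a| ≤ t) (hb : |b| ≤ t) : |a * b| ≤ t * t := by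
  rw [abs_mul]
  exact mul_le_mul ha hb (abs_nonneg _) ((abs_nonneg a).trans ha)

theorem three {a b c t : ℝ} (ht : t ≤ 1 / 200) (ha : |a| ≤ t) (hb : |b| ≤ t) (hc : |c| ≤ t) :
    |a * b * c| ≤ t * t / 200 := by
  have h1 := two ha hb
  have t0 : 0 ≤ t := (abs_nonneg a).trans ha
  rw [abs_mul]
  calc |a * b| * |c| ≤ (t * t) * t := mul_le_mul h1 hc (abs_nonneg _) (by positivity)
    _ ≤ (t * t) * (1 / 200) := mul_le_mul_of_nonneg_left ht (by positivity)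
    _ = _ := by ring

/-- bounds of the priors -/
theorem mu_bd {a b c t : ℝ} (ht : t ≤ 1 / 200) (ha : |a| ≤ t) (hb : |b| ≤ t) (hc : |c| ≤ t) :
    |mj a b c| ≤ 151 / 100 * t := by
  have h3 := abs_le.1 (three ht ha hb hc)
  have t0 : 0 ≤ t := (abs_nonneg a).trans ha
  have ha' := abs_le.1 ha
  have hb' := abs_le.1 hb
  have hc' := abs_le.1 hc
  have h4 : t * t ≤ t / 200 := by nlinarith
  unfold mj
  rw [abs_le]
  constructor <;> linarith [h3.1, h3.2, ha'.1, ha'.2, hb'.1, hb'.2, hc'.1, hc'.2]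

/-- the four weights -/
theorem wt_bd {a b c t : ℝ} (ht : t ≤ 1 / 200) (ha : |a| ≤ t) (hb : |b| ≤ t) (hc : |c| ≤ t) :
    |(1 + a) * (1 + b) * (1 + c) - (1 + mj a b c)| ≤ 5 * t * (1 + mj a b c) ∧
    |(1 - a) * (1 + b) * (1 + c) - (1 + mj a b c)| ≤ 5 * t * (1 + mj a b c) := by
  have h3 := abs_le.1 (three ht ha hb hc)
  have t0 : 0 ≤ t := (abs_nonneg a).trans ha
  have hμ := abs_le.1 (mu_bd ht ha hb hc)
  have h4 : t * t ≤ t / 200 := by nlinarith
  have h5 : 49 / 10 * t ≤ 5 * t * (1 + mj a b c) := by nlinarith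
  have ha' := abs_le.1 ha
  have hb' := abs_le.1 hb
  have hc' := abs_le.1 hc
  have h1 := abs_le.1 (two ha hb)
  have h2 := abs_le.1 (two ha hc)
  have h6 := abs_le.1 (two hb hc)
  constructor
  · refine le_trans ?_ h5
    unfold mj
    rw [abs_le]
    constructor <;> nlinarith [h3.1, h3.2, ha'.1, ha'.2, hb'.1, hb'.2, hc'.1, hc'.2, h1.1, h1.2,
      h2.1, h2.2, h6.1, h6.2]
  · refine le_trans ?_ h5
    unfold mj
    rw [abs_le]
    constructor <;> nlinarith [h3.1, h3.2, ha'.1, ha'.2, hb'.1, hb'.2, hc'.1, hc'.2, h1.1, h1.2,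
      h2.1, h2.2, h6.1, h6.2]

/-- the linear coefficient of the exact weight -/
theorem al_bd {a b c t : ℝ} (ht : t ≤ 1 / 200) (ha : |a| ≤ t) (hb : |b| ≤ t) (hc : |c| ≤ t) :
    |((1 + mj a b c) - (1 - a) * (1 + b) * (1 + c)) / (2 * (1 + mj a b c)) - al a b c| ≤
      5 * t ^ 2 := by
  have t0 : 0 ≤ t := (abs_nonneg a).trans ha
  have hμ := mu_bd ht ha hb hc
  have hμ' := abs_le.1 hμ
  have h4 : t * t ≤ t / 200 := by nlinarith
  have ha' := abs_le.1 ha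
  have p1 : 0 < 1 + mj a b c := by linarith
  have p2 : 0 < 1 - mj a b c := by linarith
  have p3 : 0 < 1 - mj a b c ^ 2 := by nlinarith
  have e : ((1 + mj a b c) - (1 - a) * (1 + b) * (1 + c)) / (2 * (1 + mj a b c)) - al a b c =
      ((a * (b + c) - b * c) - mj a b c * (2 * a - mj a b c)) / (2 * (1 - mj a b c ^ 2)) := by
    have e1 : (1 + mj a b c) - (1 - a) * (1 + b) * (1 + c) =
        2 * a + (a * (b + c) - b * c) - mj a b c := by
      unfold mj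
      ring
    rw [e1]
    unfold al
    generalize mj a b c = μ at *
    have p4 : 1 - μ ^ 2 = (1 + μ) * (1 - μ) := by ring
    rw [p4]
    field_simp
    ring
  rw [e, abs_div, abs_of_pos (show 0 < 2 * (1 - mj a b c ^ 2) by linarith),
    div_le_iff₀ (by linarith)]
  have h1 := abs_le.1 (two ha hb)
  have h2 := abs_le.1 (two ha hc)
  have h6 := abs_le.1 (two hb hc)
  have h7 : |mj a b c * (2 * a - mj a b c)| ≤ 151 / 100 * t * (351 / 100 * t) := by
    rw [abs_mul]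
    refine mul_le_mul hμ ?_ (abs_nonneg _) (by positivity)
    rw [abs_le]
    constructor <;> linarith
  have h7' := abs_le.1 h7
  have h8 : 99 / 100 ≤ 1 - mj a b c ^ 2 := by nlinarith
  have h9 : 5 * t ^ 2 * (2 * (99 / 100)) ≤ 5 * t ^ 2 * (2 * (1 - mj a b c ^ 2)) :=
    mul_le_mul_of_nonneg_left (by linarith) (by positivity)
  refine le_trans ?_ h9
  rw [abs_le]
  constructor <;> nlinarith

theorem core {a b c u v w t : ℝ} (ht : t ≤ 1 / 200) (ha : |a| ≤ t) (hb : |b| ≤ t)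
    (hc : |c| ≤ t) (hu : |u| ≤ 1) (hv : |v| ≤ 1) (hw : |w| ≤ 1) :
    (1 + (al a b c * u + al b c a * v + al c a b * w) - 30 * t * (u ^ 2 + v ^ 2 + w ^ 2) -
      10 * t ^ 2 * (|u| + |v| + |w|)) * (1 + mj u v w) ≤
    ((1 + a) * (1 + b) * (1 + c) * ((1 + u) * (1 + v) * (1 + w)) +
      (1 + a) * (1 + b) * (1 - c) * ((1 + u) * (1 + v) * (1 - w)) +
      (1 + a) * (1 - b) * (1 + c) * ((1 + u) * (1 - v) * (1 + w)) +
      (1 - a) * (1 + b) * (1 + c) * ((1 - u) * (1 + v) * (1 + w))) / (4 * (1 + mj a b c)) := by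
  have t0 : 0 ≤ t := (abs_nonneg a).trans ha
  have hμ' := abs_le.1 (mu_bd ht ha hb hc)
  have p1 : 0 < 1 + mj a b c := by linarith
  have hu' := abs_le.1 hu
  have hv' := abs_le.1 hv
  have hw' := abs_le.1 hw
  have cyc1 : mj b c a = mj a b c := by unfold mj; ring
  have cyc2 : mj c a b = mj a b c := by unfold mj; ring
  obtain ⟨w0, wa⟩ := wt_bd ht ha hb hc
  have wb := (wt_bd ht hb hc ha).2
  have wc := (wt_bd ht hc ha hb).2
  rw [cyc1] at wb
  rw [cyc2] at wc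
  have la := al_bd ht ha hb hc
  have lb := al_bd ht hb hc ha
  have lc := al_bd ht hc ha hb
  rw [cyc1] at lb
  rw [cyc2] at lc
  -- the weights
  obtain ⟨X0, hX0⟩ : ∃ X0, X0 = (1 + a) * (1 + b) * (1 + c) / (1 + mj a b c) := ⟨_, rfl⟩
  obtain ⟨Xa, hXa⟩ : ∃ Xa, Xa = (1 - a) * (1 + b) * (1 + c) / (1 + mj a b c) := ⟨_, rfl⟩
  obtain ⟨Xb, hXb⟩ : ∃ Xb, Xb = (1 + a) * (1 - b) * (1 + c) / (1 + mj a b c) := ⟨_, rfl⟩
  obtain ⟨Xc, hXc⟩ : ∃ Xc, Xc = (1 + a) * (1 + b) * (1 - c) / (1 + mj a b c) := ⟨_, rfl⟩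
  have b0 : |X0 - 1| ≤ 5 * t := by
    rw [hX0, div_sub_one p1.ne', abs_div, abs_of_pos p1, div_le_iff₀ p1]
    exact w0
  have ba : |Xa - 1| ≤ 5 * t := by
    rw [hXa, div_sub_one p1.ne', abs_div, abs_of_pos p1, div_le_iff₀ p1]
    exact wa
  have bb : |Xb - 1| ≤ 5 * t := by
    rw [hXb, div_sub_one p1.ne', abs_div, abs_of_pos p1, div_le_iff₀ p1,
      show (1 + a) * (1 - b) * (1 + c) = (1 - b) * (1 + c) * (1 + a) by ring]
    exact wb
  have bc : |Xc - 1| ≤ 5 * t := by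
    rw [hXc, div_sub_one p1.ne', abs_div, abs_of_pos p1, div_le_iff₀ p1,
      show (1 + a) * (1 + b) * (1 - c) = (1 - c) * (1 + a) * (1 + b) by ring]
    exact wc
  have sum4 : X0 + Xa + Xb + Xc = 4 := by
    rw [hX0, hXa, hXb, hXc, ← add_div, ← add_div, ← add_div, div_eq_iff p1.ne']
    unfold mj
    ring
  have eP : ((1 + a) * (1 + b) * (1 + c) * ((1 + u) * (1 + v) * (1 + w)) +
      (1 + a) * (1 + b) * (1 - c) * ((1 + u) * (1 + v) * (1 - w)) +
      (1 + a) * (1 - b) * (1 + c) * ((1 + u) * (1 - v) * (1 + w)) +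
      (1 - a) * (1 + b) * (1 + c) * ((1 - u) * (1 + v) * (1 + w))) / (4 * (1 + mj a b c)) =
      (X0 * ((1 + u) * (1 + v) * (1 + w)) + Xc * ((1 + u) * (1 + v) * (1 - w)) +
        Xb * ((1 + u) * (1 - v) * (1 + w)) + Xa * ((1 - u) * (1 + v) * (1 + w))) / 4 := by
    rw [hX0, hXa, hXb, hXc]
    field_simp
  rw [eP]
  have ga : |(1 - Xa) / 2 - al a b c| ≤ 5 * t ^ 2 := by
    have : (1 - Xa) / 2 = ((1 + mj a b c) - (1 - a) * (1 + b) * (1 + c)) /
        (2 * (1 + mj a b c)) := by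
      rw [hXa]
      field_simp
    rw [this]
    exact la
  have gb : |(1 - Xb) / 2 - al b c a| ≤ 5 * t ^ 2 := by
    have : (1 - Xb) / 2 = ((1 + mj a b c) - (1 - b) * (1 + c) * (1 + a)) /
        (2 * (1 + mj a b c)) := by
      rw [hXb]
      field_simp
    rw [this]
    exact lb
  have gc : |(1 - Xc) / 2 - al c a b| ≤ 5 * t ^ 2 := by
    have : (1 - Xc) / 2 = ((1 + mj a b c) - (1 - c) * (1 + a) * (1 + b)) /
        (2 * (1 + mj a b c)) := by
      rw [hXc]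
      field_simp
    rw [this]
    exact lc
  have la5 := abs_al ht ha hb hc
  have lb5 := abs_al ht hb hc ha
  have lc5 := abs_al ht hc ha hb
  clear hX0 hXa hXb hXc eP la lb lc w0 wa wb wc cyc1 cyc2 hμ' p1
  generalize al a b c = α at *
  generalize al b c a = β at *
  generalize al c a b = γ at *
  -- the quantities of `u, v, w`
  set σ : ℝ := |u| + |v| + |w| with hσ
  set S : ℝ := u ^ 2 + v ^ 2 + w ^ 2 with hS
  have u0 := abs_nonneg u
  have v0 := abs_nonneg v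
  have w0 := abs_nonneg w
  have su : |u| ^ 2 = u ^ 2 := sq_abs u
  have sv : |v| ^ 2 = v ^ 2 := sq_abs v
  have sw : |w| ^ 2 = w ^ 2 := sq_abs w
  have hσS : σ ^ 2 ≤ 3 * S := by
    rw [hσ, hS, ← su, ← sv, ← sw]
    nlinarith [sq_nonneg (|u| - |v|), sq_nonneg (|u| - |w|), sq_nonneg (|v| - |w|)]
  have hσ0 : 0 ≤ σ := by positivity
  have hS0 : 0 ≤ S := by positivity
  have huv : |u * v| + |u * w| + |v * w| ≤ S := by
    rw [abs_mul, abs_mul, abs_mul, hS, ← su, ← sv, ← sw]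
    nlinarith [sq_nonneg (|u| - |v|), sq_nonneg (|u| - |w|), sq_nonneg (|v| - |w|)]
  have huvw : |u * v * w| ≤ S / 3 := by
    have h1 : |u * v * w| ≤ |u * v| := by
      rw [abs_mul]
      exact mul_le_of_le_one_right (abs_nonneg _) hw
    have h2 : |u * v * w| ≤ |u * w| := by
      rw [show u * v * w = u * w * v by ring, abs_mul]
      exact mul_le_of_le_one_right (abs_nonneg _) hv
    have h3 : |u * v * w| ≤ |v * w| := by
      rw [show u * v * w = v * w * u by ring, abs_mul]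
      exact mul_le_of_le_one_right (abs_nonneg _) hu
    linarith
  have hmj : |mj u v w| ≤ σ / 2 := by
    have := mj_abs_le hu hv hw
    rw [hσ]
    linarith
  have hL : |α * u + β * v + γ * w| ≤ 5 * t * σ := by
    have h1 : |α * u| ≤ 5 * t * |u| := by
      rw [abs_mul]
      exact mul_le_mul_of_nonneg_right la5 u0
    have h2 : |β * v| ≤ 5 * t * |v| := by
      rw [abs_mul]
      exact mul_le_mul_of_nonneg_right lb5 v0
    have h3 : |γ * w| ≤ 5 * t * |w| := by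
      rw [abs_mul]
      exact mul_le_mul_of_nonneg_right lc5 w0
    have h4 := abs_add_three (α * u) (β * v) (γ * w)
    rw [hσ]
    linarith
  have hY0 : 0 ≤ (1 + u) * (1 + v) * (1 + w) :=
    mul_nonneg (mul_nonneg (by linarith) (by linarith)) (by linarith)
  have hYc : 0 ≤ (1 + u) * (1 + v) * (1 - w) :=
    mul_nonneg (mul_nonneg (by linarith) (by linarith)) (by linarith)
  have hYb : 0 ≤ (1 + u) * (1 - v) * (1 + w) :=
    mul_nonneg (mul_nonneg (by linarith) (by linarith)) (by linarith)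
  have hYa : 0 ≤ (1 - u) * (1 + v) * (1 + w) :=
    mul_nonneg (mul_nonneg (by linarith) (by linarith)) (by linarith)
  have hU4 : 4 * (1 + mj u v w) = (1 + u) * (1 + v) * (1 + w) + (1 + u) * (1 + v) * (1 - w) +
      (1 + u) * (1 - v) * (1 + w) + (1 - u) * (1 + v) * (1 + w) := by
    unfold mj
    ring
  have hU0 : 0 ≤ 1 + mj u v w := by linarith
  have b0' := abs_le.1 b0
  have ba' := abs_le.1 ba
  have bb' := abs_le.1 bb
  have bc' := abs_le.1 bc
  by_cases hc1 : 1 + mj u v w < 1 / 2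
  · -- case (i)
    have hσ1 : 1 ≤ σ := by
      have := (abs_le.1 hmj).1
      linarith
    have hG : 1 + (α * u + β * v + γ * w) - 30 * t * S - 10 * t ^ 2 * σ ≤ 1 - 5 * t := by
      have h1 := (abs_le.1 hL).2
      have h2 : 0 ≤ 10 * t ^ 2 * σ := by positivity
      have h3 : t * σ ^ 2 ≤ t * (3 * S) := mul_le_mul_of_nonneg_left hσS t0
      have h4 : 0 ≤ t * ((σ - 1) * (10 * σ + 5)) :=
        mul_nonneg t0 (mul_nonneg (by linarith) (by linarith))
      nlinarith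
    have h1 := mul_le_mul_of_nonneg_right hG hU0
    refine h1.trans ?_
    have i0 : (1 - 5 * t) * ((1 + u) * (1 + v) * (1 + w)) ≤ X0 * ((1 + u) * (1 + v) * (1 + w)) :=
      mul_le_mul_of_nonneg_right (by linarith) hY0
    have ic : (1 - 5 * t) * ((1 + u) * (1 + v) * (1 - w)) ≤ Xc * ((1 + u) * (1 + v) * (1 - w)) :=
      mul_le_mul_of_nonneg_right (by linarith) hYc
    have ib : (1 - 5 * t) * ((1 + u) * (1 - v) * (1 + w)) ≤ Xb * ((1 + u) * (1 - v) * (1 + w)) :=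
      mul_le_mul_of_nonneg_right (by linarith) hYb
    have ia : (1 - 5 * t) * ((1 - u) * (1 + v) * (1 + w)) ≤ Xa * ((1 - u) * (1 + v) * (1 + w)) :=
      mul_le_mul_of_nonneg_right (by linarith) hYa
    have e1 : (1 - 5 * t) * (1 + mj u v w) = ((1 - 5 * t) * ((1 + u) * (1 + v) * (1 + w)) +
        (1 - 5 * t) * ((1 + u) * (1 + v) * (1 - w)) +
        (1 - 5 * t) * ((1 + u) * (1 - v) * (1 + w)) +
        (1 - 5 * t) * ((1 - u) * (1 + v) * (1 + w))) / 4 := by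
      linear_combination (1 - 5 * t) / 4 * hU4
    rw [e1]
    linarith
  · -- case (ii)
    rw [not_lt] at hc1
    have hX0' : X0 = 4 - Xa - Xb - Xc := by linarith
    have id1 : (X0 * ((1 + u) * (1 + v) * (1 + w)) + Xc * ((1 + u) * (1 + v) * (1 - w)) +
        Xb * ((1 + u) * (1 - v) * (1 + w)) + Xa * ((1 - u) * (1 + v) * (1 + w))) / 4 -
        (1 + (α * u + β * v + γ * w) - 30 * t * S - 10 * t ^ 2 * σ) * (1 + mj u v w) =
        -((α * u + β * v + γ * w) * mj u v w) +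
        (((1 - Xa) / 2 - α) * u + ((1 - Xb) / 2 - β) * v + ((1 - Xc) / 2 - γ) * w) +
        ((X0 + Xc - Xb - Xa) / 4 * (u * v) + (X0 + Xb - Xc - Xa) / 4 * (u * w) +
          (X0 + Xa - Xb - Xc) / 4 * (v * w)) + (X0 - 1) / 2 * (u * v * w) +
        (30 * t * S + 10 * t ^ 2 * σ) * (1 + mj u v w) := by
      rw [hX0']
      unfold mj
      ring
    have j1 : |(α * u + β * v + γ * w) * mj u v w| ≤ 5 * t * σ * (σ / 2) := by
      rw [abs_mul]
      exact mul_le_mul hL hmj (abs_nonneg _) (by positivity)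
    have j1' : 5 * t * σ * (σ / 2) ≤ 15 / 2 * t * S := by
      have h3 : t * σ ^ 2 ≤ t * (3 * S) := mul_le_mul_of_nonneg_left hσS t0
      nlinarith
    have j2a : |((1 - Xa) / 2 - α) * u| ≤ 5 * t ^ 2 * |u| := by
      rw [abs_mul]
      exact mul_le_mul_of_nonneg_right ga u0
    have j2b : |((1 - Xb) / 2 - β) * v| ≤ 5 * t ^ 2 * |v| := by
      rw [abs_mul]
      exact mul_le_mul_of_nonneg_right gb v0
    have j2c : |((1 - Xc) / 2 - γ) * w| ≤ 5 * t ^ 2 * |w| := by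
      rw [abs_mul]
      exact mul_le_mul_of_nonneg_right gc w0
    have j3a : |(X0 + Xc - Xb - Xa) / 4 * (u * v)| ≤ 5 * t * |u * v| := by
      rw [abs_mul]
      refine mul_le_mul_of_nonneg_right ?_ (abs_nonneg _)
      rw [abs_le]
      constructor <;> linarith
    have j3b : |(X0 + Xb - Xc - Xa) / 4 * (u * w)| ≤ 5 * t * |u * w| := by
      rw [abs_mul]
      refine mul_le_mul_of_nonneg_right ?_ (abs_nonneg _)
      rw [abs_le]
      constructor <;> linarith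
    have j3c : |(X0 + Xa - Xb - Xc) / 4 * (v * w)| ≤ 5 * t * |v * w| := by
      rw [abs_mul]
      refine mul_le_mul_of_nonneg_right ?_ (abs_nonneg _)
      rw [abs_le]
      constructor <;> linarith
    have j4 : |(X0 - 1) / 2 * (u * v * w)| ≤ 5 * t * |u * v * w| := by
      rw [abs_mul]
      refine mul_le_mul_of_nonneg_right ?_ (abs_nonneg _)
      rw [abs_le]
      constructor <;> linarith
    have j5 : (30 * t * S + 10 * t ^ 2 * σ) * (1 / 2) ≤
        (30 * t * S + 10 * t ^ 2 * σ) * (1 + mj u v w) :=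
      mul_le_mul_of_nonneg_left hc1 (by positivity)
    have k3 : 5 * t * |u * v| + 5 * t * |u * w| + 5 * t * |v * w| ≤ 5 * t * S := by
      have := mul_le_mul_of_nonneg_left huv (show 0 ≤ 5 * t by positivity)
      linarith
    have k4 : 5 * t * |u * v * w| ≤ 5 * t * (S / 3) :=
      mul_le_mul_of_nonneg_left huvw (by positivity)
    have k2 : 5 * t ^ 2 * |u| + 5 * t ^ 2 * |v| + 5 * t ^ 2 * |w| = 5 * t ^ 2 * σ := by
      rw [hσ]
      ring
    have tS : 0 ≤ t * S := mul_nonneg t0 hS0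
    have m1 := abs_le.1 j1
    have m2a := abs_le.1 j2a
    have m2b := abs_le.1 j2b
    have m2c := abs_le.1 j2c
    have m3a := abs_le.1 j3a
    have m3b := abs_le.1 j3b
    have m3c := abs_le.1 j3c
    have m4 := abs_le.1 j4
    rw [← sub_nonneg, id1]
    linarith [m1.1, m1.2, m2a.1, m2b.1, m2c.1, m3a.1, m3b.1, m3c.1, m4.1]

theorem al_neg (a b c : ℝ) : al (-a) (-b) (-c) = -al a b c := by
  have e : mj (-a) (-b) (-c) = -mj a b c := by
    unfold mj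
    ring
  unfold al
  rw [e, neg_sq, ← neg_div]
  congr 1
  ring

/-- the case `x = 1` -/
theorem pos {m n : Fin 3 → ℝ} {t : ℝ} (ht : t ≤ 1 / 200) (hm : ∀ i, |m i| ≤ t)
    (hn : ∀ i, |n i| ≤ 1) :
    0 ≤ DQ m n 1 / (1 + 1 * mj (m 0) (m 1) (m 2))
      - gg t m n * (1 + 1 * mj (n 0) (n 1) (n 2)) / 2 := by
  have h := core ht (hm 0) (hm 1) (hm 2) (hn 0) (hn 1) (hn 2)
  have hμ' := abs_le.1 (mu_bd ht (hm 0) (hm 1) (hm 2))
  have p1 : 0 < 1 + mj (m 0) (m 1) (m 2) := by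
    linarith [(abs_nonneg _).trans (hm 0)]
  have e : DQ m n 1 / (1 + 1 * mj (m 0) (m 1) (m 2)) =
      (((1 + m 0) * (1 + m 1) * (1 + m 2) * ((1 + n 0) * (1 + n 1) * (1 + n 2)) +
      (1 + m 0) * (1 + m 1) * (1 - m 2) * ((1 + n 0) * (1 + n 1) * (1 - n 2)) +
      (1 + m 0) * (1 - m 1) * (1 + m 2) * ((1 + n 0) * (1 - n 1) * (1 + n 2)) +
      (1 - m 0) * (1 + m 1) * (1 + m 2) * ((1 - n 0) * (1 + n 1) * (1 + n 2))) /
        (4 * (1 + mj (m 0) (m 1) (m 2)))) / 2 := by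
    rw [one_mul, div_div, div_eq_div_iff p1.ne' (by positivity)]
    unfold DQ
    ring
  rw [e]
  unfold gg
  linarith

end Gcoe

theorem coef_nonneg {m n : Fin 3 → ℝ} {t : ℝ} (ht : t ≤ 1 / 200) (hm : ∀ i, |m i| ≤ t)
    (hn : ∀ i, |n i| ≤ 1) {x : ℝ} (hx : x = 1 ∨ x = -1) :
    0 ≤ DQ m n x / (1 + x * mj (m 0) (m 1) (m 2))
      - gg t m n * (1 + x * mj (n 0) (n 1) (n 2)) / 2 := by
  rcases hx with rfl | rfl
  · exact Gcoe.pos ht hm hn
  · have h := Gcoe.pos (m := fun i => -m i) (n := fun i => -n i) ht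
      (fun i => by rw [abs_neg]; exact hm i) (fun i => by rw [abs_neg]; exact hn i)
    have e1 : DQ (fun i => -m i) (fun i => -n i) 1 = DQ m n (-1) := by
      unfold DQ
      ring
    have e2 : ∀ a b c : ℝ, mj (-a) (-b) (-c) = -mj a b c := by
      intro a b c
      unfold mj
      ring
    have e3 : gg t (fun i => -m i) (fun i => -n i) = gg t m n := by
      unfold gg
      rw [Gcoe.al_neg, Gcoe.al_neg, Gcoe.al_neg, abs_neg, abs_neg, abs_neg]
      ring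
    rw [e1, e2, e2, e3] at h
    rw [neg_one_mul, neg_one_mul]
    rw [one_mul, one_mul] at h
    exact h

end Pool.Agent.MP58T
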