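import Pool.Agent.Lib.MP_58cb87_lc_T.Ey

set_option autoImplicit false

/-!
# Good states: all means are small
-/

namespace Pool.Agent.MP58T

/-- all nodes of height `h1 + l`, `l ≤ i`, have mean at most `θ l` -/
def gd (h1 : ℕ) (θ : ℕ → ℝ) : (i : ℕ) → State (Lf (h1 + i)) → Prop
  | 0, y => |nn h1 y| ≤ θ 0
  | i + 1, y => (∀ d, gd h1 θ i (sub y d)) ∧ |nn (h1 + (i + 1)) y| ≤ θ (i + 1)

/-- the thresholds -/
noncomputable def th (j δ : ℝ) : ℕ → ℝ := fun l => if l = 0 then δ else 3 * j * δ * (22 / 25) ^ l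

theorem th_zero (j δ : ℝ) : th j δ 0 = δ := by simp [th]

theorem th_succ (j δ : ℝ) (l : ℕ) : th j δ (l + 1) = 3 * j * δ * (22 / 25) ^ (l + 1) := by
  simp [th]

theorem gd_le {h1 : ℕ} {θ : ℕ → ℝ} : ∀ {i : ℕ} {y : State (Lf (h1 + i))}, gd h1 θ i y →
    |nn (h1 + i) y| ≤ θ i
  | 0, _, h => h
  | _ + 1, _, h => h.2

theorem th_le {j δ : ℝ} (hj : 1 ≤ j) (hδ : 0 < δ) (l : ℕ) : th j δ l ≤ 3 * j * δ * (22 / 25) ^ l := by
  cases l with
  | zero => rw [th_zero]; nlinarith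
  | succ l => rw [th_succ]

theorem th_nonneg {j δ : ℝ} (hj : 1 ≤ j) (hδ : 0 < δ) (l : ℕ) : 0 ≤ th j δ l := by
  cases l with
  | zero => rw [th_zero]; exact hδ.le
  | succ l => rw [th_succ]; positivity

end Pool.Agent.MP58T
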