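import Pool.Agent.Lib.MP_58cb87_lc_T.Gal

set_option autoImplicit false

/-!
# The function `gg` and its elementary properties

PROOFS. `abs_al`: `|μ| ≤ (3/2) t + t^3/2 ≤ 1.51 t`, `|2 m - μ| ≤ 3.51 t`, `|c| ≤ 3 t²`,
`1 - μ² ≥ 0.99`, so `|al| ≤ (3.51 t + 3 t² * 1.51 t)/1.98 ≤ 5 t`.
`gg_nonneg`: `gg ≥ 1 - 15 t - 90 t - 30 t² ≥ 0` for `t ≤ 1/200`.
`gg_avg`: only the coordinate `i` changes, to `n i ± I`:
`((n+I)² + (n-I)²)/2 - n² = I²` and `(|n+I| + |n-I|)/2 = max |n| I`.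
`gg_diff`: the difference is `2 al_i I - 30 t * 4 n I - 10 t² (|n+I| - |n-I|)`, in absolute
value `≤ 10 t I + 120 t I + 20 t² I ≤ 131 t I`.
-/

namespace Pool.Agent.MP58T

/-- the linear coefficient for the bit with prior `a` (the other priors are `b`, `c`) -/
noncomputable def al (a b c : ℝ) : ℝ :=
  ((2 * a - mj a b c) - (a * (b + c) - b * c) * mj a b c) / (2 * (1 - mj a b c ^ 2))

/-- the weight of the transcript in the replacement potential -/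
noncomputable def gg (t : ℝ) (m n : Fin 3 → ℝ) : ℝ :=
  1 + (al (m 0) (m 1) (m 2) * n 0 + al (m 1) (m 2) (m 0) * n 1 + al (m 2) (m 0) (m 1) * n 2)
    - 30 * t * (n 0 ^ 2 + n 1 ^ 2 + n 2 ^ 2) - 10 * t ^ 2 * (|n 0| + |n 1| + |n 2|)

namespace Gdef

theorem mulb {x y s r : ℝ} (hx : |x| ≤ s) (hy : |y| ≤ r) : |x * y| ≤ s * r := by
  rw [abs_mul]
  exact mul_le_mul hx hy (abs_nonneg _) ((abs_nonneg _).trans hx)

theorem sq_small {t : ℝ} (h0 : 0 ≤ t) (ht : t ≤ 1 / 200) : t * t ≤ 1 / 200 * t :=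
  mul_le_mul_of_nonneg_right ht h0

theorem maxabs (x : ℝ) {I : ℝ} (hI : 0 ≤ I) : max |x| I = (|x + I| + |x - I|) / 2 := by
  rcases le_total |x| I with h | h
  · rw [max_eq_right h]
    rw [abs_le] at h
    rw [abs_of_nonneg (by linarith : (0 : ℝ) ≤ x + I),
      abs_of_nonpos (by linarith : x - I ≤ 0)]
    ring
  · rw [max_eq_left h]
    rcases le_total 0 x with h0 | h0
    · rw [abs_of_nonneg h0] at h ⊢
      rw [abs_of_nonneg (by linarith : (0 : ℝ) ≤ x + I),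
        abs_of_nonneg (by linarith : (0 : ℝ) ≤ x - I)]
      ring
    · rw [abs_of_nonpos h0] at h ⊢
      rw [abs_of_nonpos (by linarith : x + I ≤ 0), abs_of_nonpos (by linarith : x - I ≤ 0)]
      ring

theorem diffabs (x : ℝ) {I : ℝ} (hI : 0 ≤ I) : |(|x + I| - |x - I|)| ≤ 2 * I := by
  have h := abs_abs_sub_abs_le_abs_sub (x + I) (x - I)
  have h2 : x + I - (x - I) = 2 * I := by ring
  rw [h2, abs_of_nonneg (by linarith : (0 : ℝ) ≤ 2 * I)] at h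
  exact h

/-- the bound of the difference in one coordinate -/
theorem diff1 {A n t I : ℝ} (h0 : 0 ≤ t) (ht : t ≤ 1 / 200) (hA : |A| ≤ 5 * t) (hn : |n| ≤ 1)
    (hI : 0 ≤ I) :
    |A * (2 * I) - 30 * t * (4 * n * I) - 10 * t ^ 2 * (|n + I| - |n - I|)| ≤
      131 * t * I := by
  have h1 : |A * (2 * I)| ≤ 5 * t * (2 * I) :=
    mulb hA (by rw [abs_of_nonneg (by linarith : (0 : ℝ) ≤ 2 * I)])
  have hnI : |n * I| ≤ 1 * I := mulb hn (by rw [abs_of_nonneg hI])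
  have h2 : |30 * t * (4 * n * I)| ≤ 120 * t * I := by
    have e : 30 * t * (4 * n * I) = 120 * t * (n * I) := by ring
    rw [e]
    have h := mulb (x := 120 * t) (s := 120 * t) (by rw [abs_of_nonneg (by linarith)]) hnI
    linarith
  have h3 : |10 * t ^ 2 * (|n + I| - |n - I|)| ≤ t * I := by
    have h := mulb (x := 10 * t ^ 2) (s := 10 * t ^ 2)
      (by rw [abs_of_nonneg (by positivity)]) (diffabs n hI)
    have h4 : t * t * I ≤ 1 / 200 * t * I :=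
      mul_le_mul_of_nonneg_right (sq_small h0 ht) hI
    have h5 : 0 ≤ t * I := mul_nonneg h0 hI
    nlinarith
  rw [abs_le] at h1 h2 h3 ⊢
  constructor <;> linarith [h1.1, h1.2, h2.1, h2.2, h3.1, h3.2]

/-- the lower bound in one coordinate -/
theorem low1 {A n t : ℝ} (h0 : 0 ≤ t) (ht : t ≤ 1 / 200) (hA : |A| ≤ 5 * t) (hn : |n| ≤ 1) :
    -(36 * t) ≤ A * n - 30 * t * n ^ 2 - 10 * t ^ 2 * |n| := by
  have h1 : |A * n| ≤ 5 * t * 1 := mulb hA hn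
  have h2 : n ^ 2 ≤ 1 := by rw [abs_le] at hn; nlinarith [hn.1, hn.2]
  have h3 : t * n ^ 2 ≤ t * 1 := mul_le_mul_of_nonneg_left h2 h0
  have h4 : t ^ 2 * |n| ≤ t ^ 2 * 1 := mul_le_mul_of_nonneg_left hn (by positivity)
  have h5 := sq_small h0 ht
  rw [abs_le] at h1
  nlinarith [h1.1]

end Gdef

theorem abs_al {a b c t : ℝ} (ht : t ≤ 1 / 200) (ha : |a| ≤ t) (hb : |b| ≤ t) (hc : |c| ≤ t) :
    |al a b c| ≤ 5 * t := by
  have h0 : 0 ≤ t := (abs_nonneg _).trans ha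
  have hsq := Gdef.sq_small h0 ht
  have h3 : |a * b * c| ≤ t * t * t := Gdef.mulb (Gdef.mulb ha hb) hc
  have ht3 : t * t * t ≤ t := by nlinarith
  have hac : |a * (b + c)| ≤ t * (2 * t) := Gdef.mulb ha (by
    rw [abs_le] at hb hc ⊢
    constructor <;> linarith [hb.1, hb.2, hc.1, hc.2])
  have hbc : |b * c| ≤ t * t := Gdef.mulb hb hc
  have h4 : |a * (b + c) - b * c| ≤ 3 * (t * t) := by
    rw [abs_le] at hac hbc ⊢
    constructor <;> linarith [hac.1, hac.2, hbc.1, hbc.2]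
  have hmu : |mj a b c| ≤ 2 * t := by
    unfold mj
    rw [abs_le] at ha hb hc h3 ⊢
    constructor <;> linarith [ha.1, ha.2, hb.1, hb.2, hc.1, hc.2, h3.1, h3.2]
  have h5 : |(a * (b + c) - b * c) * mj a b c| ≤ 3 * (t * t) * (2 * t) := Gdef.mulb h4 hmu
  have h6 : 3 * (t * t) * (2 * t) ≤ t := by nlinarith
  have h7 : |2 * a - mj a b c| ≤ 3 * t := by
    unfold mj
    rw [abs_le] at ha hb hc h3 ⊢
    constructor <;> linarith [ha.1, ha.2, hb.1, hb.2, hc.1, hc.2, h3.1, h3.2]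
  have h8 : |(2 * a - mj a b c) - (a * (b + c) - b * c) * mj a b c| ≤ 4 * t := by
    rw [abs_le] at h5 h7 ⊢
    constructor <;> linarith [h5.1, h5.2, h7.1, h7.2]
  have hD : 1 ≤ 2 * (1 - mj a b c ^ 2) := by
    have h9 : |mj a b c * mj a b c| ≤ 2 * t * (2 * t) := Gdef.mulb hmu hmu
    rw [abs_le] at h9
    nlinarith [h9.2]
  unfold al
  rw [abs_div, abs_of_pos (by linarith : 0 < 2 * (1 - mj a b c ^ 2)),
    div_le_iff₀ (by linarith)]
  have h10 : 5 * t * 1 ≤ 5 * t * (2 * (1 - mj a b c ^ 2)) :=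
    mul_le_mul_of_nonneg_left hD (by linarith)
  linarith

theorem gg_nonneg {m n : Fin 3 → ℝ} {t : ℝ} (ht : t ≤ 1 / 200) (hm : ∀ i, |m i| ≤ t)
    (hn : ∀ i, |n i| ≤ 1) : 0 ≤ gg t m n := by
  have h0 : 0 ≤ t := (abs_nonneg _).trans (hm 0)
  have h1 := Gdef.low1 h0 ht (abs_al ht (hm 0) (hm 1) (hm 2)) (hn 0)
  have h2 := Gdef.low1 h0 ht (abs_al ht (hm 1) (hm 2) (hm 0)) (hn 1)
  have h3 := Gdef.low1 h0 ht (abs_al ht (hm 2) (hm 0) (hm 1)) (hn 2)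
  unfold gg
  linarith

theorem gg_avg (t : ℝ) (m n : Fin 3 → ℝ) (i : Fin 3) {I : ℝ} (hI : 0 ≤ I) :
    gg t m n - (gg t m (upd n i (n i + I)) + gg t m (upd n i (n i - I))) / 2
      = 30 * t * I ^ 2 + 10 * t ^ 2 * (max |n i| I - |n i|) := by
  rw [Gdef.maxabs _ hI]
  fin_cases i <;> simp [gg, upd] <;> ring

theorem gg_diff {m n : Fin 3 → ℝ} {t : ℝ} (ht : t ≤ 1 / 200) (hm : ∀ i, |m i| ≤ t)
    (i : Fin 3) (hn : |n i| ≤ 1) {I : ℝ} (hI : 0 ≤ I) :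
    |gg t m (upd n i (n i + I)) - gg t m (upd n i (n i - I))| ≤ 131 * t * I := by
  have h0 : 0 ≤ t := (abs_nonneg _).trans (hm 0)
  have key : ∃ A : ℝ, |A| ≤ 5 * t ∧
      gg t m (upd n i (n i + I)) - gg t m (upd n i (n i - I)) =
        A * (2 * I) - 30 * t * (4 * n i * I) - 10 * t ^ 2 * (|n i + I| - |n i - I|) := by
    fin_cases i
    · exact ⟨_, abs_al ht (hm 0) (hm 1) (hm 2), by simp [gg, upd]; ring⟩
    · exact ⟨_, abs_al ht (hm 1) (hm 2) (hm 0), by simp [gg, upd]; ring⟩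
    · exact ⟨_, abs_al ht (hm 2) (hm 0) (hm 1), by simp [gg, upd]; ring⟩
  obtain ⟨A, hA, e⟩ := key
  rw [e]
  exact Gdef.diff1 h0 ht hA hn hI

end Pool.Agent.MP58T
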