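import Pool.Agent.Lib.MP_58cb87_lc_T.Mgf

set_option autoImplicit false

/-!
# Most states are good

PROOF. Let `b i = Ey (h1+i) (if gd .. i y then 0 else 1)`. Claim `b i ≤ (9 * 3^i - 1) exp (-3j)`.
`i = 0`: hypothesis `h0`
and `exp 2 ≤ 8`. Step: the indicator of `¬ gd .. (i+1) y` is at most the sum of the three
indicators of
`¬ gd .. i (sub y d)` (`Ey_succ`, `Ey_const`: each has mean `b i`) and of the indicator `J` of `(∀
d, gd .. i (sub y d)) ∧
th (i+1) < |nn y|`. With `σ = δ (22/25)^(i+1)`, `th (i+1) = 3 j σ`, `lam = 3 j / σ`: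
`J ≤ (indicator of children good) * (exp (lam n - 9 j²) + exp (-lam n - 9 j²))`, and by `mgf_step`
(with `mgf`) for `lam`, `-lam` the
mean is `≤ 2 exp (9 j²/2 - 9 j²) ≤ 2 exp (-3j)` (`9 j²/2 ≥ 3 j`). So `b (i+1) ≤ 3 b i + 2 exp
(-3j)`. For `i = N ≤ j`:
`b N ≤ 9 (3 exp (-3))^j ≤ 1/2` for `j ≥ 2` (`exp 3 ≥ 20`, `3/20 < 1`, so `≤ 9 (3/20)^2`). The two
indicators have sum `1`.
-/

namespace Pool.Agent.MP58T

namespace Gpr

open Classical in
/-- the probability of the bad states -/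
noncomputable def bad (h1 : ℕ) (θ : ℕ → ℝ) (i : ℕ) : ℝ :=
  Ey (h1 + i) fun y => if gd h1 θ i y then 0 else 1

open Classical in
theorem child (h1 : ℕ) (θ : ℕ → ℝ) (i : ℕ) (d : Fin 3) :
    Ey (h1 + (i + 1)) (fun y => if gd h1 θ i (sub y d) then (0 : ℝ) else 1) = bad h1 θ i := by
  have h := Ey_succ (h1 + i) (fun y => if gd h1 θ i (sub y d) then (0 : ℝ) else 1)
  refine h.trans ?_
  unfold bad
  fin_cases d
  · change Ey (h1 + i) (fun a => Ey (h1 + i) fun _ => Ey (h1 + i) fun _ =>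
      if gd h1 θ i a then (0 : ℝ) else 1) = _
    simp only [Ey_const]
  · change Ey (h1 + i) (fun _ => Ey (h1 + i) fun b => Ey (h1 + i) fun _ =>
      if gd h1 θ i b then (0 : ℝ) else 1) = _
    simp only [Ey_const]
  · change Ey (h1 + i) (fun _ => Ey (h1 + i) fun _ => Ey (h1 + i) fun c =>
      if gd h1 θ i c then (0 : ℝ) else 1) = _
    simp only [Ey_const]

open Classical in
theorem tail_step (h1 i : ℕ) {j δ : ℝ} (hj : 1 ≤ j) (hδ0 : 0 < δ) (hδ : 3 * j * δ ≤ 1 / 200) :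
    Ey (h1 + (i + 1)) (fun y => if (∀ d, gd h1 (th j δ) i (sub y d)) ∧
      th j δ (i + 1) < |nn (h1 + (i + 1)) y| then 1 else 0) ≤ 2 * Real.exp (-(3 * j)) := by
  obtain ⟨σ, hσ⟩ : ∃ σ, σ = δ * (22 / 25 : ℝ) ^ (i + 1) := ⟨_, rfl⟩
  have hσ0 : 0 < σ := by rw [hσ]; positivity
  obtain ⟨lam, hlam⟩ : ∃ lam, lam = 3 * j / σ := ⟨_, rfl⟩
  have hls : lam * σ = 3 * j := by rw [hlam]; field_simp
  have hlam0 : 0 < lam := by rw [hlam]; positivity
  have hm := mgf_step h1 i hj hδ0 hδ (mgf h1 hj hδ0 hδ i) lam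
  have hm' := mgf_step h1 i hj hδ0 hδ (mgf h1 hj hδ0 hδ i) (-lam)
  rw [← hσ] at hm hm'
  rw [neg_sq] at hm'
  have he : lam ^ 2 * σ ^ 2 / 2 = 9 * j ^ 2 / 2 := by
    rw [← mul_pow, hls]; ring
  rw [he] at hm hm'
  have hth : th j δ (i + 1) = 3 * j * σ := by rw [th_succ, hσ]; ring
  have hmono := Ey_mono (h1 + (i + 1)) (F := fun y => if (∀ d, gd h1 (th j δ) i (sub y d)) ∧
      th j δ (i + 1) < |nn (h1 + (i + 1)) y| then (1 : ℝ) else 0)
    (G := fun y => Real.exp (-(9 * j ^ 2)) * (if (∀ d, gd h1 (th j δ) i (sub y d)) then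
      Real.exp (lam * nn (h1 + (i + 1)) y) else 0) +
      Real.exp (-(9 * j ^ 2)) * (if (∀ d, gd h1 (th j δ) i (sub y d)) then
      Real.exp (-lam * nn (h1 + (i + 1)) y) else 0)) ?_
  · refine hmono.trans ?_
    rw [Ey_add, Ey_smul, Ey_smul]
    have e0 : 0 ≤ Real.exp (-(9 * j ^ 2)) := (Real.exp_pos _).le
    have h2 := mul_le_mul_of_nonneg_left hm e0
    have h3 := mul_le_mul_of_nonneg_left hm' e0
    have h4 : Real.exp (-(9 * j ^ 2)) * Real.exp (9 * j ^ 2 / 2) ≤ Real.exp (-(3 * j)) := by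
      rw [← Real.exp_add]
      apply Real.exp_le_exp.2
      nlinarith
    linarith
  · intro y
    by_cases hg : ∀ d, gd h1 (th j δ) i (sub y d)
    · by_cases ht : th j δ (i + 1) < |nn (h1 + (i + 1)) y|
      · rw [if_pos ⟨hg, ht⟩, if_pos hg, if_pos hg, ← Real.exp_add, ← Real.exp_add]
        rw [hth] at ht
        rcases lt_abs.1 ht with h | h
        · have h5 : 0 ≤ -(9 * j ^ 2) + lam * nn (h1 + (i + 1)) y := by
            have h6 := mul_le_mul_of_nonneg_left h.le hlam0.le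
            have h7 : lam * (3 * j * σ) = 9 * j ^ 2 := by
              rw [show lam * (3 * j * σ) = 3 * j * (lam * σ) by ring, hls]; ring
            linarith
          have h8 := Real.one_le_exp h5
          have h9 := Real.exp_pos (-(9 * j ^ 2) + -lam * nn (h1 + (i + 1)) y)
          linarith
        · have h5 : 0 ≤ -(9 * j ^ 2) + -lam * nn (h1 + (i + 1)) y := by
            have h6 := mul_le_mul_of_nonneg_left h.le hlam0.le
            have h7 : lam * (3 * j * σ) = 9 * j ^ 2 := by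
              rw [show lam * (3 * j * σ) = 3 * j * (lam * σ) by ring, hls]; ring
            linarith
          have h8 := Real.one_le_exp h5
          have h9 := Real.exp_pos (-(9 * j ^ 2) + lam * nn (h1 + (i + 1)) y)
          linarith
      · rw [if_neg (fun h => ht h.2)]
        rw [if_pos hg, if_pos hg]
        positivity
    · rw [if_neg (fun h => hg h.1), if_neg hg, if_neg hg]
      simp

open Classical in
theorem step (h1 i : ℕ) {j δ : ℝ} (hj : 1 ≤ j) (hδ0 : 0 < δ) (hδ : 3 * j * δ ≤ 1 / 200) :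
    bad h1 (th j δ) (i + 1) ≤ 3 * bad h1 (th j δ) i + 2 * Real.exp (-(3 * j)) := by
  have hmono := Ey_mono (h1 + (i + 1))
    (F := fun y => if gd h1 (th j δ) (i + 1) y then (0 : ℝ) else 1)
    (G := fun y => ((if gd h1 (th j δ) i (sub y 0) then (0 : ℝ) else 1) +
      ((if gd h1 (th j δ) i (sub y 1) then (0 : ℝ) else 1) +
      ((if gd h1 (th j δ) i (sub y 2) then (0 : ℝ) else 1) +
      (if (∀ d, gd h1 (th j δ) i (sub y d)) ∧
      th j δ (i + 1) < |nn (h1 + (i + 1)) y| then 1 else 0))))) ?_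
  · rw [Ey_add, Ey_add, Ey_add, child, child, child] at hmono
    have h := tail_step h1 i hj hδ0 hδ
    unfold bad at hmono ⊢
    linarith
  · intro y
    have nn0 : ∀ p : Prop, (0 : ℝ) ≤ if p then 0 else 1 := by
      intro p; split_ifs <;> norm_num
    have nn1 : ∀ p : Prop, (0 : ℝ) ≤ if p then 1 else 0 := by
      intro p; split_ifs <;> norm_num
    have a0 := nn0 (gd h1 (th j δ) i (sub y 0))
    have a1 := nn0 (gd h1 (th j δ) i (sub y 1))
    have a2 := nn0 (gd h1 (th j δ) i (sub y 2))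
    by_cases h : gd h1 (th j δ) (i + 1) y
    · rw [if_pos h]
      refine add_nonneg a0 (add_nonneg a1 (add_nonneg a2 ?_))
      split_ifs <;> norm_num
    · rw [if_neg h]
      by_cases g0 : gd h1 (th j δ) i (sub y 0)
      · by_cases g1 : gd h1 (th j δ) i (sub y 1)
        · by_cases g2 : gd h1 (th j δ) i (sub y 2)
          · have hall : ∀ d, gd h1 (th j δ) i (sub y d) := by
              intro d
              fin_cases d
              · exact g0
              · exact g1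
              · exact g2
            have ht : th j δ (i + 1) < |nn (h1 + (i + 1)) y| := by
              by_contra hc
              exact h ⟨hall, not_lt.1 hc⟩
            rw [if_pos g0, if_pos g1, if_pos g2, if_pos ⟨hall, ht⟩]
            norm_num
          · rw [if_pos g0, if_pos g1, if_neg g2]
            have : (0 : ℝ) ≤ if (∀ d, gd h1 (th j δ) i (sub y d)) ∧
              th j δ (i + 1) < |nn (h1 + (i + 1)) y| then 1 else 0 := by
              split_ifs <;> norm_num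
            linarith
        · rw [if_pos g0, if_neg g1]
          have : (0 : ℝ) ≤ if (∀ d, gd h1 (th j δ) i (sub y d)) ∧
              th j δ (i + 1) < |nn (h1 + (i + 1)) y| then 1 else 0 := by
              split_ifs <;> norm_num
          linarith
      · rw [if_neg g0]
        have : (0 : ℝ) ≤ if (∀ d, gd h1 (th j δ) i (sub y d)) ∧
              th j δ (i + 1) < |nn (h1 + (i + 1)) y| then 1 else 0 := by
              split_ifs <;> norm_num
        linarith

theorem exp_three : (20 : ℝ) ≤ Real.exp 3 := by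
  have h := Real.exp_one_gt_d9
  have h2 : Real.exp 3 = Real.exp 1 ^ 3 := by
    rw [← Real.exp_nat_mul]; norm_num
  rw [h2]
  have h3 : (2.7182818283 : ℝ) ^ 3 ≤ Real.exp 1 ^ 3 := pow_le_pow_left₀ (by norm_num) h.le 3
  exact le_trans (by norm_num) h3

theorem exp_two : Real.exp 2 ≤ 8 := by
  have h := Real.exp_one_lt_d9
  have h2 : Real.exp 2 = Real.exp 1 ^ 2 := by
    rw [← Real.exp_nat_mul]; norm_num
  rw [h2]
  have h3 : Real.exp 1 ^ 2 ≤ (2.7182818286 : ℝ) ^ 2 :=
    pow_le_pow_left₀ (Real.exp_pos 1).le h.le 2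
  exact h3.trans (by norm_num)

theorem bound (h1 : ℕ) {j δ : ℝ} (hj : 1 ≤ j) (hδ0 : 0 < δ) (hδ : 3 * j * δ ≤ 1 / 200)
    (hb : bad h1 (th j δ) 0 ≤ 8 * Real.exp (-(3 * j))) (i : ℕ) :
    bad h1 (th j δ) i ≤ (9 * 3 ^ i - 1) * Real.exp (-(3 * j)) := by
  induction i with
  | zero => linarith
  | succ i ih =>
    have h := step h1 i hj hδ0 hδ
    rw [pow_succ]
    linarith

end Gpr

open Classical in
theorem gd_prob (h1 N j : ℕ) (hj : 2 ≤ j) (hN : N ≤ j) {δ : ℝ} (hδ0 : 0 < δ)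
    (hδ : 3 * (j : ℝ) * δ ≤ 1 / 200)
    (h0 : Ey h1 (fun y => if δ < |nn h1 y| then 1 else 0) ≤ Real.exp (2 - 3 * j)) :
    1 / 2 ≤ Ey (h1 + N) fun y => if gd h1 (th j δ) N y then 1 else 0 := by
  have hj1 : (1 : ℝ) ≤ j := by exact_mod_cast (by omega : 1 ≤ j)
  have hb0 : Gpr.bad h1 (th j δ) 0 ≤ 8 * Real.exp (-(3 * (j : ℝ))) := by
    have h2 : Gpr.bad h1 (th j δ) 0 ≤ Ey h1 (fun y => if δ < |nn h1 y| then 1 else 0) := by
      unfold Gpr.bad
      refine Ey_mono h1 fun y => ?_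
      have hiff : gd h1 (th j δ) 0 y ↔ |nn h1 y| ≤ δ := by
        change |nn h1 y| ≤ th j δ 0 ↔ _
        rw [th_zero]
      by_cases h : δ < |nn h1 y|
      · rw [if_pos h]
        split_ifs <;> norm_num
      · rw [if_neg h, if_pos (hiff.2 (not_lt.1 h))]
    refine (h2.trans h0).trans ?_
    rw [show (2 : ℝ) - 3 * j = 2 + -(3 * (j : ℝ)) by ring, Real.exp_add]
    exact mul_le_mul_of_nonneg_right Gpr.exp_two (Real.exp_pos _).le
  have hb := Gpr.bound h1 hj1 hδ0 hδ hb0 N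
  have h3 : Gpr.bad h1 (th j δ) N ≤ 1 / 2 := by
    have e1 : Real.exp (-(3 * (j : ℝ))) = (Real.exp 3)⁻¹ ^ j := by
      rw [← Real.exp_neg, ← Real.exp_nat_mul]
      congr 1
      ring
    have e2 : (3 : ℝ) ^ N ≤ 3 ^ j := pow_le_pow_right₀ (by norm_num) hN
    have e3 : (0 : ℝ) < (Real.exp 3)⁻¹ := inv_pos.2 (Real.exp_pos 3)
    have e4 : (Real.exp 3)⁻¹ ≤ 1 / 20 := by
      rw [inv_le_comm₀ (Real.exp_pos 3) (by norm_num)]
      have := Gpr.exp_three
      norm_num
      exact this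
    have e5 : (3 * (Real.exp 3)⁻¹) ^ j ≤ (3 / 20 : ℝ) ^ j :=
      pow_le_pow_left₀ (by positivity) (by linarith) j
    have e6 : (3 / 20 : ℝ) ^ j ≤ (3 / 20) ^ 2 :=
      pow_le_pow_of_le_one (by norm_num) (by norm_num) hj
    rw [mul_pow] at e5
    rw [e1] at hb
    have e7 : (3 : ℝ) ^ N * (Real.exp 3)⁻¹ ^ j ≤ 3 ^ j * (Real.exp 3)⁻¹ ^ j :=
      mul_le_mul_of_nonneg_right e2 (pow_pos e3 j).le
    have e8 : 0 < (Real.exp 3)⁻¹ ^ j := pow_pos e3 j
    have e9 : (9 * 3 ^ N - 1) * (Real.exp 3)⁻¹ ^ j ≤ 9 * (3 / 20) ^ 2 := by linarith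
    refine (hb.trans e9).trans ?_
    norm_num
  have h4 : (Ey (h1 + N) fun y => if gd h1 (th j δ) N y then 1 else 0)
      + Gpr.bad h1 (th j δ) N = 1 := by
    unfold Gpr.bad
    rw [← Ey_add]
    have e : (fun y => (if gd h1 (th j δ) N y then (1 : ℝ) else 0) +
        if gd h1 (th j δ) N y then (0 : ℝ) else 1) = fun _ => 1 := by
      funext y
      split_ifs <;> norm_num
    rw [e, Ey_const]
  linarith

end Pool.Agent.MP58T
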