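import Pool.Agent.Lib.MP_58cb87_lc_T.RepC
import Pool.Agent.Lib.MP_58cb87_lc_T.Base2

set_option autoImplicit false

/-!
# The replacement of all blocks

PROOF of `hyb`. Let `η = eta t h ≥ 0`, `μ u = mj (m u 0) (m u 1) (m u 2)`. For `A : Finset U` let
`S_A` be the system `T.sys (h+1) w_A .. p_A ..` with `w_A s = ∏ u, (if u ∈ A then 1 + μ u * nn
(h+1) (row s u) else ∏ d, (1 + m u d * nn h (sub (row s u) d)))` (harmonic by `harm_rows`,
`harm_prod3`) and `p_A (u, i) = if u ∈ A then 1 else 1 + η`. Claim: `v ∉ A` implies `(S_(insert v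
A)).V 0 ≤ (S_A).V 0`: apply `rep` with `S = S_(insert v A)`, `T = S_A`, `ε = fun i => (v, i)`, `m
= m v`, `wo s = ∏ u ∈ univ.erase v, (if u ∈ A then .. else ..)`. Here `blk ε s = row s v`; `AffOn
(T.M (h+1)) (h+1) ε`: `rows` of `fill ε z s` are those of `s` except row `v`, which is constant
`z`: so `T.M (h+1) (fill ε z s) = T.G (upd x v z)`, `x u = nn (h+1) (row s u)` (`nn_one`,
`nn_neg_one`), and `Top.G_upd_self`. `wo` is harmonic: `harm_rows` with the factor `1` at `v`;
`out`: for `u ≠ v` the rows agree. Then `Finset.induction` from `∅` to `univ`: `(S_univ).V 0 ≤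
(S_∅).V 0`. `S_univ` has the data of `world T (h+1) μ`; `(S_∅).V ≤ (1 + η) * (world3 T h m).V` by
`V_cmp`, `c = 1 + η`.
-/

namespace Pool.Agent.MP58T

variable {U : Type} [Fintype U]

namespace Hyb

open Classical in
/-- the factor of the block `u` -/
noncomputable def fac (h : ℕ) (m : U → Fin 3 → ℝ) (A : Finset U) (u : U)
    (τ : State (Lf (h + 1))) : ℝ :=
  if u ∈ A then 1 + mj (m u 0) (m u 1) (m u 2) * nn (h + 1) τ
  else ∏ d, (1 + m u d * nn h (sub τ d))

omit [Fintype U] in
theorem fac_mem {h : ℕ} {m : U → Fin 3 → ℝ} {A : Finset U} {u : U} (hu : u ∈ A)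
    (τ : State (Lf (h + 1))) :
    fac h m A u τ = 1 + mj (m u 0) (m u 1) (m u 2) * nn (h + 1) τ := by
  rw [fac, if_pos hu]

omit [Fintype U] in
theorem fac_notMem {h : ℕ} {m : U → Fin 3 → ℝ} {A : Finset U} {u : U} (hu : u ∉ A)
    (τ : State (Lf (h + 1))) : fac h m A u τ = ∏ d, (1 + m u d * nn h (sub τ d)) := by
  rw [fac, if_neg hu]

omit [Fintype U] in
theorem harm_fac (h : ℕ) (m : U → Fin 3 → ℝ) (A : Finset U) (u : U) : Harm (fac h m A u) := by
  by_cases hu : u ∈ A
  · intro τ i hi
    rw [fac_mem hu, fac_mem hu, fac_mem hu]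
    have h1 := harm_nn (h + 1) τ i hi
    linear_combination (mj (m u 0) (m u 1) (m u 2)) * h1
  · intro τ i hi
    rw [fac_notMem hu, fac_notMem hu, fac_notMem hu]
    exact harm_prod3 h (m u) τ i hi

omit [Fintype U] in
theorem fac_nonneg {h : ℕ} {m : U → Fin 3 → ℝ} (hm1 : ∀ u d, |m u d| ≤ 1)
    (hm2 : ∀ u, |mj (m u 0) (m u 1) (m u 2)| ≤ 1) (A : Finset U) (u : U)
    (τ : State (Lf (h + 1))) : 0 ≤ fac h m A u τ := by
  by_cases hu : u ∈ A
  · rw [fac_mem hu]
    exact one_add_mul_nonneg (hm2 u) (abs_nn_le _ _)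
  · rw [fac_notMem hu]
    exact Finset.prod_nonneg fun d _ => one_add_mul_nonneg (hm1 u d) (abs_nn_le h _)

open Classical in
/-- the prices -/
noncomputable def pr (t : ℝ) (h : ℕ) (A : Finset U) (i : U × Lf (h + 1)) : ℝ :=
  if i.1 ∈ A then 1 else 1 + eta t h

theorem eta_nonneg {t : ℝ} (t0 : 0 ≤ t) (h : ℕ) : 0 ≤ eta t h := by
  unfold eta
  positivity

/-- the hybrid systems -/
noncomputable def SA (T : Top U) (h : ℕ) (m : U → Fin 3 → ℝ) {t : ℝ} (t0 : 0 ≤ t)
    (hm1 : ∀ u d, |m u d| ≤ 1) (hm2 : ∀ u, |mj (m u 0) (m u 1) (m u 2)| ≤ 1) (A : Finset U) :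
    Sys (U × Lf (h + 1)) :=
  T.sys (h + 1) (fun s => ∏ u, fac h m A u (row s u)) (harm_rows _ (harm_fac h m A))
    (fun _ => Finset.prod_nonneg fun u _ => fac_nonneg hm1 hm2 A u _) (pr t h A)
    (fun i => by
      unfold pr
      split_ifs
      · exact zero_le_one
      · have := eta_nonneg t0 h
        linarith)

omit [Fintype U] in
theorem row_fill_same {k : ℕ} (v : U) (z : SignType) (s : State (U × Lf k)) :
    row (fill (fun i : Lf k => (v, i)) z s) v = fun _ => z := by
  funext i
  simp [row, fill]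

omit [Fintype U] in
theorem row_fill_ne {k : ℕ} {u v : U} (huv : u ≠ v) (z : SignType) (s : State (U × Lf k)) :
    row (fill (fun i : Lf k => (v, i)) z s) u = row s u := by
  funext i
  have h1 : (u, i) ∉ Set.range fun i : Lf k => (v, i) := by
    rintro ⟨y, hy⟩
    exact huv (Prod.ext_iff.1 hy).1.symm
  simp only [row, fill]
  rw [if_neg h1]

theorem step (T : Top U) (h : ℕ) (m : U → Fin 3 → ℝ) {t : ℝ} (t0 : 0 ≤ t) (t1 : t ≤ 1 / 200)
    (hm : ∀ u d, |m u d| ≤ t) (hm1 : ∀ u d, |m u d| ≤ 1)
    (hm2 : ∀ u, |mj (m u 0) (m u 1) (m u 2)| ≤ 1) [DecidableEq U] (A : Finset U) (v : U)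
    (hv : v ∉ A) :
    (SA T h m t0 hm1 hm2 (insert v A)).V (fun _ => 0) ≤
      (SA T h m t0 hm1 hm2 A).V fun _ => 0 := by
  have hvi : v ∈ insert v A := Finset.mem_insert_self v A
  have hne : ∀ u, u ≠ v → ∀ τ, fac h m (insert v A) u τ = fac h m A u τ := by
    intro u hu τ
    by_cases huA : u ∈ A
    · rw [fac_mem huA, fac_mem (Finset.mem_insert_of_mem huA)]
    · rw [fac_notMem huA, fac_notMem]
      intro h1
      rcases Finset.mem_insert.1 h1 with h2 | h2
      · exact hu h2
      · exact huA h2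
  have H : Rep (SA T h m t0 hm1 hm2 (insert v A)) (SA T h m t0 hm1 hm2 A) h
      (fun i => (v, i)) (m v) t
      (fun s => ∏ u ∈ Finset.univ.erase v, fac h m A u (row s u)) := by
    constructor
    · intro i j hij
      exact (Prod.ext_iff.1 hij).2
    · exact t0
    · exact t1
    · exact hm v
    · have h1 := harm_rows (U := U) (fun u => if u = v then fun _ => (1 : ℝ) else fac h m A u)
        (fun u => by
          split_ifs
          · intro _ _ _
            norm_num
          · exact harm_fac h m A u)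
      have h2 : (fun s : State (U × Lf (h + 1)) =>
          ∏ u ∈ Finset.univ.erase v, fac h m A u (row s u)) =
          fun s => ∏ u, (if u = v then fun _ => (1 : ℝ) else fac h m A u) (row s u) := by
        funext s
        rw [← Finset.mul_prod_erase Finset.univ _ (Finset.mem_univ v), if_pos rfl, one_mul]
        refine Finset.prod_congr rfl fun u hu => ?_
        rw [if_neg (Finset.ne_of_mem_erase hu)]
      rw [h2]
      exact h1
    · exact fun s => Finset.prod_nonneg fun u _ => fac_nonneg hm1 hm2 A u _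
    · intro s s' hss
      refine Finset.prod_congr rfl fun u hu => ?_
      have h1 : row s u = row s' u := by
        funext i
        refine hss (u, i) ?_
        rintro ⟨y, hy⟩
        exact Finset.ne_of_mem_erase hu (Prod.ext_iff.1 hy).1.symm
      rw [h1]
    · exact fun _ => rfl
    · intro s
      have key : ∀ z : SignType, (fun u => nn (h + 1)
          (row (fill (fun i : Lf (h + 1) => (v, i)) z s) u)) =
          upd (fun u => nn (h + 1) (row s u)) v (nn (h + 1) fun _ => z) := by
        intro z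
        funext u
        by_cases hu : u = v
        · rw [hu, upd_same, row_fill_same]
        · rw [upd_ne _ _ hu, row_fill_ne hu]
      change T.G (fun u => nn (h + 1) (row s u)) =
        (1 + nn (h + 1) (row s v)) / 2 * T.G (fun u => nn (h + 1)
          (row (fill (fun i : Lf (h + 1) => (v, i)) 1 s) u)) +
        (1 - nn (h + 1) (row s v)) / 2 * T.G (fun u => nn (h + 1)
          (row (fill (fun i : Lf (h + 1) => (v, i)) (-1) s) u))
      rw [key, key, nn_one, nn_neg_one]
      exact T.G_upd_self _ v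
    · intro s
      change ∏ u, fac h m (insert v A) u (row s u) = _
      rw [← Finset.mul_prod_erase Finset.univ _ (Finset.mem_univ v), fac_mem hvi, mul_comm]
      congr 1
      exact Finset.prod_congr rfl fun u hu => hne u (Finset.ne_of_mem_erase hu) _
    · intro s
      change ∏ u, fac h m A u (row s u) = _
      rw [← Finset.mul_prod_erase Finset.univ _ (Finset.mem_univ v), fac_notMem hv, mul_comm]
      rfl
    · intro i
      change pr t h (insert v A) (v, i) = 1
      rw [pr, if_pos hvi]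
    · intro i
      change pr t h A (v, i) = 1 + eta t h
      rw [pr, if_neg hv]
    · rintro ⟨u, i⟩ hui
      have huv : u ≠ v := by
        rintro rfl
        exact hui ⟨i, rfl⟩
      change pr t h A (u, i) = pr t h (insert v A) (u, i)
      unfold pr
      by_cases huA : u ∈ A
      · rw [if_pos huA, if_pos (Finset.mem_insert_of_mem huA)]
      · rw [if_neg huA, if_neg]
        intro h1
        rcases Finset.mem_insert.1 h1 with h2 | h2
        · exact huv h2
        · exact huA h2
  exact rep H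

end Hyb

open Hyb in
theorem hyb (T : Top U) (h : ℕ) (m : U → Fin 3 → ℝ) {t : ℝ} (t0 : 0 ≤ t) (t1 : t ≤ 1 / 200)
    (hm : ∀ u d, |m u d| ≤ t) (hm1 : ∀ u d, |m u d| ≤ 1)
    (hm2 : ∀ u, |mj (m u 0) (m u 1) (m u 2)| ≤ 1) :
    (world T (h + 1) (fun u => mj (m u 0) (m u 1) (m u 2)) hm2).V (fun _ => 0)
      ≤ (1 + eta t h) * (world3 T h m hm1).V fun _ => 0 := by
  classical
  have hη := eta_nonneg t0 h
  have hall : ∀ A : Finset U, (SA T h m t0 hm1 hm2 A).V (fun _ => 0) ≤
      (SA T h m t0 hm1 hm2 ∅).V fun _ => 0 := by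
    intro A
    induction A using Finset.induction_on with
    | empty => exact le_rfl
    | insert v A hv ih => exact (step T h m t0 t1 hm hm1 hm2 A v hv).trans ih
  have h1 : (world T (h + 1) (fun u => mj (m u 0) (m u 1) (m u 2)) hm2).V (fun _ => 0) ≤
      1 * (SA T h m t0 hm1 hm2 Finset.univ).V fun _ => 0 := by
    refine Sys.V_cmp (world T (h + 1) (fun u => mj (m u 0) (m u 1) (m u 2)) hm2)
      (SA T h m t0 hm1 hm2 Finset.univ) (fun _ => rfl) one_pos (fun i s => ?_) _
    change 1 * (∏ u, (1 + mj (m u 0) (m u 1) (m u 2) * nn (h + 1) (row s u))) ≤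
      1 * (pr t h Finset.univ i * ∏ u, fac h m Finset.univ u (row s u))
    rw [pr, if_pos (Finset.mem_univ _), one_mul, one_mul, one_mul]
    refine le_of_eq (Finset.prod_congr rfl fun u _ => ?_)
    rw [fac_mem (Finset.mem_univ u)]
  have h2 : (SA T h m t0 hm1 hm2 ∅).V (fun _ => 0) ≤
      (1 + eta t h) * (world3 T h m hm1).V fun _ => 0 := by
    have h3 : 0 < 1 + eta t h := by linarith
    refine Sys.V_cmp (SA T h m t0 hm1 hm2 ∅) (world3 T h m hm1) (fun _ => rfl) h3
      (fun i s => ?_) _
    change pr t h ∅ i * (∏ u, fac h m ∅ u (row s u)) ≤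
      (1 + eta t h) * (1 * ∏ u, ∏ d, (1 + m u d * nn h (sub (row s u) d)))
    rw [pr, if_neg (Finset.notMem_empty _), one_mul]
    refine le_of_eq ?_
    rw [Finset.prod_congr rfl fun u _ => fac_notMem (Finset.notMem_empty u) _]
  rw [one_mul] at h1
  exact (h1.trans (hall _)).trans h2

end Pool.Agent.MP58T
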