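import Pool.Agent.Lib.MP_58cb87_lc_T.Loc
import Pool.Agent.Lib.MP_58cb87_lc_T.Ale

set_option autoImplicit false

/-!
# The effect of one bit on the local part

PROOF, by induction on `k` (for all `ε`, `s`, `l`). Let `s^± = upd s (ε l) (±1)`.

`k = 0`: `range ε = {ε l0}`, `nn 0 (blk ε s^±) = ±1`, `fill ε (±1) s^± = s^±`, so
`loc S 0 ε s^± = 0`.

`k + 1`: `l = lc d l'`, let `ε' = sb ε d`, `ε' l' = ε l`. `AffOn.sb` gives the hypotheses for `ε'`; and
`w (fill ε' z s) ≤ c` because `AffOn` for `ε` writes it as a convex combination of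
`w (fill ε (±1) s)` (`fill_sb`). For every state `t`:
`loc S (k+1) ε t - loc S k ε' t = ∑_{z' = ±1} (1 + z' n_{ε'} t)/2 * loc S (k+1) ε (fill ε' z' t)`
(`nn_fill_sb`, `fill_sb`; `n_{ε'} t = nn k (blk ε' t)`). For `t = s^±` the states `fill ε' z' t` agree
(`fill_upd`), `n_{ε'} s⁺ - n_{ε'} s⁻ = 2 * inf k (blk ε' s) l'`. So the difference of the two
values of the right side is `inf k (blk ε' s) l' * (X₁ - X₂)`, `X_j = loc S (k+1) ε (fill ε' (±1) s)`,
`0 ≤ X_j ≤ c * (5/2)^(k+1)` (`loc_nonneg`, `loc_le`, `A_le`; note `fill ε z (fill ε' z' s) = fill ε z s`), hence at most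
`c * (5/2)^(k+1) * inf k (blk ε' s) l'` in absolute value. With the induction hypothesis:
`≤ c * (Jm k .. + (5/2)^(k+1) * inf k ..)` and `Jm k s l + (5/2)^(k+1) * inf k s l = Jp k s l`
(by cases on `k`), `Jm (k+1) (blk ε s) (lc d l') = Jp k (blk ε' s) l'`.
-/

namespace Pool.Agent.MP58T

variable {ι : Type} [Finite ι]

theorem Jm_add (k : ℕ) (s : State (Lf k)) (l : Lf k) :
    Jm k s l + (5 / 2) ^ (k + 1) * inf k s l = Jp k s l := by
  cases k with
  | zero =>
    simp only [Jm, Jp]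
    ring
  | succ k => rfl

namespace Lip

theorem fill_zero {ε : Lf 0 → ι} (s : State ι) (l : Lf 0) (z : SignType) :
    fill ε z (upd s (ε l) z) = upd s (ε l) z := by
  funext i
  by_cases h : i ∈ Set.range ε
  · obtain ⟨j, rfl⟩ := h
    rw [fill_mem, eq_l0 j, eq_l0 l, upd_same]
  · rw [fill_of_notMem _ _ _ h]

theorem loc_zero (S : Sys ι) {ε : Lf 0 → ι} (hε : Function.Injective ε) (s : State ι)
    (l : Lf 0) : loc S 0 ε (upd s (ε l) 1) = 0 ∧ loc S 0 ε (upd s (ε l) (-1)) = 0 := by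
  constructor
  · have h1 : nn 0 (blk ε (upd s (ε l) 1)) = 1 := by
      rw [blk_upd hε, eq_l0 l]
      simp [nn, Mr]
    rw [loc, h1, fill_zero]
    ring
  · have h1 : nn 0 (blk ε (upd s (ε l) (-1))) = -1 := by
      rw [blk_upd hε, eq_l0 l]
      simp [nn, Mr]
    rw [loc, h1, fill_zero]
    ring

theorem loc_diff (S : Sys ι) {k : ℕ} {ε : Lf (k + 1) → ι} (hε : Function.Injective ε)
    (d : Fin 3) (t : State ι) : loc S (k + 1) ε t = loc S k (sb ε d) t +
      ((1 + nn k (blk (sb ε d) t)) / 2 * loc S (k + 1) ε (fill (sb ε d) 1 t) +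
        (1 - nn k (blk (sb ε d) t)) / 2 * loc S (k + 1) ε (fill (sb ε d) (-1) t)) := by
  simp only [loc, fill_sb]
  rw [nn_fill_sb hε d t]
  ring

end Lip

theorem lip (S : Sys ι) (k : ℕ) {ε : Lf k → ι} (hε : Function.Injective ε)
    (hM : AffOn S.M k ε) (hw : AffOn S.w k ε) (hp : ∀ i, S.p (ε i) ≤ 1) (s : State ι) (c : ℝ)
    (h1 : S.w (fill ε 1 s) ≤ c) (h2 : S.w (fill ε (-1) s) ≤ c) (l : Lf k) :
    |loc S k ε (upd s (ε l) 1) - loc S k ε (upd s (ε l) (-1))| ≤ c * Jm k (blk ε s) l := by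
  induction k generalizing s c with
  | zero =>
    obtain ⟨h3, h4⟩ := Lip.loc_zero S hε s l
    rw [h3, h4]
    simp [Jm]
  | succ k ih =>
    obtain ⟨d, l', rfl⟩ := exists_lc l
    have hε' : Function.Injective (sb ε d) := sb_inj hε d
    have hc : 0 ≤ c := (S.w0 _).trans h1
    have hwc : ∀ z : SignType, S.w (fill (sb ε d) z s) ≤ c := by
      intro z
      rw [hw, fill_sb, fill_sb]
      have h3 := abs_le.1 (abs_nn_le (k + 1) (blk ε (fill (sb ε d) z s)))
      have e1 := mul_le_mul_of_nonneg_left h1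
        (by linarith : 0 ≤ (1 + nn (k + 1) (blk ε (fill (sb ε d) z s))) / 2)
      have e2 := mul_le_mul_of_nonneg_left h2
        (by linarith : 0 ≤ (1 - nn (k + 1) (blk ε (fill (sb ε d) z s))) / 2)
      linarith
    have hih := ih hε' (hM.sb hε d) (hw.sb hε d) (fun i => hp _) s c (hwc 1) (hwc (-1)) l'
    have hX : ∀ z : SignType, 0 ≤ loc S (k + 1) ε (fill (sb ε d) z s) ∧
        loc S (k + 1) ε (fill (sb ε d) z s) ≤ c * (5 / 2) ^ (k + 1) := by
      intro z
      refine ⟨loc_nonneg S hε hM hw _, ?_⟩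
      refine (loc_le S hε hM hw hp (fill (sb ε d) z s) c (by rw [fill_sb]; exact h1)
        (by rw [fill_sb]; exact h2)).trans ?_
      exact mul_le_mul_of_nonneg_left (A_le (k + 1) _) hc
    have hu : ∀ b : SignType, upd s (ε (lc d l')) b = upd s (sb ε d l') b := fun b => rfl
    rw [hu, hu, Lip.loc_diff S hε d (upd s (sb ε d l') 1),
      Lip.loc_diff S hε d (upd s (sb ε d l') (-1))]
    simp only [fill_upd, blk_upd hε']
    have hinf : nn k (upd (blk (sb ε d) s) l' 1) - nn k (upd (blk (sb ε d) s) l' (-1)) =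
        2 * inf k (blk (sb ε d) s) l' := by
      unfold inf
      ring
    have hI := inf_nonneg k (blk (sb ε d) s) l'
    obtain ⟨a1, a2⟩ := hX 1
    obtain ⟨b1, b2⟩ := hX (-1)
    have hJ := Jm_add k (blk (sb ε d) s) l'
    have hJ2 : Jm (k + 1) (blk ε s) (lc d l') = Jp k (blk (sb ε d) s) l' := rfl
    rw [hJ2, ← hJ]
    generalize loc S (k + 1) ε (fill (sb ε d) 1 s) = X₁ at *
    generalize loc S (k + 1) ε (fill (sb ε d) (-1) s) = X₂ at *
    generalize nn k (upd (blk (sb ε d) s) l' 1) = n₁ at *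
    generalize nn k (upd (blk (sb ε d) s) l' (-1)) = n₂ at *
    generalize inf k (blk (sb ε d) s) l' = I at *
    generalize Jm k (blk (sb ε d) s) l' = J at *
    generalize loc S k (sb ε d) (upd s (sb ε d l') 1) = Y₁ at *
    generalize loc S k (sb ε d) (upd s (sb ε d l') (-1)) = Y₂ at *
    generalize ((5 : ℝ) / 2) ^ (k + 1) = D at *
    have h5 : Y₁ + ((1 + n₁) / 2 * X₁ + (1 - n₁) / 2 * X₂) -
        (Y₂ + ((1 + n₂) / 2 * X₁ + (1 - n₂) / 2 * X₂)) = (Y₁ - Y₂) + I * (X₁ - X₂) := by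
      linear_combination (X₁ - X₂) / 2 * hinf
    rw [h5]
    have h6 : |I * (X₁ - X₂)| ≤ I * (c * D) := by
      rw [abs_mul, abs_of_nonneg hI]
      refine mul_le_mul_of_nonneg_left ?_ hI
      rw [abs_le]
      constructor <;> linarith
    calc |(Y₁ - Y₂) + I * (X₁ - X₂)| ≤ |Y₁ - Y₂| + |I * (X₁ - X₂)| := abs_add_le _ _
      _ ≤ c * J + I * (c * D) := add_le_add hih h6
      _ = c * (J + D * I) := by ring

end Pool.Agent.MP58T
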