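import Pool.Agent.Lib.MP_58cb87_lc_T.Syst
import Pool.Agent.Lib.MP_58cb87_lc.Lower

set_option autoImplicit false

/-!
# The system of the iterated majority on the positions `Fin (3 ^ k)`
-/

namespace Pool.Agent.MP58T

open Pool.Agent.MP_58cb87_lc (Mf Mf_sgn midAff_MY zero_vals energy MidAff sgn iterMaj)

/-- a state as a real vector -/
noncomputable def rv {ι : Type} (s : State ι) : ι → ℝ := fun i => ((s i : SignType) : ℝ)

theorem rv_upd {ι : Type} [DecidableEq ι] (s : State ι) (i : ι) (b : SignType) :
    rv (upd s i b) = Function.update (rv s) i (b : ℝ) := by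
  funext j
  by_cases h : j = i
  · subst h; simp [rv]
  · rw [Function.update_of_ne h, rv, rv, upd_ne _ _ h]

theorem midAff_harm {ι : Type} [DecidableEq ι] {g : (ι → ℝ) → ℝ} (hg : MidAff g) :
    Harm fun s : State ι => g (rv s) := by
  intro s i hi
  have h := hg (rv s) i
  have h0 : Function.update (rv s) i 0 = rv s := by
    have : rv s i = 0 := by simp [rv, hi]
    rw [← this, Function.update_eq_self]
  rw [h0] at h
  beta_reduce
  rw [rv_upd, rv_upd, ← h]
  simp

theorem rv_cases {ι : Type} (s : State ι) (i : ι) : rv s i = -1 ∨ rv s i = 0 ∨ rv s i = 1 := by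
  unfold rv
  cases s i <;> simp

/-- the iterated majority on `Fin (3 ^ k)`, uniform bits, prices `1` -/
noncomputable def fm (k : ℕ) : Sys (Fin (3 ^ k)) where
  M s := Mf k (rv s)
  w _ := 1
  p _ := 1
  harmM := midAff_harm (midAff_MY k).1
  absM s := (energy k (rv s) fun i => rv_cases s i).1
  full s hs := by
    have h : rv s = fun i => sgn (decide (s i = 1)) := by
      funext i
      have := hs i
      unfold rv
      cases h : s i
      · exact absurd h this
      · simp [sgn]
      · simp [sgn]
    rw [h, Mf_sgn]
    cases iterMaj k fun i => decide (s i = 1) <;> simp [sgn]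
  harmw _ _ _ := by norm_num
  w0 _ := zero_le_one
  p0 _ := zero_le_one

end Pool.Agent.MP58T
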