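import Pool.Agent.Lib.MP_58cb87_lc_T.Lnk
import Pool.Agent.Lib.MP_58cb87_lc_T.Base2

set_option autoImplicit false

/-!
# The two indexings of the leaves

PROOFS. `exists_e`: induction on `k`: `k = 0`: both types have one element. `k + 1`: `Lf (k+1) = Fin 3 × Lf k ≃
Fin 3 × Fin (3^k) ≃ Fin (3^(k+1))` (`blockEquiv k` of `Pool/Agent/Lib/MP_58cb87_lc/Blocks.lean`, `blockEquiv_apply`),
`Mr (k+1) x = mj ..` and `Mf (k+1) s = mM ..` (`mj = mM`, both `(a+b+c-abc)/2`). `C_eq_fm`: `Sys.V_reindex` with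
this equivalence `e : Lf k ≃ Fin (3^k)`, `S = fm k`, `T = gm k`, at the state `0`.
-/

namespace Pool.Agent.MP58T

open Pool.Agent.MP_58cb87_lc (Mf)

theorem exists_e : ∀ k : ℕ, ∃ e : Lf k ≃ Fin (3 ^ k), ∀ x : Fin (3 ^ k) → ℝ,
    Mr k (fun i => x (e i)) = Mf k x
  | 0 => by
      refine ⟨⟨fun _ => ⟨0, Nat.one_pos⟩, fun _ => l0, fun _ => rfl, fun i => ?_⟩, fun x => rfl⟩
      exact Fin.ext (Nat.lt_one_iff.1 i.2).symm
  | k + 1 => by
      obtain ⟨e, he⟩ := exists_e k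
      refine ⟨(Equiv.prodCongr (Equiv.refl (Fin 3)) e).trans
        (Pool.Agent.MP_58cb87_lc.blockEquiv k), fun x => ?_⟩
      have h0 := he fun i => x (Pool.Agent.MP_58cb87_lc.blockPos k 0 i)
      have h1 := he fun i => x (Pool.Agent.MP_58cb87_lc.blockPos k 1 i)
      have h2 := he fun i => x (Pool.Agent.MP_58cb87_lc.blockPos k 2 i)
      rw [Mf, ← h0, ← h1, ← h2]
      rfl

theorem C_eq_fm (k : ℕ) : C k = (fm k).V fun _ => 0 := by
  obtain ⟨e, he⟩ := exists_e k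
  have h := Sys.V_reindex e (fm k) (gm k) (fun s => he (rv s)) (fun _ => rfl) (fun _ => rfl)
    (fun _ => 0)
  exact h

end Pool.Agent.MP58T
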