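import Pool.Agent.Lib.MP_58cb87_lc_T.Base2

set_option autoImplicit false

/-!
# The local part of the optimal cost is nonnegative

PROOF. `Φ s = (1+n)/2 * V (fill ε 1 s) + (1-n)/2 * V (fill ε (-1) s)`, `n = nn k (blk ε s)`, is a
potential of `S`; then `le_V`. (1) `|M s| = 1`: by `AffOn.det`, if `n ≠ -1` then
`|M (fill ε 1 s)| = 1` and `V (fill ε 1 s) = 0`; if `n = -1` the coefficient `(1+n)/2` is `0`; same
for the other term. (2) Query of `i ∉ range ε`, `s i = 0`: `fill_upd_ne`, `blk_upd_ne`, `V_step` for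
`fill ε z s` (both `z`), and `(1+n)/2 w (fill ε 1 s) + (1-n)/2 w (fill ε (-1) s) = w s` (`AffOn`
for `w`). Coefficients are nonnegative (`abs_nn_le`). (3) Query of `i = ε j`: `fill_upd`,
`blk_upd`, `harm_nn`: `Φ s = (Φ s⁺ + Φ s⁻)/2`, and `p w ≥ 0`.
-/

namespace Pool.Agent.MP58T

variable {ι : Type} [Finite ι] {k : ℕ}

theorem loc_nonneg (S : Sys ι) {ε : Lf k → ι} (hε : Function.Injective ε)
    (hM : AffOn S.M k ε) (hw : AffOn S.w k ε) (s : State ι) : 0 ≤ loc S k ε s := by
  have hpot : S.Pot fun t => (1 + nn k (blk ε t)) / 2 * S.V (fill ε 1 t)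
      + (1 - nn k (blk ε t)) / 2 * S.V (fill ε (-1) t) := by
    constructor
    · intro t ht
      obtain ⟨h1, h2⟩ := hM.det S.absM ht
      beta_reduce
      have a1 : (1 + nn k (blk ε t)) / 2 * S.V (fill ε 1 t) = 0 := by
        by_cases hn : nn k (blk ε t) = -1
        · rw [hn]; ring
        · rw [S.V_det (by rw [h1 hn]; exact ht), mul_zero]
      have a2 : (1 - nn k (blk ε t)) / 2 * S.V (fill ε (-1) t) = 0 := by
        by_cases hn : nn k (blk ε t) = 1
        · rw [hn]; ring
        · rw [S.V_det (by rw [h2 hn]; exact ht), mul_zero]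
      rw [a1, a2, add_zero]
    · intro t _ i hi
      beta_reduce
      by_cases hr : i ∈ Set.range ε
      · obtain ⟨j, rfl⟩ := hr
        have hj : blk ε t j = 0 := hi
        have hh := harm_nn k (blk ε t) j hj
        have hpw : 0 ≤ S.p (ε j) * S.w t := mul_nonneg (S.p0 _) (S.w0 _)
        rw [fill_upd, fill_upd, fill_upd, fill_upd, blk_upd hε, blk_upd hε]
        have e : (1 + nn k (blk ε t)) / 2 * S.V (fill ε 1 t)
            + (1 - nn k (blk ε t)) / 2 * S.V (fill ε (-1) t)
            = ((1 + nn k (upd (blk ε t) j 1)) / 2 * S.V (fill ε 1 t)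
              + (1 - nn k (upd (blk ε t) j 1)) / 2 * S.V (fill ε (-1) t)
              + ((1 + nn k (upd (blk ε t) j (-1))) / 2 * S.V (fill ε 1 t)
              + (1 - nn k (upd (blk ε t) j (-1))) / 2 * S.V (fill ε (-1) t))) / 2 := by
          linear_combination (S.V (fill ε 1 t) - S.V (fill ε (-1) t)) / 4 * hh
        linarith
      · have b := abs_le.1 (abs_nn_le k (blk ε t))
        have s1 := S.V_step (fill ε 1 t) i (by rw [fill_of_notMem _ _ _ hr]; exact hi)
        have s2 := S.V_step (fill ε (-1) t) i (by rw [fill_of_notMem _ _ _ hr]; exact hi)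
        have hwt := hw t
        rw [blk_upd_ne ε t _ hr, blk_upd_ne ε t _ hr, fill_upd_ne ε _ t _ hr,
          fill_upd_ne ε _ t _ hr, fill_upd_ne ε _ t _ hr, fill_upd_ne ε _ t _ hr]
        have c1 : 0 ≤ (1 + nn k (blk ε t)) / 2 := by linarith [b.1]
        have c2 : 0 ≤ (1 - nn k (blk ε t)) / 2 := by linarith [b.2]
        have m1 := mul_le_mul_of_nonneg_left s1 c1
        have m2 := mul_le_mul_of_nonneg_left s2 c2
        rw [hwt]
        calc _ ≤ _ := add_le_add m1 m2
          _ = _ := by ring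
  have := S.le_V hpot s
  unfold loc
  linarith

end Pool.Agent.MP58T
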