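import Pool.Agent.Lib.MP_58cb87_lc_T.Base2

set_option autoImplicit false

/-!
# The local part of the optimal cost is at most the cost of the block

PROOF. `put ε τ s`: the state `s` with the content `τ` in the block. `put ε (blk ε s) s = s`,
`blk ε (put ε τ s) = τ`, `fill ε z (put ε τ s) = fill ε z s` (`ε` injective).

(a) `V_put_le`: if `nn k τ = z` (`z = 1` or `-1`) then `V (put ε τ s) ≤ V (fill ε z s)`. Use `le_V`
at the state `fill ε z s` for the potential
`Φ t = if (∀ i, t (ε i) = z) then V (put ε τ t) else 0`: (1) `|M t| = 1`: if `t` is constant `z` on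
the
block, `M (put ε τ t) = M (fill ε z t) = M t` by `AffOn` (`fill ε z t = t`), so `V (put ..) = 0`.
(2) query `i`, `t i = 0`: if `t` is constant `z` on the block then `i ∉ range ε`; `put ε τ`
commutes with
`upd _ i b`, the weights `w (put ε τ t) = w t` agree by `AffOn`, `V_step` for `put ε τ t`. If `t`
is not
constant `z` on the block, `Φ t = 0` and the right side is `≥ 0` (`Φ ≥ 0`).

(b) Let first `c > 0`. `Φ τ = loc S k ε (put ε τ s) / c` is a potential of `gm k`: if `|nn k τ| = 1`
then `Φ τ ≤ 0` by (a); step: `blk ε (put ε τ s) = τ`, `V_step` for `put ε τ s` and the position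
`ε i` (price `≤ 1`), `w (put ε τ s) ≤ c` (`AffOn` and the two bounds), and the subtracted part of
`loc` is harmonic in `τ`. So `loc S k ε s ≤ c * (gm k).V (blk ε s)` by `le_V` of `gm k`. For `c = 0`
(`c ≥ 0` because weights are nonnegative) apply this with `c + δ` for all `δ > 0`.
-/

namespace Pool.Agent.MP58T

variable {ι : Type} [Finite ι] {k : ℕ}

namespace LocU

open Classical in
/-- the state `s` with the content `τ` in the block -/
noncomputable def put {ι : Type} {k : ℕ} (ε : Lf k → ι) (τ : State (Lf k)) (s : State ι) :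
    State ι :=
  fun i => if h : ∃ j, ε j = i then τ h.choose else s i

omit [Finite ι] in
theorem put_mem {ε : Lf k → ι} (hε : Function.Injective ε) (τ : State (Lf k)) (s : State ι)
    (j : Lf k) : put ε τ s (ε j) = τ j := by
  have h : ∃ j', ε j' = ε j := ⟨j, rfl⟩
  have h2 : h.choose = j := hε h.choose_spec
  rw [put, dif_pos h, h2]

omit [Finite ι] in
theorem put_notMem (ε : Lf k → ι) (τ : State (Lf k)) (s : State ι) {i : ι}
    (hi : i ∉ Set.range ε) : put ε τ s i = s i := by
  have h : ¬ ∃ j, ε j = i := fun ⟨j, hj⟩ => hi ⟨j, hj⟩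
  rw [put, dif_neg h]

omit [Finite ι] in
theorem blk_put {ε : Lf k → ι} (hε : Function.Injective ε) (τ : State (Lf k)) (s : State ι) :
    blk ε (put ε τ s) = τ := by
  funext j
  exact put_mem hε τ s j

omit [Finite ι] in
theorem fill_put (ε : Lf k → ι) (τ : State (Lf k)) (s : State ι) (z : SignType) :
    fill ε z (put ε τ s) = fill ε z s := by
  funext i
  by_cases h : i ∈ Set.range ε
  · obtain ⟨j, rfl⟩ := h
    rw [fill_mem, fill_mem]
  · rw [fill_of_notMem _ _ _ h, fill_of_notMem _ _ _ h, put_notMem _ _ _ h]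

omit [Finite ι] in
theorem put_fill {ε : Lf k → ι} (hε : Function.Injective ε) (τ : State (Lf k)) (s : State ι)
    (z : SignType) : put ε τ (fill ε z s) = put ε τ s := by
  funext i
  by_cases h : i ∈ Set.range ε
  · obtain ⟨j, rfl⟩ := h
    rw [put_mem hε, put_mem hε]
  · rw [put_notMem _ _ _ h, put_notMem _ _ _ h, fill_of_notMem _ _ _ h]

omit [Finite ι] in
theorem put_blk {ε : Lf k → ι} (hε : Function.Injective ε) (s : State ι) :
    put ε (blk ε s) s = s := by
  funext i
  by_cases h : i ∈ Set.range ε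
  · obtain ⟨j, rfl⟩ := h
    rw [put_mem hε]
    rfl
  · rw [put_notMem _ _ _ h]

omit [Finite ι] in
theorem put_upd_in {ε : Lf k → ι} (hε : Function.Injective ε) (τ : State (Lf k)) (s : State ι)
    (j : Lf k) (b : SignType) : upd (put ε τ s) (ε j) b = put ε (upd τ j b) s := by
  funext i
  by_cases h : i ∈ Set.range ε
  · obtain ⟨l, rfl⟩ := h
    rw [put_mem hε]
    by_cases hl : l = j
    · subst hl
      rw [upd_same, upd_same]
    · rw [upd_ne _ _ (fun e => hl (hε e)), upd_ne _ _ hl, put_mem hε]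
  · have hne : i ≠ ε j := by
      rintro rfl
      exact h ⟨j, rfl⟩
    rw [put_notMem _ _ _ h, upd_ne _ _ hne, put_notMem _ _ _ h]

omit [Finite ι] in
theorem put_upd_out {ε : Lf k → ι} (hε : Function.Injective ε) (τ : State (Lf k)) (s : State ι)
    {i : ι} (hi : i ∉ Set.range ε) (b : SignType) :
    upd (put ε τ s) i b = put ε τ (upd s i b) := by
  funext j
  by_cases h : j ∈ Set.range ε
  · obtain ⟨l, rfl⟩ := h
    have hne : ε l ≠ i := by
      rintro rfl
      exact hi ⟨l, rfl⟩
    rw [put_mem hε, upd_ne _ _ hne, put_mem hε]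
  · rw [put_notMem _ _ _ h]
    by_cases hj : j = i
    · subst hj
      rw [upd_same, upd_same]
    · rw [upd_ne _ _ hj, upd_ne _ _ hj, put_notMem _ _ _ h]

omit [Finite ι] in
theorem fill_const {ε : Lf k → ι} {z : SignType} {t : State ι} (h : ∀ j, t (ε j) = z) :
    fill ε z t = t := by
  funext i
  by_cases hi : i ∈ Set.range ε
  · obtain ⟨j, rfl⟩ := hi
    rw [fill_mem, h]
  · rw [fill_of_notMem _ _ _ hi]

theorem V_put_le (S : Sys ι) {ε : Lf k → ι} (hε : Function.Injective ε) {z : SignType}
    (hz : z ≠ 0) (τ : State (Lf k)) (hMz : ∀ t, S.M (put ε τ t) = S.M (fill ε z t))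
    (hwz : ∀ t, S.w (put ε τ t) = S.w (fill ε z t)) (s : State ι) :
    S.V (put ε τ s) ≤ S.V (fill ε z s) := by
  classical
  set Φ : State ι → ℝ := fun t => if ∀ j, t (ε j) = z then S.V (put ε τ t) else 0 with hΦ
  have h1 : ∀ t, (∀ j, t (ε j) = z) → Φ t = S.V (put ε τ t) := by
    intro t ht
    rw [hΦ]
    exact if_pos ht
  have h2 : ∀ t, ¬ (∀ j, t (ε j) = z) → Φ t = 0 := by
    intro t ht
    rw [hΦ]
    exact if_neg ht
  have h0 : ∀ t, 0 ≤ Φ t := by
    intro t
    by_cases ht : ∀ j, t (ε j) = z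
    · rw [h1 t ht]
      exact S.V_nonneg _
    · rw [h2 t ht]
  have hpot : S.Pot Φ := by
    constructor
    · intro t ht
      by_cases hc : ∀ j, t (ε j) = z
      · rw [h1 t hc]
        have h3 : |S.M (put ε τ t)| = 1 := by rw [hMz, fill_const hc, ht]
        rw [S.V_det h3]
      · rw [h2 t hc]
    · intro t _ i hi
      by_cases hc : ∀ j, t (ε j) = z
      · have hir : i ∉ Set.range ε := by
          rintro ⟨j, rfl⟩
          exact hz ((hc j).symm.trans hi)
        have hcb : ∀ b, ∀ j, upd t i b (ε j) = z := by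
          intro b j
          have hne : ε j ≠ i := by
            rintro rfl
            exact hir ⟨j, rfl⟩
          rw [upd_ne _ _ hne, hc j]
        have h3 := S.V_step (put ε τ t) i (by rw [put_notMem _ _ _ hir]; exact hi)
        rw [hwz, fill_const hc, put_upd_out hε τ t hir, put_upd_out hε τ t hir] at h3
        rw [h1 t hc, h1 _ (hcb 1), h1 _ (hcb (-1))]
        exact h3
      · rw [h2 t hc]
        have h3 := mul_nonneg (S.p0 i) (S.w0 t)
        have h4 := h0 (upd t i 1)
        have h5 := h0 (upd t i (-1))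
        linarith
  have h3 := S.le_V hpot (fill ε z s)
  rw [h1 _ (fun j => fill_mem ε z s j), put_fill hε] at h3
  exact h3

omit [Finite ι] in
theorem aff_put {g : State ι → ℝ} {ε : Lf k → ι} (hε : Function.Injective ε)
    (hg : AffOn g k ε) (τ : State (Lf k)) (t : State ι) :
    g (put ε τ t) = (1 + nn k τ) / 2 * g (fill ε 1 t) + (1 - nn k τ) / 2 * g (fill ε (-1) t) := by
  rw [hg (put ε τ t), blk_put hε, fill_put, fill_put]

omit [Finite ι] in
theorem loc_put (S : Sys ι) {ε : Lf k → ι} (hε : Function.Injective ε) (τ : State (Lf k))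
    (s : State ι) : loc S k ε (put ε τ s) = S.V (put ε τ s) -
      ((1 + nn k τ) / 2 * S.V (fill ε 1 s) + (1 - nn k τ) / 2 * S.V (fill ε (-1) s)) := by
  rw [loc, blk_put hε, fill_put, fill_put]

theorem loc_le_pos (S : Sys ι) {ε : Lf k → ι} (hε : Function.Injective ε)
    (hM : AffOn S.M k ε) (hw : AffOn S.w k ε) (hp : ∀ i, S.p (ε i) ≤ 1) (s : State ι) (c : ℝ)
    (hc : 0 < c) (h1 : S.w (fill ε 1 s) ≤ c) (h2 : S.w (fill ε (-1) s) ≤ c) :
    loc S k ε s ≤ c * (gm k).V (blk ε s) := by
  have hpot : (gm k).Pot fun τ => loc S k ε (put ε τ s) / c := by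
    constructor
    · intro τ hτ
      change |nn k τ| = 1 at hτ
      change loc S k ε (put ε τ s) / c ≤ 0
      apply div_nonpos_of_nonpos_of_nonneg _ hc.le
      rw [loc_put S hε]
      rcases (abs_eq (zero_le_one' ℝ)).1 hτ with h3 | h3
      · have h4 := V_put_le S hε (z := 1) (by decide) τ
          (fun t => by rw [aff_put hε hM, h3]; ring)
          (fun t => by rw [aff_put hε hw, h3]; ring) s
        rw [h3]
        linarith
      · have h4 := V_put_le S hε (z := -1) (by decide) τ
          (fun t => by rw [aff_put hε hM, h3]; ring)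
          (fun t => by rw [aff_put hε hw, h3]; ring) s
        rw [h3]
        linarith
    · intro τ _ j hj
      change loc S k ε (put ε τ s) / c ≤ 1 * 1 +
        (loc S k ε (put ε (upd τ j 1) s) / c + loc S k ε (put ε (upd τ j (-1)) s) / c) / 2
      have h3 := S.V_step (put ε τ s) (ε j) (by rw [put_mem hε]; exact hj)
      rw [put_upd_in hε, put_upd_in hε] at h3
      have h4 := harm_nn k τ j hj
      have h5 := abs_le.1 (abs_nn_le k τ)
      have h6 : S.w (put ε τ s) ≤ c := by
        rw [aff_put hε hw]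
        have e1 : (1 + nn k τ) / 2 * S.w (fill ε 1 s) ≤ (1 + nn k τ) / 2 * c :=
          mul_le_mul_of_nonneg_left h1 (by linarith [h5.1])
        have e2 : (1 - nn k τ) / 2 * S.w (fill ε (-1) s) ≤ (1 - nn k τ) / 2 * c :=
          mul_le_mul_of_nonneg_left h2 (by linarith [h5.2])
        linarith
      have h7 : S.p (ε j) * S.w (put ε τ s) ≤ 1 * c :=
        mul_le_mul (hp j) h6 (S.w0 _) zero_le_one
      rw [div_le_iff₀ hc]
      have h8 : (1 * 1 + (loc S k ε (put ε (upd τ j 1) s) / c +
          loc S k ε (put ε (upd τ j (-1)) s) / c) / 2) * c =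
          c + (loc S k ε (put ε (upd τ j 1) s) + loc S k ε (put ε (upd τ j (-1)) s)) / 2 := by
        field_simp
      rw [h8, loc_put S hε, loc_put S hε, loc_put S hε]
      have h9 : nn k (upd τ j 1) = 2 * nn k τ - nn k (upd τ j (-1)) := by linarith
      rw [h9]
      nlinarith [h3, h7]
  have h3 := (gm k).le_V hpot (blk ε s)
  change loc S k ε (put ε (blk ε s) s) / c ≤ (gm k).V (blk ε s) at h3
  rw [put_blk hε, div_le_iff₀ hc] at h3
  linarith

end LocU

theorem loc_le (S : Sys ι) {ε : Lf k → ι} (hε : Function.Injective ε)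
    (hM : AffOn S.M k ε) (hw : AffOn S.w k ε) (hp : ∀ i, S.p (ε i) ≤ 1) (s : State ι) (c : ℝ)
    (h1 : S.w (fill ε 1 s) ≤ c) (h2 : S.w (fill ε (-1) s) ≤ c) :
    loc S k ε s ≤ c * (gm k).V (blk ε s) := by
  have hc : 0 ≤ c := (S.w0 _).trans h1
  have hV : 0 ≤ (gm k).V (blk ε s) := (gm k).V_nonneg _
  apply le_of_forall_pos_le_add
  intro δ hδ
  have hV1 : 0 < (gm k).V (blk ε s) + 1 := by linarith
  have hd : 0 < δ / ((gm k).V (blk ε s) + 1) := div_pos hδ hV1
  have h3 := LocU.loc_le_pos S hε hM hw hp s (c + δ / ((gm k).V (blk ε s) + 1))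
    (by linarith) (by linarith) (by linarith)
  have h4 : δ / ((gm k).V (blk ε s) + 1) * (gm k).V (blk ε s) ≤ δ := by
    rw [div_mul_eq_mul_div, div_le_iff₀ hV1]
    nlinarith
  nlinarith

end Pool.Agent.MP58T
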