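import Pool.Agent.Lib.MP_58cb87_lc_T.Gd

set_option autoImplicit false

/-!
# Exponential moments on good states

PROOFS. `σ_i = δ (22/25)^i`.
`mgf_step`: from the hypothesis `H` at height `k = h1 + i` (for all `lam`). `Ey_succ`; the integrand is
`≤ g(a) g(b) g(c) exp (lam (a + b + (1 - ab) c)/2)`, `g` the indicator of `gd .. i`, `a, b, c` also denote the means. Integrate over
`c` with `H` for `lam (1 - ab)/2` (for fixed states `a`, `b`; `Ey_mono`, `Ey_smul`):
`≤ g(a) g(b) exp (lam (a+b)/2) exp (lam² (1-ab)² σ_i²/8)`, where `|ab| ≤ 1/40000` because good states have mean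
`≤ th j δ i ≤ 1/200` (`gd_le`, `th_le`). Then over `b` and over `a` with `H` for `lam/2`. Exponent
`lam² σ_i²/8 * (2 + (1 + 1/40000)²) ≤ lam² (22/25)² σ_i²/2`.
`mgf`: induction. `i = 0`: `Ey_neg`, `nn_neg`: the mean of `g(y) exp (lam n)` is the mean of `g(y) cosh (lam n)`
`≤ cosh (lam δ) ≤ exp (lam² δ²/2)` (`Real.cosh_le_exp_half_sq`, `Real.cosh_le_cosh`). Step: the indicator of `gd .. (i+1)` is at most the
product of the three indicators, `mgf_step`.
-/

namespace Pool.Agent.MP58T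

namespace Mgf

/-- good states have small means -/
theorem small {h1 i : ℕ} {j δ : ℝ} (hj : 1 ≤ j) (hδ0 : 0 < δ) (hδ : 3 * j * δ ≤ 1 / 200)
    {y : State (Lf (h1 + i))} (h : gd h1 (th j δ) i y) : |nn (h1 + i) y| ≤ 1 / 200 := by
  have h2 := (gd_le h).trans (th_le hj hδ0 i)
  have h3 : (22 / 25 : ℝ) ^ i ≤ 1 := pow_le_one₀ (by norm_num) (by norm_num)
  have h4 : 0 ≤ 3 * j * δ := by positivity
  have h5 : 3 * j * δ * (22 / 25) ^ i ≤ 3 * j * δ * 1 := mul_le_mul_of_nonneg_left h3 h4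
  linarith

/-- the exponent of the step -/
theorem exponent {lam a b s : ℝ} (ha : |a| ≤ 1 / 200) (hb : |b| ≤ 1 / 200) :
    (lam * (1 - a * b) / 2) ^ 2 * s ^ 2 / 2 ≤ lam ^ 2 * (1 + 1 / 40000) ^ 2 * s ^ 2 / 8 := by
  have hab : |a * b| ≤ 1 / 40000 := by
    rw [abs_mul]
    have := mul_le_mul ha hb (abs_nonneg _) (by norm_num)
    linarith
  obtain ⟨h1, h2⟩ := abs_le.1 hab
  have h3 : (1 - a * b) ^ 2 ≤ (1 + 1 / 40000) ^ 2 := by
    apply pow_le_pow_left₀ <;> linarith
  have h4 : 0 ≤ lam ^ 2 * s ^ 2 := by positivity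
  nlinarith [mul_le_mul_of_nonneg_left h3 h4]

end Mgf

open Classical in
theorem mgf_step (h1 i : ℕ) {j δ : ℝ} (hj : 1 ≤ j) (hδ0 : 0 < δ) (hδ : 3 * j * δ ≤ 1 / 200)
    (H : ∀ lam : ℝ, Ey (h1 + i) (fun y => if gd h1 (th j δ) i y then
      Real.exp (lam * nn (h1 + i) y) else 0) ≤ Real.exp (lam ^ 2 * (δ * (22 / 25) ^ i) ^ 2 / 2))
    (lam : ℝ) : Ey (h1 + (i + 1)) (fun y => if (∀ d, gd h1 (th j δ) i (sub y d)) then
      Real.exp (lam * nn (h1 + (i + 1)) y) else 0)
        ≤ Real.exp (lam ^ 2 * (δ * (22 / 25) ^ (i + 1)) ^ 2 / 2) := by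
  set s : ℝ := δ * (22 / 25) ^ i with hs
  set C : ℝ := Real.exp (lam ^ 2 * (1 + 1 / 40000) ^ 2 * s ^ 2 / 8) with hC
  have hC0 : 0 < C := Real.exp_pos _
  set D : ℝ := Real.exp ((lam / 2) ^ 2 * s ^ 2 / 2) with hD
  set K : State (Lf (h1 + i)) → ℝ := fun y =>
    if gd h1 (th j δ) i y then Real.exp (lam / 2 * nn (h1 + i) y) else 0 with hK
  have hK0 : ∀ y, 0 ≤ K y := by
    intro y
    simp only [hK]
    split_ifs
    · exact (Real.exp_pos _).le
    · exact le_rfl
  have hKD : Ey (h1 + i) K ≤ D := H (lam / 2)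
  -- the inner expectation
  have inner : ∀ a b : State (Lf (h1 + i)), Ey (h1 + i) (fun c =>
      if (∀ d, gd h1 (th j δ) i (sub (join ![a, b, c]) d)) then
        Real.exp (lam * nn (h1 + (i + 1)) (join ![a, b, c])) else 0) ≤ K a * C * K b := by
    intro a b
    by_cases hab : gd h1 (th j δ) i a ∧ gd h1 (th j δ) i b
    · obtain ⟨ha, hb⟩ := hab
      have e1 : (fun c => if (∀ d, gd h1 (th j δ) i (sub (join ![a, b, c]) d)) then
          Real.exp (lam * nn (h1 + (i + 1)) (join ![a, b, c])) else 0)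
          = fun c => (K a * K b) * (if gd h1 (th j δ) i c then
            Real.exp ((lam * (1 - nn (h1 + i) a * nn (h1 + i) b) / 2) * nn (h1 + i) c) else 0) := by
        funext c
        by_cases hc : gd h1 (th j δ) i c
        · have hall : ∀ d, gd h1 (th j δ) i (sub (join ![a, b, c]) d) := by
            intro d
            fin_cases d
            · exact ha
            · exact hb
            · exact hc
          rw [if_pos hall, if_pos hc]
          simp only [hK]
          rw [if_pos ha, if_pos hb, ← Real.exp_add, ← Real.exp_add]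
          congr 1
          have e2 : nn (h1 + (i + 1)) (join ![a, b, c])
              = mj (nn (h1 + i) a) (nn (h1 + i) b) (nn (h1 + i) c) := nn_succ (h1 + i) _
          rw [e2]
          unfold mj
          ring
        · have hall : ¬ ∀ d, gd h1 (th j δ) i (sub (join ![a, b, c]) d) := fun h => hc (h 2)
          rw [if_neg hall, if_neg hc, mul_zero]
      rw [e1, Ey_smul]
      have h2 := H (lam * (1 - nn (h1 + i) a * nn (h1 + i) b) / 2)
      have h3 : Real.exp ((lam * (1 - nn (h1 + i) a * nn (h1 + i) b) / 2) ^ 2 * s ^ 2 / 2) ≤ C :=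
        Real.exp_le_exp.2 (Mgf.exponent (Mgf.small hj hδ0 hδ ha) (Mgf.small hj hδ0 hδ hb))
      calc K a * K b * _ ≤ K a * K b * C :=
            mul_le_mul_of_nonneg_left (h2.trans h3) (mul_nonneg (hK0 a) (hK0 b))
        _ = K a * C * K b := by ring
    · have e1 : (fun c => if (∀ d, gd h1 (th j δ) i (sub (join ![a, b, c]) d)) then
          Real.exp (lam * nn (h1 + (i + 1)) (join ![a, b, c])) else 0)
          = fun _ : State (Lf (h1 + i)) => (0 : ℝ) := by
        funext c
        rw [if_neg]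
        intro h
        exact hab ⟨h 0, h 1⟩
      rw [e1, Ey_const]
      exact mul_nonneg (mul_nonneg (hK0 a) hC0.le) (hK0 b)
  have h2 : Ey (h1 + (i + 1)) (fun y => if (∀ d, gd h1 (th j δ) i (sub y d)) then
      Real.exp (lam * nn (h1 + (i + 1)) y) else 0)
      ≤ Ey (h1 + i) fun a => Ey (h1 + i) fun b => K a * C * K b := by
    refine (Ey_succ (h1 + i) _).le.trans ?_
    exact Ey_mono _ fun a => Ey_mono _ fun b => inner a b
  have h3 : (Ey (h1 + i) fun a => Ey (h1 + i) fun b => K a * C * K b)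
      ≤ Ey (h1 + i) fun a => (C * D) * K a := by
    refine Ey_mono _ fun a => ?_
    rw [Ey_smul]
    calc K a * C * Ey (h1 + i) K ≤ K a * C * D :=
          mul_le_mul_of_nonneg_left hKD (mul_nonneg (hK0 a) hC0.le)
      _ = (C * D) * K a := by ring
  have h4 : (Ey (h1 + i) fun a => (C * D) * K a) ≤ C * D * D := by
    rw [Ey_smul]
    exact mul_le_mul_of_nonneg_left hKD (mul_nonneg hC0.le (Real.exp_pos _).le)
  refine (h2.trans (h3.trans h4)).trans ?_
  rw [hC, hD, ← Real.exp_add, ← Real.exp_add]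
  apply Real.exp_le_exp.2
  have h5 : δ * (22 / 25) ^ (i + 1) = s * (22 / 25) := by rw [hs]; ring
  rw [h5]
  have h6 : 0 ≤ lam ^ 2 * s ^ 2 := by positivity
  nlinarith

open Classical in
theorem mgf (h1 : ℕ) {j δ : ℝ} (hj : 1 ≤ j) (hδ0 : 0 < δ) (hδ : 3 * j * δ ≤ 1 / 200) (i : ℕ)
    (lam : ℝ) : Ey (h1 + i) (fun y => if gd h1 (th j δ) i y then
      Real.exp (lam * nn (h1 + i) y) else 0)
        ≤ Real.exp (lam ^ 2 * (δ * (22 / 25) ^ i) ^ 2 / 2) := by
  induction i generalizing lam with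
  | zero =>
    set F : State (Lf (h1 + 0)) → ℝ := fun y => if gd h1 (th j δ) 0 y then
      Real.exp (lam * nn (h1 + 0) y) else 0 with hF
    have h2 : Ey (h1 + 0) (fun y => F y + F fun l => -y l)
        ≤ Ey (h1 + 0) (fun _ => 2 * Real.exp (lam ^ 2 * (δ * (22 / 25) ^ 0) ^ 2 / 2)) := by
      refine Ey_mono _ fun y => ?_
      have e0 : nn (h1 + 0) (fun l => -y l) = - nn (h1 + 0) y := nn_neg _ _
      have e1 : gd h1 (th j δ) 0 (fun l => -y l) ↔ gd h1 (th j δ) 0 y := by
        change |nn (h1 + 0) (fun l => -y l)| ≤ th j δ 0 ↔ |nn (h1 + 0) y| ≤ th j δ 0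
        rw [e0, abs_neg]
      by_cases hy : gd h1 (th j δ) 0 y
      · simp only [hF]
        rw [if_pos hy, if_pos (e1.2 hy), e0]
        have h3 : |nn (h1 + 0) y| ≤ δ := by
          have := gd_le hy
          rwa [th_zero] at this
        have h4 : Real.exp (lam * nn (h1 + 0) y) + Real.exp (lam * -nn (h1 + 0) y)
            = 2 * Real.cosh (lam * nn (h1 + 0) y) := by
          rw [Real.cosh_eq, mul_neg]; ring
        rw [h4]
        refine mul_le_mul_of_nonneg_left ?_ (by norm_num)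
        refine (Real.cosh_le_exp_half_sq _).trans (Real.exp_le_exp.2 ?_)
        have h5 : (nn (h1 + 0) y) ^ 2 ≤ δ ^ 2 := by
          rw [← sq_abs (nn (h1 + 0) y)]
          exact pow_le_pow_left₀ (abs_nonneg _) h3 2
        have h6 : lam ^ 2 * (nn (h1 + 0) y) ^ 2 ≤ lam ^ 2 * δ ^ 2 :=
          mul_le_mul_of_nonneg_left h5 (sq_nonneg lam)
        rw [pow_zero, mul_one, mul_pow]
        linarith
      · simp only [hF]
        rw [if_neg hy, if_neg (fun h => hy (e1.1 h)), add_zero]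
        positivity
    rw [Ey_add, Ey_const] at h2
    have h3 : Ey (h1 + 0) (fun y => F fun l => -y l) = Ey (h1 + 0) F := Ey_neg _ F
    rw [h3] at h2
    have h4 : Ey (h1 + 0) (fun y => F y) = Ey (h1 + 0) F := rfl
    rw [h4] at h2
    linarith
  | succ i ih =>
    refine le_trans (Ey_mono _ fun y => ?_) (mgf_step h1 i hj hδ0 hδ ih lam)
    by_cases hy : gd h1 (th j δ) (i + 1) y
    · rw [if_pos hy, if_pos hy.1]
    · rw [if_neg hy]
      split_ifs
      · exact (Real.exp_pos _).le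
      · exact le_rfl

end Pool.Agent.MP58T
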