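import Pool.Agent.Lib.MP_58cb87_lc_T.Syst

set_option autoImplicit false

/-!
# Mixtures

PROOFS. `mix_add`, `mix_smul`, `mix_mono`: `Finset.sum` lemmas (`mix_mono`: if the product is `0` both terms are `0`,
otherwise the hypothesis applies). `mix_const`: `∑ c, ∏ u, p u (c u) = ∏ u, ∑ b, p u b = 1`
(`Finset.prod_univ_sum`, `Fintype.piFinset_univ`; `∑ b : SignType, f b = f 0 + f (-1) + f 1`, by
`decide`/`simp [SignType.univ_eq]`). `mix_upd`: for every `H : State U → ℝ`,
`∑ c, H c = ∑ c with c u = 0, (H (upd c u 0) + H (upd c u 1) + H (upd c u (-1)))` (the fibres of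
`c ↦ upd c u 0`, `Finset.sum_fiberwise` or `Equiv.funSplitAt`), applied to both sides: the product is
`q b * ∏ v ∈ univ.erase u, p v (c v)` in the first and `(dl 0 b) * ∏ ...` in the second case.
`mix_pure`: only `c = 0` has a nonzero product.
-/

namespace Pool.Agent.MP58T

/-- mixture of the values of `F`, independent coordinates -/
noncomputable def mix {U : Type} [Fintype U] (p : U → SignType → ℝ) (F : State U → ℝ) : ℝ :=
  open Classical in ∑ c : State U, (∏ u, p u (c u)) * F c

/-- point mass -/
noncomputable def dl (b : SignType) : SignType → ℝ := fun b' => if b' = b then 1 else 0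

/-- the probabilities of unknown and known values, for a variable with prior mean `m`, mean `n`,
unknown with probability `ω` -/
noncomputable def pr (ω m n : ℝ) (b : SignType) : ℝ :=
  if b = 0 then ω else ((1 + (b : ℝ) * n) - ω * (1 + (b : ℝ) * m)) / 2

variable {U : Type} [Fintype U]

theorem mix_add (p : U → SignType → ℝ) (F G : State U → ℝ) :
    mix p (fun c => F c + G c) = mix p F + mix p G := by
  unfold mix
  rw [← Finset.sum_add_distrib]
  exact Finset.sum_congr rfl fun c _ => by ring

theorem mix_smul (p : U → SignType → ℝ) (a : ℝ) (F : State U → ℝ) :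
    mix p (fun c => a * F c) = a * mix p F := by
  unfold mix
  rw [Finset.mul_sum]
  exact Finset.sum_congr rfl fun c _ => by ring

theorem mix_mono {p : U → SignType → ℝ} (hp : ∀ u b, 0 ≤ p u b) {F G : State U → ℝ}
    (h : ∀ c, (∀ u, p u (c u) ≠ 0) → F c ≤ G c) : mix p F ≤ mix p G := by
  unfold mix
  refine Finset.sum_le_sum fun c _ => ?_
  by_cases hc : ∀ u, p u (c u) ≠ 0
  · exact mul_le_mul_of_nonneg_left (h c hc) (Finset.prod_nonneg fun u _ => hp u _)
  · push Not at hc
    obtain ⟨u, hu⟩ := hc
    rw [Finset.prod_eq_zero (Finset.mem_univ u) hu, zero_mul, zero_mul]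

theorem Mix.sum_sign (f : SignType → ℝ) : ∑ b, f b = f 0 + f 1 + f (-1) := by
  rw [SignType.univ_eq]
  rw [Finset.sum_insert (by decide), Finset.sum_insert (by decide), Finset.sum_singleton]
  ring

theorem mix_const {p : U → SignType → ℝ} (hp : ∀ u, p u 0 + p u 1 + p u (-1) = 1) (r : ℝ) :
    mix p (fun _ => r) = r := by
  classical
  unfold mix
  rw [← Finset.sum_mul]
  have h : ∑ c : State U, ∏ u, p u (c u) = ∏ u, ∑ b, p u b := by
    rw [Finset.prod_univ_sum, Fintype.piFinset_univ]
  have h2 : ∏ u, ∑ b, p u b = 1 := Finset.prod_eq_one fun u _ => by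
    rw [Mix.sum_sign, hp]
  rw [h2] at h
  convert one_mul r using 2

open Classical in
theorem Mix.split (u : U) (H : State U → ℝ) : ∑ c : State U, H c =
    ∑ c ∈ Finset.univ.filter (fun c : State U => c u = 0),
      (H (upd c u 0) + H (upd c u 1) + H (upd c u (-1))) := by
  have key : ∀ b : SignType, ∑ c ∈ Finset.univ.filter (fun c : State U => c u = b), H c =
      ∑ c ∈ Finset.univ.filter (fun c : State U => c u = 0), H (upd c u b) := by
    intro b
    refine Finset.sum_bij' (fun c _ => upd c u 0) (fun c _ => upd c u b) ?_ ?_ ?_ ?_ ?_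
    · intro c _; simp
    · intro c _; simp
    · intro c hc
      have hc' : c u = b := by simpa using hc
      rw [upd_upd, ← hc', upd_self]
    · intro c hc
      have hc' : c u = 0 := by simpa using hc
      rw [upd_upd, ← hc', upd_self]
    · intro c hc
      have hc' : c u = b := by simpa using hc
      rw [upd_upd, ← hc', upd_self]
  rw [Finset.sum_add_distrib, Finset.sum_add_distrib, ← key 0, ← key 1, ← key (-1),
    ← Mix.sum_sign fun b => ∑ c ∈ Finset.univ.filter (fun c : State U => c u = b), H c]
  rw [Finset.sum_fiberwise]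

theorem Mix.prod_upd (p : U → SignType → ℝ) (u : U) (q : SignType → ℝ) (c : State U)
    (b : SignType) : open Classical in ∏ v, upd p u q v (upd c u b v)
      = q b * ∏ v ∈ Finset.univ.erase u, p v (c v) := by
  classical
  rw [← Finset.mul_prod_erase Finset.univ _ (Finset.mem_univ u), upd_same, upd_same]
  congr 1
  refine Finset.prod_congr (by congr!) fun v hv => ?_
  have hv' : v ≠ u := Finset.ne_of_mem_erase hv
  rw [upd_ne _ _ hv', upd_ne _ _ hv']

theorem mix_upd (p : U → SignType → ℝ) (u : U) (q : SignType → ℝ) (F : State U → ℝ) :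
    mix (upd p u q) F = mix (upd p u (dl 0)) fun c =>
      q 0 * F (upd c u 0) + q 1 * F (upd c u 1) + q (-1) * F (upd c u (-1)) := by
  classical
  unfold mix
  have h1 := Mix.split u fun c : State U => (∏ v, upd p u q v (c v)) * F c
  have h2 := Mix.split u fun c : State U => (∏ v, upd p u (dl 0) v (c v)) *
    (q 0 * F (upd c u 0) + q 1 * F (upd c u 1) + q (-1) * F (upd c u (-1)))
  refine Eq.trans ?_ (h1.trans (Eq.trans ?_ h2.symm))
  · rfl
  · refine Finset.sum_congr rfl fun c _ => ?_
    simp only [Mix.prod_upd, upd_upd]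
    simp only [dl, if_pos, if_neg (show (1 : SignType) ≠ 0 by decide),
      if_neg (show (-1 : SignType) ≠ 0 by decide)]
    ring

theorem mix_pure (F : State U → ℝ) : mix (fun _ => dl 0) F = F fun _ => 0 := by
  classical
  unfold mix
  rw [Finset.sum_eq_single fun _ : U => (0 : SignType)]
  · simp [dl]
  · intro c _ hc
    obtain ⟨u, hu⟩ := Function.ne_iff.1 hc
    rw [Finset.prod_eq_zero (Finset.mem_univ u) (by simp only [dl]; exact if_neg hu), zero_mul]
  · intro h
    exact absurd (Finset.mem_univ _) h

end Pool.Agent.MP58T
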