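import Pool.Agent.Lib.MP_58cb87_lc_T.Ey

set_option autoImplicit false

/-!
# Second moments

PROOFS. `Ey_nn`: `Ey_neg`, `nn_neg`: the mean is its own negative. `vv_succ`: `Ey_succ`,
`nn_succ`, `sub_join`, and
`mj a b c ^ 2 = (a² + b² + c² + a²b²c² + 2ab + 2ac + 2bc - 2a²bc - 2ab²c - 2abc²)/4`; integrate
over `c`, then `b`, then `a`
(`Ey_add`, `Ey_smul`, `Ey_const`): the terms with an odd power vanish by `Ey_nn`. `vv_le`: `vv 0 =
7/8` (`Ey_zero`) and
`v ≤ 7/8` implies `(3v + v³)/4 ≤ v ≤ 7/8`, `v ≥ 0` (`Ey_mono`). `vv_geo`: `v_(k+1) ≤ v_k (3 +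
(7/8)²)/4 = 241/256 v_k`, so
`v_k ≤ 7/8 (241/256)^k`, so `v_25 ≤ 0.2236` and `v_k ≤ 0.2236` for `k ≥ 25` (decreasing), `v_k² ≤
1/20`,
`v_(k+1) ≤ 61/80 v_k` for `k ≥ 25`; and `v_k ≤ 1 ≤ 880 (61/80)^k` for `k ≤ 25`.
-/

namespace Pool.Agent.MP58T

/-- second moment of the mean after random erasures -/
noncomputable def vv (k : ℕ) : ℝ := Ey k fun y => nn k y ^ 2

theorem Ey_nn (k : ℕ) : Ey k (nn k) = 0 := by
  have h1 := Ey_neg k (nn k)
  have h2 : (fun y : State (Lf k) => nn k fun i => -y i) = fun y => (-1) * nn k y := by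
    funext y
    rw [nn_neg]
    ring
  rw [h2, Ey_smul] at h1
  linarith

private theorem Ey_quad (k : ℕ) (α β γ : ℝ) :
    Ey k (fun y => α + β * nn k y + γ * nn k y ^ 2) = α + γ * vv k := by
  have h1 := Ey_add k (fun y => α + β * nn k y) (fun y => γ * nn k y ^ 2)
  have h2 := Ey_add k (fun _ => α) (fun y => β * nn k y)
  have h3 := Ey_smul k γ (fun y => nn k y ^ 2)
  have h4 := Ey_smul k β (nn k)
  have h5 := Ey_const k α
  rw [h1, h2, h3, h4, h5, Ey_nn, vv]
  ring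

theorem vv_succ (k : ℕ) : vv (k + 1) = (3 * vv k + vv k ^ 3) / 4 := by
  rw [vv, Ey_succ]
  have h1 : ∀ a b c : State (Lf k), nn (k + 1) (join ![a, b, c]) ^ 2 =
      (nn k a + nn k b) ^ 2 / 4 + (nn k a + nn k b) * (1 - nn k a * nn k b) / 2 * nn k c +
      (1 - nn k a * nn k b) ^ 2 / 4 * nn k c ^ 2 := by
    intro a b c
    rw [nn_succ]
    simp only [sub_join, mj, Matrix.cons_val_zero, Matrix.cons_val_one, Matrix.cons_val]
    ring
  have h2 : ∀ a b : State (Lf k), Ey k (fun c => nn (k + 1) (join ![a, b, c]) ^ 2) =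
      (nn k a ^ 2 + vv k) / 4 + (nn k a * (1 - vv k) / 2) * nn k b +
      (1 + vv k * nn k a ^ 2) / 4 * nn k b ^ 2 := by
    intro a b
    rw [show (fun c => nn (k + 1) (join ![a, b, c]) ^ 2) = fun c =>
      (nn k a + nn k b) ^ 2 / 4 + (nn k a + nn k b) * (1 - nn k a * nn k b) / 2 * nn k c +
      (1 - nn k a * nn k b) ^ 2 / 4 * nn k c ^ 2 from funext fun c => h1 a b c, Ey_quad]
    ring
  have h3 : ∀ a : State (Lf k),
      Ey k (fun b => Ey k (fun c => nn (k + 1) (join ![a, b, c]) ^ 2)) =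
      vv k / 2 + 0 * nn k a + (1 + vv k ^ 2) / 4 * nn k a ^ 2 := by
    intro a
    rw [show (fun b => Ey k (fun c => nn (k + 1) (join ![a, b, c]) ^ 2)) = fun b =>
      (nn k a ^ 2 + vv k) / 4 + (nn k a * (1 - vv k) / 2) * nn k b +
      (1 + vv k * nn k a ^ 2) / 4 * nn k b ^ 2 from funext fun b => h2 a b, Ey_quad]
    ring
  rw [show (fun a => Ey k (fun b => Ey k (fun c => nn (k + 1) (join ![a, b, c]) ^ 2))) = fun a =>
      vv k / 2 + 0 * nn k a + (1 + vv k ^ 2) / 4 * nn k a ^ 2 from funext h3, Ey_quad]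
  ring

theorem vv_nonneg (k : ℕ) : 0 ≤ vv k := by
  have h := Ey_mono k (F := fun _ => 0) (G := fun y => nn k y ^ 2) (fun y => sq_nonneg _)
  rw [Ey_const] at h
  exact h

theorem vv_le (k : ℕ) : vv k ≤ 7 / 8 := by
  induction k with
  | zero =>
    rw [vv, Ey_zero]
    simp [nn, Mr]
    norm_num
  | succ k ih =>
    rw [vv_succ]
    have h0 := vv_nonneg k
    nlinarith [mul_nonneg h0 (sub_nonneg.2 ih), mul_nonneg (mul_nonneg h0 h0) (sub_nonneg.2 ih)]

private theorem vv_step (k : ℕ) {t : ℝ} (ht : vv k ^ 2 ≤ t) :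
    vv (k + 1) ≤ vv k * ((3 + t) / 4) := by
  rw [vv_succ]
  have h0 := vv_nonneg k
  nlinarith [mul_nonneg h0 (sub_nonneg.2 ht)]

private theorem vv_first (k : ℕ) : vv k ≤ 7 / 8 * (241 / 256) ^ k := by
  induction k with
  | zero => simpa using vv_le 0
  | succ k ih =>
    have h0 := vv_nonneg k
    have h1 : vv k ^ 2 ≤ 49 / 64 := by
      have := vv_le k
      nlinarith
    have h2 := vv_step k h1
    rw [pow_succ]
    nlinarith

private theorem vv_anti (m : ℕ) : vv (25 + m) ≤ 2236 / 10000 := by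
  induction m with
  | zero =>
    refine (vv_first 25).trans ?_
    norm_num
  | succ m ih =>
    have h0 := vv_nonneg (25 + m)
    have h1 : vv (25 + m) ^ 2 ≤ 1 := by nlinarith
    have h2 := vv_step (25 + m) h1
    rw [← add_assoc]
    linarith

private theorem vv_last (m : ℕ) : vv (25 + m) ≤ (61 / 80) ^ m := by
  induction m with
  | zero =>
    have := vv_le 25
    simp only [add_zero, pow_zero]
    linarith
  | succ m ih =>
    have h0 := vv_nonneg (25 + m)
    have h1 : vv (25 + m) ^ 2 ≤ 1 / 20 := by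
      have := vv_anti m
      nlinarith
    have h2 := vv_step (25 + m) h1
    rw [← add_assoc, pow_succ]
    linarith

theorem vv_geo (k : ℕ) : vv k ≤ 880 * (61 / 80) ^ k := by
  have h1 : (1 : ℝ) ≤ 880 * (61 / 80) ^ 25 := by norm_num
  rcases le_total k 25 with h | h
  · have h2 : ((61 : ℝ) / 80) ^ 25 ≤ (61 / 80) ^ k :=
      pow_le_pow_of_le_one (by norm_num) (by norm_num) h
    have h3 := vv_le k
    linarith
  · obtain ⟨m, rfl⟩ := Nat.exists_eq_add_of_le h
    have h2 := vv_last m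
    have h3 : (0 : ℝ) ≤ (61 / 80) ^ m := by positivity
    rw [pow_add]
    nlinarith

end Pool.Agent.MP58T
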