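import Pool.Agent.Lib.MP_58cb87_lc_T.Defs

set_option autoImplicit false

/-!
# Basic facts on the iterated majority
-/

namespace Pool.Agent.MP58T

open Finset

section upd

variable {ι α : Type}

@[simp] theorem upd_same (s : ι → α) (i : ι) (b : α) : upd s i b i = b := by
  simp [upd]

theorem upd_ne (s : ι → α) {i j : ι} (b : α) (h : j ≠ i) : upd s i b j = s j := by
  simp [upd, h]

theorem upd_self (s : ι → α) (i : ι) : upd s i (s i) = s := by
  funext j
  by_cases h : j = i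
  · subst h; simp
  · rw [upd_ne _ _ h]

theorem upd_upd (s : ι → α) (i : ι) (b c : α) : upd (upd s i b) i c = upd s i c := by
  funext j
  by_cases h : j = i
  · subst h; simp
  · rw [upd_ne _ _ h, upd_ne _ _ h, upd_ne _ _ h]

theorem upd_comm (s : ι → α) {i j : ι} (h : i ≠ j) (b c : α) :
    upd (upd s i b) j c = upd (upd s j c) i b := by
  funext l
  by_cases hj : l = j
  · subst hj
    rw [upd_same, upd_ne _ _ (Ne.symm h), upd_same]
  · rw [upd_ne _ _ hj]
    by_cases hi : l = i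
    · subst hi; rw [upd_same, upd_same]
    · rw [upd_ne _ _ hi, upd_ne _ _ hi, upd_ne _ _ hj]

theorem upd_comp {β : Type} (f : α → β) (s : ι → α) (i : ι) (b : α) :
    (fun j => f (upd s i b j)) = upd (fun j => f (s j)) i (f b) := by
  funext j
  by_cases h : j = i
  · subst h; simp
  · rw [upd_ne _ _ h, upd_ne _ _ h]

end upd

section tree

variable {α : Type} {k : ℕ}

theorem lc_inj {d d' : Fin 3} {i i' : Lf k} (h : lc d i = lc d' i') : d = d' ∧ i = i' :=
  Prod.ext_iff.1 h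

theorem exists_lc (l : Lf (k + 1)) : ∃ d i, l = lc d i := ⟨l.1, l.2, rfl⟩

theorem sub_upd_same (s : Lf (k + 1) → α) (d : Fin 3) (i : Lf k) (b : α) :
    sub (upd s (lc d i) b) d = upd (sub s d) i b := by
  funext j
  by_cases h : j = i
  · subst h; simp [sub]
  · have h' : lc d j ≠ lc d i := fun h' => h (lc_inj h').2
    rw [sub, upd_ne _ _ h', upd_ne _ _ h, sub]

theorem sub_upd_ne (s : Lf (k + 1) → α) {d d' : Fin 3} (h : d' ≠ d) (i : Lf k) (b : α) :
    sub (upd s (lc d i) b) d' = sub s d' := by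
  funext j
  have h' : lc d' j ≠ lc d i := fun h' => h (lc_inj h').1
  rw [sub, upd_ne _ _ h', sub]

@[simp] theorem sub_join (a : Fin 3 → Lf k → α) (d : Fin 3) : sub (join a) d = a d := rfl

theorem join_sub (s : Lf (k + 1) → α) : join (fun d => sub s d) = s := rfl

theorem eq_l0 (i : Lf 0) : i = l0 := rfl

theorem eq_of_sub {s t : Lf (k + 1) → α} (h : ∀ d, sub s d = sub t d) : s = t := by
  funext l
  exact congrFun (h l.1) l.2

end tree

theorem mj_abs_le_one {a b c : ℝ} (ha : |a| ≤ 1) (hb : |b| ≤ 1) (hc : |c| ≤ 1) :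
    |mj a b c| ≤ 1 := by
  rw [abs_le] at *
  obtain ⟨a1, a2⟩ := ha
  obtain ⟨b1, b2⟩ := hb
  obtain ⟨c1, c2⟩ := hc
  have p1 : 0 ≤ 1 - a := by linarith
  have p2 : 0 ≤ 1 + a := by linarith
  have q1 : 0 ≤ 1 - b := by linarith
  have q2 : 0 ≤ 1 + b := by linarith
  have r1 : 0 ≤ 1 - c := by linarith
  have r2 : 0 ≤ 1 + c := by linarith
  unfold mj
  constructor
  · nlinarith [mul_nonneg (mul_nonneg p2 q2) r2, mul_nonneg (mul_nonneg p2 q2) r1,
      mul_nonneg (mul_nonneg p2 q1) r2, mul_nonneg (mul_nonneg p1 q2) r2]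
  · nlinarith [mul_nonneg (mul_nonneg p1 q1) r1, mul_nonneg (mul_nonneg p1 q1) r2,
      mul_nonneg (mul_nonneg p1 q2) r1, mul_nonneg (mul_nonneg p2 q1) r1]

/-- `|M(a,b,c)| ≤ (|a|+|b|+|c|)/2` -/
theorem mj_abs_le {a b c : ℝ} (ha : |a| ≤ 1) (hb : |b| ≤ 1) (hc : |c| ≤ 1) :
    |mj a b c| ≤ (|a| + |b| + |c|) / 2 := by
  have key : ∀ x y z : ℝ, 0 ≤ x → 0 ≤ y → 0 ≤ z → x ≤ 1 → y ≤ 1 → z ≤ 1 →
      0 ≤ x * y * z ∧ x * y * z ≤ x ∧ x * y * z ≤ y ∧ x * y * z ≤ z := by
    intro x y z hx hy hz hx1 hy1 hz1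
    have h1 : x * y ≤ x := mul_le_of_le_one_right hx hy1
    have h2 : x * y ≤ y := mul_le_of_le_one_left hy hx1
    have h3 : x * y ≤ 1 := h1.trans hx1
    have h0 : 0 ≤ x * y := mul_nonneg hx hy
    have h4 : x * y * z ≤ x * y := mul_le_of_le_one_right h0 hz1
    exact ⟨mul_nonneg h0 hz, h4.trans h1, h4.trans h2, mul_le_of_le_one_left hz h3⟩
  obtain ⟨k0, k1, k2, k3⟩ := key |a| |b| |c| (abs_nonneg a) (abs_nonneg b) (abs_nonneg c) ha hb hc
  have h : |a| * |b| * |c| = |a * b * c| := by rw [abs_mul, abs_mul]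
  have ha0 := abs_nonneg a
  have hb0 := abs_nonneg b
  have hc0 := abs_nonneg c
  unfold mj
  rcases abs_choice a with h1 | h1 <;> rcases abs_choice b with h2 | h2 <;>
    rcases abs_choice c with h3 | h3 <;>
    simp only [h1, h2, h3] at k0 k1 k2 k3 ha0 hb0 hc0 ⊢ <;> rw [abs_le] <;> constructor <;>
    nlinarith

theorem Mr_aff : ∀ (k : ℕ) (x : Lf k → ℝ) (u : Lf k) (a : ℝ),
    Mr k (upd x u a) = (1 + a) / 2 * Mr k (upd x u 1) + (1 - a) / 2 * Mr k (upd x u (-1))
  | 0, x, u, a => by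
      rw [eq_l0 u]
      simp only [Mr, upd_same]
      ring
  | k + 1, x, u, a => by
      obtain ⟨d, i, rfl⟩ := exists_lc u
      have ih := Mr_aff k (sub x d) i a
      simp only [Mr]
      fin_cases d
      · simp only [Fin.zero_eta, sub_upd_same, sub_upd_ne x (show (1 : Fin 3) ≠ 0 by decide),
          sub_upd_ne x (show (2 : Fin 3) ≠ 0 by decide)]
        simp only [Fin.zero_eta] at ih
        rw [ih]; unfold mj; ring
      · simp only [Fin.mk_one, sub_upd_same, sub_upd_ne x (show (0 : Fin 3) ≠ 1 by decide),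
          sub_upd_ne x (show (2 : Fin 3) ≠ 1 by decide)]
        simp only [Fin.mk_one] at ih
        rw [ih]; unfold mj; ring
      · simp only [Fin.reduceFinMk, sub_upd_same, sub_upd_ne x (show (0 : Fin 3) ≠ 2 by decide),
          sub_upd_ne x (show (1 : Fin 3) ≠ 2 by decide)]
        simp only [Fin.reduceFinMk] at ih
        rw [ih]; unfold mj; ring

theorem abs_Mr_le : ∀ (k : ℕ) (x : Lf k → ℝ), (∀ i, |x i| ≤ 1) → |Mr k x| ≤ 1
  | 0, x, h => h l0
  | k + 1, x, h => mj_abs_le_one (abs_Mr_le k _ fun i => h _) (abs_Mr_le k _ fun i => h _)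
      (abs_Mr_le k _ fun i => h _)

set_option linter.unusedVariables false in
theorem mj_full {a b c : ℝ} (ha : |a| = 1) (hb : |b| = 1) (hc : |c| = 1) : |mj a b c| = 1 := by
  rcases (abs_eq (by norm_num : (0 : ℝ) ≤ 1)).1 ha with rfl | rfl <;>
  rcases (abs_eq (by norm_num : (0 : ℝ) ≤ 1)).1 hb with rfl | rfl <;>
  rcases (abs_eq (by norm_num : (0 : ℝ) ≤ 1)).1 hc with rfl | rfl <;> norm_num [mj]

theorem Mr_full : ∀ (k : ℕ) (x : Lf k → ℝ), (∀ i, |x i| = 1) → |Mr k x| = 1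
  | 0, x, h => h l0
  | k + 1, x, h => mj_full (Mr_full k _ fun i => h _) (Mr_full k _ fun i => h _)
      (Mr_full k _ fun i => h _)

theorem sign_abs_le (b : SignType) : |(b : ℝ)| ≤ 1 := by
  cases b <;> norm_num

theorem sign_abs_eq {b : SignType} (h : b ≠ 0) : |(b : ℝ)| = 1 := by
  cases b
  · exact absurd rfl h
  · norm_num
  · norm_num

theorem abs_nn_le (k : ℕ) (s : State (Lf k)) : |nn k s| ≤ 1 :=
  abs_Mr_le k _ fun i => sign_abs_le (s i)

theorem nn_full (k : ℕ) (s : State (Lf k)) (h : ∀ i, s i ≠ 0) : |nn k s| = 1 :=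
  Mr_full k _ fun i => sign_abs_eq (h i)

theorem nn_succ (k : ℕ) (s : State (Lf (k + 1))) :
    nn (k + 1) s = mj (nn k (sub s 0)) (nn k (sub s 1)) (nn k (sub s 2)) := rfl

theorem nn_upd (k : ℕ) (s : State (Lf k)) (i : Lf k) (b : SignType) :
    nn k (upd s i b) = Mr k (upd (fun j => ((s j : SignType) : ℝ)) i (b : ℝ)) := by
  rw [nn, upd_comp (fun b : SignType => (b : ℝ))]

theorem harm_nn (k : ℕ) : Harm (nn k) := by
  intro s i hi
  have h1 : nn k s = Mr k (upd (fun j => ((s j : SignType) : ℝ)) i 0) := by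
    rw [nn]
    congr 1
    have := upd_self (fun j => ((s j : SignType) : ℝ)) i
    rw [hi] at this
    simpa using this.symm
  rw [nn_upd, nn_upd, h1, Mr_aff]
  simp
  ring

theorem nn_zero : ∀ k : ℕ, nn k (fun _ => 0) = 0
  | 0 => by simp [nn, Mr]
  | k + 1 => by
      have h : ∀ d, sub (fun _ : Lf (k + 1) => (0 : SignType)) d = fun _ => 0 := fun d => rfl
      rw [nn_succ, h, h, h, nn_zero k]; norm_num [mj]

theorem nn_one : ∀ k : ℕ, nn k (fun _ => 1) = 1
  | 0 => by simp [nn, Mr]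
  | k + 1 => by
      have h : ∀ d, sub (fun _ : Lf (k + 1) => (1 : SignType)) d = fun _ => 1 := fun d => rfl
      rw [nn_succ, h, h, h, nn_one k]; norm_num [mj]

theorem nn_neg_one : ∀ k : ℕ, nn k (fun _ => -1) = -1
  | 0 => by simp [nn, Mr]
  | k + 1 => by
      have h : ∀ d, sub (fun _ : Lf (k + 1) => (-1 : SignType)) d = fun _ => -1 := fun d => rfl
      rw [nn_succ, h, h, h, nn_neg_one k]; norm_num [mj]

theorem sign_neg (b : SignType) : ((-b : SignType) : ℝ) = -(b : ℝ) := by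
  cases b <;> simp

theorem nn_neg : ∀ (k : ℕ) (s : State (Lf k)), nn k (fun i => -s i) = -nn k s
  | 0, s => by simp [nn, Mr]
  | k + 1, s => by
      have h : ∀ d, sub (fun i : Lf (k + 1) => -s i) d = fun i => -sub s d i := fun d => rfl
      rw [nn_succ, nn_succ, h, h, h, nn_neg k, nn_neg k, nn_neg k]
      unfold mj; ring

/-- the values after a query are `nn ± inf` -/
theorem nn_upd_eq {k : ℕ} {s : State (Lf k)} {l : Lf k} (h : s l = 0) :
    nn k (upd s l 1) = nn k s + inf k s l ∧ nn k (upd s l (-1)) = nn k s - inf k s l := by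
  have := harm_nn k s l h
  unfold inf
  constructor <;> linarith

theorem inf_succ_aux {a a' b c : ℝ} :
    (mj a b c - mj a' b c) / 2 = (a - a') / 2 * ((1 - b * c) / 2) := by
  unfold mj; ring

/-- influences are multiplicative along the path to the root -/
theorem inf_succ (k : ℕ) (s : State (Lf (k + 1))) (d : Fin 3) (l : Lf k) :
    inf (k + 1) s (lc d l) = inf k (sub s d) l *
      ((1 - nn k (sub s (d + 1)) * nn k (sub s (d + 2))) / 2) := by
  unfold inf
  rw [nn_succ, nn_succ]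
  fin_cases d
  · simp only [Fin.zero_eta, sub_upd_same, sub_upd_ne s (show (1 : Fin 3) ≠ 0 by decide),
      sub_upd_ne s (show (2 : Fin 3) ≠ 0 by decide)]
    rw [inf_succ_aux]; rfl
  · simp only [Fin.mk_one, sub_upd_same, sub_upd_ne s (show (0 : Fin 3) ≠ 1 by decide),
      sub_upd_ne s (show (2 : Fin 3) ≠ 1 by decide)]
    have h1 : (1 : Fin 3) + 1 = 2 := rfl
    have h2 : (1 : Fin 3) + 2 = 0 := rfl
    rw [h1, h2]; unfold mj; ring
  · simp only [Fin.reduceFinMk, sub_upd_same, sub_upd_ne s (show (0 : Fin 3) ≠ 2 by decide),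
      sub_upd_ne s (show (1 : Fin 3) ≠ 2 by decide)]
    have h1 : (2 : Fin 3) + 1 = 0 := rfl
    have h2 : (2 : Fin 3) + 2 = 1 := rfl
    rw [h1, h2]; unfold mj; ring

theorem inf_nonneg : ∀ (k : ℕ) (s : State (Lf k)) (l : Lf k), 0 ≤ inf k s l
  | 0, s, l => by
      rw [eq_l0 l]; simp [inf, nn, Mr]
  | k + 1, s, l => by
      obtain ⟨d, i, rfl⟩ := exists_lc l
      rw [inf_succ]
      have h1 := abs_le.1 (abs_nn_le k (sub s (d + 1)))
      have h2 := abs_le.1 (abs_nn_le k (sub s (d + 2)))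
      refine mul_nonneg (inf_nonneg k _ _) ?_
      nlinarith [mul_nonneg (sub_nonneg.2 h1.2) (sub_nonneg.2 h2.2),
        mul_nonneg (by linarith [h1.1] : (0:ℝ) ≤ 1 + nn k (sub s (d + 1)))
          (by linarith [h2.1] : (0:ℝ) ≤ 1 + nn k (sub s (d + 2))),
        mul_nonneg (sub_nonneg.2 h1.2) (by linarith [h2.1] : (0:ℝ) ≤ 1 + nn k (sub s (d + 2))),
        mul_nonneg (by linarith [h1.1] : (0:ℝ) ≤ 1 + nn k (sub s (d + 1))) (sub_nonneg.2 h2.2)]

theorem Jp_nonneg : ∀ (k : ℕ) (s : State (Lf k)) (l : Lf k), 0 ≤ Jp k s l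
  | 0, s, l => mul_nonneg (by norm_num) (inf_nonneg 0 s l)
  | k + 1, s, l => add_nonneg (Jp_nonneg k _ _) (mul_nonneg (by positivity) (inf_nonneg _ s l))

end Pool.Agent.MP58T
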