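import Pool.Agent.Lib.MP_58cb87_lc_T.Hyb
import Pool.Agent.Lib.MP_58cb87_lc_T.Rei

set_option autoImplicit false

/-!
# One level of the chain
-/

namespace Pool.Agent.MP58T

variable {U : Type} [Fintype U]

theorem step (T : Top U) (h : ℕ) (m : U × Fin 3 → ℝ) {t : ℝ} (t0 : 0 ≤ t) (t1 : t ≤ 1 / 200)
    (hm : ∀ p, |m p| ≤ t) (hm1 : ∀ p, |m p| ≤ 1)
    (hm2 : ∀ u, |mj (m (u, 0)) (m (u, 1)) (m (u, 2))| ≤ 1) :
    (world T (h + 1) (fun u => mj (m (u, 0)) (m (u, 1)) (m (u, 2))) hm2).V (fun _ => 0)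
      ≤ (1 + eta t h) * (world T.maj h m hm1).V fun _ => 0 := by
  rw [rei_world]
  exact hyb T h (fun u d => m (u, d)) t0 t1 (fun u d => hm (u, d)) (fun u d => hm1 (u, d)) hm2

end Pool.Agent.MP58T
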