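import Pool.Agent.Lib.MP_58cb87_lc_T.Start
import Pool.Agent.Lib.MP_58cb87_lc_T.Step
import Pool.Agent.Lib.MP_58cb87_lc_T.Gd

set_option autoImplicit false

/-!
# Removal of the free information
-/

namespace Pool.Agent.MP58T

open Finset

theorem eta_nonneg {t : ℝ} (ht : 0 ≤ t) (h : ℕ) : 0 ≤ eta t h := by
  unfold eta; positivity

theorem rem (h1 : ℕ) (θ : ℕ → ℝ) (h0 : ∀ l, 0 ≤ θ l) (h2 : ∀ l, θ l ≤ 1 / 200) :
    ∀ (i : ℕ) (U : Type) [Fintype U] (T : Top U) (Y : State (U × Lf (h1 + i)))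
      (hY : ∀ u, |nn (h1 + i) (row Y u)| ≤ 1), (∀ u, gd h1 θ i (row Y u)) →
      (world T i (fun u => nn (h1 + i) (row Y u)) hY).V (fun _ => 0)
        ≤ (∏ l ∈ range i, (1 + eta (θ l) l)) * (game T (h1 + i)).V Y
  | 0, U, _, T, Y, hY, hg => by
      have := start T h1 Y (fun u => lt_of_le_of_lt (hg u) (by linarith [h2 0])) hY
      simpa using this
  | i + 1, U, _, T, Y, hY, hg => by
      have hY' : ∀ p : U × Fin 3, |nn (h1 + i) (row (fun q : (U × Fin 3) × Lf (h1 + i) =>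
          Y (q.1.1, lc q.1.2 q.2)) p)| ≤ 1 := fun p => abs_nn_le _ _
      have ih := rem h1 θ h0 h2 i (U × Fin 3) T.maj
        (fun q : (U × Fin 3) × Lf (h1 + i) => Y (q.1.1, lc q.1.2 q.2)) hY'
        (fun p => (hg p.1).1 p.2)
      have hg' := rei_game T (h1 + i) Y
      rw [hg'] at ih
      have hs := step T i (fun p : U × Fin 3 => nn (h1 + i) (row (fun q : (U × Fin 3) ×
          Lf (h1 + i) => Y (q.1.1, lc q.1.2 q.2)) p)) (h0 i) (h2 i)
        (fun p => gd_le ((hg p.1).1 p.2)) hY' (fun u => hY u)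
      have hpos : 0 ≤ 1 + eta (θ i) i := by linarith [eta_nonneg (h0 i) i]
      rw [prod_range_succ]
      calc (world T (i + 1) (fun u => nn (h1 + (i + 1)) (row Y u)) hY).V (fun _ => 0)
          ≤ (1 + eta (θ i) i) * (world T.maj i (fun p : U × Fin 3 => nn (h1 + i)
            (row (fun q : (U × Fin 3) × Lf (h1 + i) => Y (q.1.1, lc q.1.2 q.2)) p)) hY').V
              (fun _ => 0) := hs
        _ ≤ (1 + eta (θ i) i) * ((∏ l ∈ range i, (1 + eta (θ l) l))
            * (game T (h1 + (i + 1))).V Y) := mul_le_mul_of_nonneg_left ih hpos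
        _ = _ := by ring

theorem rem_final (h1 : ℕ) (θ : ℕ → ℝ) (h0 : ∀ l, 0 ≤ θ l) (h2 : ∀ l, θ l ≤ 1 / 200) (N : ℕ)
    (y : State (Lf (h1 + N))) (hy : gd h1 θ N y) :
    (1 - θ N) * C N ≤ (∏ l ∈ range N, (1 + eta (θ l) l)) * (gm (h1 + N)).V y := by
  have h := rem h1 θ h0 h2 N Unit Top.one (fun p => y p.2) (fun _ => abs_nn_le _ _)
    (fun _ => hy)
  rw [rei_one] at h
  refine le_trans ?_ h
  refine le_trans ?_ (one_world N _ _)
  have h3 : |nn (h1 + N) (row (fun p : Unit × Lf (h1 + N) => y p.2) ())| ≤ θ N := gd_le hy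
  exact mul_le_mul_of_nonneg_right (by linarith) ((gm N).V_nonneg _)

end Pool.Agent.MP58T
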