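import Pool.Agent.Lib.MP_58cb87_lc_T.EnB

set_option autoImplicit false

/-!
# The compensating function of a block

PROOF. Let `R₁`, `R₂` be the functions of `exists_R h`, `exists_R' h`, and
`R τ = (1 + 2t) * ∑_d (63 t R₁ (sub τ d) + 25 t² (5/4)^h R₂ (sub τ d))`. `R ≤ 0`, `R 0 = 0`. For a query of
`lc d l` only the term `d` changes (`sub_upd_same`, `sub_upd_ne`), and the drift is at least
`(1+2t) (63 t (inf Jp - 8 (25/23)^h) + 25 t² (5/4)^h (2^h (max - |n|) - 1))`. Here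
`25 t² (5/4)^h 2^h = 10 t² (5/2)^(h+1)`. The constants: `(1+2t) 504 ≤ 520 (1-t)^3` and
`(1+2t) 25 ≤ 26 (1-t)^3` for `0 ≤ t ≤ 1/200`.
-/

namespace Pool.Agent.MP58T

/-- relative error of the replacement at height `h` with priors at most `t` -/
noncomputable def eta (t : ℝ) (h : ℕ) : ℝ := 520 * t * (25 / 23) ^ h + 26 * t ^ 2 * (5 / 4) ^ h

/-- the bound for the loss of a query inside a block, relative to the outside weight -/
noncomputable def err (t : ℝ) (h : ℕ) (s : State (Lf h)) (l : Lf h) : ℝ :=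
  (1 + 2 * t) * (63 * t * (inf h s l * Jp h s l)
    + 10 * t ^ 2 * (5 / 2) ^ (h + 1) * (max |nn h s| (inf h s l) - |nn h s|))

namespace Rt

/-- the constants -/
theorem consts {t a b : ℝ} (ht0 : 0 ≤ t) (ht : t ≤ 1 / 200) (ha : 0 ≤ a) (hb : 0 ≤ b) :
    (1 + 2 * t) * (504 * t * a + 25 * t ^ 2 * b) ≤
      (520 * t * a + 26 * t ^ 2 * b) * (1 - t) ^ 3 := by
  have h3 : 1 - 3 * t ≤ (1 - t) ^ 3 := by nlinarith [mul_nonneg ht0 ht0]
  have h1 : (1 + 2 * t) * 504 ≤ 520 * (1 - t) ^ 3 := by linarith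
  have h2 : (1 + 2 * t) * 25 ≤ 26 * (1 - t) ^ 3 := by linarith
  have h4 := mul_le_mul_of_nonneg_right h1 (mul_nonneg ht0 ha)
  have h5 := mul_le_mul_of_nonneg_right h2 (mul_nonneg (sq_nonneg t) hb)
  nlinarith

end Rt

theorem exists_Rt (h : ℕ) {t : ℝ} (ht0 : 0 ≤ t) (ht : t ≤ 1 / 200) :
    ∃ R : State (Lf (h + 1)) → ℝ, (∀ τ, R τ ≤ 0) ∧ R (fun _ => 0) = 0 ∧
      ∀ τ d l, τ (lc d l) = 0 → err t h (sub τ d) l - eta t h * (1 - t) ^ 3 ≤
        (R (upd τ (lc d l) 1) + R (upd τ (lc d l) (-1))) / 2 - R τ := by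
  obtain ⟨R₁, hR₁, hR₁0, hR₁d⟩ := exists_R h
  obtain ⟨R₂, hR₂, hR₂0, hR₂d⟩ := exists_R' h
  obtain ⟨g, hg⟩ : ∃ g : State (Lf h) → ℝ,
      g = fun s => 63 * t * R₁ s + 25 * t ^ 2 * (5 / 4) ^ h * R₂ s := ⟨_, rfl⟩
  have h54 : (0 : ℝ) ≤ (5 / 4) ^ h := by positivity
  have hg0 : ∀ s, g s ≤ 0 := by
    intro s
    rw [hg]
    have h1 := mul_nonneg (mul_nonneg (by norm_num : (0 : ℝ) ≤ 63) ht0) (neg_nonneg.2 (hR₁ s))
    have h2 := mul_nonneg (mul_nonneg (mul_nonneg (by norm_num : (0 : ℝ) ≤ 25) (sq_nonneg t)) h54)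
      (neg_nonneg.2 (hR₂ s))
    show 63 * t * R₁ s + 25 * t ^ 2 * (5 / 4) ^ h * R₂ s ≤ 0
    linarith
  have hgd : ∀ (s : State (Lf h)) (l : Lf h), s l = 0 →
      63 * t * (inf h s l * Jp h s l) +
        10 * t ^ 2 * (5 / 2) ^ (h + 1) * (max |nn h s| (inf h s l) - |nn h s|) -
        (504 * t * (25 / 23) ^ h + 25 * t ^ 2 * (5 / 4) ^ h) ≤
        (g (upd s l 1) + g (upd s l (-1))) / 2 - g s := by
    intro s l hl
    have h1 := mul_le_mul_of_nonneg_left (hR₁d s l hl)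
      (mul_nonneg (by norm_num : (0 : ℝ) ≤ 63) ht0)
    have h2 := mul_le_mul_of_nonneg_left (hR₂d s l hl)
      (mul_nonneg (mul_nonneg (by norm_num : (0 : ℝ) ≤ 25) (sq_nonneg t)) h54)
    have e : (25 : ℝ) * t ^ 2 * (5 / 4) ^ h * 2 ^ h = 10 * t ^ 2 * (5 / 2) ^ (h + 1) := by
      have e1 : ((5 : ℝ) / 4) ^ h * 2 ^ h = (5 / 2) ^ h := by
        rw [← mul_pow]
        norm_num
      rw [mul_assoc, e1, pow_succ]
      ring
    rw [hg]
    show _ ≤ (63 * t * R₁ (upd s l 1) + 25 * t ^ 2 * (5 / 4) ^ h * R₂ (upd s l 1) +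
      (63 * t * R₁ (upd s l (-1)) + 25 * t ^ 2 * (5 / 4) ^ h * R₂ (upd s l (-1)))) / 2 -
      (63 * t * R₁ s + 25 * t ^ 2 * (5 / 4) ^ h * R₂ s)
    rw [← e]
    linarith
  refine ⟨fun τ => (1 + 2 * t) * ∑ d, g (sub τ d), fun τ => ?_, ?_, fun τ d l hl => ?_⟩
  · have h1 : ∑ d, g (sub τ d) ≤ 0 := Finset.sum_nonpos fun d _ => hg0 _
    have h2 : 0 ≤ (1 + 2 * t) * -∑ d, g (sub τ d) :=
      mul_nonneg (by linarith) (neg_nonneg.2 h1)
    show (1 + 2 * t) * ∑ d, g (sub τ d) ≤ 0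
    linarith
  · have h1 : ∀ d : Fin 3, sub (fun _ : Lf (h + 1) => (0 : SignType)) d = fun _ => 0 :=
      fun d => rfl
    have h2 : g (fun _ => 0) = 0 := by
      rw [hg]
      show 63 * t * R₁ (fun _ => 0) + 25 * t ^ 2 * (5 / 4) ^ h * R₂ (fun _ => 0) = 0
      rw [hR₁0, hR₂0]
      ring
    show (1 + 2 * t) * ∑ d, g (sub (fun _ : Lf (h + 1) => (0 : SignType)) d) = 0
    simp only [h1, h2, Finset.sum_const_zero, mul_zero]
  · have hs : ∀ b : SignType, ∑ d', g (sub (upd τ (lc d l) b) d') =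
        g (upd (sub τ d) l b) + ∑ d' ∈ Finset.univ.erase d, g (sub τ d') := by
      intro b
      rw [← Finset.add_sum_erase _ _ (Finset.mem_univ d), sub_upd_same]
      congr 1
      refine Finset.sum_congr rfl fun d' hd' => ?_
      rw [sub_upd_ne τ (Finset.ne_of_mem_erase hd')]
    have hs0 : ∑ d', g (sub τ d') = g (sub τ d) + ∑ d' ∈ Finset.univ.erase d, g (sub τ d') :=
      (Finset.add_sum_erase _ _ (Finset.mem_univ d)).symm
    show err t h (sub τ d) l - eta t h * (1 - t) ^ 3 ≤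
      ((1 + 2 * t) * ∑ d', g (sub (upd τ (lc d l) 1) d') +
        (1 + 2 * t) * ∑ d', g (sub (upd τ (lc d l) (-1)) d')) / 2 -
        (1 + 2 * t) * ∑ d', g (sub τ d')
    rw [hs, hs, hs0]
    have h1 := mul_le_mul_of_nonneg_left (hgd (sub τ d) l hl) (by linarith : 0 ≤ 1 + 2 * t)
    have h2 := Rt.consts ht0 ht (a := (25 / 23) ^ h) (b := (5 / 4) ^ h) (by positivity) h54
    unfold err eta
    linarith

end Pool.Agent.MP58T
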