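import Pool.Agent.Lib.MP_58cb87_lc_T.Blk

set_option autoImplicit false

/-!
# The systems of the proof
-/

namespace Pool.Agent.MP58T

open Finset

/-! ### tops -/

/-- the identity -/
noncomputable def Top.one : Top Unit where
  G x := x ()
  aff x u a := by
    simp only [upd_same]; ring
  bd x h := h ()
  full x h := h ()

theorem Top.G_upd_self {U : Type} (T : Top U) (x : U → ℝ) (u : U) :
    T.G x = (1 + x u) / 2 * T.G (upd x u 1) + (1 - x u) / 2 * T.G (upd x u (-1)) := by
  rw [← T.aff, upd_self]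

/-- one more level of majorities below -/
noncomputable def Top.maj {U : Type} (T : Top U) : Top (U × Fin 3) where
  G x := T.G fun u => mj (x (u, 0)) (x (u, 1)) (x (u, 2))
  aff x v a := by
    obtain ⟨u, d⟩ := v
    set X : U → ℝ := fun u => mj (x (u, 0)) (x (u, 1)) (x (u, 2)) with hX
    have key : ∀ b : ℝ, (fun u' => mj (upd x (u, d) b (u', 0)) (upd x (u, d) b (u', 1))
        (upd x (u, d) b (u', 2))) = upd X u (mj (upd x (u, d) b (u, 0)) (upd x (u, d) b (u, 1))
        (upd x (u, d) b (u, 2))) := by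
      intro b
      funext u'
      by_cases h : u' = u
      · subst h; rw [upd_same]
      · rw [upd_ne _ _ h, hX]
        have h' : ∀ d' : Fin 3, ((u', d') : U × Fin 3) ≠ (u, d) := fun d' e =>
          h (Prod.ext_iff.1 e).1
        simp only [upd_ne _ _ (h' _)]
    rw [key, key, key, T.aff, T.aff X u (mj (upd x (u, d) 1 (u, 0)) _ _),
      T.aff X u (mj (upd x (u, d) (-1) (u, 0)) _ _)]
    have h2 : mj (upd x (u, d) a (u, 0)) (upd x (u, d) a (u, 1)) (upd x (u, d) a (u, 2))
        = (1 + a) / 2 * mj (upd x (u, d) 1 (u, 0)) (upd x (u, d) 1 (u, 1)) (upd x (u, d) 1 (u, 2))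
        + (1 - a) / 2 * mj (upd x (u, d) (-1) (u, 0)) (upd x (u, d) (-1) (u, 1))
          (upd x (u, d) (-1) (u, 2)) := by
      have n1 : ∀ d1 d2 : Fin 3, d1 ≠ d2 → ((u, d1) : U × Fin 3) ≠ (u, d2) := fun d1 d2 h e =>
        h (Prod.ext_iff.1 e).2
      fin_cases d
      · simp only [Fin.zero_eta, Fin.isValue, upd_same, upd_ne _ _ (n1 1 0 (by decide)),
          upd_ne _ _ (n1 2 0 (by decide))]
        unfold mj; ring
      · simp only [Fin.mk_one, Fin.isValue, upd_same, upd_ne _ _ (n1 0 1 (by decide)),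
          upd_ne _ _ (n1 2 1 (by decide))]
        unfold mj; ring
      · simp only [Fin.reduceFinMk, Fin.isValue, upd_same, upd_ne _ _ (n1 0 2 (by decide)),
          upd_ne _ _ (n1 1 2 (by decide))]
        unfold mj; ring
    rw [h2]; ring
  bd x h := T.bd _ fun u => mj_abs_le_one (h _) (h _) (h _)
  full x h := T.full _ fun u => mj_full (h _) (h _) (h _)

/-- the iterated majority as a top -/
noncomputable def lfTop (j : ℕ) : Top (Lf j) where
  G := Mr j
  aff := Mr_aff j
  bd := abs_Mr_le j
  full := Mr_full j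

/-! ### rows -/

section row

variable {U : Type} {h : ℕ}

/-- the state below `u` -/
def row (s : State (U × Lf h)) (u : U) : State (Lf h) := fun i => s (u, i)

theorem row_upd_same (s : State (U × Lf h)) (u : U) (i : Lf h) (b : SignType) :
    row (upd s (u, i) b) u = upd (row s u) i b := by
  funext j
  by_cases hj : j = i
  · subst hj; simp [row]
  · rw [row, upd_ne _ _ (fun e => hj (Prod.ext_iff.1 e).2), upd_ne _ _ hj, row]

theorem row_upd_ne (s : State (U × Lf h)) {u u' : U} (hu : u' ≠ u) (i : Lf h) (b : SignType) :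
    row (upd s (u, i) b) u' = row s u' := by
  funext j
  rw [row, upd_ne _ _ (fun e => hu (Prod.ext_iff.1 e).1), row]

/-- the mean of the target -/
noncomputable def Top.M (T : Top U) (h : ℕ) (s : State (U × Lf h)) : ℝ :=
  T.G fun u => nn h (row s u)

theorem rows_upd (s : State (U × Lf h)) (u : U) (i : Lf h) (b : SignType) :
    (fun u' => nn h (row (upd s (u, i) b) u')) =
      upd (fun u' => nn h (row s u')) u (nn h (upd (row s u) i b)) := by
  funext u'
  by_cases hu : u' = u
  · subst hu; rw [upd_same, row_upd_same]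
  · rw [upd_ne _ _ hu, row_upd_ne s hu]

theorem Top.harm_M (T : Top U) (h : ℕ) : Harm (T.M h) := by
  rintro s ⟨u, i⟩ hi
  have h1 : row s u i = 0 := hi
  have h2 := harm_nn h (row s u) i h1
  rw [Top.M, Top.M, Top.M, rows_upd, rows_upd, T.G_upd_self _ u, T.aff _ u (nn h _),
    T.aff _ u (nn h (upd (row s u) i (-1)))]
  linear_combination (T.G (upd (fun u => nn h (row s u)) u 1)
    - T.G (upd (fun u => nn h (row s u)) u (-1))) / 2 * h2

theorem Top.abs_M (T : Top U) (h : ℕ) (s : State (U × Lf h)) : |T.M h s| ≤ 1 :=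
  T.bd _ fun u => abs_nn_le h _

theorem Top.M_full (T : Top U) (h : ℕ) (s : State (U × Lf h)) (hs : ∀ i, s i ≠ 0) :
    |T.M h s| = 1 := T.full _ fun u => nn_full h _ fun i => hs (u, i)

/-- the weight of the priors `m` -/
noncomputable def wt [Fintype U] (h : ℕ) (m : U → ℝ) (s : State (U × Lf h)) : ℝ :=
  ∏ u, (1 + m u * nn h (row s u))

theorem one_add_mul_nonneg {a b : ℝ} (ha : |a| ≤ 1) (hb : |b| ≤ 1) : 0 ≤ 1 + a * b := by
  have : |a * b| ≤ 1 := by
    rw [abs_mul]; exact mul_le_one₀ ha (abs_nonneg b) hb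
  linarith [(abs_le.1 this).1]

theorem wt_nonneg [Fintype U] (h : ℕ) (m : U → ℝ) (hm : ∀ u, |m u| ≤ 1)
    (s : State (U × Lf h)) : 0 ≤ wt h m s :=
  Finset.prod_nonneg fun u _ => one_add_mul_nonneg (hm u) (abs_nn_le h _)

theorem harm_wt [Fintype U] (h : ℕ) (m : U → ℝ) : Harm (wt (U := U) h m) := by
  classical
  rintro s ⟨u, i⟩ hi
  have h1 : row s u i = 0 := hi
  have h2 := harm_nn h (row s u) i h1
  have key : ∀ s' : State (U × Lf h), (∀ u', u' ≠ u → row s' u' = row s u') →
      wt h m s' = (1 + m u * nn h (row s' u)) * ∏ v ∈ Finset.univ.erase u,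
        (1 + m v * nn h (row s v)) := by
    intro s' hs
    rw [wt, ← Finset.mul_prod_erase Finset.univ _ (Finset.mem_univ u)]
    congr 1
    exact Finset.prod_congr rfl fun v hv => by rw [hs v (Finset.ne_of_mem_erase hv)]
  rw [key s fun _ _ => rfl, key _ fun u' hu => row_upd_ne s hu i _,
    key _ fun u' hu => row_upd_ne s hu i _, row_upd_same, row_upd_same]
  linear_combination (m u * ∏ v ∈ Finset.univ.erase u, (1 + m v * nn h (row s v))) * h2

/-- a system with target `T` over blocks of height `h` -/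
noncomputable def Top.sys (T : Top U) (h : ℕ) (w : State (U × Lf h) → ℝ) (hw : Harm w)
    (hw0 : ∀ s, 0 ≤ w s) (p : U × Lf h → ℝ) (hp : ∀ i, 0 ≤ p i) : Sys (U × Lf h) where
  M := T.M h
  w := w
  p := p
  harmM := T.harm_M h
  absM := T.abs_M h
  full := T.M_full h
  harmw := hw
  w0 := hw0
  p0 := hp

/-- the system with priors `m` on the values of the blocks of height `h`, and prices `1` -/
noncomputable def world [Fintype U] (T : Top U) (h : ℕ) (m : U → ℝ) (hm : ∀ u, |m u| ≤ 1) :
    Sys (U × Lf h) :=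
  T.sys h (wt h m) (harm_wt h m) (wt_nonneg h m hm) (fun _ => 1) fun _ => zero_le_one

/-- uniform bits -/
noncomputable def game (T : Top U) (h : ℕ) : Sys (U × Lf h) :=
  T.sys h (fun _ => 1) (fun _ _ _ => by norm_num) (fun _ => zero_le_one) (fun _ => 1)
    fun _ => zero_le_one

end row

/-- the iterated majority with uniform bits and prices `1` -/
noncomputable def gm (k : ℕ) : Sys (Lf k) where
  M := nn k
  w := fun _ => 1
  p := fun _ => 1
  harmM := harm_nn k
  absM := abs_nn_le k
  full := nn_full k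
  harmw := fun _ _ _ => by norm_num
  w0 := fun _ => zero_le_one
  p0 := fun _ => zero_le_one

/-- minimal expected number of queries for the iterated majority of height `k` -/
noncomputable def C (k : ℕ) : ℝ := (gm k).V fun _ => 0

/-- the system whose positions are the variables of the top, with priors `m` -/
noncomputable def lsys {U : Type} [Fintype U] (T : Top U) (m : U → ℝ) (hm : ∀ u, |m u| ≤ 1) :
    Sys U where
  M s := T.G fun u => ((s u : SignType) : ℝ)
  w s := ∏ u, (1 + m u * ((s u : SignType) : ℝ))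
  p _ := 1
  harmM s u hu := by
    have e : ∀ b : SignType, (fun v => ((upd s u b v : SignType) : ℝ))
        = upd (fun v => ((s v : SignType) : ℝ)) u (b : ℝ) := fun b =>
      upd_comp (fun b : SignType => (b : ℝ)) s u b
    beta_reduce
    rw [e, e, T.G_upd_self _ u, hu]
    simp
    ring
  absM s := T.bd _ fun u => sign_abs_le (s u)
  full s hs := T.full _ fun u => sign_abs_eq (hs u)
  harmw s u hu := by
    classical
    have key : ∀ b : SignType, ∏ v, (1 + m v * ((upd s u b v : SignType) : ℝ))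
        = (1 + m u * (b : ℝ)) * ∏ v ∈ Finset.univ.erase u, (1 + m v * ((s v : SignType) : ℝ)) := by
      intro b
      rw [← Finset.mul_prod_erase Finset.univ _ (Finset.mem_univ u), upd_same]
      congr 1
      exact Finset.prod_congr rfl fun v hv => by rw [upd_ne _ _ (Finset.ne_of_mem_erase hv)]
    have h0 := key 0
    rw [← hu, upd_self, hu] at h0
    beta_reduce
    rw [h0, key, key]
    simp
    ring
  w0 s := Finset.prod_nonneg fun u _ => one_add_mul_nonneg (hm u) (sign_abs_le (s u))
  p0 _ := zero_le_one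

/-! ### three priors per block -/

section w3

variable {U : Type} [Fintype U] {h : ℕ}

/-- the weight of independent priors `m u d` on the three sub-blocks of each block -/
noncomputable def wt3 (h : ℕ) (m : U → Fin 3 → ℝ) (s : State (U × Lf (h + 1))) : ℝ :=
  ∏ u, ∏ d, (1 + m u d * nn h (sub (row s u) d))

theorem wt3_nonneg (h : ℕ) (m : U → Fin 3 → ℝ) (hm : ∀ u d, |m u d| ≤ 1)
    (s : State (U × Lf (h + 1))) : 0 ≤ wt3 h m s :=
  Finset.prod_nonneg fun u _ => Finset.prod_nonneg fun d _ =>
    one_add_mul_nonneg (hm u d) (abs_nn_le h _)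

/-- one factor of `wt3` is harmonic -/
theorem harm_prod3 (h : ℕ) (m : Fin 3 → ℝ) :
    Harm fun τ : State (Lf (h + 1)) => ∏ d, (1 + m d * nn h (sub τ d)) := by
  intro τ l hl
  obtain ⟨d, i, rfl⟩ := exists_lc l
  have h2 := harm_nn h (sub τ d) i hl
  simp only [Fin.prod_univ_three]
  fin_cases d
  · simp only [Fin.zero_eta, Fin.isValue, sub_upd_same,
      sub_upd_ne τ (show (1 : Fin 3) ≠ 0 by decide),
      sub_upd_ne τ (show (2 : Fin 3) ≠ 0 by decide)] at h2 ⊢
    linear_combination (m 0 * (1 + m 1 * nn h (sub τ 1)) * (1 + m 2 * nn h (sub τ 2))) * h2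
  · simp only [Fin.mk_one, Fin.isValue, sub_upd_same,
      sub_upd_ne τ (show (0 : Fin 3) ≠ 1 by decide),
      sub_upd_ne τ (show (2 : Fin 3) ≠ 1 by decide)] at h2 ⊢
    linear_combination (m 1 * (1 + m 0 * nn h (sub τ 0)) * (1 + m 2 * nn h (sub τ 2))) * h2
  · simp only [Fin.reduceFinMk, Fin.isValue, sub_upd_same,
      sub_upd_ne τ (show (0 : Fin 3) ≠ 2 by decide),
      sub_upd_ne τ (show (1 : Fin 3) ≠ 2 by decide)] at h2 ⊢
    linear_combination (m 2 * (1 + m 0 * nn h (sub τ 0)) * (1 + m 1 * nn h (sub τ 1))) * h2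

/-- a product over the blocks of harmonic functions of the rows is harmonic -/
theorem harm_rows {k : ℕ} (f : U → State (Lf k) → ℝ) (hf : ∀ u, Harm (f u)) :
    Harm fun s : State (U × Lf k) => ∏ u, f u (row s u) := by
  classical
  rintro s ⟨u, i⟩ hi
  have h2 := hf u (row s u) i hi
  have key : ∀ s' : State (U × Lf k), (∀ u', u' ≠ u → row s' u' = row s u') →
      ∏ v, f v (row s' v) = f u (row s' u) * ∏ v ∈ Finset.univ.erase u, f v (row s v) := by
    intro s' hs
    rw [← Finset.mul_prod_erase Finset.univ _ (Finset.mem_univ u)]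
    congr 1
    exact Finset.prod_congr rfl fun v hv => by rw [hs v (Finset.ne_of_mem_erase hv)]
  beta_reduce
  rw [key s fun _ _ => rfl, key _ fun u' hu => row_upd_ne s hu i _,
    key _ fun u' hu => row_upd_ne s hu i _, row_upd_same, row_upd_same]
  linear_combination (∏ v ∈ Finset.univ.erase u, f v (row s v)) * h2

theorem harm_wt3 (h : ℕ) (m : U → Fin 3 → ℝ) : Harm (wt3 (U := U) h m) :=
  harm_rows (fun u τ => ∏ d, (1 + m u d * nn h (sub τ d))) fun u => harm_prod3 h (m u)

/-- the system with independent priors `m u d` on the sub-blocks, prices `1` -/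
noncomputable def world3 (T : Top U) (h : ℕ) (m : U → Fin 3 → ℝ) (hm : ∀ u d, |m u d| ≤ 1) :
    Sys (U × Lf (h + 1)) :=
  T.sys (h + 1) (wt3 h m) (harm_wt3 h m) (wt3_nonneg h m hm) (fun _ => 1) fun _ => zero_le_one

end w3

end Pool.Agent.MP58T
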