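import Pool.Agent.Lib.MP_58cb87_lc_T.Gcoe
import Pool.Agent.Lib.MP_58cb87_lc_T.Rt
import Pool.Agent.Lib.MP_58cb87_lc_T.Syst

set_option autoImplicit false

/-!
# The replacement of one block: setting
-/

namespace Pool.Agent.MP58T

/-- The system `T` has independent priors `m i` on the three sub-blocks (of height `h`) of the block
`ε`, the system `S` has the prior `mj (m 0) (m 1) (m 2)` on the value of the block; in the block the price is
`1` for `S` and `1 + eta t h` for `T`; outside the block they agree. -/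
structure Rep {ι : Type} (S T : Sys ι) (h : ℕ) (ε : Lf (h + 1) → ι) (m : Fin 3 → ℝ) (t : ℝ)
    (wo : State ι → ℝ) : Prop where
  inj : Function.Injective ε
  t0 : 0 ≤ t
  t1 : t ≤ 1 / 200
  abm : ∀ i, |m i| ≤ t
  harm : Harm wo
  wo0 : ∀ s, 0 ≤ wo s
  out : ∀ s s' : State ι, (∀ i, i ∉ Set.range ε → s i = s' i) → wo s = wo s'
  M_eq : ∀ s, T.M s = S.M s
  aff : AffOn S.M (h + 1) ε
  Sw : ∀ s, S.w s = wo s * (1 + mj (m 0) (m 1) (m 2) * nn (h + 1) (blk ε s))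
  Tw : ∀ s, T.w s = wo s * ∏ i, (1 + m i * nn h (sub (blk ε s) i))
  Sp : ∀ i, S.p (ε i) = 1
  Tp : ∀ i, T.p (ε i) = 1 + eta t h
  pout : ∀ i, i ∉ Set.range ε → T.p i = S.p i

/-- the means of the three sub-blocks -/
noncomputable def nv {ι : Type} {h : ℕ} (ε : Lf (h + 1) → ι) (s : State ι) : Fin 3 → ℝ :=
  fun i => nn h (sub (blk ε s) i)

/-- the coefficient of the state in which the block is revealed to be `x` -/
noncomputable def cf (t : ℝ) (m n : Fin 3 → ℝ) (x : ℝ) : ℝ :=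
  DQ m n x / (1 + x * mj (m 0) (m 1) (m 2)) - gg t m n * (1 + x * mj (n 0) (n 1) (n 2)) / 2

/-- the replacement potential -/
noncomputable def Psi {ι : Type} (S : Sys ι) {h : ℕ} (ε : Lf (h + 1) → ι) (m : Fin 3 → ℝ) (t : ℝ)
    (wo : State ι → ℝ) (R : State (Lf (h + 1)) → ℝ) (s : State ι) : ℝ :=
  gg t m (nv ε s) * S.V s + cf t m (nv ε s) 1 * S.V (fill ε 1 s)
    + cf t m (nv ε s) (-1) * S.V (fill ε (-1) s) + wo s * R (blk ε s)

theorem nn_blk_eq {ι : Type} {h : ℕ} (ε : Lf (h + 1) → ι) (s : State ι) :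
    nn (h + 1) (blk ε s) = mj (nv ε s 0) (nv ε s 1) (nv ε s 2) := rfl

theorem abs_nv {ι : Type} {h : ℕ} (ε : Lf (h + 1) → ι) (s : State ι) (i : Fin 3) :
    |nv ε s i| ≤ 1 := abs_nn_le _ _

theorem Rep.wo_fill {ι : Type} {S T : Sys ι} {h : ℕ} {ε : Lf (h + 1) → ι} {m : Fin 3 → ℝ} {t : ℝ}
    {wo : State ι → ℝ} (H : Rep S T h ε m t wo) (z : SignType) (s : State ι) :
    wo (fill ε z s) = wo s := H.out _ _ fun _ hi => fill_of_notMem ε z s hi

theorem Rep.Sw_fill_one {ι : Type} {S T : Sys ι} {h : ℕ} {ε : Lf (h + 1) → ι} {m : Fin 3 → ℝ}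
    {t : ℝ} {wo : State ι → ℝ} (H : Rep S T h ε m t wo) (s : State ι) :
    S.w (fill ε 1 s) = wo s * (1 + mj (m 0) (m 1) (m 2)) := by
  rw [H.Sw, H.wo_fill, blk_fill, nn_one, mul_one]

theorem Rep.Sw_fill_neg {ι : Type} {S T : Sys ι} {h : ℕ} {ε : Lf (h + 1) → ι} {m : Fin 3 → ℝ}
    {t : ℝ} {wo : State ι → ℝ} (H : Rep S T h ε m t wo) (s : State ι) :
    S.w (fill ε (-1) s) = wo s * (1 - mj (m 0) (m 1) (m 2)) := by
  rw [H.Sw, H.wo_fill, blk_fill, nn_neg_one]; ring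

theorem Rep.affw {ι : Type} {S T : Sys ι} {h : ℕ} {ε : Lf (h + 1) → ι} {m : Fin 3 → ℝ} {t : ℝ}
    {wo : State ι → ℝ} (H : Rep S T h ε m t wo) : AffOn S.w (h + 1) ε := by
  intro s
  rw [H.Sw_fill_one, H.Sw_fill_neg, H.Sw]
  ring

theorem cf_nonneg {m n : Fin 3 → ℝ} {t : ℝ} (ht : t ≤ 1 / 200) (hm : ∀ i, |m i| ≤ t)
    (hn : ∀ i, |n i| ≤ 1) {x : ℝ} (hx : x = 1 ∨ x = -1) : 0 ≤ cf t m n x :=
  coef_nonneg ht hm hn hx

end Pool.Agent.MP58T
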