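import Pool.Agent.Lib.MP_58cb87_lc_T.Rep
import Pool.Agent.Lib.MP_58cb87_lc_T.Base

set_option autoImplicit false

/-!
# The replacement potential: end of the game, queries outside the block, initial value

PROOFS. Write `n = nv ε s`, `μ = mj (m 0) (m 1) (m 2)`, `M = mj (n 0) (n 1) (n 2) = nn (h+1) (blk ε s)`.

`wt_le`: `gg t m n * (1 + μ M) ≤ ∏ (1 + m i n i)`: add `(1 + x μ) * cf x ≥ 0` for `x = ±1`
(`1 + x μ > 0`), `DQ_add`, and `(1+μ)(1+M) + (1-μ)(1-M) = 2 (1 + μ M)`.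

`Psi_det`: `|S.M s| = 1`. `V s = 0`. By `AffOn.det`: if `M ≠ -1` then `|S.M (fill ε 1 s)| = 1` and
`V (fill ε 1 s) = 0`; if `M = -1` then `cf 1 = 0`: `cf 1 ≥ 0` and `DQ m n 1 ≤ 1 + M = 0` (`DQ_upper`) and
`DQ ≥ 0`, so `DQ = 0` and the second term is `0`. Same for `x = -1`. `wo * R ≤ 0`.

`Psi_out`: `i ∉ range ε`, `s i = 0`. `blk ε`, so `n`, do not change (`blk_upd_ne`), `fill_upd_ne`. `V_step` for `s`,
`fill ε 1 s`, `fill ε (-1) s` with coefficients `gg ≥ 0`, `cf ≥ 0`; `harm` for `wo`. The sum of the weights: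
`gg * S.w s + cf 1 * S.w (fill ε 1 s) + cf (-1) * S.w (fill ε (-1) s) = wo s * (gg (1 + μ M) + cf 1 (1 + μ) +
cf (-1) (1 - μ)) = wo s * ∏ (1 + m i n i) = T.w s` (`out` gives `wo (fill ε z s) = wo s`; `nn_one`,
`nn_neg_one`, `blk_fill`; `DQ_add`).

`Psi_zero`: `s = 0`: `n = 0`, `gg = 1`, `DQ_zero`, `cf x = 1/2 - 1/2 = 0`, `R 0 = 0`.
-/

namespace Pool.Agent.MP58T

variable {ι : Type} [Finite ι] {S T : Sys ι} {h : ℕ} {ε : Lf (h + 1) → ι} {m : Fin 3 → ℝ} {t : ℝ}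
  {wo : State ι → ℝ} {R : State (Lf (h + 1)) → ℝ}

namespace RepA

theorem mu_bd {m : Fin 3 → ℝ} {t : ℝ} (ht : t ≤ 1 / 200) (hm : ∀ i, |m i| ≤ t) :
    |mj (m 0) (m 1) (m 2)| < 1 := by
  have h0 := hm 0
  have h1 := hm 1
  have h2 := hm 2
  have h3 := mj_abs_le (a := m 0) (b := m 1) (c := m 2) (by linarith) (by linarith) (by linarith)
  linarith

theorem mul_cf {m n : Fin 3 → ℝ} {t x : ℝ} (hx : 1 + x * mj (m 0) (m 1) (m 2) ≠ 0) :
    cf t m n x * (1 + x * mj (m 0) (m 1) (m 2)) = DQ m n x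
      - gg t m n * (1 + x * mj (n 0) (n 1) (n 2)) * (1 + x * mj (m 0) (m 1) (m 2)) / 2 := by
  unfold cf
  rw [sub_mul, div_mul_cancel₀ _ hx]
  ring

theorem pos_one {m : Fin 3 → ℝ} {t : ℝ} (ht : t ≤ 1 / 200) (hm : ∀ i, |m i| ≤ t) :
    0 < 1 + 1 * mj (m 0) (m 1) (m 2) := by
  have := (abs_lt.1 (mu_bd ht hm)).1
  linarith

theorem pos_neg {m : Fin 3 → ℝ} {t : ℝ} (ht : t ≤ 1 / 200) (hm : ∀ i, |m i| ≤ t) :
    0 < 1 + -1 * mj (m 0) (m 1) (m 2) := by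
  have := (abs_lt.1 (mu_bd ht hm)).2
  linarith

theorem cf_zero {m n : Fin 3 → ℝ} {t : ℝ} (ht : t ≤ 1 / 200) (hm : ∀ i, |m i| ≤ t)
    (hn : ∀ i, |n i| ≤ 1) {x : ℝ} (hx : x = 1 ∨ x = -1)
    (h : 1 + x * mj (n 0) (n 1) (n 2) = 0) : cf t m n x = 0 := by
  have h1 := DQ_nonneg ht hm hn hx
  have h2 := DQ_upper ht hm hn hx
  rw [h] at h2
  have h3 : DQ m n x = 0 := le_antisymm h2 h1
  unfold cf
  rw [h3, h]
  simp

theorem weights {m n : Fin 3 → ℝ} {t : ℝ} (ht : t ≤ 1 / 200) (hm : ∀ i, |m i| ≤ t) (w : ℝ) :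
    gg t m n * (w * (1 + mj (m 0) (m 1) (m 2) * mj (n 0) (n 1) (n 2)))
      + cf t m n 1 * (w * (1 + mj (m 0) (m 1) (m 2)))
      + cf t m n (-1) * (w * (1 - mj (m 0) (m 1) (m 2))) = w * ∏ i, (1 + m i * n i) := by
  have h1 := mul_cf (n := n) (t := t) (pos_one ht hm).ne'
  have h2 := mul_cf (n := n) (t := t) (pos_neg ht hm).ne'
  rw [← DQ_add]
  linear_combination w * h1 + w * h2

end RepA

theorem wt_le {m n : Fin 3 → ℝ} {t : ℝ} (ht : t ≤ 1 / 200) (hm : ∀ i, |m i| ≤ t)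
    (hn : ∀ i, |n i| ≤ 1) :
    gg t m n * (1 + mj (m 0) (m 1) (m 2) * mj (n 0) (n 1) (n 2)) ≤ ∏ i, (1 + m i * n i) := by
  have h1 := mul_nonneg (cf_nonneg ht hm hn (Or.inl rfl)) (RepA.pos_one ht hm).le
  have h2 := mul_nonneg (cf_nonneg ht hm hn (Or.inr rfl)) (RepA.pos_neg ht hm).le
  rw [RepA.mul_cf (RepA.pos_one ht hm).ne'] at h1
  rw [RepA.mul_cf (RepA.pos_neg ht hm).ne'] at h2
  rw [← DQ_add]
  nlinarith

theorem Psi_det (H : Rep S T h ε m t wo) (hR : ∀ τ, R τ ≤ 0) {s : State ι}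
    (hs : |S.M s| = 1) : Psi S ε m t wo R s ≤ 0 := by
  have hV := S.V_det hs
  obtain ⟨d1, d2⟩ := AffOn.det H.aff S.absM hs
  have hnv : ∀ i, |nv ε s i| ≤ 1 := abs_nv ε s
  have e1 : cf t m (nv ε s) 1 * S.V (fill ε 1 s) = 0 := by
    by_cases hM : nn (h + 1) (blk ε s) = -1
    · rw [RepA.cf_zero H.t1 H.abm hnv (Or.inl rfl), zero_mul]
      rw [← nn_blk_eq, hM]
      ring
    · rw [S.V_det (by rw [d1 hM, hs]), mul_zero]
  have e2 : cf t m (nv ε s) (-1) * S.V (fill ε (-1) s) = 0 := by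
    by_cases hM : nn (h + 1) (blk ε s) = 1
    · rw [RepA.cf_zero H.t1 H.abm hnv (Or.inr rfl), zero_mul]
      rw [← nn_blk_eq, hM]
      ring
    · rw [S.V_det (by rw [d2 hM, hs]), mul_zero]
  unfold Psi
  rw [hV, e1, e2, mul_zero]
  have := mul_nonpos_of_nonneg_of_nonpos (H.wo0 s) (hR (blk ε s))
  linarith

theorem Psi_out (H : Rep S T h ε m t wo) {s : State ι} {i : ι} (hi : i ∉ Set.range ε)
    (hs : s i = 0) : Psi S ε m t wo R s ≤ T.p i * T.w s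
      + (Psi S ε m t wo R (upd s i 1) + Psi S ε m t wo R (upd s i (-1))) / 2 := by
  have hnv : ∀ j, |nv ε s j| ≤ 1 := abs_nv ε s
  have hb : ∀ b, blk ε (upd s i b) = blk ε s := fun b => blk_upd_ne ε s b hi
  have hn : ∀ b, nv ε (upd s i b) = nv ε s := by
    intro b
    funext j
    unfold nv
    rw [hb]
  have v0 := S.V_step s i hs
  have v1 := S.V_step (fill ε 1 s) i (by rw [fill_of_notMem ε 1 s hi, hs])
  have v2 := S.V_step (fill ε (-1) s) i (by rw [fill_of_notMem ε (-1) s hi, hs])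
  rw [← fill_upd_ne ε 1 s 1 hi, ← fill_upd_ne ε 1 s (-1) hi, H.Sw_fill_one] at v1
  rw [← fill_upd_ne ε (-1) s 1 hi, ← fill_upd_ne ε (-1) s (-1) hi, H.Sw_fill_neg] at v2
  rw [H.Sw, nn_blk_eq] at v0
  have hh := H.harm s i hs
  have g0 : 0 ≤ gg t m (nv ε s) := gg_nonneg H.t1 H.abm hnv
  have c1 : 0 ≤ cf t m (nv ε s) 1 := cf_nonneg H.t1 H.abm hnv (Or.inl rfl)
  have c2 : 0 ≤ cf t m (nv ε s) (-1) := cf_nonneg H.t1 H.abm hnv (Or.inr rfl)
  have w0 := RepA.weights (n := nv ε s) H.t1 H.abm (wo s)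
  have u0 := mul_le_mul_of_nonneg_left v0 g0
  have u1 := mul_le_mul_of_nonneg_left v1 c1
  have u2 := mul_le_mul_of_nonneg_left v2 c2
  have hT : T.w s = wo s * ∏ j, (1 + m j * nv ε s j) := H.Tw s
  rw [hT, H.pout i hi, ← w0]
  unfold Psi
  rw [hn, hn, hb, hb]
  have hR : wo s * R (blk ε s) = (wo (upd s i 1) * R (blk ε s)
      + wo (upd s i (-1)) * R (blk ε s)) / 2 := by
    linear_combination (R (blk ε s) / 2) * hh
  rw [hR]
  linarith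

theorem Psi_zero (H : Rep S T h ε m t wo) (hR0 : R (fun _ => 0) = 0) :
    Psi S ε m t wo R (fun _ => 0) = S.V fun _ => 0 := by
  have hn : nv ε (fun _ => (0 : SignType)) = fun _ => 0 := by
    funext j
    exact nn_zero h
  have hb : blk ε (fun _ => (0 : SignType)) = fun _ => 0 := rfl
  have hM : mj 0 0 0 = 0 := by norm_num [mj]
  have hc : ∀ x : ℝ, 1 + x * mj (m 0) (m 1) (m 2) ≠ 0 → cf t m (fun _ => 0) x = 0 := by
    intro x hx
    have hg : gg t m (fun _ => 0) = 1 := by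
      unfold gg
      simp
    unfold cf
    rw [DQ_zero, hg, hM]
    field_simp
    ring
  unfold Psi
  rw [hn, hb, hR0, hc 1 (RepA.pos_one H.t1 H.abm).ne', hc (-1) (RepA.pos_neg H.t1 H.abm).ne']
  have hg : gg t m (fun _ => 0) = 1 := by
    unfold gg
    simp
  rw [hg]
  ring

end Pool.Agent.MP58T
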