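import Pool.Agent.Lib.MP_58cb87_lc_T.Rep
import Pool.Agent.Lib.MP_58cb87_lc_T.Base

set_option autoImplicit false

/-!
# The replacement potential: queries inside the block, the exact formula for the loss

PROOF. Let `n = nv ε s`, `M = nn (h+1) (blk ε s)`, `n^± = upd n d (n d ± I)`, `I = inf h (sub (blk ε s) d) l`
(`blk_upd`, `sub_upd_same`, `sub_upd_ne`, `nn_upd_eq`: `nv ε (upd s (ε (lc d l)) (±1)) = n^±`), `s^±` the two successor
states. `Psi s = gg n * loc s + ∑_x DQ m n x / (1 + x μ) * V (fill ε x s) + wo s * R (blk ε s)` where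
`loc s = loc S (h+1) ε s` (unfold; `cf`). The states `fill ε x s^±` and `fill ε x s` agree (`fill_upd`), `wo s^± = wo s`
(`Rep.out`), `DQ m n^+ x + DQ m n^- x = 2 DQ m n x` (`DQ_aff`). So
`Psi s - (Psi s⁺ + Psi s⁻)/2 = gg n * loc s - (gg n⁺ loc s⁺ + gg n⁻ loc s⁻)/2 + wo s (R τ - (R τ⁺ + R τ⁻)/2)`,
which is the right side of `Psi_formula` (an identity of the form
`g a - (g₁ a₁ + g₂ a₂)/2 = g (a - (a₁+a₂)/2) + (g - (g₁+g₂)/2) (a₁+a₂)/2 - (g₁ - g₂)(a₁ - a₂)/4`).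

`loc_drop`: `loc s - (loc s⁺ + loc s⁻)/2 = V s - (V s⁺ + V s⁻)/2` (the subtracted part of `loc` is harmonic:
`harm_nn`, `blk_upd`, `fill_upd`) `≤ S.p * S.w s = S.w s` by `V_step`.
-/

namespace Pool.Agent.MP58T

variable {ι : Type} [Finite ι] {S T : Sys ι} {h : ℕ} {ε : Lf (h + 1) → ι} {m : Fin 3 → ℝ} {t : ℝ}
  {wo : State ι → ℝ} {R : State (Lf (h + 1)) → ℝ}

theorem nv_upd (hε : Function.Injective ε) {s : State ι} {d : Fin 3} {l : Lf h}
    (hs : s (ε (lc d l)) = 0) :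
    nv ε (upd s (ε (lc d l)) 1)
      = upd (nv ε s) d (nv ε s d + inf h (sub (blk ε s) d) l) ∧
    nv ε (upd s (ε (lc d l)) (-1))
      = upd (nv ε s) d (nv ε s d - inf h (sub (blk ε s) d) l) := by
  have key : ∀ (b : SignType) (c : ℝ), nn h (upd (sub (blk ε s) d) l b) = c →
      nv ε (upd s (ε (lc d l)) b) = upd (nv ε s) d c := by
    intro b c hc
    funext d'
    by_cases hd : d' = d
    · subst hd
      rw [upd_same, nv, blk_upd hε, sub_upd_same, hc]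
    · rw [upd_ne _ _ hd, nv, nv, blk_upd hε, sub_upd_ne _ hd]
  have h0 : sub (blk ε s) d l = 0 := hs
  have h1 := nn_upd_eq h0
  exact ⟨key 1 _ h1.1, key (-1) _ h1.2⟩

theorem loc_drop (H : Rep S T h ε m t wo) {s : State ι} {d : Fin 3} {l : Lf h}
    (hs : s (ε (lc d l)) = 0) :
    loc S (h + 1) ε s - (loc S (h + 1) ε (upd s (ε (lc d l)) 1)
      + loc S (h + 1) ε (upd s (ε (lc d l)) (-1))) / 2 ≤ S.w s := by
  have hV := S.V_step s _ hs
  rw [H.Sp, one_mul] at hV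
  have hn := harm_nn (h + 1) (blk ε s) (lc d l) hs
  unfold loc
  rw [fill_upd, fill_upd, fill_upd, fill_upd, blk_upd H.inj, blk_upd H.inj]
  have e : nn (h + 1) (blk ε s) = (nn (h + 1) (upd (blk ε s) (lc d l) 1)
    + nn (h + 1) (upd (blk ε s) (lc d l) (-1))) / 2 := by linarith
  rw [e]
  linear_combination hV

namespace RepB

theorem Psi_eq (s : State ι) :
    Psi S ε m t wo R s = gg t m (nv ε s) * loc S (h + 1) ε s
      + DQ m (nv ε s) 1 / (1 + 1 * mj (m 0) (m 1) (m 2)) * S.V (fill ε 1 s)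
      + DQ m (nv ε s) (-1) / (1 + (-1) * mj (m 0) (m 1) (m 2)) * S.V (fill ε (-1) s)
      + wo s * R (blk ε s) := by
  unfold Psi cf loc
  rw [nn_blk_eq]
  ring

theorem DQ_mid (hε : Function.Injective ε) {s : State ι} {d : Fin 3} {l : Lf h}
    (hs : s (ε (lc d l)) = 0) (x : ℝ) :
    DQ m (nv ε (upd s (ε (lc d l)) 1)) x + DQ m (nv ε (upd s (ε (lc d l)) (-1))) x
      = 2 * DQ m (nv ε s) x := by
  rw [(nv_upd hε hs).1, (nv_upd hε hs).2, DQ_aff]
  have e : (nv ε s d + inf h (sub (blk ε s) d) l + (nv ε s d - inf h (sub (blk ε s) d) l)) / 2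
      = nv ε s d := by ring
  rw [e, upd_self]

end RepB

theorem Psi_formula (H : Rep S T h ε m t wo) {s : State ι} {d : Fin 3} {l : Lf h}
    (hs : s (ε (lc d l)) = 0) :
    Psi S ε m t wo R s - (Psi S ε m t wo R (upd s (ε (lc d l)) 1)
      + Psi S ε m t wo R (upd s (ε (lc d l)) (-1))) / 2
    = gg t m (nv ε s) * (loc S (h + 1) ε s - (loc S (h + 1) ε (upd s (ε (lc d l)) 1)
        + loc S (h + 1) ε (upd s (ε (lc d l)) (-1))) / 2)
      + (gg t m (nv ε s) - (gg t m (nv ε (upd s (ε (lc d l)) 1))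
        + gg t m (nv ε (upd s (ε (lc d l)) (-1)))) / 2)
        * ((loc S (h + 1) ε (upd s (ε (lc d l)) 1)
          + loc S (h + 1) ε (upd s (ε (lc d l)) (-1))) / 2)
      - (gg t m (nv ε (upd s (ε (lc d l)) 1)) - gg t m (nv ε (upd s (ε (lc d l)) (-1))))
        * (loc S (h + 1) ε (upd s (ε (lc d l)) 1)
          - loc S (h + 1) ε (upd s (ε (lc d l)) (-1))) / 4
      + wo s * (R (blk ε s) - (R (upd (blk ε s) (lc d l) 1)
        + R (upd (blk ε s) (lc d l) (-1))) / 2) := by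
  have hw : ∀ b : SignType, wo (upd s (ε (lc d l)) b) = wo s := by
    intro b
    refine H.out _ _ fun i hi => upd_ne _ _ ?_
    rintro rfl
    exact hi ⟨_, rfl⟩
  have h1 := RepB.DQ_mid (m := m) H.inj hs 1
  have h2 := RepB.DQ_mid (m := m) H.inj hs (-1)
  rw [RepB.Psi_eq, RepB.Psi_eq (upd s (ε (lc d l)) 1), RepB.Psi_eq (upd s (ε (lc d l)) (-1)),
    hw, hw, fill_upd, fill_upd, fill_upd, fill_upd, blk_upd H.inj, blk_upd H.inj]
  have e1 : DQ m (nv ε s) 1 = (DQ m (nv ε (upd s (ε (lc d l)) 1)) 1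
    + DQ m (nv ε (upd s (ε (lc d l)) (-1))) 1) / 2 := by linarith
  have e2 : DQ m (nv ε s) (-1) = (DQ m (nv ε (upd s (ε (lc d l)) 1)) (-1)
    + DQ m (nv ε (upd s (ε (lc d l)) (-1))) (-1)) / 2 := by linarith
  rw [e1, e2]
  ring

end Pool.Agent.MP58T
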