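import Pool.Agent.Lib.MP_58cb87_lc_T.RepA
import Pool.Agent.Lib.MP_58cb87_lc_T.RepB
import Pool.Agent.Lib.MP_58cb87_lc_T.Lip

set_option autoImplicit false

/-!
# The replacement of one block

PROOF of `Psi_in`. Let `n = nv ε s`, `τ = blk ε s`, `I = inf h (sub τ d) l`,
`J = Jp h (sub τ d) l`, `s^±` the successors, `W = wo s`. In `Psi_formula`:
* first term: `gg ≥ 0` (`gg_nonneg`), `loc_drop`, `Rep.Sw`, `wt_le`:
  `≤ W * ∏ (1 + m i n i) = T.w s`.
* second term: `gg_avg` (with `nv_upd`): the first factor is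
  `30 t I² + 10 t² (max |n d| I - |n d|) ≥ 0`; the second
  factor is `≤ W (1+2t) (5/2)^(h+1)`: `loc_le` with `c = W (1 + 2 t)`
  and `A_le`. And `I * (5/2)^(h+1) ≤ J` (`Jm_add`).
* third term: `gg_diff`: `≤ 131 t I`; `lip` at the leaf `lc d l` with the same `c`:
  `|loc s⁺ - loc s⁻| ≤ W (1+2t) * Jm (h+1) τ (lc d l) = W (1+2t) J`.
* last term: by hypothesis `≤ W * (eta t h * (1-t)^3 - err t h (sub τ d) l)`.
The sum of the second and third terms is `≤ W * err` because `30 + 131/4 ≤ 63`. So the loss is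
at most `T.w s + W * eta * (1-t)^3 ≤ T.w s * (1 + eta)`, as `∏ (1 + m i n i) ≥ (1-t)^3`.

PROOF of `rep`. Take `R` from `exists_Rt`. `Psi` is a potential of `T`. `le_V` at `0` and
`Psi_zero`.
-/

namespace Pool.Agent.MP58T

variable {ι : Type} [Finite ι] {S T : Sys ι} {h : ℕ} {ε : Lf (h + 1) → ι} {m : Fin 3 → ℝ} {t : ℝ}
  {wo : State ι → ℝ} {R : State (Lf (h + 1)) → ℝ}

namespace RepC

theorem Jm_nonneg : ∀ (k : ℕ) (s : State (Lf k)) (l : Lf k), 0 ≤ Jm k s l
  | 0, _, _ => le_rfl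
  | k + 1, _, _ => Jp_nonneg k _ _

theorem abs_mu {m : Fin 3 → ℝ} {t : ℝ} (ht : t ≤ 1 / 200) (hm : ∀ i, |m i| ≤ t) :
    |mj (m 0) (m 1) (m 2)| ≤ 2 * t := by
  have h0 := hm 0
  have h1 := hm 1
  have h2 := hm 2
  have ht0 : 0 ≤ t := (abs_nonneg _).trans h0
  have h3 := mj_abs_le (h0.trans (by linarith : t ≤ 1)) (h1.trans (by linarith : t ≤ 1))
    (h2.trans (by linarith : t ≤ 1))
  linarith

theorem prod_ge {m n : Fin 3 → ℝ} {t : ℝ} (ht : t ≤ 1 / 200) (hm : ∀ i, |m i| ≤ t)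
    (hn : ∀ i, |n i| ≤ 1) : (1 - t) ^ 3 ≤ ∏ i, (1 + m i * n i) := by
  have ht0 : 0 ≤ t := (abs_nonneg _).trans (hm 0)
  have h1 : ∀ i, 1 - t ≤ 1 + m i * n i := by
    intro i
    have h2 : |m i * n i| ≤ t := by
      rw [abs_mul]
      calc |m i| * |n i| ≤ t * 1 := mul_le_mul (hm i) (hn i) (abs_nonneg _) ht0
        _ = t := mul_one t
    have h3 := (abs_le.1 h2).1
    linarith
  have h2 : ∏ _i : Fin 3, (1 - t) ≤ ∏ i, (1 + m i * n i) :=
    Finset.prod_le_prod (fun i _ => by linarith) (fun i _ => h1 i)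
  simpa using h2

theorem eta_nonneg {t : ℝ} (ht : 0 ≤ t) (h : ℕ) : 0 ≤ eta t h := by
  unfold eta
  positivity

end RepC

theorem Psi_in (H : Rep S T h ε m t wo) (hR : ∀ τ d l, τ (lc d l) = 0 →
      err t h (sub τ d) l - eta t h * (1 - t) ^ 3 ≤
        (R (upd τ (lc d l) 1) + R (upd τ (lc d l) (-1))) / 2 - R τ)
    {s : State ι} {d : Fin 3} {l : Lf h} (hs : s (ε (lc d l)) = 0) :
    Psi S ε m t wo R s ≤ T.p (ε (lc d l)) * T.w s + (Psi S ε m t wo R (upd s (ε (lc d l)) 1)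
      + Psi S ε m t wo R (upd s (ε (lc d l)) (-1))) / 2 := by
  have hform := Psi_formula (R := R) H hs
  have hdrop := loc_drop H hs
  obtain ⟨hn1, hn2⟩ := nv_upd H.inj (d := d) (l := l) hs
  have ht0 := H.t0
  have ht1 := H.t1
  have hW : 0 ≤ wo s := H.wo0 s
  have hI : 0 ≤ inf h (sub (blk ε s) d) l := inf_nonneg _ _ _
  have hJ : 0 ≤ Jp h (sub (blk ε s) d) l := Jp_nonneg _ _ _
  have hIJ : (5 / 2) ^ (h + 1) * inf h (sub (blk ε s) d) l ≤ Jp h (sub (blk ε s) d) l := by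
    have h1 := Jm_add h (sub (blk ε s) d) l
    have h2 := RepC.Jm_nonneg h (sub (blk ε s) d) l
    linarith
  have hmu := abs_le.1 (RepC.abs_mu ht1 H.abm)
  have hgg0 : 0 ≤ gg t m (nv ε s) := gg_nonneg ht1 H.abm (abs_nv ε s)
  have hwt := wt_le (t := t) ht1 H.abm (abs_nv ε s)
  have hSw := H.Sw s
  rw [nn_blk_eq] at hSw
  have hTw : T.w s = wo s * ∏ i, (1 + m i * nv ε s i) := H.Tw s
  have havg := gg_avg t m (nv ε s) d hI
  have hdiff := gg_diff ht1 H.abm d (abs_nv ε s d) hI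
  have hw1 : S.w (fill ε 1 s) ≤ wo s * (1 + 2 * t) := by
    rw [H.Sw_fill_one]
    exact mul_le_mul_of_nonneg_left (by linarith) hW
  have hw2 : S.w (fill ε (-1) s) ≤ wo s * (1 + 2 * t) := by
    rw [H.Sw_fill_neg]
    exact mul_le_mul_of_nonneg_left (by linarith) hW
  have hc0 : 0 ≤ wo s * (1 + 2 * t) := mul_nonneg hW (by linarith)
  have hSp : ∀ i, S.p (ε i) ≤ 1 := fun i => (H.Sp i).le
  have hloc : ∀ b : SignType, loc S (h + 1) ε (upd s (ε (lc d l)) b)
      ≤ wo s * (1 + 2 * t) * (5 / 2) ^ (h + 1) := by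
    intro b
    refine (loc_le S H.inj H.aff H.affw hSp _ (wo s * (1 + 2 * t)) ?_ ?_).trans ?_
    · rw [fill_upd]
      exact hw1
    · rw [fill_upd]
      exact hw2
    · exact mul_le_mul_of_nonneg_left (A_le _ _) hc0
  have hlip := lip S (h + 1) H.inj H.aff H.affw hSp s (wo s * (1 + 2 * t)) hw1 hw2 (lc d l)
  have hJm : Jm (h + 1) (blk ε s) (lc d l) = Jp h (sub (blk ε s) d) l := rfl
  rw [hJm] at hlip
  have hRt := hR (blk ε s) d l hs
  have heta := RepC.eta_nonneg ht0 h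
  have hprod := RepC.prod_ge ht1 H.abm (abs_nv ε s)
  rw [hn1, hn2] at hform
  have hmax : 0 ≤ max |nv ε s d| (inf h (sub (blk ε s) d) l) - |nv ε s d| :=
    sub_nonneg.2 (le_max_left _ _)
  have herr : err t h (sub (blk ε s) d) l = (1 + 2 * t) *
      (63 * t * (inf h (sub (blk ε s) d) l * Jp h (sub (blk ε s) d) l)
      + 10 * t ^ 2 * (5 / 2) ^ (h + 1) *
        (max |nv ε s d| (inf h (sub (blk ε s) d) l) - |nv ε s d|)) := rfl
  rw [herr] at hRt
  have hl1 := hloc 1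
  have hl2 := hloc (-1)
  rw [H.Tp]
  -- abbreviations
  generalize hI' : inf h (sub (blk ε s) d) l = I at *
  generalize hJ' : Jp h (sub (blk ε s) d) l = J at *
  generalize loc S (h + 1) ε (upd s (ε (lc d l)) 1) = L1 at *
  generalize loc S (h + 1) ε (upd s (ε (lc d l)) (-1)) = L2 at *
  generalize loc S (h + 1) ε s = L0 at *
  generalize gg t m (upd (nv ε s) d (nv ε s d + I)) = g1 at *
  generalize gg t m (upd (nv ε s) d (nv ε s d - I)) = g2 at *
  generalize gg t m (nv ε s) = g0 at *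
  generalize max |nv ε s d| I - |nv ε s d| = X at *
  generalize hWW : wo s = W at *
  generalize hPP : ∏ i, (1 + m i * nv ε s i) = P at *
  generalize (5 / 2 : ℝ) ^ (h + 1) = Q at *
  generalize eta t h = E at *
  generalize R (blk ε s) = r0 at *
  generalize (R (upd (blk ε s) (lc d l) 1) + R (upd (blk ε s) (lc d l) (-1))) / 2 = r1 at *
  -- first term
  have t1 : g0 * (L0 - (L1 + L2) / 2) ≤ W * P := by
    refine (mul_le_mul_of_nonneg_left hdrop hgg0).trans ?_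
    rw [hSw]
    have := mul_le_mul_of_nonneg_left hwt hW
    linarith
  -- second term
  have hA : 0 ≤ g0 - (g1 + g2) / 2 := by
    rw [havg]
    have h1 : 0 ≤ 30 * t * I ^ 2 := by positivity
    have h2 : 0 ≤ 10 * t ^ 2 * X := mul_nonneg (by positivity) hmax
    linarith
  have t2 : (g0 - (g1 + g2) / 2) * ((L1 + L2) / 2) ≤
      W * (1 + 2 * t) * (30 * t * (I * J) + 10 * t ^ 2 * Q * X) := by
    have h1 : (L1 + L2) / 2 ≤ W * (1 + 2 * t) * Q := by linarith
    refine (mul_le_mul_of_nonneg_left h1 hA).trans ?_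
    rw [havg]
    have h2 : 30 * t * I * (Q * I) ≤ 30 * t * I * J :=
      mul_le_mul_of_nonneg_left hIJ (by positivity)
    have h3 := mul_le_mul_of_nonneg_left h2 hc0
    nlinarith
  -- third term
  have t3 : -((g1 - g2) * (L1 - L2) / 4) ≤ W * (1 + 2 * t) * (131 / 4 * t * (I * J)) := by
    have h1 : |(g1 - g2) * (L1 - L2)| ≤ (131 * t * I) * (W * (1 + 2 * t) * J) := by
      rw [abs_mul]
      exact mul_le_mul hdiff hlip (abs_nonneg _) (by positivity)
    have h2 := (abs_le.1 h1).1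
    linarith
  -- last term
  have t4 : W * (r0 - r1) ≤ W * (E * (1 - t) ^ 3 - (1 + 2 * t) *
      (63 * t * (I * J) + 10 * t ^ 2 * Q * X)) := by
    refine mul_le_mul_of_nonneg_left ?_ hW
    linarith
  have t5 : W * (E * (1 - t) ^ 3) ≤ W * (E * P) :=
    mul_le_mul_of_nonneg_left (mul_le_mul_of_nonneg_left hprod heta) hW
  have t6 : 0 ≤ W * (1 + 2 * t) * (1 / 4 * t * (I * J)) := by positivity
  have e2 : W * (1 + 2 * t) * (30 * t * (I * J) + 10 * t ^ 2 * Q * X) =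
      30 * (W * (1 + 2 * t) * (t * (I * J))) + 10 * (W * (1 + 2 * t) * (t ^ 2 * Q * X)) := by ring
  have e3 : W * (1 + 2 * t) * (131 / 4 * t * (I * J)) =
      131 / 4 * (W * (1 + 2 * t) * (t * (I * J))) := by ring
  have e4 : W * (E * (1 - t) ^ 3 - (1 + 2 * t) * (63 * t * (I * J) + 10 * t ^ 2 * Q * X)) =
      W * (E * (1 - t) ^ 3) - 63 * (W * (1 + 2 * t) * (t * (I * J)))
        - 10 * (W * (1 + 2 * t) * (t ^ 2 * Q * X)) := by ring
  have e6 : W * (1 + 2 * t) * (1 / 4 * t * (I * J)) =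
      1 / 4 * (W * (1 + 2 * t) * (t * (I * J))) := by ring
  have e7 : (1 + E) * (W * P) = W * P + W * (E * P) := by ring
  rw [e2] at t2
  rw [e3] at t3
  rw [e4] at t4
  rw [e6] at t6
  rw [hTw, e7]
  linarith

theorem rep (H : Rep S T h ε m t wo) : S.V (fun _ => 0) ≤ T.V fun _ => 0 := by
  obtain ⟨R, hR, hR0, hRd⟩ := exists_Rt h H.t0 H.t1
  have hpot : T.Pot (Psi S ε m t wo R) := by
    constructor
    · intro s hs
      rw [H.M_eq] at hs
      exact Psi_det H hR hs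
    · intro s _ i hi
      by_cases hir : i ∈ Set.range ε
      · obtain ⟨j, rfl⟩ := hir
        obtain ⟨d, l, rfl⟩ := exists_lc j
        exact Psi_in H hRd hi
      · exact Psi_out H hir hi
  have h1 := T.le_V hpot fun _ => 0
  rwa [Psi_zero H hR0] at h1

end Pool.Agent.MP58T
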