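import Pool.Agent.Lib.MP_58cb87_lc_T.Bl
import Pool.Agent.Lib.MP_58cb87_lc_T.Rei

set_option autoImplicit false

/-!
# The first step of the chain

PROOF. Apply `bl` with `m u = nn k (row Y u)`, `ϖ = 1`, `ω u τ = if τ = row Y u then 1 else 0` (classical), `y = Y`.
For `Ext (row Y u) τ`: if `τ = row Y u` then `nn k τ = m u` and `h1`, `h2` are equalities; else `ω = 0` and
`|nn k τ| ≤ 1`. If `τ i = 0`, then `upd τ i (±1) ≠ row Y u`: otherwise `row Y u i ≠ 0` and `Ext` gives `τ i ≠ 0`. So the
mean of the successors is `0`, and `0 ≤ ω u τ ≤ 1`: `h3`, `h4`. `pr 1 x x = dl 0` (cases), so by `mix_pure` the left side of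
`bl` is `(lsys T m).V 0 / (lsys T m).w 0 = (lsys T m).V 0` (`∏ (1 + m u * 0) = 1`). Then `rei_leaf`.
-/

namespace Pool.Agent.MP58T

variable {U : Type} [Fintype U]

theorem Start.pr_self (x : ℝ) : pr 1 x x = dl 0 := by
  funext b
  cases b
  · exact (Bl.pr_zero 1 x x).trans (by simp [dl])
  · refine (Bl.pr_neg 1 x x).trans ?_
    simp [dl]
  · refine (Bl.pr_one 1 x x).trans ?_
    simp [dl]

theorem start (T : Top U) (k : ℕ) (Y : State (U × Lf k)) (hY : ∀ u, |nn k (row Y u)| < 1)
    (hY' : ∀ u, |nn k (row Y u)| ≤ 1) :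
    (world T 0 (fun u => nn k (row Y u)) hY').V (fun _ => 0) ≤ (game T k).V Y := by
  classical
  have hne : ∀ (u : U) (τ : State (Lf k)) (i : Lf k) (b : SignType), Ext (row Y u) τ →
      τ i = 0 → b ≠ 0 → upd τ i b ≠ row Y u := by
    intro u τ i b he hi hb h
    have h1 : row Y u i = b := by rw [← h, upd_same]
    have h2 := he i (by rw [h1]; exact hb)
    rw [hi, h1] at h2
    exact hb h2.symm
  have h := bl T k (fun u => nn k (row Y u)) hY hY'
    (fun u τ => if τ = row Y u then 1 else 0) Y one_pos ?_ ?_ ?_ ?_ ?_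
  · simp only [if_pos, Start.pr_self] at h
    rw [mix_pure, one_mul] at h
    have hw : (lsys T (fun u => nn k (row Y u)) hY').w (fun _ => 0) = 1 := by
      change ∏ u, (1 + nn k (row Y u) * (((0 : SignType)) : ℝ)) = 1
      simp
    rw [hw, div_one] at h
    rw [rei_leaf]
    exact h
  · intro u τ _
    split_ifs <;> norm_num
  · intro u τ _
    split_ifs with hτ
    · rw [hτ, one_mul]
    · have := (abs_le.1 (abs_nn_le k τ)).1
      linarith
  · intro u τ _
    split_ifs with hτ
    · rw [hτ, one_mul]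
    · have := (abs_le.1 (abs_nn_le k τ)).2
      linarith
  · intro u τ i he hi
    rw [if_neg (hne u τ i 1 he hi (by decide)), if_neg (hne u τ i (-1) he hi (by decide))]
    split_ifs <;> norm_num
  · intro u τ i he hi
    rw [if_neg (hne u τ i 1 he hi (by decide)), if_neg (hne u τ i (-1) he hi (by decide))]
    split_ifs <;> norm_num

end Pool.Agent.MP58T
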