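import Pool.Agent.Lib.MP_58cb87_lc_T.Mom

set_option autoImplicit false

/-!
# The mean of a block is small with high probability

PROOF. Let `sa 0 y = |nn h0 y|`, `sa (i+1) y = sa i (sub y 0) + sa i (sub y 1) + sa i (sub y 2)` (functions on
`State (Lf (h0 + i))`). `|nn (h0+i) y| ≤ sa i y / 2^i` by induction (`mj_abs_le`, `nn_succ`).
`Ey (h0+i) (exp (sa i)) = (Ey h0 (exp |nn h0|)) ^ (3^i)` by induction with `Ey_succ` (the integrand is a product).
`exp x ≤ 1 + 2 x` for `0 ≤ x ≤ 1` (convexity, `exp 1 ≤ 3`), `|n| ≤ (n² 3^i + 3^(-i))/2` (AM-GM), so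
`Ey h0 |nn| ≤ (vv h0 * 3^i + 3^(-i))/2 ≤ 3^(-i)` and `Ey h0 (exp |nn|) ≤ 1 + 2 * 3^(-i) ≤ exp (2 * 3^(-i))`. The power
`3^i` is `≤ exp 2`. Finally `if x / 2^i < |nn| then 1 else 0 ≤ exp (sa i y - x)` and `Ey_mono`, `Ey_smul`.
-/

namespace Pool.Agent.MP58T

namespace Tai

/-- sum of the absolute means of the nodes of height `h0` -/
noncomputable def sa (h0 : ℕ) : (i : ℕ) → State (Lf (h0 + i)) → ℝ
  | 0, y => |nn h0 y|
  | i + 1, y => sa h0 i (sub y 0) + sa h0 i (sub y 1) + sa h0 i (sub y 2)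

theorem le_sa (h0 : ℕ) : ∀ (i : ℕ) (y : State (Lf (h0 + i))), 2 ^ i * |nn (h0 + i) y| ≤ sa h0 i y
  | 0, y => by simp [sa]
  | i + 1, y => by
      have h := mj_abs_le (abs_nn_le (h0 + i) (sub y 0)) (abs_nn_le (h0 + i) (sub y 1))
        (abs_nn_le (h0 + i) (sub y 2))
      have e : nn (h0 + (i + 1)) y = mj (nn (h0 + i) (sub y 0)) (nn (h0 + i) (sub y 1))
        (nn (h0 + i) (sub y 2)) := nn_succ (h0 + i) y
      rw [e]
      have h1 := le_sa h0 i (sub y 0)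
      have h2 := le_sa h0 i (sub y 1)
      have h3 := le_sa h0 i (sub y 2)
      have h4 := mul_le_mul_of_nonneg_left h (by positivity : (0 : ℝ) ≤ 2 ^ (i + 1))
      calc (2 : ℝ) ^ (i + 1) * |mj (nn (h0 + i) (sub y 0)) (nn (h0 + i) (sub y 1))
            (nn (h0 + i) (sub y 2))|
          ≤ 2 ^ (i + 1) * ((|nn (h0 + i) (sub y 0)| + |nn (h0 + i) (sub y 1)|
            + |nn (h0 + i) (sub y 2)|) / 2) := h4
        _ = 2 ^ i * |nn (h0 + i) (sub y 0)| + 2 ^ i * |nn (h0 + i) (sub y 1)|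
            + 2 ^ i * |nn (h0 + i) (sub y 2)| := by ring
        _ ≤ _ := by
          change _ ≤ sa h0 i (sub y 0) + sa h0 i (sub y 1) + sa h0 i (sub y 2)
          linarith

theorem Ey_exp (h0 : ℕ) : ∀ i : ℕ, Ey (h0 + i) (fun y => Real.exp (sa h0 i y))
    = (Ey h0 fun y => Real.exp |nn h0 y|) ^ 3 ^ i
  | 0 => by simp [sa]
  | i + 1 => by
      have ih := Ey_exp h0 i
      set E := Ey h0 fun y => Real.exp |nn h0 y|
      have h := Ey_succ (h0 + i) fun y => Real.exp (sa h0 (i + 1) y)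
      have h1 : ∀ a b c : State (Lf (h0 + i)),
          Real.exp (sa h0 (i + 1) (join ![a, b, c]))
            = Real.exp (sa h0 i a) * Real.exp (sa h0 i b) * Real.exp (sa h0 i c) := by
        intro a b c
        change Real.exp (sa h0 i a + sa h0 i b + sa h0 i c) = _
        rw [Real.exp_add, Real.exp_add]
      refine h.trans ?_
      simp only [h1]
      have h2 : ∀ a b : State (Lf (h0 + i)), (Ey (h0 + i) fun c =>
          Real.exp (sa h0 i a) * Real.exp (sa h0 i b) * Real.exp (sa h0 i c))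
          = (Real.exp (sa h0 i a) * E ^ 3 ^ i) * Real.exp (sa h0 i b) := by
        intro a b
        rw [Ey_smul, ih]; ring
      simp only [h2]
      have h3 : ∀ a : State (Lf (h0 + i)), (Ey (h0 + i) fun b =>
          (Real.exp (sa h0 i a) * E ^ 3 ^ i) * Real.exp (sa h0 i b))
          = (E ^ 3 ^ i * E ^ 3 ^ i) * Real.exp (sa h0 i a) := by
        intro a
        rw [Ey_smul, ih]; ring
      simp only [h3]
      rw [Ey_smul, ih, pow_succ 3 i, pow_mul]
      ring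

theorem exp_le {x : ℝ} (h0 : 0 ≤ x) (h1 : x ≤ 1) : Real.exp x ≤ 1 + 2 * x := by
  have h := Real.abs_exp_sub_one_sub_id_le (x := x) (by rw [abs_of_nonneg h0]; exact h1)
  have h2 := (abs_le.1 h).2
  nlinarith

theorem E_le (h0 i : ℕ) (hv : vv h0 ≤ (1 / 9) ^ i) :
    (Ey h0 fun y => Real.exp |nn h0 y|) ≤ 1 + 2 * (1 / 3) ^ i := by
  have h1 : (Ey h0 fun y => Real.exp |nn h0 y|)
      ≤ Ey h0 fun y => (1 + (1 / 3) ^ i) + 3 ^ i * nn h0 y ^ 2 := by
    refine Ey_mono h0 fun y => ?_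
    have h2 := exp_le (abs_nonneg (nn h0 y)) (abs_nn_le h0 y)
    refine h2.trans ?_
    have h3 : (1 / 3 : ℝ) ^ i * 3 ^ i = 1 := by rw [← mul_pow]; norm_num
    have h4 : (0 : ℝ) < 3 ^ i := by positivity
    have h5 : (0 : ℝ) < (1 / 3) ^ i := by positivity
    rw [← sq_abs (nn h0 y)]
    set n := |nn h0 y|
    have h6 : 0 ≤ 3 ^ i * (n - (1 / 3) ^ i) ^ 2 := by positivity
    have h7 : 3 ^ i * (n - (1 / 3) ^ i) ^ 2 = 3 ^ i * n ^ 2 - 2 * n * ((1 / 3) ^ i * 3 ^ i)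
        + (1 / 3) ^ i * ((1 / 3) ^ i * 3 ^ i) := by ring
    rw [h3] at h7
    linarith
  refine h1.trans ?_
  rw [Ey_add h0 (fun _ => 1 + (1 / 3) ^ i), Ey_const, Ey_smul]
  have h8 : (3 : ℝ) ^ i * (Ey h0 fun y => nn h0 y ^ 2) ≤ (1 / 3) ^ i := by
    have h9 := mul_le_mul_of_nonneg_left hv (by positivity : (0 : ℝ) ≤ 3 ^ i)
    refine h9.trans (le_of_eq ?_)
    rw [← mul_pow]; norm_num
  linarith

end Tai

theorem tail (h0 i : ℕ) (hv : vv h0 ≤ (1 / 9) ^ i) (x : ℝ) :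
    Ey (h0 + i) (fun y => if x / 2 ^ i < |nn (h0 + i) y| then 1 else 0) ≤ Real.exp (2 - x) := by
  have h1 : Ey (h0 + i) (fun y => if x / 2 ^ i < |nn (h0 + i) y| then 1 else 0)
      ≤ Ey (h0 + i) fun y => Real.exp (-x) * Real.exp (Tai.sa h0 i y) := by
    refine Ey_mono _ fun y => ?_
    rw [← Real.exp_add]
    split_ifs with h
    · have h2 := Tai.le_sa h0 i y
      rw [div_lt_iff₀ (by positivity)] at h
      exact Real.one_le_exp (by linarith)
    · exact (Real.exp_pos _).le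
  refine h1.trans ?_
  rw [Ey_smul, Tai.Ey_exp, show (2 : ℝ) - x = -x + 2 by ring, Real.exp_add]
  refine mul_le_mul_of_nonneg_left ?_ (Real.exp_pos _).le
  have h3 := Tai.E_le h0 i hv
  have h0' : 0 ≤ Ey h0 fun y => Real.exp |nn h0 y| := by
    have := Ey_mono h0 (F := fun _ => 0) (G := fun y => Real.exp |nn h0 y|)
      fun y => (Real.exp_pos _).le
    rwa [Ey_const] at this
  calc (Ey h0 fun y => Real.exp |nn h0 y|) ^ 3 ^ i ≤ (1 + 2 * (1 / 3) ^ i) ^ 3 ^ i :=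
        pow_le_pow_left₀ h0' h3 _
    _ ≤ (Real.exp (2 * (1 / 3) ^ i)) ^ 3 ^ i := by
        refine pow_le_pow_left₀ (by positivity) ?_ _
        linarith [Real.add_one_le_exp (2 * (1 / 3 : ℝ) ^ i)]
    _ = Real.exp 2 := by
        rw [← Real.exp_nat_mul]
        congr 1
        push_cast
        rw [mul_comm, mul_assoc, ← mul_pow]
        norm_num

end Pool.Agent.MP58T
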