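import Pool.Agent.Lib.MP_58cb87_lc_T.Nn

set_option autoImplicit false

/-!
# Strategies as trees

PROOFS. All by induction on the tree, for all states. `upd s i 1` etc. For `te_neg`, `tc_neg`:
`upd (-s) i (-1) = -(upd s i 1)` as functions `fun j => -..`.
-/

namespace Pool.Agent.MP58T

/-- strategies: stop, or ask a position (`l` is used for the answer `-1`, `r` for `1`) -/
inductive Tr (ι : Type) : Type
  | stop : Tr ι
  | ask (i : ι) (l r : Tr ι) : Tr ι

variable {ι : Type}

/-- expected number of unknown positions asked -/
noncomputable def tc : Tr ι → State ι → ℝ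
  | .stop, _ => 0
  | .ask i l r, s => if s i = 0 then 1 + (tc l (upd s i (-1)) + tc r (upd s i 1)) / 2
      else if s i = 1 then tc r s else tc l s

/-- expectation of a function of the final state -/
noncomputable def te : Tr ι → State ι → (State ι → ℝ) → ℝ
  | .stop, s, F => F s
  | .ask i l r, s, F => if s i = 0 then (te l (upd s i (-1)) F + te r (upd s i 1) F) / 2
      else if s i = 1 then te r s F else te l s F

/-- exchange of the answers -/
def Tr.flip : Tr ι → Tr ι
  | .stop => .stop
  | .ask i l r => .ask i r.flip l.flip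

namespace Tre

theorem sg (a : SignType) : a = 0 ∨ a = 1 ∨ a = -1 := by
  cases a <;> simp

theorem one_ne : (1 : SignType) ≠ 0 := by decide

theorem neg_ne : (-1 : SignType) ≠ 0 := by decide

theorem neg_ne_one : (-1 : SignType) ≠ 1 := by decide

theorem tc0 {i : ι} {l r : Tr ι} {s : State ι} (h : s i = 0) :
    tc (.ask i l r) s = 1 + (tc l (upd s i (-1)) + tc r (upd s i 1)) / 2 := by
  rw [tc, if_pos h]

theorem tc1 {i : ι} {l r : Tr ι} {s : State ι} (h : s i = 1) :
    tc (.ask i l r) s = tc r s := by
  rw [tc, if_neg (by rw [h]; exact one_ne), if_pos h]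

theorem tcm {i : ι} {l r : Tr ι} {s : State ι} (h : s i = -1) :
    tc (.ask i l r) s = tc l s := by
  rw [tc, if_neg (by rw [h]; exact neg_ne), if_neg (by rw [h]; exact neg_ne_one)]

theorem te0 {i : ι} {l r : Tr ι} {s : State ι} {F : State ι → ℝ} (h : s i = 0) :
    te (.ask i l r) s F = (te l (upd s i (-1)) F + te r (upd s i 1) F) / 2 := by
  rw [te, if_pos h]

theorem te1 {i : ι} {l r : Tr ι} {s : State ι} {F : State ι → ℝ} (h : s i = 1) :
    te (.ask i l r) s F = te r s F := by
  rw [te, if_neg (by rw [h]; exact one_ne), if_pos h]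

theorem tem {i : ι} {l r : Tr ι} {s : State ι} {F : State ι → ℝ} (h : s i = -1) :
    te (.ask i l r) s F = te l s F := by
  rw [te, if_neg (by rw [h]; exact neg_ne), if_neg (by rw [h]; exact neg_ne_one)]

theorem upd_neg (s : State ι) (i : ι) (b : SignType) :
    upd (fun j => -s j) i (-b) = fun j => -upd s i b j := by
  funext j
  by_cases h : j = i
  · subst h
    rw [upd_same, upd_same]
  · rw [upd_ne _ _ h, upd_ne _ _ h]

/-- ask all the positions of a list -/
def lst : List ι → Tr ι
  | [] => .stop
  | i :: L => .ask i (lst L) (lst L)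

theorem tc_lst : ∀ (L : List ι) (s : State ι), tc (lst L) s ≤ L.length
  | [], s => by
    rw [lst, tc]
    simp
  | i :: L, s => by
    rw [lst, List.length_cons, Nat.cast_succ]
    rcases sg (s i) with h | h | h
    · rw [tc0 h]
      have h1 := tc_lst L (upd s i (-1))
      have h2 := tc_lst L (upd s i 1)
      linarith
    · rw [tc1 h]
      have h1 := tc_lst L s
      linarith
    · rw [tcm h]
      have h1 := tc_lst L s
      linarith

theorem te_lst {F : State ι → ℝ} (hF : ∀ t, (∀ i, t i ≠ 0) → F t = 0) :
    ∀ (L : List ι) (s : State ι), (∀ i, s i ≠ 0 ∨ i ∈ L) → te (lst L) s F = 0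
  | [], s, hs => by
    rw [lst, te]
    refine hF s fun i => ?_
    rcases hs i with h | h
    · exact h
    · simp at h
  | i :: L, s, hs => by
    rw [lst]
    have key : ∀ b : SignType, b ≠ 0 → te (lst L) (upd s i b) F = 0 := by
      intro b hb
      refine te_lst hF L (upd s i b) fun j => ?_
      by_cases hj : j = i
      · subst hj
        left
        rw [upd_same]
        exact hb
      · rw [upd_ne _ _ hj]
        rcases hs j with h | h
        · exact Or.inl h
        · rcases List.mem_cons.1 h with h | h
          · exact absurd h hj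
          · exact Or.inr h
    have key2 : s i ≠ 0 → te (lst L) s F = 0 := by
      intro h
      have := key (s i) h
      rwa [upd_self] at this
    rcases sg (s i) with h | h | h
    · rw [te0 h, key _ neg_ne, key _ one_ne]
      norm_num
    · rw [te1 h]
      exact key2 (by rw [h]; exact one_ne)
    · rw [tem h]
      exact key2 (by rw [h]; exact neg_ne)

end Tre

open Tre

theorem tc_nonneg : ∀ (T : Tr ι) (s : State ι), 0 ≤ tc T s := by
  intro T
  induction T with
  | stop =>
    intro s
    rw [tc]
  | ask i l r hl hr =>
    intro s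
    rcases sg (s i) with h | h | h
    · rw [tc0 h]
      have h1 := hl (upd s i (-1))
      have h2 := hr (upd s i 1)
      linarith
    · rw [tc1 h]
      exact hr s
    · rw [tcm h]
      exact hl s

theorem te_mono {F G : State ι → ℝ} (h : ∀ s, F s ≤ G s) :
    ∀ (T : Tr ι) (s : State ι), te T s F ≤ te T s G := by
  intro T
  induction T with
  | stop =>
    intro s
    rw [te, te]
    exact h s
  | ask i l r hl hr =>
    intro s
    rcases sg (s i) with h | h | h
    · rw [te0 h, te0 h]
      have h1 := hl (upd s i (-1))
      have h2 := hr (upd s i 1)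
      linarith
    · rw [te1 h, te1 h]
      exact hr s
    · rw [tem h, tem h]
      exact hl s

theorem te_add (F G : State ι → ℝ) : ∀ (T : Tr ι) (s : State ι),
    te T s (fun t => F t + G t) = te T s F + te T s G := by
  intro T
  induction T with
  | stop =>
    intro s
    rw [te, te, te]
  | ask i l r hl hr =>
    intro s
    rcases sg (s i) with h | h | h
    · rw [te0 h, te0 h, te0 h, hl, hr]
      ring
    · rw [te1 h, te1 h, te1 h, hr]
    · rw [tem h, tem h, tem h, hl]

theorem te_smul (a : ℝ) (F : State ι → ℝ) : ∀ (T : Tr ι) (s : State ι),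
    te T s (fun t => a * F t) = a * te T s F := by
  intro T
  induction T with
  | stop =>
    intro s
    rw [te, te]
  | ask i l r hl hr =>
    intro s
    rcases sg (s i) with h | h | h
    · rw [te0 h, te0 h, hl, hr]
      ring
    · rw [te1 h, te1 h, hr]
    · rw [tem h, tem h, hl]

theorem te_const (a : ℝ) : ∀ (T : Tr ι) (s : State ι), te T s (fun _ => a) = a := by
  intro T
  induction T with
  | stop =>
    intro s
    rw [te]
  | ask i l r hl hr =>
    intro s
    rcases sg (s i) with h | h | h
    · rw [te0 h, hl, hr]
      ring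
    · rw [te1 h, hr]
    · rw [tem h, hl]

/-- a function with loss at most `a` per question -/
theorem le_tc_te {F : State ι → ℝ} {a : ℝ}
    (h : ∀ s i, s i = 0 → F s ≤ a + (F (upd s i 1) + F (upd s i (-1))) / 2) :
    ∀ (T : Tr ι) (s : State ι), F s ≤ a * tc T s + te T s F := by
  intro T
  induction T with
  | stop =>
    intro s
    rw [tc, te]
    linarith
  | ask i l r hl hr =>
    intro s
    rcases sg (s i) with h0 | h0 | h0
    · rw [tc0 h0, te0 h0]
      have h1 := hl (upd s i (-1))
      have h2 := hr (upd s i 1)
      have h3 := h s i h0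
      linarith
    · rw [tc1 h0, te1 h0]
      exact hr s
    · rw [tcm h0, tem h0]
      exact hl s

/-- a superharmonic function -/
theorem te_super {F : State ι → ℝ}
    (h : ∀ s i, s i = 0 → (F (upd s i 1) + F (upd s i (-1))) / 2 ≤ F s) :
    ∀ (T : Tr ι) (s : State ι), te T s F ≤ F s := by
  intro T
  induction T with
  | stop =>
    intro s
    rw [te]
  | ask i l r hl hr =>
    intro s
    rcases sg (s i) with h0 | h0 | h0
    · rw [te0 h0]
      have h1 := hl (upd s i (-1))
      have h2 := hr (upd s i 1)
      have h3 := h s i h0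
      linarith
    · rw [te1 h0]
      exact hr s
    · rw [tem h0]
      exact hl s

theorem tc_neg : ∀ (T : Tr ι) (s : State ι), tc T.flip (fun i => -s i) = tc T s := by
  intro T
  induction T with
  | stop =>
    intro s
    rw [Tr.flip, tc, tc]
  | ask i l r hl hr =>
    intro s
    rw [Tr.flip]
    have e1 := upd_neg s i 1
    have e2 := upd_neg s i (-1)
    rw [neg_neg] at e2
    rcases sg (s i) with h0 | h0 | h0
    · have h1 : (fun j => -s j) i = 0 := by
        change -s i = 0
        rw [h0, neg_zero]
      rw [tc0 h0, tc0 (i := i) (s := fun j => -s j) h1, e1, e2, hl, hr]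
      ring
    · have h1 : (fun j => -s j) i = -1 := by
        change -s i = -1
        rw [h0]
      rw [tc1 h0, tcm (i := i) (s := fun j => -s j) h1, hr]
    · have h1 : (fun j => -s j) i = 1 := by
        change -s i = 1
        rw [h0, neg_neg]
      rw [tcm h0, tc1 (i := i) (s := fun j => -s j) h1, hl]

theorem te_neg (F : State ι → ℝ) : ∀ (T : Tr ι) (s : State ι),
    te T.flip (fun i => -s i) F = te T s fun t => F fun i => -t i := by
  intro T
  induction T with
  | stop =>
    intro s
    rw [Tr.flip, te, te]
  | ask i l r hl hr =>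
    intro s
    rw [Tr.flip]
    have e1 := upd_neg s i 1
    have e2 := upd_neg s i (-1)
    rw [neg_neg] at e2
    rcases sg (s i) with h0 | h0 | h0
    · have h1 : (fun j => -s j) i = 0 := by
        change -s i = 0
        rw [h0, neg_zero]
      rw [te0 h0, te0 (i := i) (s := fun j => -s j) h1, e1, e2, hl, hr]
      ring
    · have h1 : (fun j => -s j) i = -1 := by
        change -s i = -1
        rw [h0]
      rw [te1 h0, tem (i := i) (s := fun j => -s j) h1, hr]
    · have h1 : (fun j => -s j) i = 1 := by
        change -s i = 1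
        rw [h0, neg_neg]
      rw [tem h0, te1 (i := i) (s := fun j => -s j) h1, hl]

/-- after an extra free answer the strategy costs less and knows more -/
theorem tc_te_super {F : State ι → ℝ}
    (h : ∀ s i, s i = 0 → (F (upd s i 1) + F (upd s i (-1))) / 2 ≤ F s) {a : ℝ} (ha : 0 ≤ a) :
    ∀ (T : Tr ι) (s : State ι) (i : ι), s i = 0 →
      ((a * tc T (upd s i 1) + te T (upd s i 1) F)
        + (a * tc T (upd s i (-1)) + te T (upd s i (-1)) F)) / 2 ≤ a * tc T s + te T s F := by
  intro T
  induction T with
  | stop =>
    intro s i hi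
    rw [tc, tc, tc, te, te, te]
    have := h s i hi
    linarith
  | ask j l r hl hr =>
    intro s i hi
    by_cases hj : j = i
    · subst hj
      have h1 : upd s j 1 j = 1 := upd_same _ _ _
      have h2 : upd s j (-1) j = -1 := upd_same _ _ _
      rw [tc0 hi, te0 hi, tc1 h1, te1 h1, tcm h2, tem h2]
      linarith
    · have e1 : upd s i 1 j = s j := upd_ne _ _ hj
      have e2 : upd s i (-1) j = s j := upd_ne _ _ hj
      rcases sg (s j) with h0 | h0 | h0
      · rw [tc0 h0, te0 h0, tc0 (e1.trans h0), te0 (e1.trans h0), tc0 (e2.trans h0),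
          te0 (e2.trans h0), upd_comm s (Ne.symm hj) 1 (-1), upd_comm s (Ne.symm hj) 1 1,
          upd_comm s (Ne.symm hj) (-1) (-1), upd_comm s (Ne.symm hj) (-1) 1]
        have h3 : upd s j 1 i = 0 := (upd_ne _ _ (Ne.symm hj)).trans hi
        have h4 : upd s j (-1) i = 0 := (upd_ne _ _ (Ne.symm hj)).trans hi
        have h5 := hl (upd s j (-1)) i h4
        have h6 := hr (upd s j 1) i h3
        linarith
      · rw [tc1 h0, te1 h0, tc1 (e1.trans h0), te1 (e1.trans h0), tc1 (e2.trans h0),
          te1 (e2.trans h0)]
        exact hr s i hi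
      · rw [tcm h0, tem h0, tcm (e1.trans h0), tem (e1.trans h0), tcm (e2.trans h0),
          tem (e2.trans h0)]
        exact hl s i hi

/-- a strategy that asks everything -/
theorem exists_all [Fintype ι] : ∃ T : Tr ι, ∀ s : State ι, tc T s ≤ Fintype.card ι ∧
    ∀ F : State ι → ℝ, (∀ t, (∀ i, t i ≠ 0) → F t = 0) → te T s F = 0 := by
  refine ⟨lst (Finset.univ : Finset ι).toList, fun s => ⟨?_, fun F hF => ?_⟩⟩
  · have := tc_lst (Finset.univ : Finset ι).toList s
    rwa [Finset.length_toList, Finset.card_univ] at this
  · exact te_lst hF _ s fun i => Or.inr (by simp)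

end Pool.Agent.MP58T
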