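import Pool.Agent.Lib.MP_58cb87_lc_T.Rt
import Pool.Agent.Lib.MP_58cb87_lc_T.Gd
import Pool.Agent.Lib.MP_58cb87_lc_T.Mom

set_option autoImplicit false

/-!
# The numerical parameters

PROOFS. `par_v`: `vv_geo`, `880 (61/80)^26 ≤ 1` and `(61/80)^9 ≤ 1/9`.
`par_eta`: for `j ≥ 1`, `2^i ≥ 2^17 j²`, `δ = 3 j / 2^i`: `τ = 3 j δ = 9 j² / 2^i ≤ 9 / 2^17`.
`th_le`, `eta` is monotone in its
first argument: `eta (th j δ l) l ≤ 520 τ (22/23)^l + 26 τ² (121/125)^l` (`22/25 * 25/23 = 22/23`,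
`(22/25)² * 5/4 = 121/125`), geometric sums: `∑ ≤ 520 * 23 * τ + 26 * (125/4) * τ² ≤ 1`. Then
`1 + x ≤ exp x` and `∏ ≤ exp (∑) ≤ exp 1 ≤ 3`.
`par_pow`: `h = 196 + 20 * Nat.clog 2 j`: `3^h = 3^196 (3^20)^(clog) ≤ 3^196 (2^32)^(clog) = 3^196
(2^clog)^32` and
`2^(Nat.clog 2 j) ≤ 2 j` for `j ≥ 1` (`Nat.pow_pred_clog_lt_self` for `j ≥ 2`).
-/

namespace Pool.Agent.MP58T

open Finset

theorem par_v (i : ℕ) : vv (26 + 9 * i) ≤ (1 / 9) ^ i := by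
  have h := vv_geo (26 + 9 * i)
  have h1 : (61 / 80 : ℝ) ^ (26 + 9 * i) = (61 / 80) ^ 26 * ((61 / 80) ^ 9) ^ i := by
    rw [pow_add, pow_mul]
  have h2 : ((61 / 80 : ℝ) ^ 9) ^ i ≤ (1 / 9) ^ i :=
    pow_le_pow_left₀ (by positivity) (by norm_num) i
  have h3 : (880 : ℝ) * (61 / 80) ^ 26 ≤ 1 := by norm_num
  have h4 : (0 : ℝ) ≤ ((61 / 80 : ℝ) ^ 9) ^ i := by positivity
  rw [h1] at h
  calc vv (26 + 9 * i) ≤ 880 * ((61 / 80) ^ 26 * ((61 / 80) ^ 9) ^ i) := h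
    _ = (880 * (61 / 80) ^ 26) * ((61 / 80) ^ 9) ^ i := by ring
    _ ≤ 1 * ((61 / 80) ^ 9) ^ i := mul_le_mul_of_nonneg_right h3 h4
    _ = ((61 / 80) ^ 9) ^ i := one_mul _
    _ ≤ (1 / 9) ^ i := h2

theorem par_eta {j : ℝ} (hj : 1 ≤ j) {i : ℕ} (hi : 2 ^ 17 * j ^ 2 ≤ 2 ^ i) (N : ℕ) :
    ∏ l ∈ range N, (1 + eta (th j (3 * j / 2 ^ i) l) l) ≤ 3 := by
  have hj0 : 0 < j := by linarith
  have h2i : (0 : ℝ) < 2 ^ i := by positivity
  set δ : ℝ := 3 * j / 2 ^ i with hδ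
  have hδ0 : 0 < δ := by positivity
  set τ : ℝ := 3 * j * δ with hτ
  have hτ0 : 0 ≤ τ := by positivity
  have hτ1 : τ ≤ 9 / 2 ^ 17 := by
    have h1 : τ = 9 * j ^ 2 / 2 ^ i := by
      rw [hτ, hδ]
      ring
    rw [h1, div_le_div_iff₀ h2i (by positivity)]
    linarith
  have hlt : ∀ l, eta (th j δ l) l ≤ 520 * τ * (22 / 23) ^ l + 26 * τ ^ 2 * (121 / 125) ^ l := by
    intro l
    have h1 := th_le hj hδ0 l
    have h2 := th_nonneg hj hδ0 l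
    have h3 : th j δ l ≤ τ * (22 / 25) ^ l := h1
    have h4 : th j δ l ^ 2 ≤ (τ * (22 / 25) ^ l) ^ 2 := pow_le_pow_left₀ h2 h3 2
    have h5 : (0 : ℝ) ≤ (25 / 23) ^ l := by positivity
    have h6 : (0 : ℝ) ≤ (5 / 4) ^ l := by positivity
    have h7 : (22 / 25 : ℝ) ^ l * (25 / 23) ^ l = (22 / 23) ^ l := by
      rw [← mul_pow]
      norm_num
    have h8 : ((22 / 25 : ℝ) ^ l) ^ 2 * (5 / 4) ^ l = (121 / 125) ^ l := by
      rw [← pow_mul, mul_comm l 2, pow_mul, ← mul_pow]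
      norm_num
    have h9 : th j δ l * (25 / 23) ^ l ≤ τ * (22 / 25) ^ l * (25 / 23) ^ l :=
      mul_le_mul_of_nonneg_right h3 h5
    have h10 : th j δ l ^ 2 * (5 / 4) ^ l ≤ (τ * (22 / 25) ^ l) ^ 2 * (5 / 4) ^ l :=
      mul_le_mul_of_nonneg_right h4 h6
    have h11 : τ * (22 / 25) ^ l * (25 / 23) ^ l = τ * (22 / 23) ^ l := by
      rw [mul_assoc, h7]
    have h12 : (τ * (22 / 25) ^ l) ^ 2 * (5 / 4) ^ l = τ ^ 2 * (121 / 125) ^ l := by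
      rw [mul_pow, mul_assoc, h8]
    rw [h11] at h9
    rw [h12] at h10
    unfold eta
    linarith
  have hpos : ∀ l, 0 ≤ eta (th j δ l) l := by
    intro l
    have h2 := th_nonneg hj hδ0 l
    unfold eta
    positivity
  have hgeo : ∀ r : ℝ, 0 ≤ r → r < 1 → ∑ l ∈ range N, r ^ l ≤ (1 - r)⁻¹ := by
    intro r h0 h1
    have h2 := geom_sum_mul_neg r N
    have h3 : 0 ≤ r ^ N := by positivity
    rw [← one_div, le_div_iff₀ (by linarith)]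
    linarith
  have hsum : ∑ l ∈ range N, eta (th j δ l) l ≤ 1 := by
    have h1 : ∑ l ∈ range N, eta (th j δ l) l
        ≤ ∑ l ∈ range N, (520 * τ * (22 / 23) ^ l + 26 * τ ^ 2 * (121 / 125) ^ l) :=
      sum_le_sum fun l _ => hlt l
    rw [sum_add_distrib, ← mul_sum, ← mul_sum] at h1
    have h2 := hgeo (22 / 23) (by norm_num) (by norm_num)
    have h3 := hgeo (121 / 125) (by norm_num) (by norm_num)
    have h4 : (520 * τ) * ∑ l ∈ range N, (22 / 23 : ℝ) ^ l ≤ (520 * τ) * (1 - 22 / 23)⁻¹ :=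
      mul_le_mul_of_nonneg_left h2 (by positivity)
    have h5 : (26 * τ ^ 2) * ∑ l ∈ range N, (121 / 125 : ℝ) ^ l
        ≤ (26 * τ ^ 2) * (1 - 121 / 125)⁻¹ :=
      mul_le_mul_of_nonneg_left h3 (by positivity)
    have h6 : (520 * τ) * (1 - 22 / 23)⁻¹ = 11960 * τ := by norm_num; ring
    have h7 : (26 * τ ^ 2) * (1 - 121 / 125)⁻¹ = 1625 / 2 * τ ^ 2 := by norm_num; ring
    have h8 : τ ^ 2 ≤ (9 / 2 ^ 17) ^ 2 := pow_le_pow_left₀ hτ0 hτ1 2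
    have h9 : (11960 : ℝ) * (9 / 2 ^ 17) + 1625 / 2 * (9 / 2 ^ 17) ^ 2 ≤ 1 := by norm_num
    linarith
  calc ∏ l ∈ range N, (1 + eta (th j δ l) l)
      ≤ ∏ l ∈ range N, Real.exp (eta (th j δ l) l) := by
        apply prod_le_prod
        · intro l _
          linarith [hpos l]
        · intro l _
          linarith [Real.add_one_le_exp (eta (th j δ l) l)]
    _ = Real.exp (∑ l ∈ range N, eta (th j δ l) l) := (Real.exp_sum _ _).symm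
    _ ≤ Real.exp 1 := Real.exp_le_exp.2 hsum
    _ ≤ 3 := by linarith [Real.exp_one_lt_d9]

theorem par_pow {j : ℕ} (hj : 1 ≤ j) :
    (3 : ℝ) ^ (196 + 20 * Nat.clog 2 j) ≤ 3 ^ 196 * (2 * (j : ℝ)) ^ 32 := by
  have h1 : 2 ^ Nat.clog 2 j ≤ 2 * j := by
    rcases Nat.eq_or_lt_of_le hj with h | h
    · subst h
      simp
    · have h2 := Nat.pow_pred_clog_lt_self (b := 2) (by norm_num) h
      have h3 : 0 < Nat.clog 2 j := Nat.clog_pos (by norm_num) h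
      obtain ⟨c, hc⟩ : ∃ c, Nat.clog 2 j = c + 1 := ⟨Nat.clog 2 j - 1, by omega⟩
      rw [hc] at h2 ⊢
      simp only [Nat.pred_succ] at h2
      rw [pow_succ]
      omega
  have h2 : (2 : ℝ) ^ Nat.clog 2 j ≤ 2 * (j : ℝ) := by exact_mod_cast h1
  have h3 : (3 : ℝ) ^ (196 + 20 * Nat.clog 2 j) = 3 ^ 196 * (3 ^ 20) ^ Nat.clog 2 j := by
    rw [pow_add, pow_mul]
  rw [h3]
  refine mul_le_mul_of_nonneg_left ?_ (by positivity)
  calc ((3 : ℝ) ^ 20) ^ Nat.clog 2 j ≤ (2 ^ 32) ^ Nat.clog 2 j :=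
        pow_le_pow_left₀ (by positivity) (by norm_num) _
    _ = (2 ^ Nat.clog 2 j) ^ 32 := by rw [← pow_mul, ← pow_mul, mul_comm]
    _ ≤ (2 * (j : ℝ)) ^ 32 := pow_le_pow_left₀ (by positivity) h2 32

end Pool.Agent.MP58T
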