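import Pool.Agent.Lib.MP_58cb87_lc_T.VjA
import Pool.Agent.Lib.MP_58cb87_lc_T.Rem
import Pool.Agent.Lib.MP_58cb87_lc_T.Tai
import Pool.Agent.Lib.MP_58cb87_lc_T.Gpr

set_option autoImplicit false

/-!
# The mean cost after random erasures

PROOFS. `V_ge_sq`: `Φ s = 1 - nn k s ^ 2` is a potential of `gm k` (`Φ ≤ 1`, `Φ ≥ 0`, `Φ = 0` if
`|nn| = 1`). So
`VV j ≥ 1 - vv j ≥ 1/8` (`VV_ge_const`).

`VV_ge_tree`: `j = h + N` with `h = 196 + 20 * Nat.clog 2 j`. Let `i = 17 + 2 * Nat.clog 2 j`, so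
`h = (26 + 9 i) + i` (`Nat` arithmetic; transport along this equality: state the lemma for `h0 =
26 + 9 * i`,
`h1 = h0 + i`, `j = h1 + N` and variables, then specialise). `2^i = 2^17 (2^clog)^2 ≥ 2^17 j²`
(`Nat.le_pow_clog`).
`δ = 3 j / 2^i`, `3 j δ ≤ 9/2^17 ≤ 1/200`. `tail` with `x = 3 j` (`par_v`) gives the hypothesis
`h0` of `gd_prob`
(`j ≥ 196 ≥ 2`). For good `y`: `rem_final` with `θ = th j δ` (`th_nonneg`, `th_le` for `≤ 1/200`)
and `par_eta`: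
`(1 - 1/200) C N ≤ 3 (gm j).V y`. So `VV j ≥ Ey (indicator) * (199/600) C N ≥ (199/1200) C N ≥
(1/8) C N`
(`V ≥ 0` for the other `y`; `C N ≥ 0`).
-/

namespace Pool.Agent.MP58T

open Finset

theorem V_ge_sq (k : ℕ) (y : State (Lf k)) : 1 - nn k y ^ 2 ≤ (gm k).V y := by
  have hsq : ∀ s : State (Lf k), nn k s ^ 2 ≤ 1 := fun s => by
    have := abs_nn_le k s
    rw [← sq_abs]
    nlinarith [abs_nonneg (nn k s)]
  have hpot : (gm k).Pot (fun s => 1 - nn k s ^ 2) := by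
    refine ⟨?_, ?_⟩
    · intro s hs
      have h1 : |nn k s| = 1 := hs
      have h2 : nn k s ^ 2 = 1 := by rw [← sq_abs, h1]; norm_num
      linarith
    · intro s _ i _
      change 1 - nn k s ^ 2 ≤ 1 * 1 + (1 - nn k (upd s i 1) ^ 2 +
        (1 - nn k (upd s i (-1)) ^ 2)) / 2
      have h1 := hsq (upd s i 1)
      have h2 := hsq (upd s i (-1))
      nlinarith [sq_nonneg (nn k s)]
  exact (gm k).le_V hpot y

theorem VV_ge_const (j : ℕ) : 1 / 8 ≤ VV j := by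
  have h1 := Ey_mono j (V_ge_sq j)
  have h2 : Ey j (fun y => 1 - nn j y ^ 2) = 1 - vv j := by
    have h3 := Ey_add j (fun _ => (1 : ℝ)) (fun y => (-1) * nn j y ^ 2)
    rw [Ey_const, Ey_smul j (-1) (fun y => nn j y ^ 2)] at h3
    have h4 : (fun y : State (Lf j) => 1 - nn j y ^ 2) = fun y => 1 + (-1) * nn j y ^ 2 := by
      funext y
      ring
    rw [h4, h3, vv]
    ring
  have h5 := vv_le j
  rw [h2] at h1
  rw [VV]
  linarith

namespace VjB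

open Classical in
theorem tree_aux (i N j : ℕ) (hj : j = 26 + 9 * i + i + N) (hj2 : 2 ≤ j)
    (hi : 2 ^ 17 * (j : ℝ) ^ 2 ≤ 2 ^ i) : 1 / 8 * C N ≤ VV (26 + 9 * i + i + N) := by
  have hj1 : (1 : ℝ) ≤ (j : ℝ) := by
    have : (2 : ℝ) ≤ (j : ℝ) := by exact_mod_cast hj2
    linarith
  have h2i : (0 : ℝ) < 2 ^ i := by positivity
  have hδ0 : (0 : ℝ) < 3 * (j : ℝ) / 2 ^ i := by positivity
  have hδ : 3 * (j : ℝ) * (3 * (j : ℝ) / 2 ^ i) ≤ 1 / 200 := by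
    rw [mul_div_assoc', div_le_iff₀ h2i]
    nlinarith [sq_nonneg (j : ℝ)]
  have hCN : 0 ≤ C N := (gm N).V_nonneg _
  have hth0 := th_nonneg hj1 hδ0
  have hth1 : ∀ l, th j (3 * (j : ℝ) / 2 ^ i) l ≤ 1 / 200 := fun l => by
    refine (th_le hj1 hδ0 l).trans ?_
    have h1 : ((22 : ℝ) / 25) ^ l ≤ 1 := pow_le_one₀ (by norm_num) (by norm_num)
    have h2 : (0 : ℝ) ≤ (22 / 25) ^ l := by positivity
    nlinarith
  have htail := tail (26 + 9 * i) i (par_v i) (3 * j)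
  have hprob := gd_prob (26 + 9 * i + i) N j hj2 (by omega) hδ0 hδ htail
  have hgood : ∀ y : State (Lf (26 + 9 * i + i + N)),
      (199 / 600 * C N) * (if gd (26 + 9 * i + i) (th j (3 * (j : ℝ) / 2 ^ i)) N y
        then 1 else 0) ≤ (gm (26 + 9 * i + i + N)).V y := by
    intro y
    have hV := (gm (26 + 9 * i + i + N)).V_nonneg y
    split_ifs with hy
    · have h1 := rem_final (26 + 9 * i + i) (th j (3 * (j : ℝ) / 2 ^ i)) hth0 hth1 N y hy
      have h2 := par_eta hj1 hi N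
      have h3 := hth1 N
      have h4 := mul_le_mul_of_nonneg_right h2 hV
      nlinarith
    · rw [mul_zero]
      exact hV
  have h5 := Ey_mono _ hgood
  rw [Ey_smul] at h5
  rw [VV]
  refine le_trans ?_ h5
  nlinarith

end VjB

theorem VV_ge_tree (N j : ℕ) (hj : j = 196 + 20 * Nat.clog 2 j + N) : 1 / 8 * C N ≤ VV j := by
  obtain ⟨c, hc⟩ : ∃ c, c = Nat.clog 2 j := ⟨_, rfl⟩
  have h1 : j ≤ 2 ^ c := by
    rw [hc]
    exact Nat.le_pow_clog (by norm_num) j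
  rw [← hc] at hj
  have h2 : j = 26 + 9 * (17 + 2 * c) + (17 + 2 * c) + N := by omega
  have h3 : 2 ^ 17 * (j : ℝ) ^ 2 ≤ 2 ^ (17 + 2 * c) := by
    have h4 : (j : ℝ) ≤ 2 ^ c := by exact_mod_cast h1
    have h5 : (0 : ℝ) ≤ (j : ℝ) := Nat.cast_nonneg j
    rw [pow_add, mul_comm 2 c, pow_mul]
    gcongr
  have h6 := VjB.tree_aux (17 + 2 * c) N j h2 (by omega) h3
  rw [← h2] at h6
  exact h6

end Pool.Agent.MP58T
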